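import Pool.Agent.Lib.MP_830c64_nt.CL.UCls

/-! Multiplying by squares of small primes. -/

namespace Pool.Agent.Lib.MP_830c64_nt.CL

open NumberField Module
open scoped nonZeroDivisors Classical

variable {K : Type} [Field K] [NumberField K]

theorem cntG_mono (G : Subgroup (ClassGroup (𝓞 K))) {x y : ℝ} (h : x ≤ y) :
    cntG G x ≤ cntG G y := by
  refine Finset.card_le_card fun a ha => ?_
  rw [Finset.mem_filter, mem_idl'] at ha ⊢
  exact ⟨⟨ha.1.1, ha.1.2.trans h⟩, ha.2⟩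

theorem acnt_ne {p : ℕ} (hp : p.Prime) {J : Ideal (𝓞 K)} (h : Ideal.absNorm J = p) : J ≠ ⊥ :=
  fun e => hp.ne_zero (h ▸ Ideal.absNorm_eq_zero_iff.2 e)

theorem acnt_mem (G : Subgroup (ClassGroup (𝓞 K))) (hG : ∀ c, c ^ 2 ∈ G) {c J : Ideal (𝓞 K)}
    (hc : c ≠ ⊥) (hJ : J ≠ ⊥) (h : cls c ∈ G) : c * J ^ 2 ≠ ⊥ ∧ cls (c * J ^ 2) ∈ G := by
  have h2 : J ^ 2 ≠ ⊥ := pow_ne_zero 2 hJ
  refine ⟨mul_ne_zero hc h2, ?_⟩
  rw [cls_mul hc h2, sq, cls_mul hJ hJ, ← sq]
  exact mul_mem h (hG _)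

theorem acnt_log {n : ℕ} (hn : n ≠ 0) : (n.primeFactors.card : ℝ) ≤ 2 * Real.log n := by
  have h1 : 2 ^ n.primeFactors.card ≤ n :=
    (Finset.pow_card_le_prod _ (fun p => p) 2
      fun p hp => (Nat.prime_of_mem_primeFactors hp).two_le).trans
      (Nat.le_of_dvd (Nat.pos_of_ne_zero hn) (Nat.prod_primeFactors_dvd n))
  have h2 : (2 : ℝ) ^ n.primeFactors.card ≤ n := by exact_mod_cast h1
  have h3 := Real.log_le_log (by positivity) h2
  rw [Real.log_pow] at h3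
  nlinarith [Real.log_two_gt_d9, Nat.cast_nonneg (α := ℝ) n.primeFactors.card]

/-- The map `(p, c) ↦ c * J p ^ 2`; in a fibre over `a` the prime `p` divides `absNorm a` and
determines `c`, so the fibre has at most `(absNorm a).primeFactors.card` elements, and
`2 ^ card ≤ absNorm a` (`Nat.prod_primeFactors_dvd`, `Finset.pow_card_le_prod`),
`1 / 2 ≤ log 2`. `Finset.card_le_mul_card_image_of_maps_to`. -/
theorem cnt_mul (G : Subgroup (ClassGroup (𝓞 K))) (hG : ∀ c, c ^ 2 ∈ G) (P : Finset ℕ)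
    (J : ℕ → Ideal (𝓞 K)) {y : ℝ} (hP : ∀ p ∈ P, p.Prime ∧ (p : ℝ) ≤ y ∧ Ideal.absNorm (J p) = p)
    {x : ℝ} (hx : 1 ≤ x * y ^ 2) :
    (P.card : ℝ) * cntG G x ≤ 2 * Real.log (x * y ^ 2) * cntG G (x * y ^ 2) := by
  have h0 : 0 ≤ 2 * Real.log (x * y ^ 2) := mul_nonneg zero_le_two (Real.log_nonneg hx)
  have key := Finset.card_le_mul_card_image_of_maps_to
    (s := P ×ˢ (idl K x).filter fun a => cls a ∈ G)
    (t := (idl K (x * y ^ 2)).filter fun a => cls a ∈ G) (f := fun z => z.2 * J z.1 ^ 2)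
    (fun z hz => by
      rw [Finset.mem_product, Finset.mem_filter, mem_idl'] at hz
      obtain ⟨h1, h2, h3⟩ := hP _ hz.1
      have e := acnt_mem G hG hz.2.1.1 (acnt_ne h1 h3) hz.2.2
      rw [Finset.mem_filter, mem_idl', map_mul, map_pow, h3]
      refine ⟨⟨e.1, ?_⟩, e.2⟩
      push_cast
      exact mul_le_mul hz.2.1.2 (pow_le_pow_left₀ (Nat.cast_nonneg _) h2 2) (by positivity)
        ((Nat.cast_nonneg _).trans hz.2.1.2))
    ⌊2 * Real.log (x * y ^ 2)⌋₊ (fun a ha => by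
      rw [Finset.mem_filter, mem_idl'] at ha
      have hn : Ideal.absNorm a ≠ 0 := mt Ideal.absNorm_eq_zero_iff.1 ha.1.1
      refine Nat.le_floor (le_trans (Nat.cast_le.2 ?_) ((acnt_log hn).trans
        (mul_le_mul_of_nonneg_left (Real.log_le_log (Nat.cast_pos.2 (Nat.pos_of_ne_zero hn))
          ha.1.2) zero_le_two)))
      refine Finset.card_le_card_of_injOn Prod.fst (fun z hz => ?_) (fun z hz w hw e => ?_)
      · rw [Finset.mem_coe, Finset.mem_filter, Finset.mem_product] at hz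
        obtain ⟨h1, -, h3⟩ := hP _ hz.1.1
        refine Finset.mem_coe.2 (Nat.mem_primeFactors.2 ⟨h1, ?_, hn⟩)
        rw [← hz.2, map_mul, map_pow, h3]
        exact Dvd.dvd.mul_left (dvd_pow_self _ two_ne_zero) _
      · rw [Finset.mem_coe, Finset.mem_filter, Finset.mem_product] at hz hw
        obtain ⟨h1, -, h3⟩ := hP _ hw.1.1
        have e2 := hz.2.trans hw.2.symm
        rw [e] at e2
        exact Prod.ext e (mul_right_cancel₀ (pow_ne_zero 2 (acnt_ne h1 h3)) e2))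
  rw [Finset.card_product] at key
  have k2 : (P.card : ℝ) * cntG G x ≤ (⌊2 * Real.log (x * y ^ 2)⌋₊ : ℝ) * cntG G (x * y ^ 2) := by
    exact_mod_cast key
  exact k2.trans (mul_le_mul_of_nonneg_right (Nat.floor_le h0) (Nat.cast_nonneg _))

/-- `T ↦ ∏ p ∈ T, J p ^ 2` is injective on `P.powersetCard k`, since the norm `(∏ p ∈ T, p) ^ 2`
determines `T` (`Nat.primeFactors_prod`). -/
theorem cnt_sq (G : Subgroup (ClassGroup (𝓞 K))) (hG : ∀ c, c ^ 2 ∈ G) (P : Finset ℕ)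
    (J : ℕ → Ideal (𝓞 K)) {y : ℝ} (hP : ∀ p ∈ P, p.Prime ∧ (p : ℝ) ≤ y ∧ Ideal.absNorm (J p) = p)
    (k : ℕ) : P.card.choose k ≤ cntG G (y ^ (2 * k)) := by
  have hN : ∀ T ⊆ P, Ideal.absNorm (∏ p ∈ T, J p ^ 2) = (∏ p ∈ T, p) ^ 2 := fun T hT => by
    rw [map_prod, ← Finset.prod_pow]
    exact Finset.prod_congr rfl fun p hp => by rw [map_pow, (hP p (hT hp)).2.2]
  have hm : ∀ T ⊆ P, ∏ p ∈ T, J p ^ 2 ≠ ⊥ ∧ cls (∏ p ∈ T, J p ^ 2) ∈ G := fun T hT => by
    induction T using Finset.induction_on with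
    | empty =>
      rw [Finset.prod_empty, Ideal.one_eq_top, cls_top]
      exact ⟨top_ne_bot, one_mem _⟩
    | insert p T hp ih =>
      obtain ⟨h1, -, h3⟩ := hP p (hT (Finset.mem_insert_self _ _))
      obtain ⟨h4, h5⟩ := ih ((Finset.subset_insert _ _).trans hT)
      rw [Finset.prod_insert hp, mul_comm]
      exact acnt_mem G hG h4 (acnt_ne h1 h3) h5
  rw [← Finset.card_powersetCard]
  refine Finset.card_le_card_of_injOn (fun T => ∏ p ∈ T, J p ^ 2) (fun T hT => ?_)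
    (fun T hT U hU e => ?_)
  · obtain ⟨h1, h2⟩ := Finset.mem_powersetCard.1 (Finset.mem_coe.1 hT)
    rw [Finset.mem_coe, Finset.mem_filter, mem_idl', hN T h1]
    refine ⟨⟨(hm T h1).1, ?_⟩, (hm T h1).2⟩
    rw [mul_comm, pow_mul, ← h2, ← Finset.prod_const]
    push_cast
    exact pow_le_pow_left₀ (Finset.prod_nonneg fun p _ => Nat.cast_nonneg _)
      (Finset.prod_le_prod (fun p _ => Nat.cast_nonneg _) fun p hp => (hP p (h1 hp)).2.1) 2
  · have h1 := (Finset.mem_powersetCard.1 (Finset.mem_coe.1 hT)).1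
    have h2 := (Finset.mem_powersetCard.1 (Finset.mem_coe.1 hU)).1
    have e2 := congrArg Ideal.absNorm e
    rw [hN T h1, hN U h2] at e2
    rw [← Nat.primeFactors_prod fun p hp => (hP p (h1 hp)).1,
      ← Nat.primeFactors_prod fun p hp => (hP p (h2 hp)).1,
      Nat.pow_left_injective two_ne_zero e2]

end Pool.Agent.Lib.MP_830c64_nt.CL
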