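import Pool.Agent.Lib.MP_830c64_nt.CL.UDefs

/-! Packing and covering. -/

namespace Pool.Agent.Lib.MP_830c64_nt.CL

open NumberField Module
open scoped nonZeroDivisors Classical

open MeasureTheory Metric in
theorem upack_sep {E : Type} [NormedAddCommGroup E] [NormedSpace ℝ E] [FiniteDimensional ℝ E]
    (s : Finset E) {R : ℝ} (hR : 0 ≤ R) (hs : ∀ c ∈ s, ‖c‖ ≤ R)
    (h : ∀ c ∈ s, ∀ d ∈ s, c ≠ d → 1 ≤ ‖c - d‖) : (s.card : ℝ) ≤ (2 * R + 1) ^ finrank ℝ E := by
  borelize E
  let μ : Measure E := Measure.addHaar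
  have hρ : 0 < R + 1 / 2 := by linarith
  have hδ : (0 : ℝ) < 1 / 2 := by norm_num
  have D : Set.Pairwise (s : Set E) (Function.onFun Disjoint fun c => ball (c : E) (1 / 2)) := by
    rintro c hc d hd hcd
    apply ball_disjoint_ball
    rw [dist_eq_norm, add_halves]
    exact h c hc d hd hcd
  have hA : (⋃ c ∈ s, ball (c : E) (1 / 2)) ⊆ ball (0 : E) (R + 1 / 2) := by
    refine Set.iUnion₂_subset fun x hx => ball_subset_ball' ?_
    rw [dist_zero_right]
    linarith [hs x hx]
  have I := measure_mono (μ := μ) hA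
  rw [measure_biUnion_finset D fun c _ => measurableSet_ball] at I
  simp only [μ.addHaar_ball_of_pos _ hδ, μ.addHaar_ball_of_pos _ hρ, Finset.sum_const,
    nsmul_eq_mul, ← mul_assoc] at I
  have J := (ENNReal.mul_le_mul_iff_left (measure_ball_pos μ (0 : E) zero_lt_one).ne'
    measure_ball_lt_top.ne).1 I
  have K := ENNReal.toReal_le_of_le_ofReal (pow_nonneg hρ.le _) J
  rw [ENNReal.toReal_mul, ENNReal.toReal_natCast, ENNReal.toReal_ofReal (by positivity),
    show R + 1 / 2 = (2 * R + 1) * (1 / 2) by ring, mul_pow] at K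
  exact le_of_mul_le_mul_right K (by positivity)

/-- Take `T ⊆ s` of maximal cardinality among the subsets with pairwise distances `≥ 1`
(`Finset.exists_max_image` on a filter of `s.powerset`); maximality gives the covering. For the
cardinality copy the proof of `Besicovitch.card_le_of_separated` in the finite dimensional space
`W = span ℝ s` (Borel structure, `Measure.addHaar`): the balls of radius `1 / 2` are disjoint and
lie in the ball of radius `R + 1 / 2`, `Measure.addHaar_ball_of_pos`; `1 ≤ 2 * R + 1`. -/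
theorem pack {E : Type} [NormedAddCommGroup E] [NormedSpace ℝ E] (s : Finset E) {R : ℝ}
    (hR : 0 ≤ R) (j : ℕ) (hs : ∀ x ∈ s, ‖x‖ ≤ R)
    (hj : finrank ℝ (Submodule.span ℝ (s : Set E)) ≤ j) :
    ∃ T ⊆ s, (T.card : ℝ) ≤ (2 * R + 1) ^ j ∧ ∀ x ∈ s, ∃ t ∈ T, ‖x - t‖ < 1 := by
  obtain ⟨T, hT, hmax⟩ := Finset.exists_max_image
    (s.powerset.filter fun T => ∀ c ∈ T, ∀ d ∈ T, c ≠ d → 1 ≤ ‖c - d‖) Finset.card
    ⟨∅, by simp⟩
  rw [Finset.mem_filter, Finset.mem_powerset] at hT
  refine ⟨T, hT.1, ?_, fun x hx => ?_⟩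
  · set W := Submodule.span ℝ (s : Set E) with hW
    have : FiniteDimensional ℝ W := FiniteDimensional.span_finset ℝ s
    have e := upack_sep (T.subtype (· ∈ W)) hR
      (fun c hc => hs c (hT.1 (Finset.mem_subtype.1 hc)))
      (fun c hc d hd hcd => hT.2 c (Finset.mem_subtype.1 hc) d (Finset.mem_subtype.1 hd)
        (fun e => hcd (Subtype.ext e)))
    rw [Finset.card_subtype, Finset.filter_true_of_mem (p := (· ∈ W))
      (fun x hx => Submodule.subset_span (Finset.mem_coe.2 (hT.1 hx)))] at e
    exact e.trans (pow_le_pow_right₀ (by linarith) hj)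
  · by_contra hc
    simp only [not_exists, not_and, not_lt] at hc
    have hxT : x ∉ T := fun hxT => by
      have := hc x hxT
      rw [sub_self, norm_zero] at this
      linarith
    have e := hmax (insert x T) (by
      rw [Finset.mem_filter, Finset.mem_powerset]
      refine ⟨Finset.insert_subset hx hT.1, fun c hc' d hd hcd => ?_⟩
      rcases Finset.mem_insert.1 hc' with h1 | h1 <;> rcases Finset.mem_insert.1 hd with h2 | h2
      · exact absurd (h1.trans h2.symm) hcd
      · exact h1 ▸ hc d h2
      · rw [norm_sub_rev]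
        exact h2 ▸ hc c h1
      · exact hT.2 c h1 d h2 hcd)
    rw [Finset.card_insert_of_notMem hxT] at e
    omega

/-- Use the injective `ℚ`-linear map `e x = fun w => lam * w.embedding x / f w` into
`InfinitePlace K → ℂ` with the sup norm (`InfinitePlace.norm_embedding_eq`, `pi_norm_lt_iff`).
The real span of the image of the box has dimension `≤ j`: it is spanned by the image of a
`ℚ`-basis of the `ℚ`-span (`finrank_span_le_card` or `finrank_range_le_card`). By `pack` with
`R = lam` the box is covered by the translates `t + bx I (f / lam)`, `t ∈ T`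
(`Finset.card_biUnion_le`). -/
theorem cover_box {K : Type} [Field K] [NumberField K] (I : FrI K) (f : InfinitePlace K → ℝ)
    (hf : ∀ w, 0 < f w) {lam : ℝ} (hl : 1 ≤ lam) (j : ℕ)
    (hj : finrank ℚ (Submodule.span ℚ (bx I f : Set K)) ≤ j) :
    ((bx I f).card : ℝ) ≤ (2 * lam + 1) ^ j * (bx I fun w => f w / lam).card := by
  have hl0 : 0 < lam := by linarith
  set e : K → InfinitePlace K → ℂ := fun x w => ((lam / f w : ℝ) : ℂ) * w.embedding x with he
  have hn : ∀ x w, ‖e x w‖ = lam / f w * w x := fun x w => by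
    simp only [he]
    rw [norm_mul, Complex.norm_real, Real.norm_of_nonneg (div_pos hl0 (hf w)).le,
      InfinitePlace.norm_embedding_eq]
  obtain ⟨t, -, ht1, ht2, -⟩ := Submodule.exists_finset_span_eq_linearIndepOn ℚ (bx I f : Set K)
  have hsp : ∀ x ∈ Submodule.span ℚ (t : Set K),
      e x ∈ Submodule.span ℝ ((t.image e : Finset _) : Set (InfinitePlace K → ℂ)) := by
    intro x hx
    induction hx using Submodule.span_induction with
    | mem y hy => exact Submodule.subset_span (Finset.mem_coe.2 (Finset.mem_image_of_mem e hy))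
    | zero =>
      have : e 0 = 0 := by
        funext w
        simp [he]
      rw [this]
      exact zero_mem _
    | add y z _ _ hy hz =>
      have : e (y + z) = e y + e z := by
        funext w
        simp [he, mul_add]
      rw [this]
      exact add_mem hy hz
    | smul q y _ hy =>
      have : e (q • y) = (q : ℝ) • e y := by
        funext w
        simp only [he, Rat.smul_def, map_mul, map_ratCast, Pi.smul_apply, Complex.real_smul,
          Complex.ofReal_ratCast]
        ring
      rw [this]
      exact Submodule.smul_mem _ _ hy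
  have hrk : finrank ℝ (Submodule.span ℝ
      (((bx I f).image e : Finset _) : Set (InfinitePlace K → ℂ))) ≤ j := by
    refine (Submodule.finrank_mono (t := Submodule.span ℝ ((t.image e : Finset _) :
      Set (InfinitePlace K → ℂ))) (Submodule.span_le.2 fun z hz => ?_)).trans
      ((finrank_span_finset_le_card _).trans (Finset.card_image_le.trans (ht1.le.trans hj)))
    obtain ⟨x, hx, rfl⟩ := Finset.mem_image.1 (Finset.mem_coe.1 hz)
    exact hsp x (ht2 ▸ Submodule.subset_span (Finset.mem_coe.2 hx))
  obtain ⟨T, hT, hc, hcov⟩ := pack ((bx I f).image e) hl0.le j (fun z hz => by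
    obtain ⟨x, hx, rfl⟩ := Finset.mem_image.1 hz
    refine (pi_norm_le_iff_of_nonneg hl0.le).2 fun w => ?_
    rw [hn, div_mul_eq_mul_div, div_le_iff₀ (hf w)]
    exact mul_le_mul_of_nonneg_left ((mem_bx.1 hx).2 w).le hl0.le) hrk
  have hg : ∀ z : InfinitePlace K → ℂ, ∃ y : K, z ∈ T → y ∈ bx I f ∧ e y = z := fun z => by
    by_cases hz : z ∈ T
    · obtain ⟨y, hy, e1⟩ := Finset.mem_image.1 (hT hz)
      exact ⟨y, fun _ => ⟨hy, e1⟩⟩
    · exact ⟨0, fun h => absurd h hz⟩
  choose g hg using hg
  have hsub : bx I f ⊆ T.biUnion fun z => (bx I fun w => f w / lam).image fun y => y + g z := by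
    intro x hx
    obtain ⟨z, hz, hlt⟩ := hcov (e x) (Finset.mem_image_of_mem e hx)
    refine Finset.mem_biUnion.2 ⟨z, hz, Finset.mem_image.2 ⟨x - g z, mem_bx.2 ⟨?_, fun w => ?_⟩,
      sub_add_cancel _ _⟩⟩
    · exact (I : Submodule (𝓞 K) K).sub_mem (mem_bx.1 hx).1 (mem_bx.1 (hg z hz).1).1
    · have e1 : e x - z = e (x - g z) := by
        conv_lhs => rw [← (hg z hz).2]
        funext v
        simp [he, mul_sub]
      have e2 := (pi_norm_lt_iff one_pos).1 hlt w
      rw [e1, hn, div_mul_eq_mul_div, div_lt_one (hf w)] at e2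
      rwa [lt_div_iff₀' hl0]
  have h1 : (bx I f).card ≤ T.card * (bx I fun w => f w / lam).card :=
    (Finset.card_le_card hsub).trans (Finset.card_biUnion_le_card_mul _ _ _
      fun z _ => Finset.card_image_le)
  have h2 : ((bx I f).card : ℝ) ≤ T.card * (bx I fun w => f w / lam).card := by exact_mod_cast h1
  exact h2.trans (mul_le_mul_of_nonneg_right hc (Nat.cast_nonneg _))

end Pool.Agent.Lib.MP_830c64_nt.CL
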