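import Pool.Agent.Lib.MP_830c64_nt.CL.URRB
import Pool.Agent.Lib.MP_830c64_nt.CL.UPack

/-! The dichotomy for fields of odd degree. -/

namespace Pool.Agent.Lib.MP_830c64_nt.CL

open NumberField Module
open scoped nonZeroDivisors Classical

/-- Let `V = span ℚ (bx I f)`. If `finrank V ≤ (n - 1) / 2` use `cover_box`. Otherwise the dual box
lies in the orthogonal complement of `V` for the trace form (`trace_eq_zero`,
`LinearMap.BilinForm.finrank_orthogonal`, `traceForm_nondegenerate`), which has dimension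
`n - finrank V ≤ (n - 1) / 2` since `n` is odd; use `rr_box` and `cover_box` for the dual box. -/
theorem dichotomy {K : Type} [Field K] [NumberField K] (hn : Odd (finrank ℚ K)) {I : FrI K}
    (hI : I ≠ 0) (f : InfinitePlace K → ℝ) (hf : ∀ w, 0 < f w) (hv : vl f = nI I * rD K)
    {lam : ℝ} (hl : 1 ≤ lam) :
    ((bx I f).card : ℝ) ≤ 4 * (6 * finrank ℚ K) ^ finrank ℚ K *
      (2 * lam + 1) ^ ((finrank ℚ K - 1) / 2) * ((bx I fun w => f w / lam).card +
        (bx (FractionalIdeal.dual ℤ ℚ I) fun w => (3 * finrank ℚ K * f w)⁻¹ / lam).card) := by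
  set n := finrank ℚ K with hnd
  have hn1 : (1 : ℝ) ≤ n := Nat.one_le_cast.2 finrank_pos
  have hA : (1 : ℝ) ≤ 4 * (6 * n) ^ n := by
    linarith [one_le_pow₀ (by linarith : (1 : ℝ) ≤ 6 * n) (n := n)]
  have hT : 0 ≤ (2 * lam + 1) ^ ((n - 1) / 2) := by positivity
  set V := Submodule.span ℚ (bx I f : Set K) with hV
  rcases le_or_gt (finrank ℚ V) ((n - 1) / 2) with h | h
  · refine (cover_box I f hf hl _ h).trans ?_
    rw [mul_assoc]
    refine le_trans ?_ (le_mul_of_one_le_left (by positivity) hA)
    gcongr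
    exact le_add_of_nonneg_right (Nat.cast_nonneg _)
  · have h1 : Submodule.span ℚ (bx (FractionalIdeal.dual ℤ ℚ I) fun w => (3 * n * f w)⁻¹ : Set K) ≤
        (Algebra.traceForm ℚ K).orthogonal V := by
      refine Submodule.span_le.2 fun y hy x hx => ?_
      refine Submodule.span_induction (fun x hx => trace_eq_zero hI f hf hx hy) (by simp)
        (fun a b _ _ ha hb => by rw [map_add, LinearMap.add_apply, ha, hb, add_zero])
        (fun c a _ ha => by rw [map_smul, LinearMap.smul_apply, ha, smul_zero]) hx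
    have h2 := Submodule.finrank_mono h1
    rw [LinearMap.BilinForm.finrank_orthogonal (traceForm_nondegenerate ℚ K)] at h2
    have h3 := cover_box (FractionalIdeal.dual ℤ ℚ I) (fun w => (3 * n * f w)⁻¹)
      (fun w => by have := hf w; positivity) hl ((n - 1) / 2) (by obtain ⟨j, hj⟩ := hn; omega)
    have h4 := rr_box hI f hf
    rw [hv, div_self (mul_pos (nI_pos hI) (by linarith [one_le_rD K])).ne', mul_one] at h4
    refine h4.trans ?_
    rw [mul_assoc _ ((2 * lam + 1) ^ _)]
    gcongr
    refine h3.trans ?_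
    gcongr
    exact le_add_of_nonneg_left (Nat.cast_nonneg _)

end Pool.Agent.Lib.MP_830c64_nt.CL
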