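import Pool.Agent.Lib.MP_830c64_nt.CL.UDefs
import Pool.Agent.Lib.MP_830c64_nt.Divis
import Pool.Agent.Lib.MP_33b3f9_ag.M4.NTIdc

/-! The number of ideals of given norm. -/

namespace Pool.Agent.Lib.MP_830c64_nt.CL

open NumberField Module
open scoped nonZeroDivisors Classical

theorem udiv_pow {a A y ε : ℝ} (N : ℕ) (ha : 0 ≤ a) (hy : 0 ≤ y)
    (h : a ≤ A * y ^ (ε / (N + 1 : ℕ))) : a ^ (N + 1) ≤ A ^ (N + 1) * y ^ ε := by
  refine (pow_le_pow_left₀ ha h _).trans_eq ?_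
  rw [mul_pow, ← Real.rpow_natCast (y ^ _), ← Real.rpow_mul hy,
    div_mul_cancel₀ _ (Nat.cast_ne_zero.2 N.succ_ne_zero)]

/-- `M4.NT.idc`, `Nat.card_divisors` and `divis` with `c = 1` and exponent `ε / (N + 1)`. -/
theorem card_np_le (N : ℕ) {ε : ℝ} (hε : 0 < ε) : ∃ C : ℝ, 1 ≤ C ∧
    ∀ (E : Type) [Field E] [NumberField E], finrank ℚ E ≤ N → ∀ m : ℕ, m ≠ 0 →
      ((np E m).card : ℝ) ≤ C * (m : ℝ) ^ ε := by
  obtain ⟨A, hA, h⟩ := divis le_rfl (div_pos hε (Nat.cast_pos.2 N.succ_pos))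
  refine ⟨max 1 (A ^ (N + 1)), le_max_left _ _, fun E _ _ hE m hm => ?_⟩
  have h1 : (np E m).card ≤ m.divisors.card ^ (N + 1) := by
    refine le_trans ?_ ((M4.NT.idc E hm).trans (Nat.pow_le_pow_right
      (Finset.card_pos.2 ⟨1, Nat.one_mem_divisors.2 hm⟩) (hE.trans N.le_succ)))
    rw [← Nat.card_eq_finsetCard]
    exact (Nat.card_congr (Equiv.subtypeEquivRight fun _ => mem_np)).le
  have h2 : (m.divisors.card : ℝ) ≤ A * (m : ℝ) ^ (ε / (N + 1 : ℕ)) := by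
    refine le_trans ?_ (h m hm)
    rw [Nat.card_divisors hm, Nat.cast_prod]
    refine Finset.prod_le_prod (fun _ _ => Nat.cast_nonneg _) fun p _ => ?_
    push_cast
    linarith
  calc ((np E m).card : ℝ) ≤ (m.divisors.card : ℝ) ^ (N + 1) := by exact_mod_cast h1
    _ ≤ A ^ (N + 1) * (m : ℝ) ^ ε := udiv_pow N (Nat.cast_nonneg _) (Nat.cast_nonneg _) h2
    _ ≤ _ := mul_le_mul_of_nonneg_right (le_max_right _ _) (by positivity)

theorem card_idl_le (N : ℕ) {ε : ℝ} (hε : 0 < ε) : ∃ C : ℝ, 1 ≤ C ∧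
    ∀ (E : Type) [Field E] [NumberField E], finrank ℚ E ≤ N → ∀ x : ℝ, 0 ≤ x →
      ((idl E x).card : ℝ) ≤ C * x ^ (1 + ε) := by
  obtain ⟨C, hC, h⟩ := card_np_le N hε
  refine ⟨C, hC, fun E _ _ hE x hx => ?_⟩
  have hC0 := zero_le_one.trans hC
  have h1 : (idl E x).card ≤ ∑ m ∈ Finset.Icc 1 ⌊x⌋₊, (np E m).card := Finset.card_biUnion_le
  have h2 := Finset.sum_le_card_nsmul (Finset.Icc 1 ⌊x⌋₊) (fun m => ((np E m).card : ℝ))
    (C * x ^ ε) fun m hm => by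
      have h3 := Finset.mem_Icc.1 hm
      exact (h E hE m (by omega)).trans (mul_le_mul_of_nonneg_left (Real.rpow_le_rpow
        (Nat.cast_nonneg _) ((Nat.le_floor_iff hx).1 h3.2) hε.le) hC0)
  rw [Nat.card_Icc, Nat.add_sub_cancel, nsmul_eq_mul, ← Nat.cast_sum] at h2
  refine ((Nat.cast_le.2 h1).trans h2).trans ?_
  rw [Real.rpow_add' hx (by positivity), Real.rpow_one, mul_left_comm C]
  exact mul_le_mul_of_nonneg_right (Nat.floor_le hx) (by positivity)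

theorem wt_nonneg (r : ℕ) (x : ℝ) {m : ℝ} (hm : 0 < m) : 0 ≤ wt r x m := by
  unfold wt
  split_ifs with h
  · exact pow_nonneg (Real.log_nonneg ((one_le_div hm).2 h.le)) _
  · exact le_rfl

theorem wt_le {r N : ℕ} (h : r ≤ N) {x y m : ℝ} (hm : 1 ≤ m) (hy : 1 ≤ y) (hxy : x ≤ y) :
    wt r x m ≤ (1 + Real.log y) ^ N := by
  have h1 : 1 ≤ 1 + Real.log y := le_add_of_nonneg_right (Real.log_nonneg hy)
  have h0 := zero_lt_one.trans_le hm
  unfold wt
  split_ifs with h2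
  · refine le_trans (pow_le_pow_left₀ (Real.log_nonneg ((one_le_div h0).2 h2.le)) ?_ r)
      (pow_le_pow_right₀ h1 h)
    have := Real.log_le_log (div_pos (h0.trans h2) h0)
      ((div_le_self (h0.trans h2).le hm).trans hxy)
    linarith
  · positivity

/-- `1 ≤ log 3`. -/
theorem one_le_wt (r : ℕ) {x m : ℝ} (hm : 0 < m) (h : m ≤ x / 3) : 1 ≤ wt r x m := by
  have h1 : 3 ≤ x / m := by
    rw [le_div_iff₀ hm]
    linarith
  rw [wt, if_pos (by linarith)]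
  refine one_le_pow₀ ((Real.le_log_iff_exp_le (by linarith)).2 (le_trans ?_ h1))
  exact Real.exp_one_lt_d9.le.trans (by norm_num)

theorem rank_lt (K : Type) [Field K] [NumberField K] : Units.rank K < finrank ℚ K := by
  have h1 : Fintype.card (InfinitePlace K) ≤ finrank ℚ K := by
    rw [← InfinitePlace.card_add_two_mul_card_eq_rank,
      InfinitePlace.card_eq_nrRealPlaces_add_nrComplexPlaces]
    omega
  have h2 : 0 < Fintype.card (InfinitePlace K) := Fintype.card_pos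
  unfold Units.rank
  omega

/-- `Real.log_le_rpow_div`. -/
theorem log_pow_le (N : ℕ) {ε : ℝ} (hε : 0 < ε) : ∃ C : ℝ, 1 ≤ C ∧ ∀ y : ℝ, 1 ≤ y →
    (1 + Real.log y) ^ N ≤ C * y ^ ε := by
  have hδ : 0 < ε / (N + 1 : ℕ) := div_pos hε (Nat.cast_pos.2 N.succ_pos)
  refine ⟨(1 + (ε / (N + 1 : ℕ))⁻¹) ^ (N + 1),
    one_le_pow₀ (le_add_of_nonneg_right (inv_pos.2 hδ).le), fun y hy => ?_⟩
  have h1 : 1 ≤ 1 + Real.log y := le_add_of_nonneg_right (Real.log_nonneg hy)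
  have h0 := zero_le_one.trans hy
  refine (pow_le_pow_right₀ h1 N.le_succ).trans (udiv_pow N (zero_le_one.trans h1) h0 ?_)
  rw [add_mul, one_mul, ← div_eq_inv_mul]
  exact add_le_add (Real.one_le_rpow hy hδ.le) (Real.log_le_rpow_div h0 hδ)

end Pool.Agent.Lib.MP_830c64_nt.CL
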