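import Pool.Agent.Lib.MP_830c64_nt.CL.UDefs

/-! Volumes of boxes and of fundamental domains, Minkowski's theorem, the trace functional. -/

namespace Pool.Agent.Lib.MP_830c64_nt.CL

open NumberField Module MeasureTheory
open scoped nonZeroDivisors Classical

variable {K : Type} [Field K] [NumberField K]

theorem isOpen_Bx (f : InfinitePlace K → ℝ) : IsOpen (Bx f) := by
  have : Bx f = ⋂ w, {z | mixedEmbedding.normAtPlace w z < f w} := by
    ext z; simp [Bx]
  rw [this]
  exact isOpen_iInter_of_finite fun w =>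
    isOpen_lt (mixedEmbedding.continuous_normAtPlace w) continuous_const

omit [NumberField K] in
theorem uvol_eq (f : InfinitePlace K → ℝ) (hf : ∀ w, 0 ≤ f w) :
    Bx f = mixedEmbedding.convexBodyLT K (fun w => ⟨f w, hf w⟩) := by
  ext z
  simp only [Bx, Set.mem_ofPred_eq, Set.mem_prod, Set.mem_pi, Set.mem_univ, forall_true_left,
    mem_ball_zero_iff, Subtype.forall]
  constructor
  · intro h
    exact ⟨fun w hw => mixedEmbedding.normAtPlace_apply_of_isReal hw z ▸ h w,
      fun w hw => mixedEmbedding.normAtPlace_apply_of_isComplex hw z ▸ h w⟩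
  · rintro ⟨h1, h2⟩ w
    rcases w.isReal_or_isComplex with hw | hw
    · rw [mixedEmbedding.normAtPlace_apply_of_isReal hw]; exact h1 w hw
    · rw [mixedEmbedding.normAtPlace_apply_of_isComplex hw]; exact h2 w hw

/-- `Bx f = convexBodyLT K (fun w => ⟨f w, _⟩)`, `mixedEmbedding.convexBodyLT_volume`. -/
theorem vol_Bx (f : InfinitePlace K → ℝ) (hf : ∀ w, 0 ≤ f w) :
    volume (Bx f) = ENNReal.ofReal (2 ^ InfinitePlace.nrRealPlaces K *
      Real.pi ^ InfinitePlace.nrComplexPlaces K * vl f) := by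
  rw [uvol_eq f hf, mixedEmbedding.convexBodyLT_volume, ← ENNReal.coe_mul,
    ← ENNReal.ofReal_coe_nnreal]
  congr 1
  simp [vl, NNReal.coe_prod]
  rfl

/-- `InfinitePlace.sum_mult_eq`, `Finset.prod_pow_eq_pow_sum`. -/
theorem vl_mul (c : ℝ) (f : InfinitePlace K → ℝ) :
    vl (fun w => c * f w) = c ^ finrank ℚ K * vl f := by
  simp only [vl, mul_pow, Finset.prod_mul_distrib, Finset.prod_pow_eq_pow_sum,
    InfinitePlace.sum_mult_eq]

theorem vl_inv (f : InfinitePlace K → ℝ) : vl (fun w => (f w)⁻¹) = (vl f)⁻¹ := by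
  simp only [vl, inv_pow, Finset.prod_inv_distrib]

theorem vl_pos {f : InfinitePlace K → ℝ} (hf : ∀ w, 0 < f w) : 0 < vl f := by
  exact Finset.prod_pos fun w _ => pow_pos (hf w) _

theorem nI_pos {I : FrI K} (hI : I ≠ 0) : 0 < nI I := by
  have h1 := FractionalIdeal.absNorm_nonneg I
  have h2 : FractionalIdeal.absNorm I ≠ 0 := fun h => hI (FractionalIdeal.absNorm_eq_zero_iff.mp h)
  exact Rat.cast_pos.mpr (lt_of_le_of_ne h1 h2.symm)

theorem nI_coe (a : Ideal (𝓞 K)) : nI (a : FrI K) = Ideal.absNorm a := by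
  rw [nI, FractionalIdeal.coeIdeal_absNorm, Rat.cast_natCast]

theorem nI_mul (I J : FrI K) : nI (I * J) = nI I * nI J := by
  rw [nI, map_mul, Rat.cast_mul]; rfl

theorem one_le_rD (K : Type) [Field K] [NumberField K] : 1 ≤ rD K := by
  rw [rD, Real.one_le_sqrt]
  exact_mod_cast Int.one_le_abs (discr_ne_zero K)

theorem mK_pos (K : Type) [Field K] [NumberField K] : 0 < mK K := by
  have := one_le_rD K
  have := Real.pi_pos
  rw [mK]; positivity

/-- `2 ^ r₁ (2 π) ^ r₂ ≤ 3 ^ (r₁ + 2 r₂)`. -/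
theorem mK_le (K : Type) [Field K] [NumberField K] : mK K ≤ 3 ^ finrank ℚ K / rD K := by
  have h := one_le_rD K
  have h3 := Real.pi_le_four
  have h4 := Real.pi_pos
  rw [mK, ← InfinitePlace.card_add_two_mul_card_eq_rank, pow_add, pow_mul]
  gcongr
  · norm_num
  · norm_num; linarith

/-- `volume_fundamentalDomain_fractionalIdealLatticeBasis`,
`volume_fundamentalDomain_latticeBasis`. -/
theorem vol_fd (I : (FrI K)ˣ) :
    volume (ZSpan.fundamentalDomain (mixedEmbedding.fractionalIdealLatticeBasis K I)) =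
      ENNReal.ofReal (nI (I : FrI K) * (2⁻¹ ^ InfinitePlace.nrComplexPlaces K * rD K)) := by
  rw [mixedEmbedding.volume_fundamentalDomain_fractionalIdealLatticeBasis,
    mixedEmbedding.volume_fundamentalDomain_latticeBasis,
    ENNReal.ofReal_mul (nI_pos I.ne_zero).le, ENNReal.ofReal_mul (by positivity),
    ENNReal.ofReal_pow (by norm_num), ENNReal.ofReal_inv_of_pos two_pos, ENNReal.ofReal_ofNat,
    ← ENNReal.ofReal_coe_nnreal, Real.coe_sqrt, coe_nnnorm, Int.norm_eq_abs]
  rfl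

/-- `mixedEmbedding.exists_ne_zero_mem_ideal_lt`; `2 ^ n * 2⁻¹ ^ r₂ ≤ 2 ^ r₁ * π ^ r₂`. -/
theorem mink {I : FrI K} (hI : I ≠ 0) (f : InfinitePlace K → ℝ) (hf : ∀ w, 0 < f w)
    (h : nI I * rD K < vl f) : ∃ x ∈ bx I f, x ≠ 0 := by
  obtain ⟨a, ha, ha0, hb⟩ := mixedEmbedding.exists_ne_zero_mem_ideal_lt K (Units.mk0 I hI)
    (f := fun w => ⟨f w, (hf w).le⟩) (by
      have h1 := nI_pos hI
      have h2 := one_le_rD K
      have h3 := Real.two_le_pi
      have h4 := vl_pos hf
      rw [← uvol_eq f fun w => (hf w).le, vol_Bx f fun w => (hf w).le,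
        mixedEmbedding.minkowskiBound, vol_fd, mixedEmbedding.finrank, ← ENNReal.ofReal_ofNat 2,
        ← ENNReal.ofReal_pow two_pos.le, ← ENNReal.ofReal_mul (by positivity),
        ENNReal.ofReal_lt_ofReal_iff (by positivity), Units.val_mk0,
        ← InfinitePlace.card_add_two_mul_card_eq_rank]
      calc _ = 2 ^ InfinitePlace.nrRealPlaces K * 2 ^ InfinitePlace.nrComplexPlaces K *
            (nI I * rD K) := by
            rw [pow_add, two_mul, pow_add, inv_pow]; field_simp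
        _ < 2 ^ InfinitePlace.nrRealPlaces K * 2 ^ InfinitePlace.nrComplexPlaces K * vl f := by
            gcongr
        _ ≤ _ := by gcongr)
  exact ⟨a, mem_bx.mpr ⟨ha, hb⟩, ha0⟩

/-- `FractionalIdeal.dual_eq_mul_inv`, `coeIdeal_differentIdeal`, `absNorm_differentIdeal`. -/
theorem nI_dual {I : FrI K} (hI : I ≠ 0) :
    nI (FractionalIdeal.dual ℤ ℚ I) = (nI I * rD K ^ 2)⁻¹ := by
  have h1 : nI (FractionalIdeal.dual ℤ ℚ (1 : FrI K)) = (rD K ^ 2)⁻¹ := by
    have h := coeIdeal_differentIdeal ℤ ℚ K (𝓞 K)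
    rw [← inv_inv (FractionalIdeal.dual ℤ ℚ (1 : FrI K)), ← h, nI, map_inv₀, Rat.cast_inv,
      FractionalIdeal.coeIdeal_absNorm, absNorm_differentIdeal K, rD,
      Real.sq_sqrt (abs_nonneg _), Rat.cast_natCast, Nat.cast_natAbs, Int.cast_abs]
  rw [FractionalIdeal.dual_eq_mul_inv, nI_mul, h1, nI, map_inv₀, Rat.cast_inv, mul_inv, mul_comm]
  rfl

end Pool.Agent.Lib.MP_830c64_nt.CL
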