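import Pool.Agent.Lib.MP_830c64_nt.CL.UCls
import Pool.Agent.Lib.MP_830c64_nt.CL.UDiv
import Pool.Agent.Lib.MP_830c64_nt.CL.UVol

/-! Upper bounds for the class number and for class number times regulator. -/

namespace Pool.Agent.Lib.MP_830c64_nt.CL

open NumberField Module
open scoped nonZeroDivisors Classical

/-- Sum of the class sums. For `c γ ≠ ⊥` in the class `γ⁻¹` the index set of `SI (c γ)` is the set
of `a ∈ idl K ρ` with `cls a = γ` (`gen_iff_cls`); `Finset.sum_fiberwise_eq_sum_filter`. -/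
theorem sum_SI {K : Type} [Field K] [NumberField K] (s : Finset (ClassGroup (𝓞 K)))
    (c : ClassGroup (𝓞 K) → Ideal (𝓞 K)) (hc : ∀ γ, c γ ≠ ⊥ ∧ cls (c γ) = γ⁻¹) (ρ : ℝ)
    (F : Ideal (𝓞 K) → ℝ) :
    ∑ γ ∈ s, SI (c γ : FrI K) ρ F = ∑ a ∈ (idl K ρ).filter (fun a => cls a ∈ s),
      F a * wt (Units.rank K) ρ (Ideal.absNorm a) := by
  rw [← Finset.sum_fiberwise_eq_sum_filter]
  refine Finset.sum_congr rfl fun γ _ => Finset.sum_congr (Finset.filter_congr fun a ha => ?_)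
    fun _ _ => rfl
  rw [gen_iff_cls (hc γ).1 (mem_idl'.1 ha).1, (hc γ).2, inv_inv]

/-- For each class apply `Tr` to one box, `I = c γ`, `R = (2 * rD K * N (c γ)) ^ (1 / n)`,
`G = F = -1`, `e = -1` (`mink`, `vl_mul`). Summing with `sum_SI` gives
`h * Φ ≤ ∑ a ∈ idl K (2 * rD K), wt`; then `wt_le`, `card_idl_le`, `log_pow_le`. -/
theorem hr_le (N : ℕ) {ε : ℝ} (hε : 0 < ε) : ∃ C : ℝ, 1 ≤ C ∧
    ∀ (K : Type) [Field K] [NumberField K], finrank ℚ K ≤ N → ∀ Φ : ℝ, Tr K Φ →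
      (Nat.card (ClassGroup (𝓞 K)) : ℝ) * Φ ≤ C * rD K ^ (1 + ε) := by
  obtain ⟨C, hC, h⟩ := card_idl_le N (half_pos hε)
  obtain ⟨C', hC', h'⟩ := log_pow_le N (half_pos hε)
  have h2 : (1 : ℝ) ≤ 2 ^ (1 + ε) := Real.one_le_rpow one_le_two (by positivity)
  refine ⟨C * C' * 2 ^ (1 + ε), one_le_mul_of_one_le_of_one_le
    (one_le_mul_of_one_le_of_one_le hC hC') h2, fun K _ _ hK Φ hΦ => ?_⟩
  have hD := one_le_rD K
  have hD2 : 1 ≤ 2 * rD K := by linarith
  choose c hc0 _ hc using fun γ : ClassGroup (𝓞 K) => exists_coprime_rep one_ne_zero γ⁻¹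
  have key : ∀ γ, SI (c γ : FrI K) (2 * rD K) (fun _ => -1) ≤ -Φ := fun γ => by
    have h0 : (c γ : FrI K) ≠ 0 := FractionalIdeal.coeIdeal_ne_zero.2 (hc0 γ)
    have h1 := nI_pos h0
    have h3 : 0 < 2 * rD K * nI (c γ : FrI K) := by positivity
    have h4 := Real.rpow_inv_natCast_pow h3.le (finrank_pos (R := ℚ) (M := K)).ne'
    have h5 := Real.rpow_pos_of_pos h3 ((finrank ℚ K : ℕ) : ℝ)⁻¹
    have := hΦ Unit Finset.univ (fun _ => c γ) (fun _ => _) (fun _ => 1) (fun _ _ => -1)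
      (fun _ _ => -1) (-1) (fun _ _ => ⟨h0, h5, .inl rfl, fun _ _ _ => rfl⟩) fun f hf hv => by
        obtain ⟨x, hx, hx0⟩ := mink h0 (fun w => _ * f w) (fun w => mul_pos h5 (hf w))
          (by rw [vl_mul, h4, hv]; nlinarith)
        rw [Finset.univ_unique, Finset.sum_singleton]
        simp only [zpow_one, SB, Finset.sum_const, nsmul_eq_mul, mul_neg, mul_one, neg_le_neg_iff,
          Nat.one_le_cast]
        exact Finset.card_pos.2 ⟨x, Finset.mem_erase.2 ⟨hx0, hx⟩⟩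
    rwa [Finset.univ_unique, Finset.sum_singleton, h4, mul_div_cancel_right₀ _ h1.ne',
      mul_neg_one] at this
  have h3 := Finset.sum_le_sum fun γ (_ : γ ∈ Finset.univ) => key γ
  rw [sum_SI _ c fun γ => ⟨hc0 γ, hc γ⟩, Finset.filter_true_of_mem fun _ _ => Finset.mem_univ _,
    Finset.sum_const, Finset.card_univ, nsmul_eq_mul, mul_neg, le_neg, ← Finset.sum_neg_distrib,
    ← Nat.card_eq_fintype_card] at h3
  refine h3.trans ((Finset.sum_le_card_nsmul _ _ ((1 + Real.log (2 * rD K)) ^ N)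
    fun a ha => ?_).trans ?_)
  · rw [neg_one_mul, neg_neg]
    exact wt_le ((rank_lt K).le.trans hK) (Nat.one_le_cast.2 (Nat.pos_of_ne_zero
      (Ideal.absNorm_eq_zero_iff.not.2 (mem_idl'.1 ha).1))) hD2 le_rfl
  · rw [nsmul_eq_mul]
    refine (mul_le_mul (h K hK _ (by positivity)) (h' _ hD2)
      (pow_nonneg (add_nonneg zero_le_one (Real.log_nonneg hD2)) _) (by positivity)).trans_eq ?_
    rw [mul_mul_mul_comm, ← Real.rpow_add (by positivity), add_assoc, add_halves,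
      Real.mul_rpow zero_le_two (by positivity), mul_assoc (C * C')]

/-- Each class contains an ideal of norm `≤ 2 * rD K` (`mink` with constant radii, or
`NumberField.exists_ideal_in_class_of_norm_le`); `card_idl_le`. -/
theorem h_le (N : ℕ) {ε : ℝ} (hε : 0 < ε) : ∃ C : ℝ, 1 ≤ C ∧
    ∀ (K : Type) [Field K] [NumberField K], finrank ℚ K ≤ N →
      (Nat.card (ClassGroup (𝓞 K)) : ℝ) ≤ C * rD K ^ (1 + ε) := by
  obtain ⟨C, hC, h⟩ := card_idl_le N hε
  have h2 : (1 : ℝ) ≤ (2 ^ N) ^ (1 + ε) :=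
    Real.one_le_rpow (one_le_pow₀ one_le_two) (by positivity)
  refine ⟨C * (2 ^ N) ^ (1 + ε), one_le_mul_of_one_le_of_one_le hC h2, fun K _ _ hK => ?_⟩
  have hD := one_le_rD K
  have h1 : Nat.card (ClassGroup (𝓞 K)) ≤ (idl K (2 ^ N * rD K)).card := by
    rw [Nat.card_eq_fintype_card, ← Finset.card_univ]
    refine Finset.card_le_card_of_surjOn cls fun γ _ => ?_
    obtain ⟨⟨I, hI⟩, rfl, h3⟩ := exists_ideal_in_class_of_norm_le γ
    have h0 : I ≠ ⊥ := nonZeroDivisors.ne_zero hI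
    refine ⟨I, mem_idl'.2 ⟨h0, h3.trans (mul_le_mul ?_ ?_ (by positivity) (by positivity))⟩,
      dif_neg h0⟩
    · have := InfinitePlace.card_add_two_mul_card_eq_rank K
      exact (pow_le_pow_left₀ (by positivity) ((div_le_iff₀ Real.pi_pos).2
        (by linarith [Real.two_le_pi])) _).trans (pow_le_pow_right₀ one_le_two (by omega))
    · rw [rD, ← Int.cast_abs]
      refine mul_le_of_le_one_left (Real.sqrt_nonneg _) (div_le_one_of_le₀ ?_ (by positivity))
      exact_mod_cast Nat.factorial_le_pow _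
  refine (Nat.cast_le.2 h1).trans ((h K hK _ (by positivity)).trans_eq ?_)
  rw [Real.mul_rpow (by positivity) (by positivity), mul_assoc]

end Pool.Agent.Lib.MP_830c64_nt.CL
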