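import Pool.Agent.Lib.MP_830c64_nt.CL.AOne
import Pool.Agent.Lib.MP_830c64_nt.CL.UHR

/-! The main inequality between counts of ideals in a subgroup of the class group. -/

namespace Pool.Agent.Lib.MP_830c64_nt.CL

open NumberField Module
open scoped nonZeroDivisors Classical

theorem amain_one_le {K : Type} [Field K] [NumberField K] {x : ℝ} {a : Ideal (𝓞 K)}
    (h : a ∈ idl K x) : (1 : ℝ) ≤ Ideal.absNorm a :=
  Nat.one_le_cast.2 (Nat.pos_of_ne_zero fun e => (mem_idl'.1 h).1 (Ideal.absNorm_eq_zero_iff.1 e))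

theorem amain_sum {K : Type} [Field K] [NumberField K] {x : ℝ} (hx : x ≤ rD K)
    {s : Finset (Ideal (𝓞 K))} {y : ℝ} (hs : s ⊆ idl K y) :
    ∑ a ∈ s, 1 * wt (Units.rank K) x (Ideal.absNorm a) ≤
      (1 + Real.log (rD K)) ^ finrank ℚ K * s.card := by
  rw [mul_comm, ← nsmul_eq_mul]
  refine Finset.sum_le_card_nsmul _ _ _ fun a ha => ?_
  rw [one_mul]
  exact wt_le (rank_lt K).le (amain_one_le (hs ha)) (one_le_rD K) hx

/-- Sum `amain_one` over the classes `γ ∈ G` with `c γ` in the class `γ⁻¹` (`sum_SI`). The left side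
is at least `cntG G (rD K / 3)` (`one_le_wt`, `wt_nonneg`). By `gen_dual_cls` the ideals in the
third sum have class `cls d * γ⁻¹ ∈ G`, distinct for distinct `γ`; use `wt_le` with `y = rD K`. -/
theorem amain {K : Type} [Field K] [NumberField K] (hn : Odd (finrank ℚ K)) {Φ : ℝ}
    (hΦ : Tr K Φ) (G : Subgroup (ClassGroup (𝓞 K))) (hG : cls (differentIdeal ℤ (𝓞 K)) ∈ G)
    {lam : ℝ} (hl : 1 ≤ lam) :
    (cntG G (rD K / 3) : ℝ) ≤ 8 * (6 * finrank ℚ K) ^ finrank ℚ K *
      (2 * lam + 1) ^ ((finrank ℚ K - 1) / 2) * (Nat.card G * Φ +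
        (1 + Real.log (rD K)) ^ finrank ℚ K * cntG G (rD K / lam ^ finrank ℚ K)) := by
  set n := finrank ℚ K with hnd
  set A : ℝ := 4 * (6 * n) ^ n * (2 * lam + 1) ^ ((n - 1) / 2) with hA
  set L : ℝ := (1 + Real.log (rD K)) ^ n with hL
  have hd := one_le_rD K
  have hL0 : 0 ≤ L := pow_nonneg (by linarith [Real.log_nonneg hd]) _
  have hA0 : 0 ≤ A := by positivity
  have hn1 : (1 : ℝ) ≤ n := Nat.one_le_cast.2 finrank_pos
  choose c hc0 _ hc using fun γ : ClassGroup (𝓞 K) => exists_coprime_rep one_ne_zero γ⁻¹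
  set s : Finset (ClassGroup (𝓞 K)) := Finset.univ.filter (· ∈ G) with hs
  have hm : ∀ γ, γ ∈ s ↔ γ ∈ G := fun γ => by simp [hs]
  have hcard : (s.card : ℝ) = Nat.card G := by
    rw [Nat.card_eq_fintype_card, Fintype.card_subtype]
  have h1 : rD K / (3 * n * lam) ^ n ≤ rD K / lam ^ n := by
    gcongr
    nlinarith
  have h2 : rD K / lam ^ n ≤ rD K := div_le_self (by linarith) (one_le_pow₀ hl)
  have key := Finset.sum_le_sum fun γ (_ : γ ∈ s) => amain_one hn hΦ (hc0 γ) hl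
  rw [← hnd, ← hA, ← Finset.mul_sum, Finset.sum_add_distrib, Finset.sum_add_distrib,
    sum_SI s c fun γ => ⟨hc0 γ, hc γ⟩, sum_SI s c fun γ => ⟨hc0 γ, hc γ⟩, Finset.sum_const,
    nsmul_eq_mul, hcard] at key
  simp only [hm] at key
  have a1 : (cntG G (rD K / 3) : ℝ) ≤ ∑ a ∈ (idl K (rD K)).filter (fun a => cls a ∈ G),
      1 * wt (Units.rank K) (rD K) (Ideal.absNorm a) := by
    rw [cntG, Finset.card_eq_sum_ones, Nat.cast_sum]
    refine (Finset.sum_le_sum fun a ha => ?_).trans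
      (Finset.sum_le_sum_of_subset_of_nonneg (fun a ha => ?_) fun a ha _ => ?_)
    · have ha := (Finset.mem_filter.1 ha).1
      rw [one_mul, Nat.cast_one]
      exact one_le_wt _ (by linarith [amain_one_le ha]) (mem_idl'.1 ha).2
    · rw [Finset.mem_filter, mem_idl'] at ha ⊢
      exact ⟨⟨ha.1.1, by linarith [ha.1.2]⟩, ha.2⟩
    · rw [one_mul]
      exact wt_nonneg _ _ (by linarith [amain_one_le (Finset.mem_filter.1 ha).1])
  have a2 := amain_sum h2 (Finset.filter_subset (fun a => cls a ∈ G) (idl K (rD K / lam ^ n)))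
  have a3 : ∑ γ ∈ s, SI (FractionalIdeal.dual ℤ ℚ (c γ : FrI K)) (rD K / (3 * n * lam) ^ n)
      (fun _ => 1) ≤ L * cntG G (rD K / lam ^ n) := by
    refine (Finset.sum_le_sum fun γ _ => amain_sum (h1.trans h2) (Finset.filter_subset _ _)).trans ?_
    rw [← Finset.mul_sum, ← Nat.cast_sum]
    refine mul_le_mul_of_nonneg_left (Nat.cast_le.2 ?_) hL0
    refine (Finset.sum_le_sum (g := fun γ => ((idl K (rD K / lam ^ n)).filter
      fun a => cls (differentIdeal ℤ (𝓞 K)) * (cls a)⁻¹ = γ).card) fun γ _ =>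
      Finset.card_le_card fun a ha => ?_).trans ?_
    · rw [Finset.mem_filter, mem_idl'] at ha ⊢
      obtain ⟨⟨h3, h4⟩, x, hx⟩ := ha
      refine ⟨⟨h3, h4.trans h1⟩, ?_⟩
      rw [gen_dual_cls (hc0 γ) h3 hx, hc]
      simp
    · refine (Finset.sum_card_fiberwise_eq_card_filter (idl K (rD K / lam ^ n)) s
        fun a => cls (differentIdeal ℤ (𝓞 K)) * (cls a)⁻¹).le.trans ?_
      refine Finset.card_le_card (Finset.monotone_filter_right _ fun a _ ha => ?_)
      exact G.inv_mem_iff.1 ((G.mul_mem_cancel_left hG).1 ((hm _).1 ha))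
  rw [← hnd, ← hL] at a2
  change _ ≤ L * (cntG G (rD K / lam ^ n) : ℝ) at a2
  calc (cntG G (rD K / 3) : ℝ) ≤ _ := a1.trans key
    _ ≤ A * (Nat.card G * (2 * Φ) + L * cntG G (rD K / lam ^ n) + L * cntG G (rD K / lam ^ n)) := by
      gcongr
    _ = _ := by rw [hA]; ring

end Pool.Agent.Lib.MP_830c64_nt.CL
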