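import Pool.Agent.Lib.MP_830c64_nt.CL.UDiv

/-! Numerical lemmas for the soft argument. -/

namespace Pool.Agent.Lib.MP_830c64_nt.CL

/-- Absorption. `lam = (3 y ^ 2) ^ (1 / n) ≥ 1`, `(2 lam + 1) ^ ((n - 1) / 2) ≤ 3 ^ (n + 1) *
y ^ (1 - 1 / n)` (write `n = 2 j + 1`). With `L = 1 + log X`:
`q * a ≤ 2 L * b ≤ 2 L * C₀ * 3 ^ (n + 1) * y ^ (1 - 1 / n) * (V + L ^ n * a)`, and
`4 C₀ 3 ^ (n + 1) L ^ (n + 1) ≤ X ^ (η' / (2 n)) ≤ y ^ (1 / (2 n))` for large `X` (`log_pow_le`), so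
`q * a ≤ q / 2 * (V + a)`. -/
theorem num_absorb {n : ℕ} (hn : Odd n) {η' C₀ : ℝ} (hη' : 0 < η') (hC : 1 ≤ C₀) :
    ∃ X₀ : ℝ, ∀ X y q a b V d : ℝ, X₀ ≤ X → X ^ η' ≤ y → y ^ (1 - 1 / (2 * n : ℝ)) ≤ q →
      0 ≤ a → 0 ≤ b → 0 ≤ V → 1 ≤ d → d ≤ X → q * a ≤ 2 * Real.log (d / 3) * b →
      b ≤ C₀ * (2 * (3 * y ^ 2) ^ (1 / n : ℝ) + 1) ^ ((n - 1) / 2) *
        (V + (1 + Real.log d) ^ n * a) → a ≤ V := by
  obtain ⟨j, rfl⟩ := hn
  set n : ℕ := 2 * j + 1 with hnd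
  have hn : (n : ℝ) = 2 * j + 1 := by rw [hnd]; push_cast; ring
  have hn0 : (0 : ℝ) < n := by rw [hn]; positivity
  have hj : (n - 1) / 2 = j := by omega
  have he : 0 < η' / (4 * n) := by positivity
  obtain ⟨C, hC1, H⟩ := log_pow_le (n + 1) he
  set B : ℝ := 4 * C₀ * 3 ^ (j + 1) * C with hB
  have hB0 : 0 ≤ B := by positivity
  refine ⟨B ^ (η' / (4 * n))⁻¹, fun X y q a b V d hX hy hq ha hb hV hd hdX h1 h2 => ?_⟩
  have hX1 : 1 ≤ X := hd.trans hdX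
  have hy1 : 1 ≤ y := (Real.one_le_rpow hX1 hη'.le).trans hy
  have hy0 : 0 < y := by linarith
  set L : ℝ := 1 + Real.log X with hL
  have hL1 : 1 ≤ L := by linarith [Real.log_nonneg hX1]
  have a1 : Real.log (d / 3) ≤ L := by
    linarith [Real.log_le_log (by linarith : 0 < d / 3) (by linarith : d / 3 ≤ X)]
  have a2 : (1 + Real.log d) ^ n ≤ L ^ n :=
    pow_le_pow_left₀ (by linarith [Real.log_nonneg hd])
      (by linarith [Real.log_le_log (by linarith : 0 < d) hdX]) _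
  have a3 : B ≤ X ^ (η' / (4 * n)) := by
    have := Real.rpow_le_rpow (by positivity) hX he.le
    rwa [Real.rpow_inv_rpow hB0 he.ne'] at this
  have a4 : 4 * C₀ * 3 ^ (j + 1) * L ^ (n + 1) ≤ y ^ (1 / (2 * n : ℝ)) :=
    calc 4 * C₀ * 3 ^ (j + 1) * L ^ (n + 1) ≤ 4 * C₀ * 3 ^ (j + 1) * (C * X ^ (η' / (4 * n))) := by
          gcongr; exact H X hX1
      _ = B * X ^ (η' / (4 * n)) := by rw [hB]; ring
      _ ≤ X ^ (η' / (4 * n)) * X ^ (η' / (4 * n)) := by gcongr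
      _ = (X ^ η') ^ (1 / (2 * n : ℝ)) := by
          rw [← Real.rpow_add (by linarith), ← Real.rpow_mul (by linarith)]
          congr 1
          field_simp
          ring
      _ ≤ _ := Real.rpow_le_rpow (by positivity) hy (by positivity)
  have hl : 1 ≤ (3 * y ^ 2) ^ (1 / n : ℝ) := Real.one_le_rpow (by nlinarith) (by positivity)
  have a5 : (2 * (3 * y ^ 2) ^ (1 / n : ℝ) + 1) ^ j ≤ 3 ^ (j + 1) * y ^ (1 - 1 / n : ℝ) :=
    calc (2 * (3 * y ^ 2) ^ (1 / n : ℝ) + 1) ^ j ≤ (3 * (3 * y ^ 2) ^ (1 / n : ℝ)) ^ j := by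
          gcongr; linarith
      _ = 3 ^ j * (3 ^ (1 / n * j : ℝ) * y ^ (1 - 1 / n : ℝ)) := by
          rw [mul_pow, ← Real.rpow_mul_natCast (by positivity),
            Real.mul_rpow (by norm_num) (by positivity), ← Real.rpow_natCast y 2,
            ← Real.rpow_mul hy0.le]
          congr 3
          field_simp
          rw [hn]
          push_cast
          ring
      _ ≤ 3 ^ j * (3 ^ (1 : ℝ) * y ^ (1 - 1 / n : ℝ)) := by
          gcongr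
          · norm_num
          · rw [one_div, inv_mul_le_one₀ hn0, hn]; linarith [Nat.cast_nonneg (α := ℝ) j]
      _ = _ := by rw [Real.rpow_one]; ring
  have a6 : y ^ (1 / (2 * n : ℝ)) * y ^ (1 - 1 / n : ℝ) ≤ q := by
    rw [← Real.rpow_add hy0]
    refine le_of_eq_of_le ?_ hq
    congr 1
    field_simp
    ring
  have hq0 : 0 < q := lt_of_lt_of_le (by positivity) hq
  have hLn : 1 ≤ L ^ n := one_le_pow₀ hL1
  rw [hj] at h2
  have a7 : b ≤ C₀ * (3 ^ (j + 1) * y ^ (1 - 1 / n : ℝ)) * (L ^ n * (V + a)) := by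
    refine h2.trans ?_
    have : 0 ≤ (1 + Real.log d) ^ n := pow_nonneg (by linarith [Real.log_nonneg hd]) _
    gcongr
    nlinarith
  have a8 : 2 * (q * a) ≤ q * (V + a) :=
    calc 2 * (q * a) ≤ 2 * (2 * L * (C₀ * (3 ^ (j + 1) * y ^ (1 - 1 / n : ℝ)) *
          (L ^ n * (V + a)))) :=
          mul_le_mul_of_nonneg_left (h1.trans ((by gcongr : _ ≤ 2 * L * b).trans (by gcongr)))
            (by norm_num)
      _ = 4 * C₀ * 3 ^ (j + 1) * L ^ (n + 1) * y ^ (1 - 1 / n : ℝ) * (V + a) := by ring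
      _ ≤ y ^ (1 / (2 * n : ℝ)) * y ^ (1 - 1 / n : ℝ) * (V + a) := by gcongr
      _ ≤ _ := by gcongr
  nlinarith

end Pool.Agent.Lib.MP_830c64_nt.CL
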