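import Pool.Agent.Lib.MP_830c64_nt.CL.UDiv

/-! Numerical lemmas for the soft argument, second part. -/

namespace Pool.Agent.Lib.MP_830c64_nt.CL

/-- Many squares. Take `k = ⌊log x / (2 log y)⌋₊`, so `y ^ (2 k) ≤ x < y ^ (2 k + 2)` and
`k ≤ k₀ = ⌈1 / η'⌉₊`. For large `X`, `q ≥ y ^ (1 / 2) ≥ 2 k₀`, so
`q.choose k ≥ (q + 1 - k) ^ k / k ! ≥ (q / 2) ^ k / k !` (`Nat.pow_le_choose`), and
`q ^ k ≥ (y ^ k) ^ (1 - η) ≥ (√x / y) ^ (1 - η)`. -/
theorem num_squares {η η' : ℝ} (hη : 0 < η) (hη2 : η ≤ 1 / 2) (hη' : 0 < η') :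
    ∃ X₀ c : ℝ, 0 < c ∧ ∀ (X y x : ℝ) (q : ℕ), X₀ ≤ X → X ^ η' ≤ y → y ^ (1 - η) ≤ q →
      1 ≤ x → x ≤ X → ∃ k : ℕ, y ^ (2 * k) ≤ x ∧ c * (√x / y) ^ (1 - η) ≤ q.choose k := by
  obtain ⟨k₀, hk₀⟩ := exists_nat_ge (1 / η')
  have hY : (1 : ℝ) < (2 * k₀ + 2) ^ 2 := by nlinarith [Nat.cast_nonneg (α := ℝ) k₀]
  refine ⟨(((2 * k₀ + 2) ^ 2 : ℝ)) ^ η'⁻¹, 1 / (2 ^ k₀ * k₀.factorial), by positivity,
    fun X y x q hX hy hq hx hxX => ?_⟩
  have hX1 : 1 < X := (Real.one_lt_rpow hY (inv_pos.2 hη')).trans_le hX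
  have hy1 : ((2 * k₀ + 2) ^ 2 : ℝ) ≤ y := by
    refine le_trans ?_ hy
    rw [← Real.rpow_inv_le_iff_of_pos (by positivity) (by linarith) hη']
    exact hX
  have hy2 : 1 < y := hY.trans_le hy1
  have hy0 : 0 < y := by linarith
  have hq1 : (2 * k₀ + 2 : ℝ) ≤ q := by
    refine le_trans ?_ ((Real.rpow_le_rpow_of_exponent_le hy2.le
      (show 1 / 2 ≤ 1 - η by linarith)).trans hq)
    rw [← Real.sqrt_eq_rpow]
    exact Real.le_sqrt_of_sq_le hy1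
  obtain ⟨k, h1, h2⟩ := exists_nat_pow_near hx (one_lt_pow₀ hy2 two_ne_zero)
  rw [← pow_mul] at h1 h2
  have hk : k ≤ k₀ := by
    have h3 : X ^ (η' * (2 * k : ℕ)) ≤ X ^ (1 : ℝ) := by
      rw [Real.rpow_mul_natCast (by linarith), Real.rpow_one]
      exact (pow_le_pow_left₀ (by positivity) hy _).trans (h1.trans hxX)
    rw [Real.rpow_le_rpow_left_iff hX1] at h3
    rw [div_le_iff₀ hη'] at hk₀
    push_cast at h3
    have h4 : (k : ℝ) * η' ≤ k₀ * η' := by nlinarith [mul_nonneg (Nat.cast_nonneg (α := ℝ) k) hη'.le]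
    exact_mod_cast le_of_mul_le_mul_right h4 hη'
  refine ⟨k, h1, le_trans ?_ (Nat.pow_le_choose k q)⟩
  have hq2 : 2 * k₀ + 2 ≤ q := by exact_mod_cast hq1
  have h5 : (q : ℝ) / 2 ≤ ((q + 1 - k : ℕ) : ℝ) := by
    rw [div_le_iff₀ two_pos]
    exact_mod_cast (by omega : q ≤ (q + 1 - k) * 2)
  have h6 : (√x / y) ^ (1 - η) ≤ (q : ℝ) ^ k := by
    refine le_trans ?_ (pow_le_pow_left₀ (by positivity) hq k)
    rw [Real.rpow_pow_comm hy0.le]
    refine Real.rpow_le_rpow (by positivity) ?_ (by linarith)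
    rw [div_le_iff₀ hy0, ← pow_succ]
    refine Real.sqrt_le_iff.2 ⟨by positivity, ?_⟩
    rw [← pow_mul, mul_comm]
    exact h2.le
  calc 1 / (2 ^ k₀ * k₀.factorial) * (√x / y) ^ (1 - η)
      ≤ 1 / (2 ^ k * k.factorial) * (q : ℝ) ^ k := by
        refine mul_le_mul (one_div_le_one_div_of_le (by positivity) ?_) h6 (by positivity)
          (by positivity)
        exact mul_le_mul (pow_le_pow_right₀ one_le_two hk)
          (by exact_mod_cast Nat.factorial_le hk) (by positivity) (by positivity)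
    _ = ((q : ℝ) / 2) ^ k / k.factorial := by rw [div_pow]; field_simp
    _ ≤ _ := div_le_div_of_nonneg_right (pow_le_pow_left₀ (by positivity) h5 k) (by positivity)

/-- The final comparison: `√(d / (3 y ^ 2)) / y ≥ √d / (2 X ^ (2 η))`, and `d ≤ √X`. -/
theorem num_final {η c C₀ : ℝ} (hη : 0 < η) (hη2 : η ≤ 1 / 2) (hc : 0 < c) (hC : 0 ≤ C₀) :
    ∃ C : ℝ, 0 ≤ C ∧ ∀ X y d h V : ℝ, 1 ≤ X → 1 ≤ y → y ≤ X ^ η → 1 ≤ d → d ^ 2 ≤ X → 0 ≤ h →
      c * (√(d / (3 * y ^ 2)) / y) ^ (1 - η) ≤ V → h * V ≤ C₀ * d ^ (1 + η) →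
      h ≤ C * X ^ (1 / 4 + 3 * η) := by
  refine ⟨2 * C₀ / c, by positivity, fun X y d h V hX hy hyX hd hdX hh h1 h2 => ?_⟩
  have hX0 : 0 < X := by linarith
  have hd0 : 0 < d := by linarith
  have hy0 : 0 < y := by linarith
  have hA : 1 ≤ X ^ (2 * η) := Real.one_le_rpow hX (by positivity)
  have h3 : y ^ 2 ≤ X ^ (2 * η) := by
    rw [mul_comm, show η * 2 = η * (2 : ℕ) by norm_num, Real.rpow_mul_natCast hX0.le]
    exact pow_le_pow_left₀ hy0.le hyX 2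
  have h4 : d ^ (1 / 2 : ℝ) / (2 * X ^ (2 * η)) ≤ √(d / (3 * y ^ 2)) / y := by
    rw [← Real.sqrt_eq_rpow, le_div_iff₀ hy0]
    refine Real.le_sqrt_of_sq_le ?_
    rw [mul_pow, div_pow, Real.sq_sqrt hd0.le, div_mul_eq_mul_div,
      div_le_div_iff₀ (by positivity) (by positivity), mul_assoc]
    refine mul_le_mul_of_nonneg_left ?_ hd0.le
    nlinarith [mul_self_le_mul_self (sq_nonneg y) h3, sq_nonneg (X ^ (2 * η))]
  have h5 : d ^ (1 / 2 * (1 - η)) / (2 * X ^ (2 * η)) ≤ (√(d / (3 * y ^ 2)) / y) ^ (1 - η) := by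
    refine le_trans ?_ (Real.rpow_le_rpow (by positivity) h4 (by linarith))
    rw [Real.div_rpow (by positivity) (by positivity), ← Real.rpow_mul hd0.le]
    refine div_le_div_of_nonneg_left (by positivity) (by positivity) ?_
    exact Real.rpow_le_self_of_one_le (by linarith) (by linarith)
  have h6 : h * (c * (d ^ (1 / 2 * (1 - η)) / (2 * X ^ (2 * η)))) ≤
      C₀ * (d ^ (1 / 2 + 3 / 2 * η) * d ^ (1 / 2 * (1 - η))) := by
    rw [← Real.rpow_add hd0, show 1 / 2 + 3 / 2 * η + 1 / 2 * (1 - η) = 1 + η by ring]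
    exact (mul_le_mul_of_nonneg_left ((mul_le_mul_of_nonneg_left h5 hc.le).trans h1) hh).trans h2
  have h7 : d ^ (1 / 2 + 3 / 2 * η) ≤ X ^ (1 / 4 + η) := by
    rw [show 1 / 2 + 3 / 2 * η = (2 : ℕ) * (1 / 4 + 3 / 4 * η) by push_cast; ring,
      Real.rpow_natCast_mul hd0.le]
    exact (Real.rpow_le_rpow (by positivity) hdX (by positivity)).trans
      (Real.rpow_le_rpow_of_exponent_le hX (by linarith))
  have h8 : 0 < d ^ (1 / 2 * (1 - η)) := by positivity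
  have h9 : h ≤ 2 * C₀ / c * (d ^ (1 / 2 + 3 / 2 * η) * X ^ (2 * η)) := by
    refine le_of_mul_le_mul_right (a := c * (d ^ (1 / 2 * (1 - η)) / (2 * X ^ (2 * η))))
      (h6.trans_eq ?_) (by positivity)
    field_simp
  refine h9.trans (mul_le_mul_of_nonneg_left ?_ (by positivity))
  rw [show 1 / 4 + 3 * η = 1 / 4 + η + 2 * η by ring, Real.rpow_add hX0]
  exact mul_le_mul_of_nonneg_right h7 (by positivity)

end Pool.Agent.Lib.MP_830c64_nt.CL
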