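import Pool.Agent.Lib.MP_830c64_nt.CL.ADich

/-! The main inequality for one ideal class. -/

namespace Pool.Agent.Lib.MP_830c64_nt.CL

open NumberField Module
open scoped nonZeroDivisors Classical

theorem aone_SB {K : Type} [Field K] [NumberField K] (I : FrI K) {f : InfinitePlace K → ℝ}
    (hf : ∀ w, 0 < f w) (a : ℝ) : SB I f (fun _ => a) = ((bx I f).card - 1) * a := by
  have h0 : (0 : K) ∈ bx I f := mem_bx.2 ⟨I.zero_mem, fun w => by simpa using hf w⟩
  rw [SB, Finset.sum_const, nsmul_eq_mul, ← Finset.card_erase_add_one h0]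
  push_cast
  ring

theorem aone_SI {K : Type} [Field K] [NumberField K] (I : FrI K) (ρ a : ℝ) :
    SI I ρ (fun _ => a) = a * SI I ρ (fun _ => 1) := by
  simp only [SI, Finset.mul_sum, one_mul]

/-- One class. Apply `Tr` with `J = Fin 3`: `I = ![c, c, dual c]`, `R₀ = (N c * rD K) ^ (1 / n)`,
`R = ![R₀, R₀ / lam, (3 n R₀ lam)⁻¹]`, `σ = ![1, 1, -1]`, constant functions `1, -A, -A` where `A`
is the constant of `dichotomy`, `e = 2 A`; `SB I f 1 + 1 = (bx I f).card` as `0 ∈ bx I f`.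
`nI_dual` gives the third parameter. -/
theorem amain_one {K : Type} [Field K] [NumberField K] (hn : Odd (finrank ℚ K)) {Φ : ℝ}
    (hΦ : Tr K Φ) {c : Ideal (𝓞 K)} (hc : c ≠ ⊥) {lam : ℝ} (hl : 1 ≤ lam) :
    SI (c : FrI K) (rD K) (fun _ => 1) ≤ 4 * (6 * finrank ℚ K) ^ finrank ℚ K *
      (2 * lam + 1) ^ ((finrank ℚ K - 1) / 2) * (2 * Φ +
        SI (c : FrI K) (rD K / lam ^ finrank ℚ K) (fun _ => 1) +
        SI (FractionalIdeal.dual ℤ ℚ (c : FrI K))
          (rD K / (3 * finrank ℚ K * lam) ^ finrank ℚ K) (fun _ => 1)) := by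
  set n := finrank ℚ K with hnd
  set A : ℝ := 4 * (6 * n) ^ n * (2 * lam + 1) ^ ((n - 1) / 2) with hA
  have hn0 : 0 < n := finrank_pos
  have hn1 : (0 : ℝ) < n := by exact_mod_cast hn0
  have hc0 : (c : FrI K) ≠ 0 := FractionalIdeal.coeIdeal_ne_zero.2 hc
  have hN := nI_pos hc0
  have hd := one_le_rD K
  set R : ℝ := (nI (c : FrI K) * rD K) ^ ((n : ℝ)⁻¹) with hR
  have hR0 : 0 < R := by positivity
  have hRn : R ^ n = nI (c : FrI K) * rD K := Real.rpow_inv_natCast_pow (by positivity) hn0.ne'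
  have hl0 : 0 < lam := by linarith
  have key := hΦ (Fin 3) Finset.univ ![c, c, FractionalIdeal.dual ℤ ℚ (c : FrI K)]
    ![R, R / lam, (3 * n * R * lam)⁻¹] ![1, 1, -1] ![fun _ => 1, fun _ => -A, fun _ => -A]
    ![fun _ => 1, fun _ => -A, fun _ => -A] (2 * A) (fun j _ => by
      fin_cases j
      · exact ⟨hc0, hR0, .inl rfl, fun _ _ _ => rfl⟩
      · exact ⟨hc0, div_pos hR0 hl0, .inl rfl, fun _ _ _ => rfl⟩
      · exact ⟨FractionalIdeal.dual_ne_zero ℤ ℚ hc0, (by positivity : 0 < (3 * n * R * lam)⁻¹),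
          .inr rfl, fun _ _ _ => rfl⟩) fun f hf hv => by
      have h := dichotomy hn hc0 (fun w => R * f w) (fun w => mul_pos hR0 (hf w))
        (by rw [vl_mul, hv, mul_one, hRn]) hl
      have e2 : (fun w => R / lam * f w) = fun w => R * f w / lam := by
        funext w; ring
      have e3 : (fun w => (3 * n * R * lam)⁻¹ * (f w)⁻¹) =
          fun w => (3 * n * (R * f w))⁻¹ / lam := by
        funext w; have := (hf w).ne'; field_simp
      simp only [Fin.sum_univ_three, Matrix.cons_val_zero, Matrix.cons_val_one, Matrix.cons_val,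
        zpow_one, zpow_neg_one]
      rw [e2, e3, aone_SB _ fun w => mul_pos hR0 (hf w),
        aone_SB _ fun w => div_pos (mul_pos hR0 (hf w)) hl0,
        aone_SB _ fun w => by have := hf w; positivity]
      rw [← hnd, ← hA] at h
      linarith
  simp only [Fin.sum_univ_three, Matrix.cons_val_zero, Matrix.cons_val_one, Matrix.cons_val] at key
  have e1 : R ^ n / nI (c : FrI K) = rD K := by rw [hRn]; field_simp
  have e2 : (R / lam) ^ n / nI (c : FrI K) = rD K / lam ^ n := by rw [div_pow, hRn]; field_simp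
  have e3 : ((3 * n * R * lam)⁻¹) ^ n / nI (FractionalIdeal.dual ℤ ℚ (c : FrI K)) =
      rD K / (3 * n * lam) ^ n := by
    rw [nI_dual hc0, inv_pow, show 3 * n * R * lam = R * (3 * n * lam) by ring, mul_pow R, hRn]
    field_simp
  rw [← hnd, e1, e2, e3, aone_SI _ _ (-A), aone_SI _ _ (-A)] at key
  linarith

end Pool.Agent.Lib.MP_830c64_nt.CL
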