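import Pool.Agent.Lib.MP_830c64_nt.CL.UUnf

/-! The transfer principle. -/

namespace Pool.Agent.Lib.MP_830c64_nt.CL

open NumberField Module MeasureTheory Units.dirichletUnitTheorem
open scoped nonZeroDivisors Classical

/-- `D = ZSpan.fundamentalDomain ((basisUnitLattice K).ofZLatticeBasis ℝ _)`
(`ZLattice.isAddFundamentalDomain`), bounded, measurable, of positive finite measure;
`Φ = (volume D).toReal / (torsionOrder K * c)` with `c` from `vol_rg`. The set `-D` is also a
fundamental domain (`IsAddFundamentalDomain.preimage_of_equiv` or `image_of_equiv` with the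
negation). For `σ j = -1` the shape is `ft (-t)` (`ft_neg`) and
`∫ t in D, g (-t) = ∫ t in -D, g t` (`MeasurePreserving.setIntegral_preimage_emb`,
`measurePreserving_neg`), likewise for integrability. Integrate the hypothesis for `f = ft t` over
`D` (`setIntegral_mono_on`, `integral_finset_sum`) and use `unfold_box`. -/
theorem transfer (K : Type) [Field K] [NumberField K] : ∃ Φ : ℝ, 0 < Φ ∧ Tr K Φ := by
  obtain ⟨c, hc0, hc⟩ := vol_rg K
  set D := ZSpan.fundamentalDomain ((Units.basisUnitLattice K).ofZLatticeBasis ℝ _) with hDd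
  have hD : IsAddFundamentalDomain (Units.unitLattice K) D volume :=
    ZLattice.isAddFundamentalDomain _ _
  have hm : MeasurableSet D := ZSpan.fundamentalDomain_measurableSet _
  have hb : Bornology.IsBounded D := ZSpan.fundamentalDomain_isBounded _
  have hfin : volume D ≠ ⊤ := hb.measure_lt_top.ne
  have hpos : 0 < volume.real D :=
    ENNReal.toReal_pos (ZSpan.measure_fundamentalDomain_ne_zero _) hfin
  have hP := Measure.measurePreserving_neg (volume : Measure (logSpace K))
  have hE := (Homeomorph.neg (logSpace K)).measurableEmbedding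
  have hD' : IsAddFundamentalDomain (Units.unitLattice K) (Neg.neg ⁻¹' D) volume :=
    hD.preimage_of_equiv hP.quasiMeasurePreserving neg_involutive.bijective fun g x => by
      simp [Submodule.vadd_def, add_comm]
  have hT : (0 : ℝ) < Units.torsionOrder K * c :=
    mul_pos (Nat.cast_pos.2 (Units.torsionOrder_pos K)) hc0
  refine ⟨volume.real D / (Units.torsionOrder K * c), div_pos hpos hT,
    fun J s I R σ G F e h he => ?_⟩
  have key : ∀ j ∈ s, IntegrableOn (fun t => SB (I j) (fun w => R j * ft t w ^ σ j) (G j)) D ∧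
      ∫ t in D, SB (I j) (fun w => R j * ft t w ^ σ j) (G j) =
        Units.torsionOrder K * c * SI (I j) (R j ^ finrank ℚ K / nI (I j)) (F j) := by
    intro j hj
    obtain ⟨h1, h2, h3 | h3, h4⟩ := h j hj
    · simpa only [h3, zpow_one] using unfold_box hc0 hc hD hm hb h1 h2 _ _ h4
    · obtain ⟨a1, a2⟩ := unfold_box hc0 hc hD' (hP.measurable hm) hb.neg h1 h2 _ _ h4
      have e1 : D = Neg.neg ⁻¹' (Neg.neg ⁻¹' D) := by ext; simp
      simp only [h3, zpow_neg_one, ← ft_neg]
      rw [e1, ← a2]
      exact ⟨(hP.integrableOn_comp_preimage hE).2 a1,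
        hP.setIntegral_preimage_emb hE (fun t => SB (I j) (fun w => R j * ft t w) (G j)) _⟩
  have h1 := setIntegral_mono_on (integrable_finsetSum s fun j hj => (key j hj).1)
    (integrableOn_const (C := e) hfin) hm fun t _ => he (ft t) (ft_pos t) (vl_ft t)
  rw [integral_finsetSum s fun j hj => (key j hj).1, Finset.sum_congr rfl fun j hj => (key j hj).2,
    ← Finset.mul_sum, setIntegral_const, smul_eq_mul] at h1
  rw [div_mul_eq_mul_div, le_div_iff₀' hT]
  exact h1

end Pool.Agent.Lib.MP_830c64_nt.CL
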