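import Pool.Agent.Lib.MP_830c64_nt.CL.AMain
import Pool.Agent.Lib.MP_830c64_nt.CL.ACnt
import Pool.Agent.Lib.MP_830c64_nt.CL.ANum
import Pool.Agent.Lib.MP_830c64_nt.CL.ANumB
import Pool.Agent.Lib.MP_830c64_nt.CL.UTr

/-! The bound for fields of odd degree with many small primes of degree one. -/

namespace Pool.Agent.Lib.MP_830c64_nt.CL

open NumberField Module
open scoped nonZeroDivisors Classical

theorem asoft_h2_le (K : Type) [Field K] [NumberField K] :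
    (h2 K : ℝ) ≤ Nat.card (ClassGroup (𝓞 K)) :=
  Nat.cast_le.2 (Nat.card_le_card_of_injective Subtype.val Subtype.val_injective)

/-- `η = min (ε / 3) (min (1 / (2 n)) (1 / 16))`, `d = rD K`, `d ^ 2 ≤ X`, `h2 K ≤ h ≤ C d ^ (1 + η)`
(`h_le`). This settles the cases `X ≤ X₁` and `d ≤ X ^ (1 / 4)`. Otherwise `x = d / (3 y ^ 2) ≥ 1`
(`X₁ ≥ 3 ^ 8`). Take `Φ` from `transfer`, `G` from `exists_G0` for the class of the different,
`V = card G * Φ`, `lam = (3 y ^ 2) ^ (1 / n)`. `cnt_mul`, `amain`, `num_absorb` give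
`cntG G x ≤ V`; `num_squares`, `cnt_sq`, `cntG_mono` bound `cntG G x` from below;
`h2 K * V ≤ 2 h Φ ≤ 2 C d ^ (1 + η)` (`hr_le`); `num_final`. -/
theorem soft : SoftStmt := by
  intro n hn h5 ε hε
  have hn0 : (0 : ℝ) < n := by exact_mod_cast (by omega : 0 < n)
  set η : ℝ := min (ε / 3) (min (1 / (2 * n)) (1 / 16)) with hηd
  have hη : 0 < η := lt_min (by positivity) (lt_min (by positivity) (by norm_num))
  have e1 : η ≤ ε / 3 := min_le_left _ _
  have e2 : η ≤ 1 / (2 * n) := (min_le_right _ _).trans (min_le_left _ _)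
  have e3 : η ≤ 1 / 16 := (min_le_right _ _).trans (min_le_right _ _)
  refine ⟨η, hη, by linarith, fun η' hη' => ?_⟩
  obtain ⟨C1, hC1, H1⟩ := h_le n hη
  obtain ⟨C2, hC2, H2⟩ := hr_le n hη
  have hC0 : (1 : ℝ) ≤ 8 * (6 * n) ^ n := by
    have : (1 : ℝ) ≤ (6 * n) ^ n := one_le_pow₀ (by
      have : (5 : ℝ) ≤ n := by exact_mod_cast h5
      linarith)
    linarith
  obtain ⟨Xa, Ha⟩ := num_absorb hn hη' hC0
  obtain ⟨Xb, c, hc, Hb⟩ := num_squares hη (by linarith) hη'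
  obtain ⟨C3, hC3, H3⟩ := num_final hη (by linarith) hc (C₀ := 2 * C2) (by linarith)
  set X₁ : ℝ := max (max Xa Xb) (3 ^ 8) with hX₁
  have hX1 : (1 : ℝ) ≤ X₁ := le_trans (by norm_num) (le_max_right _ _)
  have hp1 : 1 ≤ X₁ ^ (1 + η) := Real.one_le_rpow hX1 (by linarith)
  refine ⟨C3 + C1 * X₁ ^ (1 + η), by positivity, fun K _ _ X y P hK hX hD hy1 hy2 hP hq => ?_⟩
  set d := rD K with hd
  have hd1 : 1 ≤ d := one_le_rD K
  have hd2 : d ^ 2 ≤ X := by rwa [hd, rD, Real.sq_sqrt (abs_nonneg _)]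
  have hdX : d ≤ X := by nlinarith
  have hXe : 1 ≤ X ^ (1 / 4 + ε) := Real.one_le_rpow hX (by linarith)
  have hh : (h2 K : ℝ) ≤ C1 * d ^ (1 + η) := (asoft_h2_le K).trans (H1 K hK.le)
  have hA : 0 ≤ C1 * X₁ ^ (1 + η) := by positivity
  rcases le_or_gt X X₁ with hs | hs
  · have : d ^ (1 + η) ≤ X₁ ^ (1 + η) :=
      Real.rpow_le_rpow (by linarith) (hdX.trans hs) (by linarith)
    calc (h2 K : ℝ) ≤ C1 * X₁ ^ (1 + η) := hh.trans (by gcongr)
      _ ≤ (C3 + C1 * X₁ ^ (1 + η)) * 1 := by linarith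
      _ ≤ _ := by gcongr
  rcases le_or_gt d (X ^ (1 / 4 : ℝ)) with ht | ht
  · have : d ^ (1 + η) ≤ X ^ (1 / 4 + ε) := by
      refine (Real.rpow_le_rpow (by linarith) ht (by linarith)).trans ?_
      rw [← Real.rpow_mul (by linarith)]
      exact Real.rpow_le_rpow_of_exponent_le hX (by linarith)
    calc (h2 K : ℝ) ≤ C1 * X ^ (1 / 4 + ε) := hh.trans (by gcongr)
      _ ≤ _ := by gcongr; nlinarith
  have hy : 1 ≤ y := (Real.one_le_rpow hX hη'.le).trans hy1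
  have h3y : 3 * y ^ 2 ≤ d := by
    have a1 : (3 : ℝ) ≤ X ^ (1 / 8 : ℝ) := by
      have := Real.rpow_le_rpow (by positivity) ((le_max_right _ _).trans hs.le)
        (by norm_num : (0 : ℝ) ≤ 1 / 8)
      rwa [one_div, show (8 : ℝ) = ((8 : ℕ) : ℝ) by norm_num,
        Real.pow_rpow_inv_natCast (by norm_num) (by norm_num), ← one_div, Nat.cast_ofNat] at this
    have a2 : y ^ 2 ≤ X ^ (1 / 8 : ℝ) := by
      refine (pow_le_pow_left₀ (by linarith) hy2 2).trans ?_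
      rw [← Real.rpow_natCast, ← Real.rpow_mul (by linarith)]
      exact Real.rpow_le_rpow_of_exponent_le hX (by push_cast; linarith)
    calc 3 * y ^ 2 ≤ X ^ (1 / 8 : ℝ) * X ^ (1 / 8 : ℝ) := by gcongr
      _ = X ^ (1 / 4 : ℝ) := by rw [← Real.rpow_add (by linarith)]; norm_num
      _ ≤ d := ht.le
  have hy3 : 1 ≤ 3 * y ^ 2 := by nlinarith
  have hx1 : 1 ≤ d / (3 * y ^ 2) := (one_le_div (by linarith)).2 h3y
  have hxd : d / (3 * y ^ 2) ≤ d := div_le_self (by linarith) hy3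
  obtain ⟨Φ, hΦ0, hΦ⟩ := transfer K
  obtain ⟨G, hG1, hG2, hG3⟩ := exists_G0 (cls (differentIdeal ℤ (𝓞 K)))
  choose! J hJ using fun p hp => (hP p hp).2.2
  have hP' : ∀ p ∈ P, p.Prime ∧ (p : ℝ) ≤ y ∧ Ideal.absNorm (J p) = p :=
    fun p hp => ⟨(hP p hp).1, (hP p hp).2.1, hJ p hp⟩
  have hxy : d / (3 * y ^ 2) * y ^ 2 = d / 3 := by field_simp
  have m1 := cnt_mul G hG2 P J hP' (x := d / (3 * y ^ 2)) (by nlinarith)
  rw [hxy] at m1
  have m2 := amain (hK ▸ hn) hΦ G hG1 (lam := (3 * y ^ 2) ^ (1 / n : ℝ))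
    (Real.one_le_rpow hy3 (by positivity))
  rw [hK, one_div, Real.rpow_inv_natCast_pow (by linarith) (by omega), ← one_div] at m2
  have m3 := Ha X y P.card _ _ _ d (((le_max_left _ _).trans (le_max_left _ _)).trans hs.le) hy1
    ((Real.rpow_le_rpow_of_exponent_le hy (by linarith)).trans hq) (Nat.cast_nonneg _)
    (Nat.cast_nonneg _) (by positivity) hd1 hdX m1 m2
  obtain ⟨k, hk1, hk2⟩ := Hb X y (d / (3 * y ^ 2)) P.card
    (((le_max_right _ _).trans (le_max_left _ _)).trans hs.le) hy1 hq hx1 (hxd.trans hdX)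
  have m4 : (P.card.choose k : ℝ) ≤ cntG G (d / (3 * y ^ 2)) :=
    Nat.cast_le.2 ((cnt_sq G hG2 P J hP' k).trans (cntG_mono G hk1))
  have m5 : (h2 K : ℝ) * (Nat.card G * Φ) ≤ 2 * C2 * d ^ (1 + η) := by
    have a1 : (Nat.card G : ℝ) * h2 K ≤ 2 * Nat.card (ClassGroup (𝓞 K)) := by exact_mod_cast hG3
    have a2 := H2 K hK.le Φ hΦ
    nlinarith
  calc (h2 K : ℝ) ≤ C3 * X ^ (1 / 4 + 3 * η) :=
        H3 X y d _ _ hX hy hy2 hd1 hd2 (Nat.cast_nonneg _) ((hk2.trans m4).trans m3) m5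
    _ ≤ C3 * X ^ (1 / 4 + ε) := by gcongr; linarith
    _ ≤ _ := by gcongr; linarith

end Pool.Agent.Lib.MP_830c64_nt.CL
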