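import Pool.Agent.Lib.MP_830c64_nt.CL.BFrob

/-! Separation of the embeddings modulo primes. -/

namespace Pool.Agent.Lib.MP_830c64_nt.CL

open NumberField Module Equiv Finset
open scoped Classical ComplexConjugate

variable {M : Type} [Field M] [NumberField M]

theorem Sep.mono {H : Subgroup (Gl M)} {Δ Δ' : ℕ} (h : Sep H Δ) (hd : Δ ∣ Δ') : Sep H Δ' := fun τ τ' ht =>
  (h τ τ' ht).imp fun _ hx => hx.trans (Nat.cast_dvd_cast hd)

/-- Map `x` along `RingOfIntegers.mapRingHom` of the inclusion of fixed fields. -/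
theorem Sep.inf {A B : Subgroup (Gl M)} {Δ Δ' : ℕ} (h : Sep A Δ) (h' : Sep B Δ') :
    Sep (A ⊓ B) (Δ * Δ') := fun τ τ' ht => by
  rw [Subgroup.mem_inf, not_and_or] at ht
  rw [Nat.cast_mul]
  rcases ht with ht | ht
  · obtain ⟨x, hx⟩ := h τ τ' ht
    exact ⟨RingOfIntegers.mapRingHom
      (IntermediateField.inclusion (ff_le inf_le_left)).toRingHom x, hx.mul_right _⟩
  · obtain ⟨x, hx⟩ := h' τ τ' ht
    exact ⟨RingOfIntegers.mapRingHom
      (IntermediateField.inclusion (ff_le inf_le_right)).toRingHom x, hx.mul_left _⟩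

/-- A nonzero integer `y` with at most `r` conjugates, all of size at most `B`, divides a positive
rational integer of size at most `B ^ r`: the product of the elements of the orbit of `y` is fixed
by the Galois group. -/
theorem dvd_nat [IsGalois ℚ M] {y : 𝓞 M} (h0 : y ≠ 0) {r : ℕ} {B : ℝ} (hB : 1 ≤ B)
    (hr : (univ.image fun γ : Gl M => γ • y).card ≤ r) (hy : ∀ φ : M →+* ℂ, ‖φ y‖ ≤ B) :
    ∃ c : ℕ, c ≠ 0 ∧ (c : ℝ) ≤ B ^ r ∧ y ∣ (c : 𝓞 M) := by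
  obtain ⟨O, hO⟩ : ∃ O, O = univ.image fun γ : Gl M => γ • y := ⟨_, rfl⟩
  rw [← hO] at hr
  have h1 : ∀ g : Gl M, g • ∏ z ∈ O, z = ∏ z ∈ O, z := fun g => by
    have e : O.image (g • ·) = O := by
      rw [hO, image_image]
      ext z
      simp only [mem_image, mem_univ, true_and, Function.comp_apply, smul_smul]
      exact ⟨fun ⟨γ, h⟩ => ⟨_, h⟩, fun ⟨γ, h⟩ => ⟨g⁻¹ * γ, by rwa [mul_inv_cancel_left]⟩⟩
    rw [smul_prod', ← prod_image (f := fun z => z) (MulAction.injective g).injOn, e]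
  obtain ⟨q, hq⟩ := (IsGalois.mem_range_algebraMap_iff_fixed (F := ℚ)
    ((∏ z ∈ O, z : 𝓞 M) : M)).2 fun g => congrArg Subtype.val (h1 g)
  obtain ⟨z, rfl⟩ := (IsIntegrallyClosed.isIntegral_iff (R := ℤ) (x := q)).1
    ((isIntegral_algebraMap_iff (algebraMap ℚ M).injective).1
      (by rw [hq]; exact RingOfIntegers.isIntegral_coe _))
  have h2 : (z : 𝓞 M) = ∏ z ∈ O, z := RingOfIntegers.ext (by simpa using hq)
  have h3 : ∀ x ∈ O, x ≠ 0 ∧ ∀ φ : M →+* ℂ, ‖φ x‖ ≤ B := fun x hx => by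
    obtain ⟨γ, -, rfl⟩ := mem_image.1 (hO ▸ hx)
    exact ⟨(smul_ne_zero_iff_ne γ).2 h0, fun φ => hy (φ.comp (γ : M →+* M))⟩
  refine ⟨z.natAbs, Int.natAbs_ne_zero.2 fun e => prod_ne_zero_iff.2 (fun x hx => (h3 x hx).1)
    (by rw [← h2, e, Int.cast_zero]), ?_, ?_⟩
  · obtain ⟨φ⟩ : Nonempty (M →+* ℂ) := inferInstance
    have h4 := congrArg (fun x : 𝓞 M => ‖φ (algebraMap _ M x)‖) h2
    simp only [map_intCast, map_prod, norm_prod, Complex.norm_intCast] at h4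
    rw [Nat.cast_natAbs, Int.cast_abs, h4]
    exact (prod_le_prod (fun _ _ => norm_nonneg _) fun x hx => (h3 x hx).2 φ).trans
      ((prod_const B).trans_le (pow_le_pow_right₀ hB hr))
  · have h4 : y ∣ (z : 𝓞 M) :=
      h2 ▸ dvd_prod_of_mem _ (hO ▸ mem_image.2 ⟨1, mem_univ _, one_smul _ _⟩)
    exact h4.trans (by simpa using Int.cast_dvd_cast (α := 𝓞 M) _ _ (Int.dvd_natAbs.2 dvd_rfl))

theorem bsep_out (H : Subgroup (Gl M)) (τ : Gl M) : emb H (τ : Gl M ⧸ H).out = emb H τ := by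
  obtain ⟨h, hh⟩ := QuotientGroup.mk_out_eq_mul H τ
  rw [hh, emb_mul_mem τ h.2]

theorem bsep_pair [IsGalois ℚ M] {H : Subgroup (Gl M)} {N : ℕ} (hN : H.index ≤ N) {Y : ℝ}
    (hY : 1 ≤ Y) (hs : Small (FF H) Y) (τ τ' : Gl M) : ∃ c : ℕ, c ≠ 0 ∧
      (c : ℝ) ≤ (2 * Y) ^ (N ^ 2) ∧ (τ⁻¹ * τ' ∉ H → ∃ x, emb H τ x - emb H τ' x ∣ (c : 𝓞 M)) := by
  by_cases ht : τ⁻¹ * τ' ∈ H
  · exact ⟨1, one_ne_zero, by simpa using one_le_pow₀ (by linarith), fun h => absurd ht h⟩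
  obtain ⟨x, ⟨x1, x2⟩, hx⟩ : ∃ x : FF H, (IsIntegral ℤ x ∧ ∀ φ : FF H →+* ℂ, ‖φ x‖ ≤ Y) ∧
      τ x ≠ τ' x := by
    by_contra hc
    refine ht ?_
    rw [← IntermediateField.fixingSubgroup_fixedField H, IntermediateField.mem_fixingSubgroup_iff]
    intro x hx
    have := LinearMap.ext_on (f := τ.toLinearMap ∘ₗ (IntermediateField.val _).toLinearMap)
      (g := τ'.toLinearMap ∘ₗ (IntermediateField.val _).toLinearMap) hs
      fun y hy => not_not.1 fun h => hc ⟨y, hy, h⟩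
    rw [AlgEquiv.mul_apply, ← show τ x = τ' x from LinearMap.congr_fun this ⟨x, hx⟩]
    exact τ.symm_apply_apply x
  refine (dvd_nat (y := emb H τ ⟨x, x1⟩ - emb H τ' ⟨x, x1⟩)
    (sub_ne_zero.2 fun e => hx (congrArg Subtype.val e)) (r := N ^ 2) (B := 2 * Y) (by linarith)
    ?_ fun φ => ?_).imp fun c h => ⟨h.1, h.2.1, fun _ => ⟨_, h.2.2⟩⟩
  · refine (card_le_card (t := univ.image fun p : (Gl M ⧸ H) × (Gl M ⧸ H) =>
      emb H p.1.out ⟨x, x1⟩ - emb H p.2.out ⟨x, x1⟩) (image_subset_iff.2 fun γ _ =>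
        mem_image.2 ⟨(↑(γ * τ), ↑(γ * τ')), mem_univ _, ?_⟩)).trans (card_image_le.trans ?_)
    · rw [bsep_out, bsep_out, emb_mul, emb_mul, smul_sub]
    · rw [card_univ, Fintype.card_prod, ← Nat.card_eq_fintype_card, ← Subgroup.index_eq_card, sq]
      exact Nat.mul_le_mul hN hN
  · rw [two_mul, RingOfIntegers.coe_eq_algebraMap, map_sub, map_sub]
    exact (norm_sub_le _ _).trans (add_le_add
      (x2 (φ.comp ((τ : M →+* M).comp (algebraMap (FF H) M))))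
      (x2 (φ.comp ((τ' : M →+* M).comp (algebraMap (FF H) M)))))

/-- For each pair of different cosets `τ H`, `τ' H` pick a small integer `x` of the fixed field
with `τ x ≠ τ' x` (otherwise `τ⁻¹ * τ'` fixes a spanning set, so lies in
`fixingSubgroup (fixedField H) = H`); `y = τ x - τ' x` has at most `N ^ 2` conjugates, as
`γ • y` depends only on the cosets of `γ * τ` and `γ * τ'`. Multiply over the pairs of cosets. -/
theorem sep_of_small [IsGalois ℚ M] {H : Subgroup (Gl M)} {N : ℕ} (hN : H.index ≤ N) {Y : ℝ}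
    (hY : 1 ≤ Y) (hs : Small (FF H) Y) :
    ∃ Δ : ℕ, Δ ≠ 0 ∧ (Δ : ℝ) ≤ (2 * Y) ^ (N ^ 4) ∧ Sep H Δ := by
  choose c c0 c1 c2 using bsep_pair hN hY hs
  refine ⟨∏ p : (Gl M ⧸ H) × (Gl M ⧸ H), c p.1.out p.2.out, prod_ne_zero_iff.2 fun _ _ => c0 _ _,
    ?_, fun τ τ' ht => ?_⟩
  · rw [Nat.cast_prod]
    refine (prod_le_prod (fun _ _ => Nat.cast_nonneg _) fun _ _ => c1 _ _).trans ?_
    rw [prod_const, ← pow_mul, card_univ, Fintype.card_prod, ← Nat.card_eq_fintype_card,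
      ← Subgroup.index_eq_card]
    refine pow_le_pow_right₀ (by linarith) ?_
    rw [show N ^ 4 = N ^ 2 * (N * N) by ring]
    exact Nat.mul_le_mul_left _ (Nat.mul_le_mul hN hN)
  · obtain ⟨x, hx⟩ := c2 (τ : Gl M ⧸ H).out (τ' : Gl M ⧸ H).out fun h => ht (by
      rwa [← QuotientGroup.eq, QuotientGroup.out_eq', QuotientGroup.out_eq', QuotientGroup.eq] at h)
    rw [bsep_out, bsep_out] at hx
    exact ⟨x, hx.trans (Nat.cast_dvd_cast (dvd_prod_of_mem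
      (fun p : (Gl M ⧸ H) × (Gl M ⧸ H) => c p.1.out p.2.out) (mem_univ (↑τ, ↑τ'))))⟩

theorem small_exists (E : Type) [Field E] [NumberField E] : ∃ Y : ℝ, 1 ≤ Y ∧ Small E Y := by
  obtain ⟨Y, hY⟩ := (Set.finite_range fun p : _ × (E →+* ℂ) =>
    ‖p.2 (integralBasis E p.1)‖).bddAbove
  refine ⟨max 1 Y, le_max_left _ _, top_le_iff.1 ?_⟩
  rw [← (integralBasis E).span_eq]
  refine Submodule.span_mono ?_
  rintro _ ⟨i, rfl⟩
  exact ⟨by rw [integralBasis_apply]; exact RingOfIntegers.isIntegral_coe _,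
    fun φ => le_max_of_le_right (hY ⟨(i, φ), rfl⟩)⟩

theorem Small.mono {E : Type} [Field E] [NumberField E] {Y Y' : ℝ} (h : Small E Y) (hY : Y ≤ Y') :
    Small E Y' :=
  top_le_iff.1 (h.ge.trans (Submodule.span_mono fun _ hx => ⟨hx.1, fun φ => (hx.2 φ).trans hY⟩))

theorem sep_exists [IsGalois ℚ M] (H : Subgroup (Gl M)) : ∃ Δ : ℕ, Δ ≠ 0 ∧ Sep H Δ := by
  obtain ⟨Y, hY, hs⟩ := small_exists (FF H)
  exact (sep_of_small le_rfl hY hs).imp fun _ h => ⟨h.1, h.2.2⟩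

end Pool.Agent.Lib.MP_830c64_nt.CL
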