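import Pool.Agent.Lib.MP_830c64_nt.CL.BRn
import Pool.Agent.Lib.MP_830c64_nt.CL.BSep

/-! The character given by the first inequality, for fixed fields. -/

namespace Pool.Agent.Lib.MP_830c64_nt.CL

open NumberField Module Equiv Finset
open scoped Classical ComplexConjugate

variable {M : Type} [Field M] [NumberField M]

theorem bchr_mem {A A0 : Subgroup (Gl M)} (hn : ∀ a ∈ A, ∀ x ∈ A0, a * x * a⁻¹ ∈ A0) {a : Gl M}
    (ha : a ∈ A) (x : FF A0) : a (x : M) ∈ IntermediateField.fixedField A0 := by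
  rw [IntermediateField.mem_fixedField_iff]
  intro g hg
  have h1 := hn a⁻¹ (A.inv_mem ha) g hg
  rw [inv_inv] at h1
  have h2 := (IntermediateField.mem_fixedField_iff A0 (x : M)).1 x.2 _ h1
  have h3 : g (a (x : M)) = a ((a⁻¹ * g * a) (x : M)) := by
    rw [← AlgEquiv.mul_apply, ← AlgEquiv.mul_apply]
    congr 1
    group
  rw [h3, h2]



/-- The fixed field of `A0` is Galois over the fixed field of `A`, of degree the relative index, and
each `a ∈ A` induces an automorphism. -/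
theorem ff_galois [IsGalois ℚ M] {A A0 : Subgroup (Gl M)} (h : A0 ≤ A)
    (hn : ∀ a ∈ A, ∀ x ∈ A0, a * x * a⁻¹ ∈ A0) :
    letI := alg h
    IsGalois (FF A) (FF A0) ∧ finrank (FF A) (FF A0) = A0.relIndex A ∧
      ∀ a ∈ A, ∃ s : FF A0 ≃ₐ[FF A] FF A0, ∀ x : FF A0, (s x : M) = a (x : M) := by
  let _ := alg h
  have : IsScalarTower (FF A) (FF A0) M := IsScalarTower.of_algebraMap_eq fun _ => rfl
  have hs : ∀ a ∈ A, ∃ s : FF A0 ≃ₐ[FF A] FF A0, ∀ x : FF A0, (s x : M) = a (x : M) := by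
    intro a ha
    refine ⟨{ toFun := fun x => ⟨a (x : M), bchr_mem hn ha x⟩
              invFun := fun x => ⟨a⁻¹ (x : M), bchr_mem hn (A.inv_mem ha) x⟩
              left_inv := fun x => Subtype.ext (a.symm_apply_apply _)
              right_inv := fun x => Subtype.ext (a.apply_symm_apply _)
              map_mul' := fun x y => Subtype.ext (map_mul a _ _)
              map_add' := fun x y => Subtype.ext (map_add a _ _)
              commutes' := fun x => Subtype.ext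
                ((IntermediateField.mem_fixedField_iff A (x : M)).1 x.2 a ha) }, fun _ => rfl⟩
  have : FiniteDimensional (FF A) (FF A0) := Module.Finite.of_restrictScalars_finite ℚ _ _
  refine ⟨IsGalois.of_fixedField_eq_bot _ _ (eq_bot_iff.2 fun x hx => ?_), ?_, hs⟩
  · refine IntermediateField.mem_bot.2 ⟨⟨(x : M), ?_⟩, Subtype.ext rfl⟩
    rw [IntermediateField.mem_fixedField_iff]
    intro a ha
    obtain ⟨s, hs'⟩ := hs a ha
    rw [← hs', (IntermediateField.mem_fixedField_iff ⊤ x).1 hx s (Subgroup.mem_top s)]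
  · have h1 := Module.finrank_mul_finrank (FF A) (FF A0) M
    rw [IntermediateField.finrank_fixedField_eq_card, IntermediateField.finrank_fixedField_eq_card]
      at h1
    have h2 := (A0.subgroupOf A).index_mul_card
    rw [Nat.card_congr (Subgroup.subgroupOfEquivOfLe h).toEquiv] at h2
    exact Nat.eq_of_mul_eq_mul_right Nat.card_pos (h1.trans h2.symm)

theorem ff_complex {I : 𝓞 M} (hI : I ^ 2 = -1) {A : Subgroup (Gl M)} (hA : A ≤ G0 I) :
    IsTotallyComplex (FF A) := by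
  refine ⟨fun v => InfinitePlace.not_isReal_iff_isComplex.1 fun hv => ?_⟩
  have h1 : ((I : 𝓞 M) : M) ∈ IntermediateField.fixedField A := by
    rw [IntermediateField.mem_fixedField_iff]
    intro g hg
    exact congrArg (fun z : 𝓞 M => (z : M)) (MulAction.mem_stabilizer_iff.1 (hA hg))
  have h2 : (⟨(I : M), h1⟩ : FF A) ^ 2 = -1 := by
    refine Subtype.ext ?_
    have := congrArg (algebraMap (𝓞 M) M) hI
    simpa using this
  have h3 := congrArg (InfinitePlace.embedding_of_isReal hv) h2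
  rw [map_pow, map_neg, map_one] at h3
  nlinarith [sq_nonneg (InfinitePlace.embedding_of_isReal hv (⟨(I : M), h1⟩ : FF A))]

theorem bchr_dvd (H : Subgroup (Gl M)) {y : 𝓞 (FF H)} {Δ : ℕ} (hΔ : Δ ≠ 0)
    (h : emb H 1 y ∣ (Δ : 𝓞 M)) : y ∣ (Δ : 𝓞 (FF H)) := by
  obtain ⟨z, hz⟩ := h
  have h1 : ((Δ : ℕ) : M) = ((y : FF H) : M) * (z : M) := by
    have := congrArg (algebraMap (𝓞 M) M) hz
    rw [map_natCast, map_mul] at this
    exact this
  have h0 : (y : FF H) ≠ 0 := by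
    intro h
    rw [h] at h1
    exact hΔ (by simpa using h1)
  have h0' : ((y : FF H) : M) ≠ 0 := fun h => h0 (Subtype.ext h)
  have h2 : algebraMap (FF H) M ((Δ : FF H) / (y : FF H)) = (z : M) := by
    rw [map_div₀, map_natCast, h1]
    exact mul_div_cancel_left₀ _ h0'
  have h3 : IsIntegral ℤ ((Δ : FF H) / (y : FF H)) := by
    rw [← isIntegral_algebraMap_iff (algebraMap (FF H) M).injective, h2]
    exact z.isIntegral_coe
  refine ⟨⟨_, h3⟩, RingOfIntegers.ext ?_⟩
  have h4 : algebraMap (𝓞 (FF H)) (FF H) (Δ : 𝓞 (FF H)) = (Δ : FF H) := map_natCast _ _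
  exact h4.trans (mul_div_cancel₀ _ h0).symm



/-- Take `a ∈ A` outside `A0` and `x` from `Sep A0 Δ` for the pair `1`, `a`; the divisibility
descends to the integers of the fixed field. For `spl` use `rn_pr` and `pr_cop`. -/
theorem chr_exists (hF : FIStmt) (N : ℕ) : ∃ c : ℕ, ∀ (M : Type) [Field M] [NumberField M]
    [IsGalois ℚ M] (I : 𝓞 M) (A A0 : Subgroup (Gl M)) (l Δ : ℕ), I ^ 2 = -1 → A ≤ G0 I → A0 ≤ A →
    (∀ a ∈ A, ∀ x ∈ A0, a * x * a⁻¹ ∈ A0) → l.Prime → A0.relIndex A = l → A0.index ≤ N → Δ ≠ 0 →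
    Sep A Δ → Sep A0 Δ → ∃ χ : Chr A A0 l, χ.f ≤ (2 * Δ) ^ c := by
  obtain ⟨c, hc⟩ := hF N
  refine ⟨c, fun M _ _ _ I A A0 l Δ hI hA h hn hl hi hN hΔ hsA hsA0 => ?_⟩
  let _ := alg h
  obtain ⟨hG, hr, hs⟩ := ff_galois h hn
  obtain ⟨a, ha, ha0⟩ : ∃ a ∈ A, a ∉ A0 := by
    by_contra h'
    push Not at h'
    rw [Subgroup.relIndex_eq_one.2 h'] at hi
    exact hl.one_lt.ne hi
  obtain ⟨s, hs'⟩ := hs a ha
  obtain ⟨x, hx⟩ := hsA0 1 a (by simpa using ha0)
  have h1 : emb A0 1 (s • x - x) = -(emb A0 1 x - emb A0 a x) := by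
    rw [neg_sub, map_sub]
    congr 1
    exact RingOfIntegers.ext (hs' x)
  have h2 : s • x - x ∣ (Δ : 𝓞 (FF A0)) := bchr_dvd A0 hΔ (by rw [h1]; exact hx.neg_left)
  have h3 : s ≠ 1 := by
    rintro rfl
    rw [one_smul, sub_self, zero_dvd_iff] at h2
    exact hΔ (by exact_mod_cast h2)
  obtain ⟨f, w, g1, g2, g3, g4, g5, g6, g7⟩ := hc (FF A) (FF A0) l s x Δ
    (by rw [finrank_FF]; exact hN) hl (hr.trans hi) (ff_complex hI hA) h3 hΔ h2
  refine ⟨⟨f, w, g1, hsA.mono g3, g4, g5, fun Q p σ τ hp hF' hpf hτ => ?_, g7⟩, g2⟩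
  rw [← rn_pr h hp hF' hτ]
  exact g6 _ ((pr_cop hp hF' A0 τ f).2 hpf)

end Pool.Agent.Lib.MP_830c64_nt.CL
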