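import Pool.Agent.Lib.MP_830c64_nt.CL.BDefs

/-! Counting derangements. -/

namespace Pool.Agent.Lib.MP_830c64_nt.CL

open NumberField Module Equiv Finset
open scoped Classical ComplexConjugate

theorem bcomb_pigeon {n : ℕ} (S : Finset ℕ) (r : ℕ → Perm (Fin n)) (b : ℝ) (hb : 0 < b)
    (h : (n.factorial : ℝ) * b ≤ S.card) :
    ∃ p ∈ S, b ≤ (S.filter fun q => r q = r p).card := by
  have hc : (univ : Finset (Perm (Fin n))).card • b ≤ (S.card : ℝ) := by
    rw [card_univ, Fintype.card_perm, Fintype.card_fin, nsmul_eq_mul]; exact h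
  obtain ⟨y, -, hy⟩ := exists_le_card_fiber_of_nsmul_le_card_of_maps_to
    (f := r) (s := S) (t := univ) (fun _ _ => mem_univ _) univ_nonempty hc
  have hpos : 0 < (S.filter fun q => r q = y).card := by exact_mod_cast hb.trans_le hy
  obtain ⟨p, hp⟩ := card_pos.1 hpos
  rw [mem_filter] at hp
  exact ⟨p, hp.1, by rw [hp.2]; exact hy⟩

/-- With `F = n!`, `α = 1 / (16 F ^ 2)`, `δ = α / (4 F ^ 2)`: if at least `α * P.card` primes give
a derangement that is not a cycle, take the most frequent such `g` (only permutations with a fixed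
point are bad for it); otherwise take the most frequent cycle. -/
theorem comb {n : ℕ} (t : (g : Perm (Fin n)) → Der g → Tri n)
    (ht : ∀ g (hg : Der g), g ∈ (t g hg).H ∧ (t g hg).good g ∧
      ∀ g', Der g' → (t g hg).good g' ∨ (g.IsCycle ∧ ¬ g'.IsCycle)) :
    ∃ δ : ℝ, 0 < δ ∧ δ ≤ 1 ∧ ∀ (P : Finset ℕ) (r : ℕ → Perm (Fin n)),
      ((P.filter fun p => ¬ Der (r p)).card : ℝ) < δ * P.card → ∃ (g : Perm (Fin n)) (hg : Der g),
        δ * P.card + 2 * n.factorial * (P.filter fun p => ¬ (t g hg).good (r p)).card ≤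
          (P.filter fun p => (t g hg).good (r p) ∧ r p ∈ (t g hg).H).card := by
  have hF : (1 : ℝ) ≤ n.factorial := by exact_mod_cast Nat.factorial_pos n
  set F : ℝ := (n.factorial : ℝ) with hFdef
  have hF0 : 0 < F := by linarith
  obtain ⟨u, hu0, hu1, huF⟩ : ∃ u : ℝ, 0 < u ∧ u ≤ 1 ∧ F * u = 1 :=
    ⟨F⁻¹, inv_pos.2 hF0, inv_le_one_of_one_le₀ hF, mul_inv_cancel₀ hF0.ne'⟩
  have hu2 : u ^ 2 ≤ u := by nlinarith
  have hu3 : u ^ 3 ≤ u ^ 2 := by nlinarith
  have hu4 : u ^ 4 ≤ u ^ 3 := by nlinarith [pow_pos hu0 3]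
  refine ⟨u ^ 4 / 64, by positivity, by linarith, fun P r hB => ?_⟩
  have hN : (0 : ℝ) < P.card := by
    have h0 : (0 : ℝ) ≤ (P.filter fun p => ¬ Der (r p)).card := Nat.cast_nonneg _
    exact (pos_iff_pos_of_mul_pos (h0.trans_lt hB)).1 (by positivity)
  set N : ℝ := (P.card : ℝ) with hNdef
  have hgood : ∀ (S : Finset ℕ) (p : ℕ) (hp : Der (r p)), S ⊆ P →
      ((S.filter fun q => r q = r p).card : ℝ) ≤
        (P.filter fun q => (t (r p) hp).good (r q) ∧ r q ∈ (t (r p) hp).H).card := by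
    intro S p hp hS
    refine Nat.cast_le.2 (card_le_card fun q hq => ?_)
    rw [mem_filter] at hq ⊢
    refine ⟨hS hq.1, ?_⟩
    rw [hq.2]
    exact ⟨(ht _ hp).2.1, (ht _ hp).1⟩
  set B := P.filter fun p => ¬ Der (r p) with hBdef
  set D1 := P.filter fun p => Der (r p) ∧ ¬ (r p).IsCycle with hD1
  set D2 := P.filter fun p => Der (r p) ∧ (r p).IsCycle with hD2
  have e3 : F * u ^ 3 = u ^ 2 := by rw [show F * u ^ 3 = F * u * u ^ 2 by ring, huF, one_mul]
  have e4 : F * u ^ 4 = u ^ 3 := by rw [show F * u ^ 4 = F * u * u ^ 3 by ring, huF, one_mul]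
  have e2 : F * u ^ 2 = u := by rw [show F * u ^ 2 = F * u * u by ring, huF, one_mul]
  by_cases h1 : u ^ 2 / 16 * N ≤ D1.card
  · obtain ⟨p, hp, hb⟩ := bcomb_pigeon D1 r (u ^ 3 / 16 * N) (by positivity) (by
      rw [← hFdef, show F * (u ^ 3 / 16 * N) = F * u ^ 3 / 16 * N by ring, e3]; exact h1)
    have hp' := (mem_filter.1 hp).2
    refine ⟨r p, hp'.1, ?_⟩
    have hbad : ((P.filter fun q => ¬ (t (r p) hp'.1).good (r q)).card : ℝ) ≤ B.card := by
      refine Nat.cast_le.2 (card_le_card fun q hq => ?_)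
      rw [mem_filter] at hq ⊢
      refine ⟨hq.1, fun hd => ?_⟩
      rcases (ht _ hp'.1).2.2 _ hd with h | h
      · exact hq.2 h
      · exact hp'.2 h.1
    have h2 := hgood D1 p hp'.1 (filter_subset _ _)
    have h3 : 2 * F * ((P.filter fun q => ¬ (t (r p) hp'.1).good (r q)).card : ℝ) ≤
        2 * F * (u ^ 4 / 64 * N) := by
      gcongr; exact hbad.trans hB.le
    rw [show 2 * F * (u ^ 4 / 64 * N) = F * u ^ 4 / 32 * N by ring, e4] at h3
    have h4 : u ^ 4 * N ≤ u ^ 3 * N := by gcongr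
    have h5 : 0 ≤ u ^ 3 * N := by positivity
    linarith
  · push Not at h1
    have hsum : N ≤ B.card + D1.card + D2.card := by
      have : P ⊆ B ∪ D1 ∪ D2 := by
        intro q hq
        simp only [hBdef, hD1, hD2, mem_union, mem_filter]
        tauto
      have h2 := (card_le_card this).trans ((card_union_le _ _).trans
        (Nat.add_le_add_right (card_union_le _ _) _))
      rw [hNdef]; exact_mod_cast h2
    have h4 : u ^ 4 * N ≤ u ^ 2 * N := mul_le_mul_of_nonneg_right (hu4.trans hu3) hN.le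
    have h6 : u ^ 2 * N ≤ u * N := by gcongr
    have h7 : u * N ≤ 1 * N := by gcongr
    have h8 : u ^ 3 * N ≤ u * N := mul_le_mul_of_nonneg_right (hu3.trans hu2) hN.le
    obtain ⟨p, hp, hb⟩ := bcomb_pigeon D2 r (u / 2 * N) (by positivity) (by
      rw [← hFdef, show F * (u / 2 * N) = F * u / 2 * N by ring, huF]; linarith)
    have hp' := (mem_filter.1 hp).2
    refine ⟨r p, hp'.1, ?_⟩
    have hbad : ((P.filter fun q => ¬ (t (r p) hp'.1).good (r q)).card : ℝ) ≤
        B.card + D1.card := by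
      have : (P.filter fun q => ¬ (t (r p) hp'.1).good (r q)) ⊆ B ∪ D1 := by
        intro q hq
        rw [mem_filter] at hq
        simp only [hBdef, hD1, mem_union, mem_filter]
        by_cases hd : Der (r q)
        · rcases (ht _ hp'.1).2.2 _ hd with h | h
          · exact absurd h hq.2
          · exact Or.inr ⟨hq.1, hd, h.2⟩
        · exact Or.inl ⟨hq.1, hd⟩
      exact_mod_cast (card_le_card this).trans (card_union_le _ _)
    have h2 := hgood D2 p hp'.1 (filter_subset _ _)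
    have h3 : 2 * F * ((P.filter fun q => ¬ (t (r p) hp'.1).good (r q)).card : ℝ) ≤
        2 * F * (u ^ 4 / 64 * N + u ^ 2 / 16 * N) := by
      gcongr; linarith
    rw [show 2 * F * (u ^ 4 / 64 * N + u ^ 2 / 16 * N) =
      F * u ^ 4 / 32 * N + F * u ^ 2 / 8 * N by ring, e4, e2] at h3
    have h5 : 0 ≤ u * N := by positivity
    linarith

end Pool.Agent.Lib.MP_830c64_nt.CL
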