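import Pool.Agent.Lib.MP_830c64_nt.CL.IDefs

/-! Definitions for the sieve: fixed fields, Frobenius elements, characters. -/

namespace Pool.Agent.Lib.MP_830c64_nt.CL

open NumberField Module Equiv Finset
open scoped Classical ComplexConjugate

/-- The Galois group. -/
abbrev Gl (M : Type) [Field M] [NumberField M] : Type := M ≃ₐ[ℚ] M

variable {M : Type} [Field M] [NumberField M]

/-- The fixed field, as a type. -/
abbrev FF (H : Subgroup (Gl M)) : Type := IntermediateField.fixedField H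

/-- The inclusion of the fixed field followed by `τ`, on integers. -/
noncomputable def emb (H : Subgroup (Gl M)) (τ : Gl M) : 𝓞 (FF H) →+* 𝓞 M :=
  RingOfIntegers.mapRingHom ((τ : M →+* M).comp (algebraMap (FF H) M))

/-- The prime of the fixed field below `τ⁻¹ Q`. -/
noncomputable def pr (H : Subgroup (Gl M)) (Q : Ideal (𝓞 M)) (τ : Gl M) : Ideal (𝓞 (FF H)) :=
  Q.comap (emb H τ)

/-- `σ` is a Frobenius element at the prime `Q` above `p`. -/
def Frob (Q : Ideal (𝓞 M)) (p : ℕ) (σ : Gl M) : Prop :=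
  Q.IsMaximal ∧ (p : 𝓞 M) ∈ Q ∧ ∀ x : 𝓞 M, σ • x - x ^ p ∈ Q

/-- Different embeddings of the fixed field stay different modulo the primes not dividing `Δ`. -/
def Sep (H : Subgroup (Gl M)) (Δ : ℕ) : Prop :=
  ∀ τ τ' : Gl M, τ⁻¹ * τ' ∉ H → ∃ x : 𝓞 (FF H), emb H τ x - emb H τ' x ∣ (Δ : 𝓞 M)

theorem ff_le {A B : Subgroup (Gl M)} (h : B ≤ A) :
    IntermediateField.fixedField A ≤ IntermediateField.fixedField B :=
  fun _ hx τ => hx ⟨τ.1, h τ.2⟩

/-- The inclusion of fixed fields as an algebra. -/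
@[reducible] noncomputable def alg {A B : Subgroup (Gl M)} (h : B ≤ A) : Algebra (FF A) (FF B) :=
  (IntermediateField.inclusion (ff_le h)).toAlgebra

/-- The relative norm of ideals. -/
noncomputable def rn {A B : Subgroup (Gl M)} (h : B ≤ A) (J : Ideal (𝓞 (FF B))) :
    Ideal (𝓞 (FF A)) :=
  letI := alg h
  Ideal.relNorm (𝓞 (FF A)) J

/-- The character of the compositum. -/
noncomputable def Wp {A B : Subgroup (Gl M)} (w : Ideal (𝓞 (FF A)) → ℂ)
    (w' : Ideal (𝓞 (FF B)) → ℂ) (J : Ideal (𝓞 (FF (A ⊓ B)))) : ℂ :=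
  w (rn inf_le_left J) * conj (w' (rn inf_le_right J))

/-- A nontrivial ray class character of the fixed field of `A` which is one at the primes that
split in the fixed field of `A0`. -/
structure Chr (A A0 : Subgroup (Gl M)) (l : ℕ) where
  f : ℕ
  w : Ideal (𝓞 (FF A)) → ℂ
  two : 2 ≤ f
  sep : Sep A f
  ray : Ray (FF A) f w
  pow : ∀ I, IsCoprime I (Ideal.span {(f : 𝓞 (FF A))}) → w I ^ l = 1
  spl : ∀ (Q : Ideal (𝓞 M)) (p : ℕ) (σ τ : Gl M), p.Prime → Frob Q p σ → ¬ p ∣ f →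
    τ⁻¹ * σ * τ ∈ A0 → w (pr A Q τ) = 1
  nt : ∃ I, w I ≠ 0 ∧ w I ≠ 1

/-- The sum of `w` over the primes of degree one attached to the coset `t`. -/
noncomputable def lam (A G : Subgroup (Gl M)) (w : Ideal (𝓞 (FF A)) → ℂ) (Q : Ideal (𝓞 M))
    (σ : Gl M) (t : Gl M ⧸ G) : ℂ :=
  (Nat.card A : ℂ)⁻¹ *
    ∑ τ ∈ univ.filter (fun τ : Gl M => (τ : Gl M ⧸ G) = t ∧ τ⁻¹ * σ * τ ∈ A), w (pr A Q τ)

/-- A subgroup with a normal subgroup of prime index that misses an even element. -/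
structure Tri (n : ℕ) where
  H : Subgroup (Perm (Fin n))
  H0 : Subgroup (Perm (Fin n))
  l : ℕ
  prime : l.Prime
  le : H0 ≤ H
  nrm : ∀ h ∈ H, ∀ x ∈ H0, h * x * h⁻¹ ∈ H0
  idx : H0.relIndex H = l
  ev : ∃ h ∈ H, h ∉ H0 ∧ Perm.sign h = 1

/-- All the conjugates of `g` in `H` lie in `H0`. -/
def Tri.good {n : ℕ} (t : Tri n) (g : Perm (Fin n)) : Prop :=
  ∀ s : Perm (Fin n), s⁻¹ * g * s ∈ t.H → s⁻¹ * g * s ∈ t.H0

/-- A permutation without fixed points. -/
def Der {n : ℕ} (g : Perm (Fin n)) : Prop := ∀ a, g a ≠ a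

/-- `n` conjugate integers of size at most `T`, permuted by the full symmetric group. -/
structure Dat (M : Type) [Field M] [NumberField M] (n : ℕ) (T : ℝ) where
  ρ : Gl M →* Perm (Fin n)
  θ : Fin n → 𝓞 M
  surj : Function.Surjective ρ
  act : ∀ τ a, τ • θ a = θ (ρ τ a)
  inj : Function.Injective θ
  bd : ∀ a (φ : M →+* ℂ), ‖φ (θ a)‖ ≤ T

/-- The stabiliser of a square root of `-1`. -/
def G0 (I : 𝓞 M) : Subgroup (Gl M) := MulAction.stabilizer (Gl M) I

/-- The preimage of `H` in the stabiliser of `I`. -/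
def Dat.A {n : ℕ} {T : ℝ} (d : Dat M n T) (I : 𝓞 M) (H : Subgroup (Perm (Fin n))) :
    Subgroup (Gl M) := H.comap d.ρ ⊓ G0 I

/-- The divisors of a nonzero ideal. -/
noncomputable def dvs {E : Type} [Field E] [NumberField E] (I : Ideal (𝓞 E)) :
    Finset (Ideal (𝓞 E)) := (idl E (Ideal.absNorm I)).filter (· ∣ I)

/-- The squarefree numbers up to `x`. -/
noncomputable def sqf (x : ℝ) : Finset ℕ := (Icc 1 ⌊x⌋₊).filter Squarefree

end Pool.Agent.Lib.MP_830c64_nt.CL
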