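import Pool.Agent.Lib.MP_830c64_nt.CL.BFrob

/-! Primes of degree one of a fixed field and cosets fixed by Frobenius. -/

namespace Pool.Agent.Lib.MP_830c64_nt.CL

open NumberField Module Equiv Finset
open scoped Classical ComplexConjugate

variable {M : Type} [Field M] [NumberField M]

theorem bdict_nd {Q : Ideal (𝓞 M)} {p Δ : ℕ} {σ : Gl M} (hp : p.Prime) (hF : Frob Q p σ)
    (hΔ : ¬ p ∣ Δ) {y : 𝓞 M} (hy : y ∈ Q) (hd : y ∣ (Δ : 𝓞 M)) : False := by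
  have h1 : (Δ : 𝓞 M) ∈ Q := Q.mem_of_dvd hd hy
  have hc : IsCoprime (p : 𝓞 M) (Δ : 𝓞 M) :=
    Nat.Coprime.cast ((Nat.Prime.coprime_iff_not_dvd hp).2 hΔ)
  obtain ⟨a, b, hab⟩ := hc
  apply hF.1.ne_top
  rw [Ideal.eq_top_iff_one, ← hab]
  exact Q.add_mem (Q.mul_mem_left _ hF.2.1) (Q.mul_mem_left _ h1)

theorem bdict_int {E : Type} [Field E] [NumberField E] {p : ℕ} (hp : p.Prime) {P : Ideal (𝓞 E)}
    (hP : Ideal.absNorm P = p) (x : 𝓞 E) : ∃ n : ℤ, x - n ∈ P := by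
  have hc : Nat.card (𝓞 E ⧸ P) = p := by
    rw [← hP, Ideal.absNorm_apply, Submodule.cardQuot_apply]
  have _ : Fact p.Prime := ⟨hp⟩
  have hne : (1 : 𝓞 E ⧸ P) ≠ 0 := by
    intro h
    have hs : Subsingleton (𝓞 E ⧸ P) := subsingleton_of_zero_eq_one h.symm
    have : Nat.card (𝓞 E ⧸ P) = 1 := Nat.card_unique
    exact hp.one_lt.ne' (hc.symm.trans this)
  have htop := zmultiples_eq_top_of_prime_card hc hne
  have hx : Ideal.Quotient.mk P x ∈ AddSubgroup.zmultiples (1 : 𝓞 E ⧸ P) := by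
    rw [htop]; trivial
  obtain ⟨n, hn⟩ := AddSubgroup.mem_zmultiples_iff.1 hx
  refine ⟨n, Ideal.Quotient.eq.1 ?_⟩
  rw [← hn]
  simp

omit [NumberField M] in
theorem bdict_under {Q : Ideal (𝓞 M)} {p : ℕ} (hp : p.Prime) (hQ : Q.IsPrime)
    (h : (p : 𝓞 M) ∈ Q) : Q.under ℤ = Ideal.span {(p : ℤ)} := by
  have hm : (Ideal.span {(p : ℤ)}).IsMaximal :=
    Ideal.IsPrime.isMaximal ((Ideal.span_singleton_prime (by exact_mod_cast hp.ne_zero)).2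
      (Nat.prime_iff_prime_int.1 hp)) (by simpa using hp.ne_zero)
  symm
  apply hm.eq_of_le (Ideal.IsPrime.under ℤ Q).ne_top
  rw [Ideal.span_singleton_le_iff_mem, Ideal.under_def, Ideal.mem_comap]
  simpa using h

theorem bdict_ex [IsGalois ℚ M] {H : Subgroup (Gl M)} {Q : Ideal (𝓞 M)} {p : ℕ} {σ : Gl M}
    (hp : p.Prime) (hF : Frob Q p σ) {P : Ideal (𝓞 (FF H))} (hP : Ideal.absNorm P = p) :
    ∃ τ : Gl M, pr H Q τ = P := by
  have hPp : P.IsPrime := Ideal.isPrime_of_irreducible_absNorm (by rw [hP]; exact hp)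
  have hP0 : P ≠ ⊥ := by
    rintro rfl
    rw [Ideal.absNorm_bot] at hP
    exact hp.ne_zero hP.symm
  have hPm : P.IsMaximal := hPp.isMaximal hP0
  obtain ⟨Q', hQ', hl⟩ := Ideal.exists_maximal_ideal_liesOver_of_isIntegral P (S := 𝓞 M)
  have hpP : (p : 𝓞 (FF H)) ∈ P := by
    rw [← hP]; exact Ideal.absNorm_mem P
  have hmem : ∀ x : 𝓞 (FF H), x ∈ P ↔ emb H 1 x ∈ Q' := fun x =>
    Ideal.mem_of_liesOver Q' P x
  have hpQ' : (p : 𝓞 M) ∈ Q' := by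
    have := (hmem _).1 hpP
    rwa [map_natCast] at this
  have hQ := hF.1
  obtain ⟨g, hg⟩ := Algebra.IsInvariant.exists_smul_of_under_eq ℤ (𝓞 M) (Gl M) Q' Q
    ((bdict_under hp hQ'.isPrime hpQ').trans (bdict_under hp hQ.isPrime hF.2.1).symm)
  refine ⟨g, ?_⟩
  ext x
  rw [hmem, pr, Ideal.mem_comap, ← mul_one g, emb_mul, hg]
  exact Ideal.smul_mem_pointwise_smul_iff

/-- Every ideal of norm `p` is `pr H Q τ` for some `τ` (lying over, and transitivity of the Galois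
group on the primes above `p`); then `σ • emb H τ x ≡ (emb H τ x) ^ p ≡ emb H τ x` modulo `Q`, so
`Sep` (with `τ` and `σ * τ`) gives `τ⁻¹ * σ * τ ∈ H`. -/
theorem dict_surj [IsGalois ℚ M] {H : Subgroup (Gl M)} {Q : Ideal (𝓞 M)} {p Δ : ℕ} {σ : Gl M}
    (hp : p.Prime) (hF : Frob Q p σ) (hs : Sep H Δ) (hΔ : ¬ p ∣ Δ) {P : Ideal (𝓞 (FF H))}
    (hP : Ideal.absNorm P = p) : ∃ τ : Gl M, τ⁻¹ * σ * τ ∈ H ∧ pr H Q τ = P := by
  obtain ⟨τ, hτ⟩ := bdict_ex hp hF hP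
  refine ⟨τ, ?_, hτ⟩
  by_contra hn
  obtain ⟨x, hx⟩ := hs τ (σ * τ) (by rwa [← mul_assoc])
  obtain ⟨n, hxn⟩ := bdict_int hp hP x
  have hy : emb H τ (x - n) ∈ Q := by
    rw [← hτ] at hxn
    exact hxn
  have h1 : σ • emb H τ (x - n) ∈ Q := by
    have h2 := hF.2.2 (emb H τ (x - n))
    have h3 : emb H τ (x - n) ^ p ∈ Q := Q.pow_mem_of_mem hy p hp.pos
    simpa using Q.add_mem h2 h3
  refine bdict_nd hp hF hΔ ?_ hx
  have h4 := Q.sub_mem hy h1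
  rw [← emb_mul, map_sub, map_sub, map_intCast, map_intCast] at h4
  simpa using h4

/-- Every `x` is congruent to an integer modulo the common prime of norm `p`, so
`emb H τ x ≡ emb H τ' x` modulo `Q`. -/
theorem dict_inj {H : Subgroup (Gl M)} {Q : Ideal (𝓞 M)} {p Δ : ℕ} {σ τ τ' : Gl M}
    (hp : p.Prime) (hF : Frob Q p σ) (hs : Sep H Δ) (hΔ : ¬ p ∣ Δ) (hτ : τ⁻¹ * σ * τ ∈ H)
    (h : pr H Q τ = pr H Q τ') : τ⁻¹ * τ' ∈ H := by
  by_contra hn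
  obtain ⟨x, hx⟩ := hs τ τ' hn
  obtain ⟨n, hxn⟩ := bdict_int hp (pr_norm hp hF hτ) x
  have h1 : emb H τ (x - n) ∈ Q := hxn
  have h2 : emb H τ' (x - n) ∈ Q := by
    rw [h] at hxn
    exact hxn
  refine bdict_nd hp hF hΔ ?_ hx
  have h4 := Q.sub_mem h1 h2
  rw [map_sub, map_sub, map_intCast, map_intCast] at h4
  simpa using h4

/-- The fibres of `τ ↦ pr H Q τ` over the ideals of norm `p` are cosets of `H`. -/
theorem dict [IsGalois ℚ M] {H : Subgroup (Gl M)} {Q : Ideal (𝓞 M)} {p Δ : ℕ} {σ : Gl M}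
    (hp : p.Prime) (hF : Frob Q p σ) (hs : Sep H Δ) (hΔ : ¬ p ∣ Δ) (u : Ideal (𝓞 (FF H)) → ℂ) :
    (Nat.card H : ℂ) * ∑ P ∈ np (FF H) p, u P =
      ∑ τ ∈ univ.filter (fun τ : Gl M => τ⁻¹ * σ * τ ∈ H), u (pr H Q τ) := by
  rw [← Finset.sum_fiberwise_of_maps_to (t := np (FF H) p) (g := fun τ => pr H Q τ)
    (fun τ hτ => mem_np.2 (pr_norm hp hF (Finset.mem_filter.1 hτ).2)), Finset.mul_sum]
  refine Finset.sum_congr rfl fun P hP => ?_
  obtain ⟨τ0, h0, h1⟩ := dict_surj hp hF hs hΔ (mem_np.1 hP)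
  rw [Finset.sum_congr rfl (g := fun _ => u P)
    (fun τ hτ => by rw [(Finset.mem_filter.1 hτ).2]), Finset.sum_const, nsmul_eq_mul]
  congr 2
  rw [Nat.card_eq_fintype_card, ← Finset.card_univ]
  refine Finset.card_bij (fun h _ => τ0 * h) ?_ ?_ ?_
  · intro h _
    simp only [Finset.mem_filter, Finset.mem_univ, true_and]
    refine ⟨?_, by rw [pr_mul Q τ0 h.2, h1]⟩
    have : (τ0 * h)⁻¹ * σ * (τ0 * h) = (h : Gl M)⁻¹ * (τ0⁻¹ * σ * τ0) * h := by group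
    rw [this]
    exact H.mul_mem (H.mul_mem (H.inv_mem h.2) h0) h.2
  · intro a _ b _ hab
    exact Subtype.ext (mul_left_cancel hab)
  · intro τ hτ
    simp only [Finset.mem_filter, Finset.mem_univ, true_and] at hτ
    exact ⟨⟨τ0⁻¹ * τ, dict_inj hp hF hs hΔ h0 (h1.trans hτ.2.symm)⟩, Finset.mem_univ _, by simp⟩

end Pool.Agent.Lib.MP_830c64_nt.CL
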