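import Pool.Agent.Lib.MP_830c64_nt.CL.BFrob

/-! The Galois group acts on the embeddings through the full symmetric group. -/

namespace Pool.Agent.Lib.MP_830c64_nt.CL

open NumberField Module Equiv Finset
open scoped Classical ComplexConjugate

variable {M : Type} [Field M] [NumberField M]

theorem bset1_aux {n : ℕ} {K N : Type} [Field K] [NumberField K] [Field N] [Algebra ℚ N]
    [hN : IsNormalClosure ℚ K N] (hS : IsSn n K) (e : Fin n ≃ (K →ₐ[ℚ] N)) (π : Perm (Fin n)) :
    ∃ σ : N ≃ₐ[ℚ] N, ∀ a x, σ (e a x) = e (π a) x := by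
  have hC : IsNormalClosure ℚ K (IntermediateField.normalClosure ℚ K ℂ) :=
    Algebra.IsAlgebraic.isNormalClosure_normalClosure fun _ => IsAlgClosed.splits _
  obtain ⟨ψ⟩ := hS
  have E : (N ≃ₐ[ℚ] N) ≃ Perm (Fin n) :=
    (AlgEquiv.autCongr (IsNormalClosure.equiv (F := ℚ) (K := K) (L := N)
      (L' := IntermediateField.normalClosure ℚ K ℂ))).toEquiv.trans ψ.toEquiv
  let φ : (N ≃ₐ[ℚ] N) → Perm (Fin n) := fun σ =>
    (e.trans (AlgEquiv.arrowCongr AlgEquiv.refl σ)).trans e.symm
  have hφ : ∀ σ a x, e (φ σ a) x = σ (e a x) := by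
    intro σ a x
    simp [φ]
  have hinj : Function.Injective φ := by
    intro σ σ' h
    have htop : IntermediateField.normalClosure ℚ K N = ⊤ :=
      (Algebra.IsAlgebraic.isNormalClosure_iff.mp hN).2
    have hle : IntermediateField.normalClosure ℚ K N ≤
        IntermediateField.fixedField (Subgroup.zpowers (σ'⁻¹ * σ)) := by
      rw [normalClosure_le_iff]
      rintro f y ⟨x, rfl⟩
      obtain ⟨a, rfl⟩ := e.surjective f
      have h1 : σ (e a x) = σ' (e a x) := by rw [← hφ, ← hφ, h]
      have h2 : (σ'⁻¹ * σ) ∈ MulAction.stabilizer (N ≃ₐ[ℚ] N) (e a x) := by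
        rw [MulAction.mem_stabilizer_iff, mul_smul, inv_smul_eq_iff]
        exact h1
      rw [IntermediateField.mem_fixedField_iff]
      intro g hg
      exact (Subgroup.zpowers_le.mpr h2) hg
    ext y
    have hy : y ∈ IntermediateField.fixedField (Subgroup.zpowers (σ'⁻¹ * σ)) :=
      hle (htop ▸ IntermediateField.mem_top)
    have h3 : (σ'⁻¹ * σ) • y = y :=
      (IntermediateField.mem_fixedField_iff _ _).mp hy _ (Subgroup.mem_zpowers _)
    rw [mul_smul, inv_smul_eq_iff] at h3
    exact h3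
  have : Finite (N ≃ₐ[ℚ] N) := Finite.of_equiv _ E.symm
  obtain ⟨σ, rfl⟩ := (Finite.injective_iff_surjective_of_equiv E).mp hinj π
  exact ⟨σ, fun a x => (hφ σ a x).symm⟩

/-- The kernel of the action on the embeddings is the fixing subgroup of
`IntermediateField.normalClosure ℚ K M`, so the image has as many elements as the degree of that
field; it is isomorphic to the normal closure in `ℂ` (`IsNormalClosure.equiv`), whose degree is
`n!` by `IsSn`. -/
theorem act_surj [IsGalois ℚ M] {n : ℕ} {K : Type} [Field K] [NumberField K]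
    (hK : finrank ℚ K = n) (hS : IsSn n K) (e : Fin n ≃ (K →ₐ[ℚ] M)) (π : Perm (Fin n)) :
    ∃ τ : Gl M, ∀ a x, τ (e a x) = e (π a) x := by
  have hn : 0 < n := hK ▸ Module.finrank_pos
  have : Nonempty (K →ₐ[ℚ] M) := ⟨e ⟨0, hn⟩⟩
  obtain ⟨σ, hσ⟩ := bset1_aux (N := IntermediateField.normalClosure ℚ K M) hS
    (e.trans (normalClosure.algHomEquiv ℚ K M).symm) π
  refine ⟨σ.liftNormal M, fun a x => ?_⟩
  have h1 := σ.liftNormal_commutes M ((e.trans (normalClosure.algHomEquiv ℚ K M).symm) a x)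
  rw [hσ] at h1
  exact h1

end Pool.Agent.Lib.MP_830c64_nt.CL
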