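import Pool.Agent.Lib.MP_830c64_nt.CL.BSet0
import Pool.Agent.Lib.MP_830c64_nt.CL.BSet1

/-! The permutation data of a family of fields. -/

namespace Pool.Agent.Lib.MP_830c64_nt.CL

open NumberField Module Equiv Finset
open scoped Classical ComplexConjugate

variable {M : Type} [Field M] [NumberField M]

/-- `ρ τ` is the permutation `a ↦ e.symm (τ ∘ e a)`, `θ a` is the image of the generator. -/
theorem exists_dat [IsGalois ℚ M] {n : ℕ} {K : Type} [Field K] [NumberField K]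
    (hK : finrank ℚ K = n) (hS : IsSn n K) (e : Fin n ≃ (K →ₐ[ℚ] M)) (θ : 𝓞 K)
    (hθ : IntermediateField.adjoin ℚ {(θ : K)} = ⊤) {T : ℝ} (hT : ∀ φ : K →+* ℂ, ‖φ θ‖ ≤ T) :
    ∃ d : Dat M n T, ∀ τ a x, τ (e a x) = e (d.ρ τ a) x := by
  let r : Gl M →* Function.End (Fin n) :=
    { toFun := fun τ a => e.symm ((τ : M →ₐ[ℚ] M).comp (e a))
      map_one' := funext fun a => e.symm_apply_eq.2 rfl
      map_mul' := fun τ σ => funext fun a => congrArg e.symm (by
        rw [e.apply_symm_apply]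
        rfl) }
  have hr : ∀ τ a x, τ (e a x) = e (r.toHomPerm τ a) x := fun τ a x => by
    change _ = e (e.symm _) x
    rw [e.apply_symm_apply]
    rfl
  refine ⟨⟨r.toHomPerm, fun a => RingOfIntegers.mapRingHom (e a : K →+* M) θ, fun π => ?_,
    fun τ a => RingOfIntegers.ext (hr τ a θ), fun a b h => e.injective ?_,
    fun a φ => hT (φ.comp (e a))⟩, hr⟩
  · obtain ⟨τ, h⟩ := act_surj hK hS e π
    exact ⟨τ, Equiv.ext fun a => e.injective (AlgHom.ext fun x => (hr τ a x).symm.trans (h a x))⟩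
  · refine AlgHom.ext_of_adjoin_eq_top (IntermediateField.adjoin_eq_top_iff.1 hθ) ?_
    rintro _ rfl
    exact congrArg ((↑) : 𝓞 M → M) h

/-- Two embeddings into a Galois extension with the same stabiliser have the same image. -/
theorem iso_of_stab [IsGalois ℚ M] {K K' : Type} [Field K] [NumberField K] [Field K']
    [NumberField K'] (e : K →ₐ[ℚ] M) (e' : K' →ₐ[ℚ] M)
    (h : ∀ τ : Gl M, (∀ x, τ (e x) = e x) ↔ ∀ x, τ (e' x) = e' x) : Nonempty (K ≃+* K') := by
  have : e.fieldRange = e'.fieldRange := by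
    rw [← IsGalois.fixedField_fixingSubgroup e.fieldRange,
      ← IsGalois.fixedField_fixingSubgroup e'.fieldRange]
    refine congrArg _ (Subgroup.ext fun τ => ?_)
    simpa [IntermediateField.mem_fixingSubgroup_iff] using h τ
  exact ⟨((AlgEquiv.ofInjectiveField e).trans ((IntermediateField.equivOfEq this).trans
    (AlgEquiv.ofInjectiveField e').symm)).toRingEquiv⟩

/-- The stabiliser `S i` contains the kernel, so it is the preimage of its image: on a fibre of
`i ↦ ker (ρ i)` the map `i ↦ (S i).map (ρ i0)` to the subgroups of the symmetric group is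
injective. -/
theorem thin {Γ ι : Type} [Group Γ] {n : ℕ} (s : Finset ι) (ρ : ι → Γ →* Perm (Fin n))
    (S : ι → Subgroup Γ) (hS : ∀ i, (ρ i).ker ≤ S i)
    (hi : ∀ i ∈ s, ∀ j ∈ s, S i = S j → i = j) : ∃ s' ⊆ s, s.card ≤ 2 ^ n.factorial * s'.card ∧
      ∀ i ∈ s', ∀ j ∈ s', i ≠ j → (ρ i).ker ≠ (ρ j).ker := by
  obtain ⟨u, u1, u2, u3⟩ := exists_subset_injOn_image_eq_of_surjOn (f := fun i => (ρ i).ker)
    (s : Set ι) (s.image fun i => (ρ i).ker) (by rw [coe_image]; exact Set.surjOn_image _ _)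
  refine ⟨u, u1, ?_, fun i hi j hj h e => h (u2 hi hj e)⟩
  rw [← card_image_of_injOn u2, u3]
  refine card_le_mul_card_image s _ fun a ha => ?_
  obtain ⟨k, -, rfl⟩ := mem_image.1 ha
  refine (card_le_card_of_injOn (t := univ) (fun i => univ.filter (· ∈ (S i).map (ρ k)))
    (fun _ _ => mem_univ _) fun i a j b e => ?_).trans_eq
      (by rw [card_univ, Fintype.card_finset, Fintype.card_perm, Fintype.card_fin])
  obtain ⟨a1, a2⟩ := mem_filter.1 a
  obtain ⟨b1, b2⟩ := mem_filter.1 b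
  refine hi i a1 j b1 ?_
  rw [← Subgroup.comap_map_eq_self (a2.ge.trans (hS i)),
    ← Subgroup.comap_map_eq_self (b2.ge.trans (hS j))]
  exact congrArg _ (Subgroup.ext fun x => by simpa using Finset.ext_iff.1 e x)

/-- Everything together; the ideal of norm `p` comes from `norm_comap`. -/
theorem setup {n : ℕ} (hn : Odd n) : ∃ c : ℝ, 2 ≤ c ∧ ∀ (ι : Type) [Fintype ι] (K : ι → Type)
    [∀ i, Field (K i)] [∀ i, NumberField (K i)] (X : ℝ), 1 ≤ X →
    (∀ i, finrank ℚ (K i) = n ∧ IsSn n (K i) ∧ |(discr (K i) : ℝ)| ≤ X) →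
    (∀ i j, Nonempty (K i ≃+* K j) → i = j) →
    ∃ (M : Type) (_ : Field M) (_ : NumberField M) (_ : IsGalois ℚ M) (I : 𝓞 M)
      (d : ι → Dat M n (c * X)), I ^ 2 = -1 ∧
      (∀ (i : ι) (Q : Ideal (𝓞 M)) (p : ℕ) (σ : Gl M), p.Prime → Frob Q p σ → ¬ Der ((d i).ρ σ) →
        ∃ J : Ideal (𝓞 (K i)), Ideal.absNorm J = p) ∧
      ∀ s : Finset ι, ∃ s' ⊆ s, s.card ≤ 2 ^ n.factorial * s'.card ∧
        ∀ i ∈ s', ∀ j ∈ s', i ≠ j → (d i).ρ.ker ≠ (d j).ρ.ker := by
  obtain ⟨c, c2, hc⟩ := exists_gen hn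
  refine ⟨c, c2, fun ι _ K _ _ X _ hK hi => ?_⟩
  obtain ⟨M, _, _, _, ⟨I, hI⟩, hM⟩ := exists_big ι K
  let e : ∀ i, Fin n ≃ (K i →ₐ[ℚ] M) := fun i =>
    (Finite.equivFinOfCardEq ((hM i).trans (hK i).1)).symm
  choose θ t1 t2 using fun i => hc (K i) (hK i).1
  choose d hd using fun i => exists_dat (hK i).1 (hK i).2.1 (e i) (θ i) (t1 i) (T := c * X)
    fun φ => (t2 i φ).trans (mul_le_mul_of_nonneg_left (hK i).2.2 (by linarith))
  have st : ∀ i τ a, (∀ x, τ (e i a x) = e i a x) ↔ (d i).ρ τ a = a := fun i τ a => by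
    simp only [hd]
    exact ⟨fun h => (e i).injective (AlgHom.ext h), fun h x => by rw [h]⟩
  refine ⟨M, inferInstance, inferInstance, inferInstance, I, d, hI, fun i Q p σ hp hF h => ?_,
    fun s => thin s _ (fun i => (MulAction.stabilizer _ (⟨0, hn.pos⟩ : Fin n)).comap (d i).ρ)
      (fun i => Subgroup.ker_le_comap _ _) fun i _ j _ h => hi i j
        (iso_of_stab (e i ⟨0, hn.pos⟩) (e j ⟨0, hn.pos⟩) fun τ => ?_)⟩
  · obtain ⟨a, ha⟩ := not_forall.1 h
    exact ⟨_, norm_comap hp hF (RingOfIntegers.mapRingHom (e i a : K i →+* M))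
      fun x => RingOfIntegers.ext ((st i σ a).2 (not_not.1 ha) x)⟩
  · rw [st, st]
    exact SetLike.ext_iff.1 h τ

end Pool.Agent.Lib.MP_830c64_nt.CL
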