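import Pool.Agent.Lib.MP_830c64_nt.CL.BSieve
import Pool.Agent.Lib.MP_830c64_nt.CL.BSet2

/-! The theorem for a fixed range of discriminants. -/

namespace Pool.Agent.Lib.MP_830c64_nt.CL

open NumberField Module Equiv Finset
open scoped Classical ComplexConjugate

/-- For large `X`: `SoftStmt`, `sieve` with `c0 = 2`, `setup`. -/
theorem main_X (hC : CancelStmt) (hF : FIStmt) (hD : DensStmt) (hS : SoftStmt) {n : ℕ}
    (hn : Odd n) (h5 : 5 ≤ n) {ε : ℝ} (hε : 0 < ε) : ∃ A X0 : ℝ, 0 ≤ A ∧ ∀ X : ℝ, X0 ≤ X →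
      ∀ (ι : Type) (s : Finset ι) (K : ι → Type) [∀ i, Field (K i)] [∀ i, NumberField (K i)],
      (∀ i ∈ s, finrank ℚ (K i) = n ∧ IsSn n (K i) ∧ |(discr (K i) : ℝ)| ≤ X) →
      (∀ i ∈ s, ∀ j ∈ s, Nonempty (K i ≃+* K j) → i = j) →
      (∀ i ∈ s, A * X ^ (1 / 4 + ε) < h2 (K i)) → (s.card : ℝ) ≤ A * X ^ ε := by
  obtain ⟨η, hη, hη1, hS⟩ := hS n hn h5 ε hε
  obtain ⟨η', hη', A, X0, hA, hX⟩ := sieve hC hF hD hn h5 hη hη1 hε (two_pos (α := ℝ))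
  obtain ⟨C, hC0, hS⟩ := hS η' hη'
  obtain ⟨c, hc, hset⟩ := setup hn
  refine ⟨max C (2 ^ n.factorial * A), max X0 c, le_max_of_le_left hC0,
    fun X hXX ι s K _ _ h1 h2 h3 => ?_⟩
  have hXc : c ≤ X := (le_max_right _ _).trans hXX
  have hX1 : 1 ≤ X := by linarith
  obtain ⟨y, P, hy1, hy2, hP, hmain⟩ := hX X ((le_max_left _ _).trans hXX)
  obtain ⟨M, _, _, _, I, d, hI, hd, hthin⟩ := hset s (fun i => K i) X hX1 (fun i => h1 i i.2)
    fun i j h => Subtype.ext (h2 i i.2 j j.2 h)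
  obtain ⟨s', -, hs1, hs2⟩ := hthin univ
  have hQ : ∀ p : ℕ, ∃ (Q : Ideal (𝓞 M)) (σ : Gl M), p.Prime → Frob Q p σ := fun p => by
    by_cases hp : p.Prime
    · obtain ⟨Q, σ, h⟩ := exists_frob (M := M) hp
      exact ⟨Q, σ, fun _ => h⟩
    · exact ⟨⊤, 1, fun h => absurd h hp⟩
  choose Q σ hQ using hQ
  have h4 : (s'.card : ℝ) ≤ A * X ^ ε := by
    refine hmain M I s s' (c * X) d Q σ hI (by nlinarith) (by rw [Real.rpow_two]; nlinarith) hQ
      hs2 fun i _ => lt_of_not_ge fun h => (h3 i i.2).not_ge ?_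
    refine (hS (K i) X y _ (h1 i i.2).1 hX1 (h1 i i.2).2.2 hy1 hy2 (fun p hp => ?_) h).trans
      (mul_le_mul_of_nonneg_right (le_max_left _ _) (Real.rpow_nonneg (by linarith) _))
    obtain ⟨hp1, hp2⟩ := mem_filter.1 hp
    exact ⟨(hP p hp1).1, (hP p hp1).2, hd i (Q p) p (σ p) (hP p hp1).1 (hQ p (hP p hp1).1) hp2⟩
  rw [card_univ, Fintype.card_coe] at hs1
  have h5 : (s.card : ℝ) ≤ 2 ^ n.factorial * s'.card := by exact_mod_cast hs1
  calc (s.card : ℝ) ≤ 2 ^ n.factorial * (A * X ^ ε) :=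
        h5.trans (mul_le_mul_of_nonneg_left h4 (by positivity))
    _ ≤ _ := by
      rw [← mul_assoc]
      exact mul_le_mul_of_nonneg_right (le_max_right _ _) (Real.rpow_nonneg (by linarith) _)

end Pool.Agent.Lib.MP_830c64_nt.CL
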