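import Pool.Agent.Lib.MP_830c64_nt.CL.BFinX
import Pool.Agent.Lib.MP_830c64_nt.Narrow

/-! The theorem, from the four statements of the interface. -/

namespace Pool.Agent.Lib.MP_830c64_nt.CL

open NumberField Module Equiv Finset
open scoped Classical ComplexConjugate

/-- Below `X0` there are finitely many fields (`NumberField.finite_of_discr_bdd`), so the
cardinality of `s` is bounded. -/
theorem few (X0 : ℝ) : ∃ A : ℝ, 0 ≤ A ∧
    ∀ (ι : Type) (s : Finset ι) (K : ι → Type) [∀ i, Field (K i)] [∀ i, NumberField (K i)],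
      (∀ i ∈ s, |(discr (K i) : ℝ)| ≤ X0) →
      (∀ i ∈ s, ∀ j ∈ s, Nonempty (K i ≃+* K j) → i = j) → (s.card : ℝ) ≤ A := by
  have hS := NumberField.finite_of_discr_bdd ℂ ⌈X0⌉₊
  refine ⟨hS.toFinset.card, Nat.cast_nonneg _, fun ι s K _ _ hd hi => ?_⟩
  let φ : ∀ i, K i →ₐ[ℚ] ℂ := fun i => IsAlgClosed.lift
  let e : ∀ i, K i ≃ₐ[ℚ] (φ i).fieldRange := fun i => AlgEquiv.ofInjectiveField (φ i)
  let f : ι → {F : IntermediateField ℚ ℂ // FiniteDimensional ℚ F} := fun i =>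
    ⟨(φ i).fieldRange, (e i).toLinearEquiv.finiteDimensional⟩
  refine Nat.cast_le.2 (Finset.card_le_card_of_injOn f (fun i hi' => ?_) fun i hi' j hj' h => ?_)
  · simp only [Set.Finite.coe_toFinset]
    have : NumberField (φ i).fieldRange := @NumberField.mk _ _ inferInstance (f i).prop
    show |discr (φ i).fieldRange| ≤ (⌈X0⌉₊ : ℤ)
    rw [← discr_eq_discr_of_algEquiv _ (e i)]
    have h1 := (hd i hi').trans (Nat.le_ceil X0)
    exact_mod_cast h1
  · have h2 : (φ i).fieldRange = (φ j).fieldRange := congrArg Subtype.val h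
    exact hi i hi' j hj'
      ⟨(((e i).trans (IntermediateField.equivOfEq h2)).trans (e j).symm).toRingEquiv⟩

theorem bfinal_geom {r : ℝ} (J : ℕ) :
    (∑ j ∈ range (J + 1), r ^ (j + 1)) * (r - 1) = r ^ (J + 2) - r := by
  induction J with
  | zero => simp; ring
  | succ J ih => rw [sum_range_succ, add_mul, ih]; ring

/-- Split the exceptional set according to `2 ^ j ≤ |discr| < 2 ^ (j + 1)`, use `main_X` at
`2 ^ (j + 1)` (or `few`), sum the geometric series, and use `narrow_le`. -/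
theorem main (hC : CancelStmt) (hF : FIStmt) (hD : DensStmt) (hS : SoftStmt) (n : ℕ) (hn : Odd n)
    (h5 : 5 ≤ n) (ε : ℝ) (hε : 0 < ε) :
    ∃ A : ℝ, ∀ X : ℝ, 1 ≤ X → ∀ (ι : Type) (s : Finset ι) (K : ι → Type)
      [∀ i, Field (K i)] [∀ i, NumberField (K i)],
      (∀ i ∈ s, Module.finrank ℚ (K i) = n ∧ IsSn n (K i) ∧ |(discr (K i) : ℝ)| ≤ X) →
      (∀ i ∈ s, ∀ j ∈ s, Nonempty (K i ≃+* K j) → i = j) →
      (Set.ncard {i | i ∈ s ∧ ¬ (Finite (NarrowClass (𝓞 (K i)) (K i)) ∧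
        (twoTors (NarrowClass (𝓞 (K i)) (K i)) : ℝ) ≤ A * |(discr (K i) : ℝ)| ^ (1 / 4 + ε))} : ℝ) ≤
        A * X ^ ε := by
  obtain ⟨A0, X0, hA0, hX⟩ := main_X hC hF hD hS hn h5 hε
  obtain ⟨B, hB, hfew⟩ := few X0
  set r : ℝ := 2 ^ ε with hr
  have hr1 : 1 < r := Real.one_lt_rpow one_lt_two hε
  set A1 : ℝ := 2 ^ n * A0 * 2 ^ (1 / 4 + ε) with hA1
  set A2 : ℝ := (A0 + B) * (r ^ 2 / (r - 1)) with hA2
  refine ⟨max A1 A2, fun X h1 ι s K _ _ hK hi => ?_⟩
  set E : Finset ι := s.filter fun i => ¬ (Finite (NarrowClass (𝓞 (K i)) (K i)) ∧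
    (twoTors (NarrowClass (𝓞 (K i)) (K i)) : ℝ) ≤
      max A1 A2 * |(discr (K i) : ℝ)| ^ (1 / 4 + ε)) with hE
  have hset : {i | i ∈ s ∧ ¬ (Finite (NarrowClass (𝓞 (K i)) (K i)) ∧
      (twoTors (NarrowClass (𝓞 (K i)) (K i)) : ℝ) ≤
        max A1 A2 * |(discr (K i) : ℝ)| ^ (1 / 4 + ε))} = (E : Set ι) := by
    rw [hE, Finset.coe_filter]
  rw [hset, Set.ncard_coe_finset]
  let lg : ι → ℕ := fun i => Nat.log 2 (discr (K i)).natAbs
  have habs : ∀ i, (((discr (K i)).natAbs : ℕ) : ℝ) = |(discr (K i) : ℝ)| := fun i => by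
    rw [Nat.cast_natAbs, Int.cast_abs]
  have hlo : ∀ i, (2 : ℝ) ^ lg i ≤ |(discr (K i) : ℝ)| := fun i => by
    rw [← habs]
    exact_mod_cast Nat.pow_log_le_self 2 (Int.natAbs_ne_zero.2 (discr_ne_zero (K i)))
  have hhi : ∀ i, |(discr (K i) : ℝ)| ≤ (2 : ℝ) ^ (lg i + 1) := fun i => by
    rw [← habs]
    exact_mod_cast (Nat.lt_pow_succ_log_self one_lt_two _).le
  set J : ℕ := Nat.log 2 ⌊X⌋₊ with hJ
  have hJX : (2 : ℝ) ^ J ≤ X := by
    refine le_trans ?_ (Nat.floor_le (zero_le_one.trans h1))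
    exact_mod_cast Nat.pow_log_le_self 2 (Nat.floor_pos.2 h1).ne'
  have hmap : ∀ i ∈ E, lg i ∈ range (J + 1) := fun i hi' => by
    rw [mem_range, Nat.lt_succ_iff]
    refine Nat.log_mono_right (Nat.le_floor ?_)
    rw [habs]
    exact (hK i (mem_filter.1 hi').1).2.2
  have hpow : ∀ j : ℕ, ((2 : ℝ) ^ j) ^ ε = r ^ j := fun j => by
    rw [hr, ← Real.rpow_natCast, ← Real.rpow_natCast, ← Real.rpow_mul zero_le_two,
      ← Real.rpow_mul zero_le_two, mul_comm]
  have hfib : ∀ j : ℕ, ((E.filter fun i => lg i = j).card : ℝ) ≤ (A0 + B) * r ^ (j + 1) := by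
    intro j
    have hr2 : 1 ≤ r ^ (j + 1) := one_le_pow₀ hr1.le
    have hsub : ∀ i ∈ E.filter fun i => lg i = j, i ∈ s := fun i hi' =>
      (mem_filter.1 (mem_filter.1 hi').1).1
    have hd : ∀ i ∈ E.filter fun i => lg i = j, |(discr (K i) : ℝ)| ≤ (2 : ℝ) ^ (j + 1) :=
      fun i hi' => by rw [← (mem_filter.1 hi').2]; exact hhi i
    rcases le_total X0 (2 ^ (j + 1)) with h | h
    · have h3 := hX _ h ι (E.filter fun i => lg i = j) K
        (fun i hi' => ⟨(hK i (hsub i hi')).1, (hK i (hsub i hi')).2.1, hd i hi'⟩)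
        (fun i hi' k hk' => hi i (hsub i hi') k (hsub k hk')) (fun i hi' => ?_)
      · rw [hpow] at h3
        nlinarith
      · obtain ⟨hf, ht⟩ := narrow_le (K i)
        have hb := (mem_filter.1 (mem_filter.1 hi').1).2
        have h4 : (twoTors (NarrowClass (𝓞 (K i)) (K i)) : ℝ) ≤ 2 ^ n * (h2 (K i) : ℝ) := by
          rw [← (hK i (hsub i hi')).1]
          exact_mod_cast ht
        have h5' := not_le.1 fun h => hb ⟨hf, h⟩
        have h6 : ((2 : ℝ) ^ (j + 1)) ^ (1 / 4 + ε) ≤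
            2 ^ (1 / 4 + ε) * |(discr (K i) : ℝ)| ^ (1 / 4 + ε) := by
          rw [← Real.mul_rpow zero_le_two (abs_nonneg _)]
          refine Real.rpow_le_rpow (by positivity) ?_ (by positivity)
          have := hlo i
          rw [(mem_filter.1 hi').2] at this
          rw [pow_succ]
          linarith
        have h7 : A1 * |(discr (K i) : ℝ)| ^ (1 / 4 + ε) ≤
            max A1 A2 * |(discr (K i) : ℝ)| ^ (1 / 4 + ε) :=
          mul_le_mul_of_nonneg_right (le_max_left _ _) (by positivity)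
        have h8 : (2 : ℝ) ^ n * (A0 * ((2 : ℝ) ^ (j + 1)) ^ (1 / 4 + ε)) <
            2 ^ n * (h2 (K i) : ℝ) := by
          refine lt_of_le_of_lt ?_ ((h7.trans_lt h5').trans_le h4)
          rw [hA1, mul_assoc, mul_assoc]
          exact mul_le_mul_of_nonneg_left (mul_le_mul_of_nonneg_left h6 hA0) (by positivity)
        exact lt_of_mul_lt_mul_left h8 (by positivity)
    · have h3 := hfew ι (E.filter fun i => lg i = j) K (fun i hi' => (hd i hi').trans h)
        (fun i hi' k hk' => hi i (hsub i hi') k (hsub k hk'))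
      nlinarith
  have hsum : (E.card : ℝ) ≤ (A0 + B) * ∑ j ∈ range (J + 1), r ^ (j + 1) := by
    rw [card_eq_sum_card_fiberwise hmap, Nat.cast_sum, mul_sum]
    exact sum_le_sum fun j _ => hfib j
  have hg : ∑ j ∈ range (J + 1), r ^ (j + 1) ≤ r ^ 2 / (r - 1) * X ^ ε := by
    have h3 : r ^ J ≤ X ^ ε := by
      rw [← hpow]
      exact Real.rpow_le_rpow (by positivity) hJX hε.le
    rw [div_mul_eq_mul_div, le_div_iff₀ (by linarith), bfinal_geom, pow_add]
    nlinarith [sq_nonneg r]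
  refine hsum.trans ((mul_le_mul_of_nonneg_left hg (by positivity)).trans ?_)
  rw [← mul_assoc]
  exact mul_le_mul_of_nonneg_right (le_max_right _ _) (by positivity)

end Pool.Agent.Lib.MP_830c64_nt.CL
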