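import Pool.Agent.Lib.MP_830c64_nt.CL.BDefs

/-! Frobenius elements and the primes of the fixed fields. -/

namespace Pool.Agent.Lib.MP_830c64_nt.CL

open NumberField Module Equiv Finset
open scoped Classical ComplexConjugate

variable {M : Type} [Field M] [NumberField M]

/-- Use `IsArithFrobAt.exists_of_isInvariant` (base ring `ℤ`, see `ExistsRamified` in Mathlib for
the instance `IsGaloisGroup.of_isFractionRing`), or `Ideal.Quotient.stabilizerHom_surjective`. -/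
theorem exists_frob [IsGalois ℚ M] {p : ℕ} (hp : p.Prime) :
    ∃ (Q : Ideal (𝓞 M)) (σ : Gl M), Frob Q p σ := by
  have : Fact p.Prime := ⟨hp⟩
  obtain ⟨Q, hQ, hQP⟩ := Ideal.exists_maximal_ideal_liesOver_of_isIntegral (S := 𝓞 M)
    (Ideal.span {(p : ℤ)})
  have hmem : (p : 𝓞 M) ∈ Q := by
    have h : (p : ℤ) ∈ Q.under ℤ := hQP.over ▸ Ideal.mem_span_singleton_self _
    simpa [Ideal.mem_comap] using h
  have hne : Q ≠ ⊥ := fun h => by
    rw [h, Ideal.mem_bot] at hmem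
    exact hp.ne_zero (Nat.cast_eq_zero.1 hmem)
  have : Finite (𝓞 M ⧸ Q) := Ideal.finiteQuotientOfFreeOfNeBot Q hne
  obtain ⟨φ, hφ⟩ := IsArithFrobAt.exists_of_isInvariant ℤ (M ≃ₐ[ℚ] M) Q
  refine ⟨Q, φ, hQ, hmem, fun x => ?_⟩
  have h := hφ x
  rw [← hQP.over, Nat.card_congr (Int.quotientSpanNatEquivZMod p).toEquiv, Nat.card_zmod] at h
  exact h

theorem emb_mul (H : Subgroup (Gl M)) (τ τ' : Gl M) (x : 𝓞 (FF H)) :
    emb H (τ * τ') x = τ • emb H τ' x := by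
  rfl

theorem emb_mul_mem {H : Subgroup (Gl M)} (τ : Gl M) {h : Gl M} (hh : h ∈ H) :
    emb H (τ * h) = emb H τ := by
  refine RingHom.ext fun x => RingOfIntegers.ext ?_
  exact congrArg τ ((x : FF H).2 ⟨h, hh⟩)

theorem pr_mul {H : Subgroup (Gl M)} (Q : Ideal (𝓞 M)) (τ : Gl M) {h : Gl M} (hh : h ∈ H) :
    pr H Q (τ * h) = pr H Q τ := by
  rw [pr, pr, emb_mul_mem τ hh]

theorem bfrob_cop {R : Type} [CommRing R] {P : Ideal R} (hP : P ≠ ⊤) {p : ℕ} (hp : p.Prime)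
    (h : (p : R) ∈ P) (f : ℕ) : IsCoprime P (Ideal.span {(f : R)}) ↔ ¬ p ∣ f := by
  rw [Ideal.isCoprime_iff_sup_eq]
  constructor
  · rintro h1 ⟨k, rfl⟩
    refine hP (top_le_iff.mp (h1 ▸ sup_le le_rfl ?_))
    rw [Ideal.span_singleton_le_iff_mem, Nat.cast_mul]
    exact P.mul_mem_right _ h
  · intro h1
    obtain ⟨a, b, hab⟩ := (hp.coprime_iff_not_dvd.mpr h1).cast (R := R)
    rw [Ideal.eq_top_iff_one, ← hab]
    exact add_mem (Ideal.mem_sup_left (P.mul_mem_left _ h))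
      (Ideal.mem_sup_right (Ideal.mul_mem_left _ _ (Ideal.mem_span_singleton_self _)))

/-- A general form: a ring map `e` to `𝓞 M` whose image is fixed by the Frobenius element pulls
`Q` back to an ideal of norm `p` (in the finite field `𝓞 K ⧸ comap` of characteristic `p` every
element satisfies `x ^ p = x`). -/
theorem norm_comap {K : Type} [Field K] [NumberField K] {Q : Ideal (𝓞 M)} {p : ℕ} {σ : Gl M}
    (hp : p.Prime) (hF : Frob Q p σ) (e : 𝓞 K →+* 𝓞 M) (he : ∀ x, σ • e x = e x) :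
    Ideal.absNorm (Q.comap e) = p := by
  obtain ⟨hQ, hpQ, hσ⟩ := hF
  have hpP : (p : 𝓞 K) ∈ Q.comap e := by simpa [Ideal.mem_comap] using hpQ
  have hne : Q.comap e ≠ ⊥ := fun h => by
    rw [h, Ideal.mem_bot] at hpP
    exact hp.ne_zero (Nat.cast_eq_zero.1 hpP)
  have hpr : (Q.comap e).IsPrime := Ideal.comap_isPrime e Q
  have hmax : (Q.comap e).IsMaximal := hpr.isMaximal hne
  have h1 := Ideal.absNorm_dvd_absNorm_of_le ((Ideal.span_singleton_le_iff_mem _).mpr hpP)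
  rw [Ideal.absNorm_span_natCast] at h1
  obtain ⟨f, -, hf⟩ := (Nat.dvd_prime_pow hp).mp h1
  have hf0 : f ≠ 0 := by
    rintro rfl
    exact hpr.ne_top (Ideal.absNorm_eq_one_iff.mp hf)
  have : Finite (𝓞 K ⧸ Q.comap e) := Ideal.finiteQuotientOfFreeOfNeBot _ hne
  let _ := Ideal.Quotient.field (Q.comap e)
  have := Fintype.ofFinite (𝓞 K ⧸ Q.comap e)
  have h2 : Ideal.absNorm (Q.comap e) ≤ p := by
    rw [Ideal.absNorm_apply, Submodule.cardQuot_apply, Nat.card_eq_fintype_card,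
      ← FiniteField.X_pow_card_sub_X_natDegree_eq (𝓞 K ⧸ Q.comap e) hp.one_lt, ← card_univ]
    refine Polynomial.card_le_degree_of_subset_roots fun y _ => ?_
    obtain ⟨x, rfl⟩ := Ideal.Quotient.mk_surjective y
    rw [Polynomial.mem_roots (FiniteField.X_pow_card_sub_X_ne_zero _ hp.one_lt),
      Polynomial.IsRoot.def, Polynomial.eval_sub, Polynomial.eval_pow, Polynomial.eval_X,
      ← map_pow, sub_eq_zero, eq_comm, Ideal.Quotient.eq, Ideal.mem_comap, map_sub, map_pow]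
    simpa only [he] using hσ (e x)
  rw [hf] at h2 ⊢
  exact le_antisymm h2 (Nat.le_self_pow hf0 p)

theorem pr_norm {H : Subgroup (Gl M)} {Q : Ideal (𝓞 M)} {p : ℕ} {σ τ : Gl M} (hp : p.Prime)
    (hF : Frob Q p σ) (hτ : τ⁻¹ * σ * τ ∈ H) : Ideal.absNorm (pr H Q τ) = p := by
  refine norm_comap hp hF _ fun x => ?_
  rw [← emb_mul, ← emb_mul_mem τ hτ]
  congr 2
  group

theorem pr_cop {Q : Ideal (𝓞 M)} {p : ℕ} {σ : Gl M} (hp : p.Prime) (hF : Frob Q p σ)
    (H : Subgroup (Gl M)) (τ : Gl M) (f : ℕ) :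
    IsCoprime (pr H Q τ) (Ideal.span {(f : 𝓞 (FF H))}) ↔ ¬ p ∣ f := by
  refine bfrob_cop (Ideal.comap_ne_top _ hF.1.ne_top) hp ?_ f
  simpa [pr, Ideal.mem_comap] using hF.2.1

/-- An ideal of prime norm `p` is coprime to `f` if and only if `p` does not divide `f`. -/
theorem np_cop {E : Type} [Field E] [NumberField E] {p : ℕ} (hp : p.Prime) {P : Ideal (𝓞 E)}
    (hP : Ideal.absNorm P = p) (f : ℕ) : IsCoprime P (Ideal.span {(f : 𝓞 E)}) ↔ ¬ p ∣ f := by
  refine bfrob_cop ?_ hp (hP ▸ Ideal.absNorm_mem P) f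
  rintro rfl
  exact hp.one_lt.ne (Ideal.absNorm_top.symm.trans hP)

theorem smul_I {I : 𝓞 M} (hI : I ^ 2 = -1) (τ : Gl M) : τ • I = I ∨ τ • I = -I := by
  refine sq_eq_sq_iff_eq_or_eq_neg.mp ?_
  rw [← smul_pow', hI, smul_neg, smul_one]

theorem frob_I {Q : Ideal (𝓞 M)} {p : ℕ} {σ : Gl M} (hp : p.Prime) (hF : Frob Q p σ) {I : 𝓞 M}
    (hI : I ^ 2 = -1) (h4 : p % 4 = 1) : σ ∈ G0 I := by
  refine (smul_I hI σ).resolve_right fun h => ?_
  have h1 : I ^ p = I := by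
    rw [← Nat.div_add_mod p 4, h4, pow_succ, show 4 * (p / 4) = 2 * (2 * (p / 4)) by ring,
      pow_mul, hI, pow_mul, neg_one_sq, one_pow, one_mul]
  have h2 := hF.2.2 I
  rw [h, h1] at h2
  have h3 : ((2 : ℕ) : 𝓞 M) ∈ Q := by
    have h5 : ((2 : ℕ) : 𝓞 M) = I * (-I - I) := by
      push_cast
      linear_combination 2 * hI
    exact h5 ▸ Q.mul_mem_left I h2
  have h5 := (bfrob_cop hF.1.ne_top Nat.prime_two h3 p).mpr (by omega)
  exact (bfrob_cop hF.1.ne_top hp hF.2.1 p).mp h5 dvd_rfl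

theorem sq_mem_G0 {I : 𝓞 M} (hI : I ^ 2 = -1) (τ : Gl M) : τ ^ 2 ∈ G0 I := by
  rw [G0, MulAction.mem_stabilizer_iff, sq, mul_smul]
  rcases smul_I hI τ with h | h
  · rw [h, h]
  · rw [h, smul_neg, h, neg_neg]

theorem G0_index {I : 𝓞 M} (hI : I ^ 2 = -1) : (G0 I).index ≤ 2 := by
  rw [G0, MulAction.index_stabilizer]
  refine (Set.ncard_le_ncard (t := {I, -I}) ?_ (Set.toFinite _)).trans
    ((Set.ncard_insert_le _ _).trans (by simp))
  rintro _ ⟨τ, rfl⟩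
  exact smul_I hI τ

theorem finrank_FF [IsGalois ℚ M] (H : Subgroup (Gl M)) : finrank ℚ (FF H) = H.index := by
  rw [IntermediateField.finrank_eq_fixingSubgroup_index,
    IntermediateField.fixingSubgroup_fixedField]

end Pool.Agent.Lib.MP_830c64_nt.CL
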