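import Pool.Agent.Lib.MP_830c64_nt.CL.BDefs

/-! Two different maps onto the symmetric group. -/

namespace Pool.Agent.Lib.MP_830c64_nt.CL

open NumberField Module Equiv Finset
open scoped Classical ComplexConjugate

variable {n : ℕ} {Γ : Type} [Group Γ] [Finite Γ] {ρ ρ' : Γ →* Perm (Fin n)} {G : Subgroup Γ}

omit [Finite Γ] in
theorem bgour_sq (hG : ∀ τ, τ ^ 2 ∈ G) {K : Subgroup Γ} (hK : alternatingGroup (Fin n) ≤ K.map ρ) :
    alternatingGroup (Fin n) ≤ (G ⊓ K).map ρ := by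
  rw [← Perm.closure_three_cycles_eq_alternating, Subgroup.closure_le]
  intro c hc
  obtain ⟨τ, h1, rfl⟩ := hK hc.mem_alternatingGroup
  refine ⟨(τ ^ 2) ^ 2, ⟨hG _, K.pow_mem (K.pow_mem h1 2) 2⟩, ?_⟩
  rw [← pow_mul, map_pow, show 2 * 2 = 3 + 1 from rfl, pow_succ, ← hc.orderOf, pow_orderOf_eq_one,
    one_mul]

/-- The image of `G` contains the alternating group. -/
theorem alt_le (hρ : Function.Surjective ρ) (hG : ∀ τ, τ ^ 2 ∈ G) {h : Perm (Fin n)}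
    (hh : Perm.sign h = 1) : ∃ τ ∈ G, ρ τ = h := by
  obtain ⟨τ, h1, h2⟩ := bgour_sq hG (K := ⊤) (ρ := ρ)
    (le_top.trans (Subgroup.map_top_of_surjective ρ hρ).ge) (Perm.mem_alternatingGroup.2 hh)
  exact ⟨τ, h1.1, h2⟩

/-- The image of the kernel of `ρ'` is a nontrivial normal subgroup. -/
theorem gour (h5 : 5 ≤ n) (hρ : Function.Surjective ρ) (hρ' : Function.Surjective ρ')
    (hk : ρ.ker ≠ ρ'.ker) (hG : ∀ τ, τ ^ 2 ∈ G) {h : Perm (Fin n)} (hh : Perm.sign h = 1) :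
    ∃ τ ∈ G, ρ τ = h ∧ ρ' τ = 1 := by
  have := (inferInstance : ρ'.ker.Normal).map ρ hρ
  have h0 : ρ'.ker.map ρ ≠ ⊥ := fun e => hk (Subgroup.eq_of_le_of_card_ge
    ((Subgroup.map_eq_bot_iff _).1 e) (by
      have h1 := ρ.ker.card_mul_index.trans ρ'.ker.card_mul_index.symm
      rw [Subgroup.index_ker, Subgroup.index_ker, ρ.range_eq_top.2 hρ, ρ'.range_eq_top.2 hρ'] at h1
      exact (Nat.eq_of_mul_eq_mul_right Nat.card_pos h1).le)).symm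
  obtain ⟨τ, h1, h2⟩ := bgour_sq hG (Perm.alternatingGroup_le_of_normal (by simpa using h5)
    ((Subgroup.nontrivial_iff_ne_bot _).2 h0)) (Perm.mem_alternatingGroup.2 hh)
  exact ⟨τ, h1.1, h2, h1.2⟩

/-- Write `ρ' γ = x * h` with `x` even and `h ∈ H`, take `a` with `ρ a = 1`, `ρ' a = x`. -/
theorem prod_of_mem (h5 : 5 ≤ n) (hρ : Function.Surjective ρ) (hρ' : Function.Surjective ρ')
    (hk : ρ.ker ≠ ρ'.ker) (hG : ∀ τ, τ ^ 2 ∈ G) (H : Subgroup (Perm (Fin n))) {γ : Γ}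
    (hγ : γ ∈ G) (h : ρ γ ∈ alternatingGroup (Fin n) ⊔ H ∨ ρ' γ ∈ alternatingGroup (Fin n) ⊔ H) :
    ∃ a ∈ H.comap ρ ⊓ G, ∃ b ∈ H.comap ρ' ⊓ G, γ = a * b := by
  rcases h with h | h
  · obtain ⟨y, hy, x, hx, e⟩ := Subgroup.mem_sup_of_normal_right.1 (sup_comm _ H ▸ h)
    obtain ⟨b, h1, h2, h3⟩ := gour h5 hρ hρ' hk hG (Perm.mem_alternatingGroup.1 hx)
    exact ⟨γ * b⁻¹, ⟨by simpa [← e, h2] using hy, G.mul_mem hγ (G.inv_mem h1)⟩, b,
      ⟨by simp [h3], h1⟩, by simp⟩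
  · obtain ⟨x, hx, y, hy, e⟩ := Subgroup.mem_sup_of_normal_left.1 h
    obtain ⟨a, h1, h2, h3⟩ := gour h5 hρ' hρ hk.symm hG (Perm.mem_alternatingGroup.1 hx)
    exact ⟨a, ⟨by simp [h3], h1⟩, a⁻¹ * γ,
      ⟨by simpa [← e, h2] using hy, G.mul_mem (G.inv_mem h1) hγ⟩, by simp⟩

/-- In the remaining case `H` consists of even elements and `γ` is odd for both maps; some
`κ ∈ G` is even for one map and odd for the other, and can be corrected to be trivial for the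
first one. -/
theorem prod_of_ne (h5 : 5 ≤ n) (hρ : Function.Surjective ρ) (hρ' : Function.Surjective ρ')
    (hk : ρ.ker ≠ ρ'.ker) (hG : ∀ τ, τ ^ 2 ∈ G) (H : Subgroup (Perm (Fin n)))
    (hN : (alternatingGroup (Fin n) ⊔ H).comap ρ ⊓ G ≠ (alternatingGroup (Fin n) ⊔ H).comap ρ' ⊓ G)
    {γ : Γ} (hγ : γ ∈ G) : ∃ a ∈ H.comap ρ ⊓ G, ∃ b ∈ H.comap ρ' ⊓ G, γ = a * b := by
  have key := fun γ (hγ : γ ∈ G) => prod_of_mem h5 hρ hρ' hk hG H hγ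
  have ev : ∀ x, Perm.sign x = 1 → x ∈ alternatingGroup (Fin n) ⊔ H := fun x h =>
    Subgroup.mem_sup_left (Perm.mem_alternatingGroup.2 h)
  generalize alternatingGroup (Fin n) ⊔ H = S at *
  by_cases h : ρ γ ∈ S ∨ ρ' γ ∈ S
  · exact key γ hγ h
  rw [not_or] at h
  have od : ∀ x, x ∉ S → Perm.sign x = -1 := fun x h =>
    (Int.units_eq_one_or _).resolve_left fun e => h (ev x e)
  have ev' : ∀ y ∈ S, Perm.sign y = 1 := fun y hy => (Int.units_eq_one_or _).resolve_right fun e =>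
    h.1 ((S.mul_mem_cancel_right hy).1 (ev _ (by simp [e, od _ h.1])))
  obtain ⟨κ, hκ⟩ := not_forall.1 (mt Subgroup.ext hN)
  simp only [Subgroup.mem_inf, Subgroup.mem_comap, and_congr_left_iff, Classical.not_imp] at hκ
  by_cases h0 : ρ κ ∈ S
  · obtain ⟨τ, h1, h2, h3⟩ := gour h5 hρ hρ' hk hG (ev' _ h0)
    obtain ⟨a, ha, b, hb, e⟩ := key (κ⁻¹ * τ * γ)
      (G.mul_mem (G.mul_mem (G.inv_mem hκ.1) h1) hγ)
      (.inr (ev _ (by simp [h3, od _ h.2, od (ρ' κ) fun e => hκ.2 (iff_of_true h0 e)])))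
    refine ⟨τ⁻¹ * κ * a, ⟨by simpa [h2] using ha.1,
      G.mul_mem (G.mul_mem (G.inv_mem h1) hκ.1) ha.2⟩, b, hb, ?_⟩
    rw [mul_assoc, ← e]
    group
  · obtain ⟨τ, h1, h2, h3⟩ := gour h5 hρ' hρ hk.symm hG
      (ev' (ρ' κ) (not_not.1 fun e => hκ.2 (iff_of_false h0 e)))
    obtain ⟨a, ha, b, hb, e⟩ := key (γ * (τ * κ⁻¹))
      (G.mul_mem hγ (G.mul_mem h1 (G.inv_mem hκ.1)))
      (.inl (ev _ (by simp [h3, od _ h.1, od _ h0])))
    refine ⟨a, ha, b * (κ * τ⁻¹), ⟨by simpa [h2] using hb.1,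
      G.mul_mem hb.2 (G.mul_mem hκ.1 (G.inv_mem h1))⟩, ?_⟩
    rw [← mul_assoc, ← e]
    group

end Pool.Agent.Lib.MP_830c64_nt.CL
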