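import Pool.Agent.Lib.MP_830c64_nt.CL.BFrob

/-! The relative norm of ideals between fixed fields, and the product character. -/

namespace Pool.Agent.Lib.MP_830c64_nt.CL

open NumberField Module Equiv Finset
open scoped Classical ComplexConjugate

variable {M : Type} [Field M] [NumberField M]

theorem rn_mul {A B : Subgroup (Gl M)} (h : B ≤ A) (I J : Ideal (𝓞 (FF B))) :
    rn h (I * J) = rn h I * rn h J := by
  let := alg h
  exact map_mul (Ideal.relNorm (𝓞 (FF A))) I J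

theorem rn_top {A B : Subgroup (Gl M)} (h : B ≤ A) : rn h ⊤ = ⊤ := by
  let := alg h
  exact Ideal.relNorm_top _

/-- `Ideal.relNorm_le_comap` and `Ideal.absNorm_relNorm`: both sides have norm `p`. -/
theorem rn_pr {A B : Subgroup (Gl M)} (h : B ≤ A) {Q : Ideal (𝓞 M)} {p : ℕ} {σ τ : Gl M}
    (hp : p.Prime) (hF : Frob Q p σ) (hτ : τ⁻¹ * σ * τ ∈ B) : rn h (pr B Q τ) = pr A Q τ := by
  let := alg h
  have h1 : rn h (pr B Q τ) ≤ pr A Q τ := fun x hx => Ideal.relNorm_le_comap _ _ hx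
  have h2 : Ideal.absNorm (rn h (pr B Q τ)) = p :=
    (Ideal.absNorm_relNorm (𝓞 (FF A)) _ _).trans (pr_norm hp hF hτ)
  have h3 := pr_norm hp hF (h hτ)
  obtain ⟨J, hJ⟩ := Ideal.dvd_iff_le.2 h1
  rw [hJ, map_mul, h3] at h2
  have h4 : Ideal.absNorm J = 1 := Nat.eq_of_mul_eq_mul_left hp.pos (by rw [h2, mul_one])
  rw [hJ, Ideal.absNorm_eq_one_iff.1 h4, Ideal.mul_top]

theorem brn_prod {ι L : Type} [CommRing L] (s : Finset ι) (f : ℕ) (y : ι → L)
    (hy : ∀ i ∈ s, IsIntegral ℤ (y i)) :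
    ∃ z : L, IsIntegral ℤ z ∧ ∏ i ∈ s, (1 + f * y i) = 1 + f * z := by
  induction s using Finset.induction_on with
  | empty => exact ⟨0, isIntegral_zero, by simp⟩
  | insert a s ha ih =>
    obtain ⟨z, hz, e⟩ := ih fun i hi => hy i (mem_insert_of_mem hi)
    have h1 := hy a (mem_insert_self a s)
    refine ⟨y a + z + f * (y a * z), (h1.add hz).add ((isIntegral_natCast f).mul (h1.mul hz)), ?_⟩
    rw [prod_insert ha, e]
    ring

theorem brn_ne {k E : Type} [Field k] [NumberField k] [Field E] [NumberField E] [Algebra k E]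
    {a : 𝓞 E} (ha : a ≠ 0) : Algebra.intNorm (𝓞 k) (𝓞 E) a ≠ 0 := by
  intro h
  have e := Algebra.algebraMap_intNorm (A := 𝓞 k) (K := k) (L := E) a
  rw [h, map_zero, eq_comm, Algebra.norm_eq_zero_iff] at e
  exact ha (RingOfIntegers.coe_injective (by rw [e, map_zero]))

/-- The norm of `1 + f y` is `1` modulo `f`, for any extension of number fields. One proof: the
norm is the product of the `1 + f φ y` over the embeddings into an algebraic closure, so
`(norm - 1) / f` is integral and lies in `k`. -/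
theorem intNorm_ray {k E : Type} [Field k] [NumberField k] [Field E] [NumberField E] [Algebra k E]
    {f : ℕ} {a : 𝓞 E} (ha : a - 1 ∈ Ideal.span {(f : 𝓞 E)}) :
    Algebra.intNorm (𝓞 k) (𝓞 E) a - 1 ∈ Ideal.span {(f : 𝓞 k)} := by
  obtain ⟨y, hy⟩ := Ideal.mem_span_singleton'.1 ha
  have ha' : a = 1 + f * y := by linear_combination -hy
  rcases Nat.eq_zero_or_pos f with rfl | hf
  · simp [ha']
  have hf' : (f : k) ≠ 0 := Nat.cast_ne_zero.2 hf.ne'
  obtain ⟨z, hz, e⟩ := brn_prod (univ : Finset (E →ₐ[k] AlgebraicClosure k)) f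
    (fun φ => φ (y : E)) fun φ _ => y.isIntegral_coe.map (φ : E →+* AlgebraicClosure k).toIntAlgHom
  have e1 : algebraMap k (AlgebraicClosure k) (Algebra.norm k (a : E)) = 1 + f * z := by
    rw [Algebra.norm_eq_prod_embeddings, ← e]
    refine prod_congr rfl fun φ _ => ?_
    simp [ha']
  have e2 : algebraMap k (AlgebraicClosure k) ((Algebra.norm k (a : E) - 1) / f) = z := by
    have : (f : AlgebraicClosure k) ≠ 0 := Nat.cast_ne_zero.2 hf.ne'
    rw [map_div₀, map_sub, e1, map_one, map_natCast, add_sub_cancel_left, mul_div_cancel_left₀ _ this]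
  have e3 : IsIntegral ℤ ((Algebra.norm k (a : E) - 1) / f) := by
    rw [← e2] at hz
    exact (isIntegral_algebraMap_iff (algebraMap k (AlgebraicClosure k)).injective).1 hz
  obtain ⟨b, hb⟩ : ∃ b : 𝓞 k, algebraMap (𝓞 k) k b = (Algebra.norm k (a : E) - 1) / f :=
    ⟨⟨_, e3⟩, rfl⟩
  refine Ideal.mem_span_singleton'.2 ⟨b, RingOfIntegers.coe_injective ?_⟩
  rw [map_mul, map_sub, Algebra.algebraMap_intNorm (L := E), map_one, map_natCast, hb]
  exact div_mul_cancel₀ _ hf'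

theorem rn_ray {A B : Subgroup (Gl M)} (h : B ≤ A) {f : ℕ} {a : 𝓞 (FF B)}
    (ha : a - 1 ∈ Ideal.span {(f : 𝓞 (FF B))}) (h0 : a ≠ 0) :
    ∃ b : 𝓞 (FF A), b - 1 ∈ Ideal.span {(f : 𝓞 (FF A))} ∧ b ≠ 0 ∧
      rn h (Ideal.span {a}) = Ideal.span {b} := by
  let := alg h
  exact ⟨_, intNorm_ray ha, brn_ne h0, Ideal.relNorm_singleton _ a⟩

/-- If `1 = u + v f` with `u` in the norm of `J` then `u` lies in `J`. -/
theorem rn_cop {A B : Subgroup (Gl M)} (h : B ≤ A) {f : ℕ} {J : Ideal (𝓞 (FF B))}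
    (hJ : ¬ IsCoprime J (Ideal.span {(f : 𝓞 (FF B))})) :
    ¬ IsCoprime (rn h J) (Ideal.span {(f : 𝓞 (FF A))}) := by
  let := alg h
  intro hc
  apply hJ
  rw [Ideal.isCoprime_iff_exists] at hc ⊢
  obtain ⟨u, hu, v, hv, e⟩ := hc
  obtain ⟨c, rfl⟩ := Ideal.mem_span_singleton'.1 hv
  refine ⟨algebraMap _ _ u, Ideal.relNorm_le_comap (𝓞 (FF A)) J hu, algebraMap _ _ c * f,
    Ideal.mem_span_singleton'.2 ⟨_, rfl⟩, ?_⟩
  simpa using congrArg (algebraMap (𝓞 (FF A)) (𝓞 (FF B))) e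

theorem ray_pair {A B : Subgroup (Gl M)} {f f' : ℕ} {w : Ideal (𝓞 (FF A)) → ℂ}
    {w' : Ideal (𝓞 (FF B)) → ℂ} (h : Ray (FF A) f w) (h' : Ray (FF B) f' w') :
    Ray (FF (A ⊓ B)) (f * f') (Wp w w') := by
  refine ⟨fun I J => ?_, ?_, fun I => ?_, fun I hI => ?_, fun a ha h0 => ?_⟩
  · simp only [Wp, rn_mul, h.mul, h'.mul, map_mul]
    ring
  · simp only [Wp, rn_top, h.one, h'.one, map_one, mul_one]
  · rw [Wp, norm_mul, RCLike.norm_conj]
    exact mul_le_one₀ (h.norm_le _) (norm_nonneg _) (h'.norm_le _)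
  · rw [Nat.cast_mul, ← Ideal.span_singleton_mul_span_singleton, IsCoprime.mul_right_iff,
      not_and_or] at hI
    rcases hI with hI | hI
    · rw [Wp, h.zero _ (rn_cop _ hI), zero_mul]
    · rw [Wp, h'.zero _ (rn_cop _ hI), map_zero, mul_zero]
  · rw [Nat.cast_mul, Ideal.mem_span_singleton] at ha
    obtain ⟨b, hb, hb0, e⟩ := rn_ray (inf_le_left : A ⊓ B ≤ A)
      (Ideal.mem_span_singleton.2 (dvd_of_mul_right_dvd ha)) h0
    obtain ⟨b', hb', hb0', e'⟩ := rn_ray (inf_le_right : A ⊓ B ≤ B)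
      (Ideal.mem_span_singleton.2 (dvd_of_mul_left_dvd ha)) h0
    rw [Wp, e, e', h.ray b hb hb0, h'.ray b' hb' hb0', map_one, mul_one]

theorem Wp_pr {A B : Subgroup (Gl M)} (w : Ideal (𝓞 (FF A)) → ℂ) (w' : Ideal (𝓞 (FF B)) → ℂ)
    {Q : Ideal (𝓞 M)} {p : ℕ} {σ τ : Gl M} (hp : p.Prime) (hF : Frob Q p σ)
    (hτ : τ⁻¹ * σ * τ ∈ A ⊓ B) :
    Wp w w' (pr (A ⊓ B) Q τ) = w (pr A Q τ) * conj (w' (pr B Q τ)) := by
  rw [Wp, rn_pr _ hp hF hτ, rn_pr _ hp hF hτ]

end Pool.Agent.Lib.MP_830c64_nt.CL
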