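import Pool.Agent.Lib.MP_830c64_nt.CL.BDict
import Pool.Agent.Lib.MP_830c64_nt.CL.BRn
import Pool.Agent.Lib.MP_830c64_nt.CL.BSep

/-! The Gram matrix at a prime. -/

namespace Pool.Agent.Lib.MP_830c64_nt.CL

open NumberField Module Equiv Finset
open scoped Classical ComplexConjugate

variable {M : Type} [Field M] [NumberField M]

theorem bgram_coset {Γ : Type} [Group Γ] [Fintype Γ] (G : Subgroup Γ) (v : Γ → ℂ) (τ : Γ) :
    ∑ τ' ∈ univ.filter (fun τ' : Γ => (τ' : Γ ⧸ G) = (τ : Γ ⧸ G)), v τ' =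
      ∑ γ ∈ univ.filter (fun γ : Γ => γ ∈ G), v (τ * γ) := by
  symm
  refine Finset.sum_bij' (fun γ _ => τ * γ) (fun τ' _ => τ⁻¹ * τ') ?_ ?_ ?_ ?_ ?_
  · intro γ hγ
    simp only [mem_filter, mem_univ, true_and] at hγ ⊢
    rw [eq_comm, QuotientGroup.eq]
    simpa using hγ
  · intro τ' hτ'
    simp only [mem_filter, mem_univ, true_and] at hτ' ⊢
    exact QuotientGroup.eq.1 hτ'.symm
  · intro γ _
    simp
  · intro τ' _
    simp
  · intro γ _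
    rfl

theorem bgram_card {Γ : Type} [Group Γ] [Fintype Γ] (G : Subgroup Γ) :
    (univ.filter (fun γ : Γ => γ ∈ G)).card = Nat.card G := by
  rw [Nat.card_eq_fintype_card, Fintype.card_subtype]

/-- For `γ = a * b` substitute `τ ↦ τ * a`. -/
theorem gr_sum {Γ : Type} [Group Γ] [Fintype Γ] {A B G : Subgroup Γ}
    (hAB : ∀ γ ∈ G, ∃ a ∈ A, ∃ b ∈ B, γ = a * b) (u v : Γ → ℂ)
    (hu : ∀ τ, ∀ a ∈ A, u (τ * a) = u τ) (hv : ∀ τ, ∀ b ∈ B, v (τ * b) = v τ) :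
    ∑ t : Γ ⧸ G, (∑ τ ∈ univ.filter (fun τ : Γ => (τ : Γ ⧸ G) = t), u τ) *
      (∑ τ ∈ univ.filter (fun τ : Γ => (τ : Γ ⧸ G) = t), v τ) =
      (Nat.card G : ℂ) * ∑ τ, u τ * v τ := by
  have h1 : ∀ t : Γ ⧸ G, (∑ τ ∈ univ.filter (fun τ : Γ => (τ : Γ ⧸ G) = t), u τ) *
      (∑ τ ∈ univ.filter (fun τ : Γ => (τ : Γ ⧸ G) = t), v τ) =
      ∑ τ ∈ univ.filter (fun τ : Γ => (τ : Γ ⧸ G) = t),
        ∑ γ ∈ univ.filter (fun γ : Γ => γ ∈ G), u τ * v (τ * γ) := by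
    intro t
    rw [Finset.sum_mul]
    refine Finset.sum_congr rfl fun τ hτ => ?_
    have ht : (τ : Γ ⧸ G) = t := (mem_filter.1 hτ).2
    rw [← ht, bgram_coset, Finset.mul_sum]
  rw [Finset.sum_congr rfl fun t _ => h1 t,
    Finset.sum_fiberwise (s := univ) (g := fun τ : Γ => (τ : Γ ⧸ G))
      (f := fun τ => ∑ γ ∈ univ.filter (fun γ : Γ => γ ∈ G), u τ * v (τ * γ)),
    Finset.sum_comm]
  have h2 : ∀ γ ∈ univ.filter (fun γ : Γ => γ ∈ G), ∑ τ, u τ * v (τ * γ) = ∑ τ, u τ * v τ := by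
    intro γ hγ
    obtain ⟨a, ha, b, hb, rfl⟩ := hAB γ (mem_filter.1 hγ).2
    refine Fintype.sum_equiv (Equiv.mulRight a) _ _ fun τ => ?_
    simp only [Equiv.coe_mulRight]
    rw [hu τ a ha, ← mul_assoc, hv _ b hb]
  rw [Finset.sum_congr rfl h2, Finset.sum_const, bgram_card, nsmul_eq_mul]

theorem bgram_ind {Γ : Type} [Group Γ] [Fintype Γ] {A G : Subgroup Γ} (hA : A ≤ G) (t : Γ ⧸ G) :
    ∑ τ ∈ univ.filter (fun τ : Γ => (τ : Γ ⧸ G) = t), (if τ ∈ A then (1 : ℂ) else 0) =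
      if t = ((1 : Γ) : Γ ⧸ G) then (Nat.card A : ℂ) else 0 := by
  split_ifs with ht
  · subst ht
    rw [bgram_coset G (fun τ => if τ ∈ A then (1 : ℂ) else 0) 1, ← Finset.sum_filter,
      Finset.sum_const, nsmul_eq_mul, mul_one, ← bgram_card A]
    congr 2
    ext γ
    simp only [mem_filter, mem_univ, true_and, one_mul]
    exact ⟨fun h => h.2, fun h => ⟨hA h, h⟩⟩
  · refine Finset.sum_eq_zero fun τ hτ => ?_
    rw [if_neg]
    intro h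
    apply ht
    rw [← (mem_filter.1 hτ).2, eq_comm, QuotientGroup.eq]
    simpa using hA h

/-- `gr_sum` for the indicator functions of `A` and `B`. -/
theorem gr_card {Γ : Type} [Group Γ] [Fintype Γ] {A B G : Subgroup Γ} (hA : A ≤ G) (hB : B ≤ G)
    (hAB : ∀ γ ∈ G, ∃ a ∈ A, ∃ b ∈ B, γ = a * b) :
    Nat.card A * Nat.card B = Nat.card G * Nat.card (A ⊓ B : Subgroup Γ) := by
  have h := gr_sum hAB (fun τ => if τ ∈ A then (1 : ℂ) else 0)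
    (fun τ => if τ ∈ B then (1 : ℂ) else 0)
    (fun τ a ha => by simp only [A.mul_mem_cancel_right ha])
    (fun τ b hb => by simp only [B.mul_mem_cancel_right hb])
  simp only [bgram_ind hA, bgram_ind hB] at h
  have h1 : ∑ τ : Γ, (if τ ∈ A then (1 : ℂ) else 0) * (if τ ∈ B then (1 : ℂ) else 0) =
      (Nat.card (A ⊓ B : Subgroup Γ) : ℂ) := by
    rw [← bgram_card, Finset.card_filter]
    push_cast
    refine Finset.sum_congr rfl fun τ _ => ?_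
    by_cases ha : τ ∈ A <;> by_cases hb : τ ∈ B <;> simp [ha, hb]
  rw [h1, Finset.sum_eq_single ((1 : Γ) : Γ ⧸ G) (fun t _ ht => by simp only [if_neg ht, mul_zero])
    (fun h => absurd (mem_univ _) h)] at h
  simp only [if_true] at h
  exact_mod_cast h

theorem bgram_lam (A G : Subgroup (Gl M)) (w : Ideal (𝓞 (FF A)) → ℂ) (Q : Ideal (𝓞 M))
    (σ : Gl M) (t : Gl M ⧸ G) :
    lam A G w Q σ t = (Nat.card A : ℂ)⁻¹ *
      ∑ τ ∈ univ.filter (fun τ : Gl M => (τ : Gl M ⧸ G) = t),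
        (if τ⁻¹ * σ * τ ∈ A then w (pr A Q τ) else 0) := by
  rw [lam, ← Finset.sum_filter, Finset.filter_filter]

theorem bgram_inv (A : Subgroup (Gl M)) (w : Ideal (𝓞 (FF A)) → ℂ) (Q : Ideal (𝓞 M))
    (σ τ : Gl M) {a : Gl M} (ha : a ∈ A) :
    (if (τ * a)⁻¹ * σ * (τ * a) ∈ A then w (pr A Q (τ * a)) else 0) =
      if τ⁻¹ * σ * τ ∈ A then w (pr A Q τ) else 0 := by
  have h : (τ * a)⁻¹ * σ * (τ * a) = a⁻¹ * (τ⁻¹ * σ * τ) * a := by group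
  rw [pr_mul Q τ ha, h]
  simp only [A.mul_mem_cancel_right ha, A.mul_mem_cancel_left (A.inv_mem ha)]

/-- If `p` divides one of the moduli both sides vanish (`Ray.zero`, `pr_cop`, `np_cop`,
`ray_pair`). Otherwise use `gr_sum`, `gr_card`, `dict` for `A ⊓ B` with `Sep.inf`, and `Wp_pr`. -/
theorem gram [IsGalois ℚ M] {A A0 B B0 G : Subgroup (Gl M)} {l : ℕ} (hA : A ≤ G) (hB : B ≤ G)
    (hAB : ∀ γ ∈ G, ∃ a ∈ A, ∃ b ∈ B, γ = a * b) (χ : Chr A A0 l) (χ' : Chr B B0 l)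
    {Q : Ideal (𝓞 M)} {p : ℕ} {σ : Gl M} (hp : p.Prime) (hF : Frob Q p σ) :
    ∑ t : Gl M ⧸ G, lam A G χ.w Q σ t * conj (lam B G χ'.w Q σ t) =
      ∑ P ∈ np (FF (A ⊓ B)) p, Wp χ.w χ'.w P := by
  have cA : (Nat.card A : ℂ) ≠ 0 := by exact_mod_cast (Nat.card_pos (α := A)).ne'
  have cB : (Nat.card B : ℂ) ≠ 0 := by exact_mod_cast (Nat.card_pos (α := B)).ne'
  have cG : (Nat.card G : ℂ) ≠ 0 := by exact_mod_cast (Nat.card_pos (α := G)).ne'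
  have cI : (Nat.card (A ⊓ B : Subgroup (Gl M)) : ℂ) ≠ 0 := by
    exact_mod_cast (Nat.card_pos (α := (A ⊓ B : Subgroup (Gl M)))).ne'
  have hc : (Nat.card A : ℂ) * Nat.card B = Nat.card G * Nat.card (A ⊓ B : Subgroup (Gl M)) := by
    exact_mod_cast gr_card hA hB hAB
  have h := gr_sum hAB (fun τ => if τ⁻¹ * σ * τ ∈ A then χ.w (pr A Q τ) else 0)
    (fun τ => conj (if τ⁻¹ * σ * τ ∈ B then χ'.w (pr B Q τ) else 0))
    (fun τ a ha => bgram_inv A χ.w Q σ τ ha)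
    (fun τ b hb => congrArg _ (bgram_inv B χ'.w Q σ τ hb))
  have h1 : ∑ τ : Gl M, (if τ⁻¹ * σ * τ ∈ A then χ.w (pr A Q τ) else 0) *
      conj (if τ⁻¹ * σ * τ ∈ B then χ'.w (pr B Q τ) else 0) =
      ∑ τ ∈ univ.filter (fun τ : Gl M => τ⁻¹ * σ * τ ∈ A ⊓ B), Wp χ.w χ'.w (pr (A ⊓ B) Q τ) := by
    rw [Finset.sum_filter]
    refine Finset.sum_congr rfl fun τ _ => ?_
    by_cases hab : τ⁻¹ * σ * τ ∈ A ⊓ B
    · rw [if_pos hab, if_pos (Subgroup.mem_inf.1 hab).1, if_pos (Subgroup.mem_inf.1 hab).2,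
        Wp_pr _ _ hp hF hab]
    · rw [if_neg hab]
      by_cases ha : τ⁻¹ * σ * τ ∈ A
      · rw [if_neg (fun hb => hab ⟨ha, hb⟩ : ¬ τ⁻¹ * σ * τ ∈ B), map_zero, mul_zero]
      · rw [if_neg ha, zero_mul]
  have h2 : ∑ τ ∈ univ.filter (fun τ : Gl M => τ⁻¹ * σ * τ ∈ A ⊓ B),
      Wp χ.w χ'.w (pr (A ⊓ B) Q τ) =
      (Nat.card (A ⊓ B : Subgroup (Gl M)) : ℂ) * ∑ P ∈ np (FF (A ⊓ B)) p, Wp χ.w χ'.w P := by
    by_cases hd : p ∣ χ.f * χ'.f
    · have hr := ray_pair χ.ray χ'.ray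
      rw [Finset.sum_eq_zero, Finset.sum_eq_zero, mul_zero]
      · intro P hP
        exact hr.zero P fun hh => (np_cop hp (mem_np.1 hP) _).1 hh hd
      · intro τ _
        exact hr.zero _ fun hh => (pr_cop hp hF _ τ _).1 hh hd
    · exact (dict hp hF (χ.sep.inf χ'.sep) hd _).symm
  have h3 : ∀ t : Gl M ⧸ G, lam A G χ.w Q σ t * conj (lam B G χ'.w Q σ t) =
      ((Nat.card A : ℂ) * Nat.card B)⁻¹ *
        ((∑ τ ∈ univ.filter (fun τ : Gl M => (τ : Gl M ⧸ G) = t),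
          (if τ⁻¹ * σ * τ ∈ A then χ.w (pr A Q τ) else 0)) *
        (∑ τ ∈ univ.filter (fun τ : Gl M => (τ : Gl M ⧸ G) = t),
          conj (if τ⁻¹ * σ * τ ∈ B then χ'.w (pr B Q τ) else 0))) := by
    intro t
    rw [bgram_lam, bgram_lam, map_mul, map_sum, map_inv₀, map_natCast, mul_inv]
    ring
  rw [Finset.sum_congr rfl fun t _ => h3 t, ← Finset.mul_sum, h, h1, h2, hc]
  field_simp

end Pool.Agent.Lib.MP_830c64_nt.CL
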