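import Pool.Agent.Lib.MP_830c64_nt.CL.BDefs

/-! Derangements with a cycle of odd length that is not everything. -/

namespace Pool.Agent.Lib.MP_830c64_nt.CL

open NumberField Module Equiv Finset
open scoped Classical ComplexConjugate

/-- If `h` conjugates the cycle `c` to `c ^ v` with `v - 1` prime to the length then `h` has a
fixed point: `h x = (c ^ a) x` for `x` in the support, `h ((c ^ j) x) = (c ^ (v * j + a)) x`. -/
theorem fix_of_conj {n : ℕ} {c h : Perm (Fin n)} (hc : c.IsCycle) {v : ℤ}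
    (hv : IsCoprime (v - 1) (c.support.card : ℤ)) (hh : h * c * h⁻¹ = c ^ v) : ∃ a, h a = a := by
  have ho := hc.orderOf
  obtain ⟨x, hx, hs⟩ := hc
  obtain ⟨p, q, hpq⟩ := hv
  have h1 : ∀ j : ℤ, h * c ^ j = c ^ (v * j) * h := fun j => by
    rw [zpow_mul, ← hh, conj_zpow, inv_mul_cancel_right]
  obtain ⟨a, ha⟩ := hs (y := h x) fun e => hx (h.injective (by
    have h2 := congrArg (· x) (h1 1)
    simpa [Perm.zpow_apply_eq_self_of_apply_eq_self e] using h2))
  refine ⟨(c ^ (-a * p)) x, ?_⟩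
  rw [← Perm.mul_apply, h1, Perm.mul_apply, ← ha, ← Perm.mul_apply, ← zpow_add,
    show v * (-a * p) + a = -a * p + (c.support.card : ℤ) * (a * q) by linear_combination -a * hpq,
    zpow_add, zpow_mul c (c.support.card : ℤ), zpow_natCast, ← ho, pow_orderOf_eq_one, one_zpow,
    mul_one]

/-- The elements that conjugate `c` to `c` or to its inverse. -/
def bgrp1_H {G : Type} [Group G] (c : G) : Subgroup G where
  carrier := {h | MulAut.conj h c = c ∨ MulAut.conj h c = c⁻¹}
  one_mem' := Or.inl (by simp)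
  mul_mem' := by
    rintro a b (ha | ha) (hb | hb) <;>
      simp only [Set.mem_ofPred_eq, map_mul, MulAut.mul_apply, ha, hb, map_inv, inv_inv, true_or,
        or_true]
  inv_mem' := by
    rintro a (ha | ha)
    · exact Or.inl (by rw [map_inv, MulAut.inv_apply, MulEquiv.symm_apply_eq, ha])
    · exact Or.inr (by rw [map_inv, MulAut.inv_apply, MulEquiv.symm_apply_eq, map_inv, ha, inv_inv])

theorem bgrp1_mem {G : Type} [Group G] {c h : G} :
    h ∈ Subgroup.centralizer {c} ↔ MulAut.conj h c = c := by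
  rw [Subgroup.mem_centralizer_singleton_iff, MulAut.conj_apply, mul_inv_eq_iff_eq_mul]

/-- `c` a cycle factor of `g` of odd length (the cycle type has odd sum `n`), `H0` the centraliser
of `c`, `H` the set of `h` with `h c h⁻¹ = c` or `c⁻¹`, `l = 2`. The complement of the support of
`c` is stable under `g` and nonempty, so it has two points, whose swap lies in `H0`. -/
theorem grp1 {n : ℕ} (hn : Odd n) {g : Perm (Fin n)} (hg : Der g) (hc : ¬ g.IsCycle) :
    ∃ t : Tri n, g ∈ t.H ∧ ∀ h ∈ t.H, Der h → h ∈ t.H0 := by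
  obtain ⟨m, hm, ho⟩ : ∃ m ∈ g.cycleType, ¬ 2 ∣ m := by
    by_contra h
    push Not at h
    have h1 := Multiset.dvd_sum h
    rw [Perm.sum_cycleType, eq_univ_of_forall fun a => Perm.mem_support.2 (hg a), card_univ,
      Fintype.card_fin] at h1
    exact hn.not_two_dvd_nat h1
  obtain ⟨c, τ, rfl, hd, hcy, rfl⟩ := Perm.mem_cycleType_iff.1 hm
  have h1 : c⁻¹ ≠ c := fun e => by
    have h2 : orderOf c ∣ 2 := orderOf_dvd_of_pow_eq_one (by rw [pow_two, ← mul_inv_cancel c, e])
    have h3 := hcy.two_le_card_support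
    rw [hcy.orderOf] at h2
    exact ho (le_antisymm (Nat.le_of_dvd two_pos h2) h3 ▸ dvd_rfl)
  obtain ⟨r, hr⟩ := isConj_iff.1 (hcy.isConj hcy.inv (by rw [Perm.support_inv]))
  replace hr : MulAut.conj r c = c⁻¹ := hr
  obtain ⟨x, hx⟩ : ∃ x, τ x ≠ x := by
    by_contra h
    push Not at h
    exact hc (by rwa [show τ = 1 from Equiv.ext h, mul_one])
  have h2 : MulAut.conj (swap x (τ x)) c = c := by
    rw [← bgrp1_mem, Subgroup.mem_centralizer_singleton_iff, Equiv.mul_swap_eq_swap_mul,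
      (hd x).resolve_right hx, (hd (τ x)).resolve_right (τ.injective.ne hx)]
  refine ⟨⟨bgrp1_H c, Subgroup.centralizer {c}, 2, Nat.prime_two, fun h hh =>
    Or.inl (bgrp1_mem.1 hh), fun h hh y hy => ?_, ?_, ?_⟩, Or.inl ?_, fun h hh hd => ?_⟩
  · rw [bgrp1_mem] at hy ⊢
    rw [map_mul, map_mul, MulAut.mul_apply, MulAut.mul_apply]
    have h3 : MulAut.conj y (MulAut.conj h⁻¹ c) = MulAut.conj h⁻¹ c := by
      rcases (bgrp1_H c).inv_mem hh with e | e <;> simp only [e, hy, map_inv (MulAut.conj y)]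
    rw [h3, ← MulAut.mul_apply, ← map_mul, mul_inv_cancel, map_one, MulAut.one_apply]
  · refine Subgroup.index_eq_two_iff.2 ⟨⟨r, Or.inr hr⟩, fun b => ?_⟩
    simp only [Subgroup.mem_subgroupOf, bgrp1_mem, Subgroup.coe_mul, map_mul, MulAut.mul_apply, hr,
      map_inv]
    rcases b.2 with e | e <;> simp [e, h1]
  · rcases Int.units_eq_one_or (Perm.sign r) with e | e
    · exact ⟨r, Or.inr hr, fun h => h1 (hr ▸ bgrp1_mem.1 h), e⟩
    · have h3 : MulAut.conj (r * swap x (τ x)) c = c⁻¹ := by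
        rw [map_mul, MulAut.mul_apply, h2, hr]
      exact ⟨_, Or.inr h3, fun h => h1 (h3 ▸ bgrp1_mem.1 h), by
        rw [map_mul, e, Perm.sign_swap hx.symm, neg_mul_neg, mul_one]⟩
  · rw [← bgrp1_mem, Subgroup.mem_centralizer_singleton_iff, mul_assoc, hd.commute.eq]
  · refine bgrp1_mem.2 (hh.resolve_right fun e => ?_)
    obtain ⟨a, ha⟩ := fix_of_conj (h := h) hcy (v := -1) (by
      rw [show (-1 - 1 : ℤ) = -((2 : ℕ) : ℤ) by norm_num, IsCoprime.neg_left_iff,
        Nat.isCoprime_iff_coprime]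
      exact (Nat.prime_two.coprime_iff_not_dvd).2 ho) (by rw [zpow_neg_one]; exact e)
    exact hd a ha

end Pool.Agent.Lib.MP_830c64_nt.CL
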