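import Pool.Agent.Lib.MP_830c64_nt.CL.BGrp1

/-! Cycles of prime length. -/

namespace Pool.Agent.Lib.MP_830c64_nt.CL

open NumberField Module Equiv Finset
open scoped Classical ComplexConjugate

theorem bgrp2_pow {G : Type} [Group G] {g h : G} {a : ℕ} (e : h * g * h⁻¹ = g ^ a) (m : ℕ) :
    h ^ m * g * (h ^ m)⁻¹ = g ^ a ^ m := by
  induction m with
  | zero => simp
  | succ m ih =>
    rw [pow_succ' a, pow_mul, ← e, conj_pow, ← ih, pow_succ' h]
    group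

/-- The elements that conjugate `g` to `g ^ w ^ j` for some `j`. -/
def bgrp2_H {G : Type} [Group G] [Finite G] (g : G) (w : ℕ) : Subgroup G where
  carrier := {h | ∃ j : ℕ, h * g * h⁻¹ = g ^ w ^ j}
  one_mem' := ⟨0, by simp⟩
  mul_mem' := fun {x y} ⟨i, hi⟩ ⟨j, hj⟩ => ⟨i + j, by
    rw [pow_add, pow_mul, ← hi, conj_pow, ← hj]
    group⟩
  inv_mem' := fun {x} ⟨i, hi⟩ => ⟨i * (orderOf x - 1), by
    have : x⁻¹ = x ^ (orderOf x - 1) := inv_eq_of_mul_eq_one_left (by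
      rw [← pow_succ, Nat.sub_add_cancel (orderOf_pos x), pow_orderOf_eq_one])
    rw [this, bgrp2_pow hi, pow_mul]⟩

theorem bgrp2_unit {n : ℕ} (hp : n.Prime) (h5 : 5 ≤ n) : ∃ l a : ℕ, l.Prime ∧ a.Coprime n ∧
    (a ^ 2) ^ l ≡ 1 [MOD n] ∧ ¬ a ^ 2 ≡ 1 [MOD n] := by
  have := Fact.mk hp
  obtain ⟨z, hz⟩ := IsCyclic.exists_ofOrder_eq_natCard (α := (ZMod n)ˣ)
  rw [Nat.card_eq_fintype_card, ZMod.card_units] at hz
  obtain ⟨m, hm⟩ := hp.odd_of_ne_two (by omega)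
  have pl := Nat.minFac_prime (show m ≠ 1 by omega)
  obtain ⟨t, ht⟩ := Nat.minFac_dvd m
  generalize m.minFac = l at *
  have t0 : 0 < t := Nat.pos_of_mul_pos_left (a := l) (by omega)
  have t1 := Nat.mul_le_mul_right t pl.two_le
  refine ⟨l, ((z ^ t : (ZMod n)ˣ) : ZMod n).val, pl, ZMod.val_coe_unit_coprime _, ?_, ?_⟩ <;>
    simp only [← ZMod.natCast_eq_natCast_iff, Nat.cast_pow, ZMod.natCast_zmod_val, Nat.cast_one,
      ← Units.val_pow_eq_pow_val, Units.val_eq_one, ← pow_mul, ← orderOf_dvd_iff_pow_eq_one, hz]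
  · exact ⟨1, by rw [hm, ht, Nat.add_sub_cancel]; ring⟩
  · intro e
    have := Nat.le_of_dvd (by omega) e
    omega

/-- `H0` is the centraliser of `g`, `H` the set of `h` with `h g h⁻¹ = g ^ w ^ j` for some `j`,
where `w` is a square of prime order modulo `n`. -/
theorem grp2 {n : ℕ} (hp : n.Prime) (h5 : 5 ≤ n) {g : Perm (Fin n)} (hg : Der g)
    (hc : g.IsCycle) : ∃ t : Tri n, g ∈ t.H ∧ ∀ h ∈ t.H, Der h → h ∈ t.H0 := by
  obtain ⟨l, a, pl, ca, e1, e2⟩ := bgrp2_unit hp h5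
  have := Fact.mk pl
  have s : g.support.card = n := by
    rw [eq_univ_of_forall fun x => Perm.mem_support.2 (hg x), card_univ, Fintype.card_fin]
  have o : orderOf g = n := hc.orderOf.trans s
  have ca' : a.Coprime (orderOf g) := by rwa [o]
  obtain ⟨c, hk⟩ := isConj_iff.1 (hc.isConj (hc.pow_iff.2 ca')
    (by rw [Perm.support_pow_coprime ca']))
  have k := bgrp2_pow hk 2
  have m0 : ∀ h, h ∈ Subgroup.centralizer {g} ↔ h * g * h⁻¹ = g := fun h => by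
    rw [Subgroup.mem_centralizer_singleton_iff, mul_inv_eq_iff_eq_mul]
  have pe : ∀ x : ℕ, g ^ x = g ↔ x ≡ 1 [MOD n] := fun x => by
    have := pow_eq_pow_iff_modEq (x := g) (n := x) (m := 1)
    rwa [o, pow_one] at this
  have kH : c ^ 2 ∈ bgrp2_H g (a ^ 2) := ⟨1, by rw [k, pow_one]⟩
  have k0 : c ^ 2 ∉ Subgroup.centralizer {g} := by rwa [m0, k, pe]
  have nr : ∀ h ∈ bgrp2_H g (a ^ 2), ∀ x ∈ Subgroup.centralizer {g},
      h * x * h⁻¹ ∈ Subgroup.centralizer {g} := fun h hh x hx => by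
    obtain ⟨j, hj⟩ := inv_mem hh
    have := congrArg (· ^ (a ^ 2) ^ j) ((m0 x).1 hx)
    simp only [conj_pow, ← hj] at this
    rw [m0, show h * x * h⁻¹ * g * (h * x * h⁻¹)⁻¹ = h * (x * (h⁻¹ * g * h⁻¹⁻¹) * x⁻¹) * h⁻¹ by
      group, this]
    group
  refine ⟨⟨bgrp2_H g (a ^ 2), Subgroup.centralizer {g}, l, pl,
    fun h hh => ⟨0, by rw [(m0 h).1 hh, pow_zero, pow_one]⟩, nr, ?_, c ^ 2, kH, k0, by
      rw [map_pow, Int.units_sq]⟩, ⟨0, by simp⟩, fun h ⟨j, hj⟩ hd => ?_⟩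
  · have : ((Subgroup.centralizer {g}).subgroupOf (bgrp2_H g (a ^ 2))).Normal :=
      ⟨fun x hx h => nr h h.2 x hx⟩
    rw [Subgroup.relIndex, Subgroup.index, ← orderOf_eq_card_of_forall_mem_zpowers
      (g := QuotientGroup.mk ⟨_, kH⟩) fun y => ?_]
    · refine orderOf_eq_prime ?_ fun e => k0 ((QuotientGroup.eq_one_iff _).1 e :)
      rw [← QuotientGroup.mk_pow, QuotientGroup.eq_one_iff]
      exact (m0 _).2 ((bgrp2_pow k l).trans ((pe _).2 e1))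
    · obtain ⟨⟨h, j, hj⟩, rfl⟩ := QuotientGroup.mk_surjective y
      refine ⟨j, ?_⟩
      simp only [zpow_natCast]
      rw [← QuotientGroup.mk_pow, QuotientGroup.eq]
      refine (m0 (((c ^ 2) ^ j)⁻¹ * h)).2 ?_
      rw [show ((c ^ 2) ^ j)⁻¹ * h * g * (((c ^ 2) ^ j)⁻¹ * h)⁻¹ =
        ((c ^ 2) ^ j)⁻¹ * (h * g * h⁻¹) * (c ^ 2) ^ j by group, hj, ← bgrp2_pow k j]
      group
  · by_contra hn
    change h ∉ Subgroup.centralizer {g} at hn
    rw [m0, hj, pe, Nat.modEq_iff_dvd, dvd_sub_comm] at hn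
    obtain ⟨x, hx⟩ := fix_of_conj hc (v := ((a ^ 2) ^ j : ℕ)) (by
      rw [s]
      exact ((Nat.prime_iff_prime_int.1 hp).irreducible.coprime_iff_not_dvd.2 hn).symm)
      (by rw [hj, zpow_natCast])
    exact hd x hx

end Pool.Agent.Lib.MP_830c64_nt.CL
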