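import Pool.Agent.Lib.MP_830c64_nt.CL.BGrp2

/-! Cycles of composite odd length, and all cases together. -/

namespace Pool.Agent.Lib.MP_830c64_nt.CL

open NumberField Module Equiv Finset
open scoped Classical ComplexConjugate

theorem bgrp3_ord {n : ℕ} {g : Perm (Fin n)} (hg : Der g) (hc : g.IsCycle) : orderOf g = n := by
  rw [hc.orderOf, eq_univ_of_forall fun a => Perm.mem_support.2 (hg a), card_univ, Fintype.card_fin]

theorem bgrp3_beta {n b : ℕ} [NeZero b] (hb : b ∣ n) {g : Perm (Fin n)} (hg : Der g)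
    (hc : g.IsCycle) (x : Fin n) : ∃ β : Fin n → ZMod b, Function.Surjective β ∧
      (∀ y, β (g y) = β y + 1) ∧ β ((g ^ b) x) = β x := by
  choose j hj using fun y => hc.exists_pow_eq (hg x) (hg y)
  have h : ∀ k : ℕ, (j ((g ^ k) x) : ZMod b) = k := fun k => by
    have := pow_eq_pow_iff_modEq.1 (hc.pow_eq_pow_iff.2 ⟨x, hg x, hj ((g ^ k) x)⟩)
    rw [bgrp3_ord hg hc] at this
    exact (ZMod.natCast_eq_natCast_iff ..).2 (this.of_dvd hb)
  refine ⟨fun y => j y, fun c => ⟨_, (h c.val).trans (ZMod.natCast_zmod_val c)⟩, fun y => ?_, ?_⟩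
  · have := h (j y + 1)
    rwa [pow_succ', Perm.mul_apply, hj, Nat.cast_succ] at this
  · exact (h b).trans ((ZMod.natCast_self b).trans (Nat.cast_zero.symm.trans (h 0).symm))

/-- The permutations that induce a permutation in `S` along `β`. -/
def bgrp3_lift {A B : Type} (β : A → B) (S : Subgroup (Perm B)) : Subgroup (Perm A) where
  carrier := {h | ∃ p ∈ S, ∀ x, β (h x) = p (β x)}
  one_mem' := ⟨1, one_mem _, fun _ => rfl⟩
  mul_mem' := fun ⟨p, hp, e⟩ ⟨q, hq, e'⟩ =>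
    ⟨p * q, mul_mem hp hq, fun x => by rw [Perm.mul_apply, e, e', Perm.mul_apply]⟩
  inv_mem' := fun ⟨p, hp, e⟩ =>
    ⟨p⁻¹, inv_mem hp, fun x => by rw [Perm.eq_inv_iff_eq, ← e, Perm.inv_def, apply_symm_apply]⟩

theorem bgrp3_mem {A B : Type} {β : A → B} (hβ : Function.Surjective β) {S : Subgroup (Perm B)}
    {h : Perm A} {p : Perm B} (e : ∀ x, β (h x) = p (β x)) : h ∈ bgrp3_lift β S ↔ p ∈ S :=
  ⟨fun ⟨q, hq, e'⟩ => (Equiv.ext (hβ.forall.2 fun x => (e' x).symm.trans (e x)) : q = p) ▸ hq,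
    fun hp => ⟨p, hp, e⟩⟩

/-- `H` is the group of the `h` that induce a permutation of `ZMod b`, `H0` those with an even
induced permutation. -/
theorem grp3 {n : ℕ} (hn : Odd n) (h5 : 5 ≤ n) (hp : ¬ n.Prime) {g : Perm (Fin n)} (hg : Der g)
    (hc : g.IsCycle) : ∃ t : Tri n, g ∈ t.H ∧ ∀ h ∈ t.H, Der h → h.IsCycle → h ∈ t.H0 := by
  have hb : Fact n.minFac.Prime := ⟨Nat.minFac_prime (by omega)⟩
  have hlt := (Nat.not_prime_iff_minFac_lt (by omega)).1 hp
  let x : Fin n := ⟨0, by omega⟩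
  obtain ⟨β, hβ, h1, h2⟩ := bgrp3_beta n.minFac_dvd hg hc x
  have h3 : (g ^ n.minFac) x ≠ x := fun e => by
    have := orderOf_dvd_of_pow_eq_one ((hc.pow_eq_one_iff' (hg x)).2 e)
    rw [bgrp3_ord hg hc] at this
    exact absurd (Nat.le_of_dvd hb.out.pos this) hlt.not_ge
  have h4 : ∀ y, β (g⁻¹ y) = β y - 1 := fun y =>
    eq_sub_of_add_eq (by rw [← h1, Perm.inv_def, apply_symm_apply])
  obtain ⟨a, ha⟩ : ∃ a : Perm (Fin n), ∀ y, β (a y) = swap 0 1 (β y) := by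
    refine ⟨Function.Involutive.toPerm
      (fun y => if β y = 0 then g y else if β y = 1 then g⁻¹ y else y) fun y => ?_, fun y => ?_⟩
    · by_cases e0 : β y = 0
      · simp [e0, h1]
      · by_cases e1 : β y = 1
        · simp only [e1, one_ne_zero, if_false, if_true, h4, sub_self]
          simp
        · simp [e0, e1]
    · rw [Function.Involutive.coe_toPerm, swap_apply_def]
      split_ifs with e0 e1
      · rw [h1, e0, zero_add]
      · rw [h4, e1, sub_self]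
      · rfl
  obtain ⟨a, ha, hs⟩ : ∃ a : Perm (Fin n), (∀ y, β (a y) = swap 0 1 (β y)) ∧ Perm.sign a = 1 := by
    rcases Int.units_eq_one_or (Perm.sign a) with e | e
    · exact ⟨a, ha, e⟩
    · exact ⟨a * swap ((g ^ n.minFac) x) x, fun y => by
        rw [Perm.mul_apply, ha, apply_swap_eq_self h2], by simp [e, Perm.sign_swap h3]⟩
  have h5 : ∀ {p : Perm (ZMod n.minFac)},
      p * swap 0 1 ∈ alternatingGroup _ ↔ p ∉ alternatingGroup _ := by
    intro p
    rcases Int.units_eq_one_or (Perm.sign p) with e | e <;>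
      simp [Perm.mem_alternatingGroup, e]
  refine ⟨⟨bgrp3_lift β ⊤, bgrp3_lift β (alternatingGroup _), 2, Nat.prime_two,
    fun h ⟨p, _, e⟩ => ⟨p, trivial, e⟩, fun h ⟨p, _, e⟩ k ⟨q, hq, e'⟩ =>
      ⟨p * q * p⁻¹, (alternatingGroup.normal).conj_mem q hq p, fun y => ?_⟩,
    Subgroup.relIndex_eq_two_iff.2 ⟨a, ⟨_, trivial, ha⟩, fun h ⟨p, _, e⟩ => ?_⟩,
    a, ⟨_, trivial, ha⟩, fun h => ?_, hs⟩, ⟨Equiv.addRight 1, trivial, h1⟩,
    fun h ⟨p, _, e⟩ hd hc' => ⟨p, ?_, e⟩⟩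
  · rw [Perm.mul_apply, Perm.mul_apply, e, e', Perm.mul_apply, Perm.mul_apply,
      (Perm.eq_inv_iff_eq.2 (by rw [← e, Perm.inv_def, apply_symm_apply]) : β (h⁻¹ y) = p⁻¹ (β y))]
  · rw [bgrp3_mem hβ e, bgrp3_mem (p := p * swap 0 1) hβ fun y => by
      rw [Perm.mul_apply, e, ha, Perm.mul_apply], h5]
    exact (xor_not_left.2 Iff.rfl)
  · exact (h5 (p := 1)).1 (by simpa using (bgrp3_mem hβ ha).1 h) (one_mem _)
  · have e1 : ∀ (k : ℕ) y, β ((h ^ k) y) = (p ^ k) (β y) := fun k => by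
      induction k with
      | zero => exact fun _ => rfl
      | succ k ih => exact fun y => by rw [pow_succ', pow_succ', Perm.mul_apply, e, ih]; rfl
    have e2 := (bgrp3_mem (S := ⊥) hβ (e1 n)).1 (by
      rw [orderOf_dvd_iff_pow_eq_one.1 (bgrp3_ord hd hc').dvd]
      exact one_mem _)
    have e3 := congrArg Perm.sign (Subgroup.mem_bot.1 e2)
    rwa [map_pow, map_one, Int.units_pow_eq_pow_mod_two, Nat.odd_iff.1 hn, pow_one] at e3

theorem grp {n : ℕ} (hn : Odd n) (h5 : 5 ≤ n) {g : Perm (Fin n)} (hg : Der g) :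
    ∃ t : Tri n, g ∈ t.H ∧ t.good g ∧
      ∀ g', Der g' → t.good g' ∨ (g.IsCycle ∧ ¬ g'.IsCycle) := by
  have hd : ∀ {k : Perm (Fin n)} (s : Perm (Fin n)), Der k → Der (s⁻¹ * k * s) :=
    fun s hk a e => hk (s a) (Perm.inv_eq_iff_eq.1 e)
  by_cases hc : g.IsCycle
  · by_cases hp : n.Prime
    · obtain ⟨t, h1, h2⟩ := grp2 hp h5 hg hc
      exact ⟨t, h1, fun s h => h2 _ h (hd s hg), fun k hk => .inl fun s h => h2 _ h (hd s hk)⟩
    · obtain ⟨t, h1, h2⟩ := grp3 hn h5 hp hg hc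
      have h3 : ∀ k, Der k → k.IsCycle → t.good k := fun k hk hk' s h =>
        h2 _ h (hd s hk) (by simpa only [inv_inv] using hk'.conj (g := s⁻¹))
      exact ⟨t, h1, h3 g hg hc, fun k hk => (em k.IsCycle).imp (h3 k hk) fun h => ⟨hc, h⟩⟩
  · obtain ⟨t, h1, h2⟩ := grp1 hn hg hc
    exact ⟨t, h1, fun s h => h2 _ h (hd s hg), fun k hk => .inl fun s h => h2 _ h (hd s hk)⟩

end Pool.Agent.Lib.MP_830c64_nt.CL
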