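import Pool.Agent.Lib.MP_830c64_nt.CL.BGour

/-! Indices of subgroups and a pigeonhole principle. -/

namespace Pool.Agent.Lib.MP_830c64_nt.CL

open NumberField Module Equiv Finset
open scoped Classical ComplexConjugate

variable {n : ℕ} {Γ : Type} [Group Γ] [Finite Γ] {ρ ρ' : Γ →* Perm (Fin n)} {G : Subgroup Γ}

/-- The map from `H.comap ρ ⊓ G` to the group `H / H0` of prime order is nontrivial. -/
theorem relIndex_A (hρ : Function.Surjective ρ) (hG : ∀ τ, τ ^ 2 ∈ G) (t : Tri n) :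
    (t.H0.comap ρ ⊓ G).relIndex (t.H.comap ρ ⊓ G) = t.l := by
  let f : ↥(t.H.comap ρ ⊓ G) →* t.H :=
    (ρ.comp (Subgroup.subtype _)).codRestrict t.H fun x => x.2.1
  have : (t.H0.subgroupOf t.H).Normal :=
    ⟨fun x hx h => t.nrm h h.2 x hx⟩
  have e : (t.H0.comap ρ ⊓ G).subgroupOf (t.H.comap ρ ⊓ G) = (t.H0.subgroupOf t.H).comap f :=
    Subgroup.ext fun x => and_iff_left x.2.2
  have h1 := Subgroup.relIndex_dvd_index_of_normal (t.H0.subgroupOf t.H) f.range
  rw [Subgroup.relIndex, e, Subgroup.index_comap]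
  refine ((Nat.dvd_prime t.prime).1 (t.idx ▸ h1)).resolve_left fun h => ?_
  obtain ⟨x, h2, h3, h4⟩ := t.ev
  obtain ⟨τ, h5, rfl⟩ := alt_le hρ hG h4
  exact h3 (Subgroup.relIndex_eq_one.1 h ⟨⟨τ, h2, h5⟩, rfl⟩)

omit [Finite Γ] in
theorem bidx_le (hG : G.index ≤ 2) (H : Subgroup (Perm (Fin n))) :
    (H.comap ρ ⊓ G).index ≤ 2 * H.index := by
  rw [mul_comm]
  refine Subgroup.index_inf_le.trans (Nat.mul_le_mul ?_ hG)
  rw [Subgroup.index_comap, ← Subgroup.relIndex_top_right]
  exact Subgroup.relIndex_le_of_le_right le_top (by simpa using H.index_ne_zero_of_finite)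

theorem index_A (hG : G.index ≤ 2) (H : Subgroup (Perm (Fin n))) :
    (H.comap ρ ⊓ G).index ≤ 2 * n.factorial := by
  exact (bidx_le hG H).trans (Nat.mul_le_mul_left 2
    (Nat.le_of_dvd n.factorial_pos (by simpa [Fintype.card_perm] using H.index_dvd_card)))

theorem index_AA (hG : G.index ≤ 2) (H H' : Subgroup (Perm (Fin n))) :
    ((H.comap ρ ⊓ G) ⊓ (H'.comap ρ' ⊓ G)).index ≤ (2 * n.factorial) ^ 2 := by
  rw [sq]
  exact Subgroup.index_inf_le.trans (Nat.mul_le_mul (index_A hG H) (index_A hG H'))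

theorem index_alt (hG : G.index ≤ 2) (H : Subgroup (Perm (Fin n))) :
    ((alternatingGroup (Fin n) ⊔ H).comap ρ ⊓ G).index ≤ 4 := by
  refine (bidx_le hG _).trans (Nat.mul_le_mul_left 2 (Nat.le_of_dvd two_pos
    ((Subgroup.index_dvd_of_le le_sup_left).trans ?_)))
  rw [alternatingGroup, Subgroup.index_ker]
  simpa using Subgroup.card_subgroup_dvd_card (Perm.sign (α := Fin n)).range

/-- Either many values agree or many values are different. -/
theorem pigeon {ι β : Type} (s : Finset ι) (f : ι → β) : ∃ s' ⊆ s, s.card ≤ s'.card ^ 2 ∧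
    ((∀ i ∈ s', ∀ j ∈ s', f i = f j) ∨ ∀ i ∈ s', ∀ j ∈ s', i ≠ j → f i ≠ f j) := by
  by_cases h : s.card ≤ (s.image f).card ^ 2
  · obtain ⟨u, h1, h2, h3⟩ := exists_subset_injOn_image_eq_of_surjOn (f := f) (s : Set ι)
      (s.image f) (by rw [coe_image]; exact Set.surjOn_image _ _)
    exact ⟨u, h1, by rwa [← card_image_of_injOn h2, h3], .inr fun i hi j hj e e' => e (h2 hi hj e')⟩
  obtain ⟨c, -, hc⟩ := exists_max_image (s.image f) (fun c => (s.filter (f · = c)).card)
    (by rcases s.eq_empty_or_nonempty with rfl | h0 <;> simp_all)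
  refine ⟨s.filter (f · = c), filter_subset _ _, ?_,
    .inl fun i hi j hj => (mem_filter.1 hi).2.trans (mem_filter.1 hj).2.symm⟩
  have h1 := card_le_mul_card_image s _ hc
  have h2 : (s.image f).card ≤ (s.filter (f · = c)).card := by
    by_contra h3
    exact h (h1.trans (sq (s.image f).card ▸ Nat.mul_le_mul_right _ (not_le.1 h3).le))
  exact h1.trans (sq (s.filter (f · = c)).card ▸ Nat.mul_le_mul_left _ h2)

end Pool.Agent.Lib.MP_830c64_nt.CL
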