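import Pool.Agent.Lib.MP_830c64_nt.CL.BDefs

/-! The large sieve: combinatorial steps. -/

namespace Pool.Agent.Lib.MP_830c64_nt.CL

open NumberField Module Equiv Finset
open scoped Classical ComplexConjugate

theorem bls1_card_pair (P : Finset ℕ) {k : ℕ} {i j : Fin k} (h : i ≠ j) :
    ((Fintype.piFinset fun _ : Fin k => P).filter fun f => f i = f j).card ≤ P.card ^ (k - 1) := by
  have h1 : (Fintype.piFinset fun _ : {a : Fin k // a ≠ j} => P).card = P.card ^ (k - 1) := by
    simp [Fintype.card_piFinset, Fintype.card_subtype_compl]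
  rw [← h1]
  refine card_le_card_of_injOn (fun f a => f a.1) (fun f hf => ?_) fun f hf g hg e => ?_
  · simp only [coe_filter, Fintype.mem_piFinset, Set.mem_ofPred_eq] at hf
    simp only [mem_coe, Fintype.mem_piFinset]
    exact fun a => hf.1 _
  · simp only [coe_filter, Fintype.mem_piFinset, Set.mem_ofPred_eq] at hf hg
    funext a
    by_cases ha : a = j
    · rw [ha, ← hf.2, ← hg.2]
      exact congrFun e ⟨i, h⟩
    · exact congrFun e ⟨a, ha⟩

theorem bls1_card (P : Finset ℕ) (k : ℕ) :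
    ((Fintype.piFinset fun _ : Fin k => P).filter fun f => ¬ Function.Injective f).card ≤
      k ^ 2 * P.card ^ (k - 1) := by
  have h1 : ((Fintype.piFinset fun _ : Fin k => P).filter fun f => ¬ Function.Injective f) ⊆
      (univ : Finset (Fin k)).offDiag.biUnion fun q =>
        (Fintype.piFinset fun _ : Fin k => P).filter fun f => f q.1 = f q.2 := by
    intro f hf
    obtain ⟨h2, h3⟩ := mem_filter.1 hf
    obtain ⟨i, j, h4, h5⟩ := Function.not_injective_iff.1 h3
    exact mem_biUnion.2 ⟨(i, j), by simp [h5], mem_filter.2 ⟨h2, h4⟩⟩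
  refine (card_le_card h1).trans ((card_biUnion_le_card_mul _ _ (P.card ^ (k - 1)) fun q hq =>
    bls1_card_pair P (mem_offDiag.1 hq).2.2).trans (Nat.mul_le_mul_right _ ?_))
  rw [offDiag_card, card_univ, Fintype.card_fin, sq]
  exact Nat.sub_le _ _

/-- `(∑ ψ) ^ k` is the sum over all maps `Fin k → P` (`Finset.prod_univ_sum`); at most
`k ^ 2 * P.card ^ (k - 1)` of them are not injective. -/
theorem ls_inj (P : Finset ℕ) (ψ : ℕ → ℂ) {B : ℝ} (hB : ∀ p ∈ P, ‖ψ p‖ ≤ B) (hB0 : 0 ≤ B) (k : ℕ) :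
    ‖(∑ p ∈ P, ψ p) ^ k -
      ∑ f ∈ (Fintype.piFinset fun _ : Fin k => P).filter Function.Injective, ∏ j, ψ (f j)‖ ≤
      k ^ 2 * B ^ k * P.card ^ (k - 1) := by
  have h1 : (∑ p ∈ P, ψ p) ^ k = ∑ f ∈ Fintype.piFinset fun _ : Fin k => P, ∏ j, ψ (f j) := by
    rw [← prod_univ_sum (fun _ : Fin k => P) fun _ p => ψ p, prod_const, card_univ, Fintype.card_fin]
  rw [h1, ← sum_filter_add_sum_filter_not _ Function.Injective, add_sub_cancel_left]
  refine (norm_sum_le _ _).trans ((sum_le_card_nsmul _ _ (B ^ k) fun f hf => ?_).trans ?_)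
  · rw [norm_prod]
    refine (prod_le_prod (g := fun _ => B) (fun _ _ => norm_nonneg _) fun j _ =>
      hB _ (Fintype.mem_piFinset.1 (mem_filter.1 hf).1 j)).trans ?_
    rw [prod_const, card_univ, Fintype.card_fin]
  · have h2 : (((Fintype.piFinset fun _ : Fin k => P).filter
        fun f => ¬ Function.Injective f).card : ℝ) ≤ k ^ 2 * P.card ^ (k - 1) := by
      exact_mod_cast bls1_card P k
    rw [nsmul_eq_mul, mul_right_comm]
    exact mul_le_mul_of_nonneg_right h2 (pow_nonneg hB0 _)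

/-- The form is a sum of squares: expand the product of sums over the maps `S → T`. -/
theorem ls_psd {ι κ T : Type} [Fintype κ] [Fintype T] (s : Finset ι) (b : ι → ℂ)
    (u : ι → κ → T → ℂ) :
    ∑ i ∈ s, ∑ j ∈ s, b i * conj (b j) * ∏ a, ∑ t, u i a t * conj (u j a t) =
      ((∑ τ : κ → T, ‖∑ i ∈ s, b i * ∏ a, u i a (τ a)‖ ^ 2 : ℝ) : ℂ) := by
  have h1 : ∀ i j, ∏ a, ∑ t, u i a t * conj (u j a t) =
      ∑ τ : κ → T, (∏ a, u i a (τ a)) * conj (∏ a, u j a (τ a)) := by
    intro i j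
    rw [prod_univ_sum (fun _ => univ) fun a t => u i a t * conj (u j a t), Fintype.piFinset_univ]
    simp only [prod_mul_distrib, map_prod]
  have h2 : ∀ τ : κ → T, ((‖∑ i ∈ s, b i * ∏ a, u i a (τ a)‖ ^ 2 : ℝ) : ℂ) =
      ∑ i ∈ s, ∑ j ∈ s, b i * conj (b j) * ((∏ a, u i a (τ a)) * conj (∏ a, u j a (τ a))) := by
    intro τ
    rw [Complex.ofReal_pow, ← Complex.mul_conj', map_sum, sum_mul_sum]
    refine sum_congr rfl fun i _ => sum_congr rfl fun j _ => ?_
    rw [map_mul]; ring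
  rw [Complex.ofReal_sum]
  simp only [h1, h2, mul_sum]
  rw [sum_comm (s := univ)]
  exact sum_congr rfl fun i _ => sum_comm

theorem bls1_sqf {k : ℕ} {f : Fin k → ℕ} (hf : ∀ j, (f j).Prime) (hi : Function.Injective f) :
    Squarefree (∏ j, f j) ∧ (∏ j, f j).primeFactors = univ.image f := by
  have h1 : ∏ j, f j = ∏ p ∈ univ.image f, p := (prod_image (f := fun p => p) hi.injOn).symm
  have h2 : ∀ p ∈ univ.image f, p.Prime := fun p hp => by
    obtain ⟨j, -, rfl⟩ := mem_image.1 hp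
    exact hf j
  refine ⟨?_, by rw [h1, Nat.primeFactors_prod h2]⟩
  exact Finset.squarefree_prod_of_pairwise_isCoprime
    (fun i _ j _ h => Nat.coprime_iff_isRelPrime.1
      ((Nat.coprime_primes (hf i) (hf j)).2 fun e => h (hi e))) fun j _ => (hf j).squarefree

/-- An injective tuple of primes is determined, up to `k ^ k` choices, by its product. -/
theorem ls_fib (P : Finset ℕ) (k : ℕ) {y x : ℝ} (hP : ∀ p ∈ P, p.Prime ∧ (p : ℝ) ≤ y)
    (hx : y ^ k ≤ x) (F : ℕ → ℝ) (hF : ∀ m ∈ sqf x, 0 ≤ F m) :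
    ∑ f ∈ (Fintype.piFinset fun _ : Fin k => P).filter Function.Injective, F (∏ j, f j) ≤
      k ^ k * ∑ m ∈ sqf x, F m := by
  have h0 : ∀ f ∈ (Fintype.piFinset fun _ : Fin k => P).filter Function.Injective,
      (∀ j, (f j).Prime) ∧ (∀ j, (f j : ℝ) ≤ y) ∧ Function.Injective f := fun f hf =>
    ⟨fun j => (hP _ (Fintype.mem_piFinset.1 (mem_filter.1 hf).1 j)).1,
      fun j => (hP _ (Fintype.mem_piFinset.1 (mem_filter.1 hf).1 j)).2, (mem_filter.1 hf).2⟩
  have h1 : ∀ f ∈ (Fintype.piFinset fun _ : Fin k => P).filter Function.Injective,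
      ∏ j, f j ∈ sqf x := by
    intro f hf
    obtain ⟨a1, a2, a3⟩ := h0 f hf
    have a4 := (bls1_sqf a1 a3).1
    refine mem_filter.2 ⟨mem_Icc.2 ⟨Nat.pos_of_ne_zero a4.ne_zero, Nat.le_floor ?_⟩, a4⟩
    refine le_trans ?_ hx
    rw [Nat.cast_prod]
    refine (prod_le_prod (g := fun _ => y) (fun _ _ => Nat.cast_nonneg _) fun j _ => a2 j).trans ?_
    rw [prod_const, card_univ, Fintype.card_fin]
  rw [← sum_fiberwise_of_maps_to h1, mul_sum]
  refine sum_le_sum fun m hm => ?_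
  rw [sum_congr rfl fun f hf => congrArg F (mem_filter.1 hf).2, sum_const, nsmul_eq_mul]
  refine mul_le_mul_of_nonneg_right ?_ (hF m hm)
  rcases (((Fintype.piFinset fun _ : Fin k => P).filter Function.Injective).filter
    fun f => ∏ j, f j = m).eq_empty_or_nonempty with e | ⟨g, hg⟩
  · rw [e, card_empty, Nat.cast_zero]; positivity
  · obtain ⟨b1, b2⟩ := mem_filter.1 hg
    obtain ⟨a1, -, a3⟩ := h0 g b1
    have c1 : m.primeFactors.card = k := by
      rw [← b2, (bls1_sqf a1 a3).2, card_image_of_injective _ a3, card_univ, Fintype.card_fin]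
    have c2 : (Fintype.piFinset fun _ : Fin k => m.primeFactors).card = k ^ k := by
      simp [Fintype.card_piFinset, c1]
    rw [← Nat.cast_pow, ← c2, Nat.cast_le]
    refine card_le_card fun f hf => Fintype.mem_piFinset.2 fun j => ?_
    obtain ⟨d1, d2⟩ := mem_filter.1 hf
    obtain ⟨e1, -, e3⟩ := h0 f d1
    rw [← d2, (bls1_sqf e1 e3).2]
    exact mem_image_of_mem _ (mem_univ _)

end Pool.Agent.Lib.MP_830c64_nt.CL
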