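import Pool.Agent.Lib.MP_830c64_nt.CL.BLs1

/-! The large sieve inequality. -/

namespace Pool.Agent.Lib.MP_830c64_nt.CL

open NumberField Module Equiv Finset
open scoped Classical ComplexConjugate

theorem bls2_phase (z : ℂ) : ∃ b : ℂ, ‖b‖ ≤ 1 ∧ b * z = (‖z‖ : ℂ) := by
  by_cases h : z = 0
  · exact ⟨0, by simp, by simp [h]⟩
  · have h1 : (‖z‖ : ℂ) ≠ 0 := by exact_mod_cast norm_ne_zero_iff.2 h
    refine ⟨(‖z‖ : ℂ) / z, ?_, div_mul_cancel₀ _ h⟩
    rw [norm_div, Complex.norm_real, norm_norm, div_self (norm_ne_zero_iff.2 h)]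

theorem bls2_mem {x : ℝ} {m : ℕ} (hm : m ∈ sqf x) : 1 ≤ m ∧ (m : ℝ) ≤ x := by
  have h := mem_Icc.1 (mem_filter.1 hm).1
  have h0 : 0 ≤ x := by
    by_contra h0
    have : ⌊x⌋₊ = 0 := Nat.floor_of_nonpos (le_of_lt (not_le.1 h0))
    omega
  exact ⟨h.1, (Nat.le_floor_iff h0).1 h.2⟩

theorem bls2_pf {k : ℕ} {f : Fin k → ℕ} (hf : Function.Injective f) (hp : ∀ j, (f j).Prime)
    (g : ℕ → ℂ) : ∏ p ∈ (∏ j, f j).primeFactors, g p = ∏ j, g (f j) := by
  have h1 : ∏ j, f j = ∏ p ∈ univ.image f, p := by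
    rw [prod_image fun a _ b _ h => hf h]
  rw [h1, Nat.primeFactors_prod, prod_image fun a _ b _ h => hf h]
  intro p h
  obtain ⟨j, -, rfl⟩ := mem_image.1 h
  exact hp j

theorem bls2_form {ι T : Type} [Fintype T] (s : Finset ι) (u : ι → ℕ → T → ℂ) (b : ι → ℂ) :
    ∃ Q : ℕ → ℝ, (∀ m, 0 ≤ Q m) ∧ ∀ m, (Q m : ℂ) = ∑ i ∈ s, ∑ j ∈ s, b i * conj (b j) *
      ∏ p ∈ m.primeFactors, ∑ t, u i p t * conj (u j p t) := by
  refine ⟨fun m => ∑ τ : m.primeFactors → T, ‖∑ i ∈ s, b i * ∏ a : m.primeFactors,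
    u i a (τ a)‖ ^ 2, fun m => sum_nonneg fun _ _ => sq_nonneg _, fun m => ?_⟩
  have h := ls_psd (κ := m.primeFactors) s b (fun i a t => u i a t)
  refine Eq.trans ?_ (h.symm.trans ?_)
  · exact congrArg _ (sum_congr (by ext; simp) fun _ _ => rfl)
  · refine sum_congr rfl fun i _ => sum_congr rfl fun j _ => ?_
    rw [prod_coe_sort m.primeFactors fun p => ∑ t, u i p t * conj (u j p t)]

theorem bls2_up {ι T : Type} [Fintype T] (s : Finset ι) (u : ι → ℕ → T → ℂ) (K : ℕ)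
    {B x Off : ℝ} (hO : 0 ≤ Off) (hB : ∀ i ∈ s, ∀ p t, ‖u i p t‖ ≤ B)
    (hoff : ∀ i ∈ s, ∀ j ∈ s, i ≠ j → ‖∑ m ∈ sqf x,
      (∏ p ∈ m.primeFactors, ∑ t, u i p t * conj (u j p t)) * ((Real.log (x / m)) ^ K : ℝ)‖ ≤ Off)
    (b : ι → ℂ) (hb : ∀ i, ‖b i‖ ≤ 1) (Q : ℕ → ℝ)
    (hQ : ∀ m, (Q m : ℂ) = ∑ i ∈ s, ∑ j ∈ s, b i * conj (b j) *
      ∏ p ∈ m.primeFactors, ∑ t, u i p t * conj (u j p t)) :
    ∑ m ∈ sqf x, Q m * Real.log (x / m) ^ K ≤ s.card *
      (∑ m ∈ sqf x, (Fintype.card T * B ^ 2) ^ m.primeFactors.card * Real.log x ^ K +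
        s.card * Off) := by
  set D : ℝ := ∑ m ∈ sqf x, (Fintype.card T * B ^ 2) ^ m.primeFactors.card * Real.log x ^ K
    with hD
  have hd : ∀ i ∈ s, ‖∑ m ∈ sqf x, (∏ p ∈ m.primeFactors, ∑ t, u i p t * conj (u i p t)) *
      ((Real.log (x / m)) ^ K : ℝ)‖ ≤ D := by
    intro i hi
    refine (norm_sum_le _ _).trans (sum_le_sum fun m hm => ?_)
    obtain ⟨h1, h2⟩ := bls2_mem hm
    have h1' : (1 : ℝ) ≤ m := by exact_mod_cast h1
    have h3 : 0 ≤ Real.log (x / m) := Real.log_nonneg ((one_le_div (by linarith)).2 h2)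
    have h4 : Real.log (x / m) ≤ Real.log x :=
      Real.log_le_log (div_pos (by linarith) (by linarith)) (div_le_self (by linarith) h1')
    rw [norm_mul, Complex.norm_real, Real.norm_of_nonneg (pow_nonneg h3 _), norm_prod]
    refine mul_le_mul ?_ (pow_le_pow_left₀ h3 h4 _) (pow_nonneg h3 _) (by positivity)
    rw [← prod_const]
    refine prod_le_prod (fun _ _ => norm_nonneg _) fun p _ => (norm_sum_le _ _).trans ?_
    rw [← card_univ, ← nsmul_eq_mul]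
    refine sum_le_card_nsmul _ _ _ fun t _ => ?_
    rw [norm_mul, Complex.norm_conj, ← sq]
    exact pow_le_pow_left₀ (norm_nonneg _) (hB i hi p t) 2
  have h1 : ((∑ m ∈ sqf x, Q m * Real.log (x / m) ^ K : ℝ) : ℂ) =
      ∑ i ∈ s, ∑ j ∈ s, b i * conj (b j) * ∑ m ∈ sqf x,
        (∏ p ∈ m.primeFactors, ∑ t, u i p t * conj (u j p t)) * ((Real.log (x / m)) ^ K : ℝ) := by
    rw [Complex.ofReal_sum]
    simp only [Complex.ofReal_mul, hQ, sum_mul, mul_sum]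
    rw [sum_comm]
    refine sum_congr rfl fun i _ => ?_
    rw [sum_comm]
    refine sum_congr rfl fun j _ => sum_congr rfl fun m _ => mul_assoc _ _ _
  refine (le_abs_self _).trans ?_
  rw [← Real.norm_eq_abs, ← Complex.norm_real, h1, ← nsmul_eq_mul]
  refine (norm_sum_le _ _).trans (sum_le_card_nsmul _ _ _ fun i hi => (norm_sum_le _ _).trans ?_)
  have h2 : ∀ j ∈ s, ‖b i * conj (b j) * ∑ m ∈ sqf x,
      (∏ p ∈ m.primeFactors, ∑ t, u i p t * conj (u j p t)) * ((Real.log (x / m)) ^ K : ℝ)‖ ≤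
      (if i = j then D else 0) + Off := by
    intro j hj
    have h3 : ‖b i * conj (b j)‖ ≤ 1 := by
      rw [norm_mul, Complex.norm_conj]
      exact mul_le_one₀ (hb i) (norm_nonneg _) (hb j)
    rw [norm_mul]
    refine (mul_le_of_le_one_left (norm_nonneg _) h3).trans ?_
    split_ifs with h
    · subst h
      exact (hd i hi).trans (le_add_of_nonneg_right hO)
    · rw [zero_add]
      exact hoff i hi j hj h
  refine (sum_le_sum h2).trans (le_of_eq ?_)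
  rw [sum_add_distrib, sum_ite_eq, if_pos hi, sum_const, nsmul_eq_mul]



/-- Choose `b i` of norm at most one with `b i * S i = ‖S i‖`, where `S i` is the sum over the
injective tuples; `‖S i‖ ≥ δ ^ k * P.card ^ k / 2` by `ls_inj` with the bound `card T * B`. Apply
the inequality of Cauchy and Schwarz over the pairs `(f, τ)`, then `ls_psd` with `κ = Fin k` (for
injective `f` the product over `Fin k` is the product over the prime factors of `∏ j, f j`), then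
`ls_fib` after inserting the weight, which is at least one when `3 * m ≤ x`. Positivity of the
form at all squarefree `m` is `ls_psd` with `κ` the subtype of the prime factors. -/
theorem ls {ι T : Type} [Fintype T] (s : Finset ι) (u : ι → ℕ → T → ℂ) (P : Finset ℕ) (k K : ℕ)
    {B y x δ Off : ℝ} (hB0 : 0 ≤ B) (hδ : 0 < δ) (hO : 0 ≤ Off) (hy : 1 ≤ y) (hk : 1 ≤ k)
    (hP : ∀ p ∈ P, p.Prime ∧ (p : ℝ) ≤ y) (hB : ∀ i ∈ s, ∀ p t, ‖u i p t‖ ≤ B)
    (hx : 3 * y ^ k ≤ x)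
    (hoff : ∀ i ∈ s, ∀ j ∈ s, i ≠ j → ‖∑ m ∈ sqf x,
      (∏ p ∈ m.primeFactors, ∑ t, u i p t * conj (u j p t)) * ((Real.log (x / m)) ^ K : ℝ)‖ ≤ Off)
    (hψ : ∀ i ∈ s, δ * P.card ≤ ‖∑ p ∈ P, ∑ t, u i p t‖)
    (hbig : 2 * k ^ 2 * (Fintype.card T * B) ^ k ≤ δ ^ k * P.card) :
    s.card * (δ ^ (2 * k) * P.card ^ k) ≤ 4 * (Fintype.card T : ℝ) ^ k * k ^ k *
      (∑ m ∈ sqf x, (Fintype.card T * B ^ 2) ^ m.primeFactors.card * Real.log x ^ K +
        s.card * Off) := by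
  set J := (Fintype.piFinset fun _ : Fin k => P).filter Function.Injective with hJ
  set D : ℝ := ∑ m ∈ sqf x, (Fintype.card T * B ^ 2) ^ m.primeFactors.card * Real.log x ^ K
    with hD
  have hyk : 1 ≤ y ^ k := one_le_pow₀ hy
  have hD0 : 0 ≤ D := sum_nonneg fun m _ =>
    mul_nonneg (by positivity) (pow_nonneg (Real.log_nonneg (by linarith)) _)
  have hS : ∀ i ∈ s, δ ^ k * (P.card : ℝ) ^ k / 2 ≤ ‖∑ f ∈ J, ∏ j, ∑ t, u i (f j) t‖ := by
    intro i hi
    have h1 := ls_inj P (fun p => ∑ t, u i p t) (B := Fintype.card T * B) (fun p _ => by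
      refine (norm_sum_le _ _).trans ?_
      rw [← card_univ, ← nsmul_eq_mul]
      exact sum_le_card_nsmul _ _ _ fun t _ => hB i hi p t) (by positivity) k
    have h2 : (δ * P.card) ^ k ≤ ‖(∑ p ∈ P, ∑ t, u i p t) ^ k‖ := by
      rw [norm_pow]
      exact pow_le_pow_left₀ (by positivity) (hψ i hi) k
    have h3 := norm_sub_norm_le ((∑ p ∈ P, ∑ t, u i p t) ^ k) (∑ f ∈ J, ∏ j, ∑ t, u i (f j) t)
    have h4 : (P.card : ℝ) ^ k = P.card * (P.card : ℝ) ^ (k - 1) := by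
      rw [← pow_succ', Nat.sub_add_cancel hk]
    have h5 := mul_le_mul_of_nonneg_right hbig (pow_nonneg (Nat.cast_nonneg (α := ℝ) P.card) (k - 1))
    rw [mul_pow, h4] at h2
    rw [h4]
    linarith
  choose b hb hb' using fun i => bls2_phase (∑ f ∈ J, ∏ j, ∑ t, u i (f j) t)
  obtain ⟨Q, hQ0, hQ⟩ := bls2_form s u b
  have hup := bls2_up s u K hO hB hoff b hb Q hQ
  rw [← hD] at hup
  have hmem : ∀ f ∈ J, Function.Injective f ∧ ∀ j, f j ∈ P := fun f hf =>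
    ⟨(mem_filter.1 hf).2, Fintype.mem_piFinset.1 (mem_filter.1 hf).1⟩
  have hfib := ls_fib P k hP (x := x) (by linarith) (fun m => Q m * Real.log (x / m) ^ K)
    (fun m hm => by
      obtain ⟨h1, h2⟩ := bls2_mem hm
      have h1' : (1 : ℝ) ≤ m := by exact_mod_cast h1
      exact mul_nonneg (hQ0 m)
        (pow_nonneg (Real.log_nonneg ((one_le_div (by linarith)).2 h2)) _))
  have hQf : ∀ f ∈ J, ∑ τ : Fin k → T, ‖∑ i ∈ s, b i * ∏ a, u i (f a) (τ a)‖ ^ 2 ≤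
      Q (∏ j, f j) * Real.log (x / (∏ j, f j : ℕ)) ^ K := by
    intro f hf
    obtain ⟨h1, h2⟩ := hmem f hf
    have h3 := ls_psd (κ := Fin k) s b (fun i a t => u i (f a) t)
    have h4 := hQ (∏ j, f j)
    simp only [bls2_pf h1 fun j => (hP _ (h2 j)).1] at h4
    have h5 : Q (∏ j, f j) = ∑ τ : Fin k → T, ‖∑ i ∈ s, b i * ∏ a, u i (f a) (τ a)‖ ^ 2 := by
      exact Complex.ofReal_injective (h4.trans (h3.trans
        (congrArg _ (sum_congr (by ext; simp) fun _ _ => rfl))))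
    rw [← h5]
    refine le_mul_of_one_le_right (hQ0 _) (one_le_pow₀ ?_)
    have h6 : ((∏ j, f j : ℕ) : ℝ) ≤ y ^ k := by
      rw [Nat.cast_prod]
      refine (prod_le_prod (fun _ _ => Nat.cast_nonneg _) fun j _ => (hP _ (h2 j)).2).trans ?_
      rw [prod_const, card_univ, Fintype.card_fin]
    have h7 : (0 : ℝ) < ((∏ j, f j : ℕ) : ℝ) := by
      exact_mod_cast prod_pos fun j _ => (hP _ (h2 j)).1.pos
    rw [Real.le_log_iff_exp_le (div_pos (by linarith) h7), le_div_iff₀ h7]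
    have h8 := Real.exp_one_lt_d9
    nlinarith
  have hsum : ∑ i ∈ s, ‖∑ f ∈ J, ∏ j, ∑ t, u i (f j) t‖ ≤
      ∑ z ∈ J ×ˢ (univ : Finset (Fin k → T)), ‖∑ i ∈ s, b i * ∏ a, u i (z.1 a) (z.2 a)‖ := by
    have h1 : ((∑ i ∈ s, ‖∑ f ∈ J, ∏ j, ∑ t, u i (f j) t‖ : ℝ) : ℂ) =
        ∑ z ∈ J ×ˢ (univ : Finset (Fin k → T)), ∑ i ∈ s, b i * ∏ a, u i (z.1 a) (z.2 a) := by
      rw [Complex.ofReal_sum, sum_comm]
      refine sum_congr rfl fun i _ => ?_
      rw [← hb' i, ← mul_sum, sum_product]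
      congr 1
      refine sum_congr rfl fun f _ => ?_
      rw [Fintype.prod_sum]
    refine (le_abs_self _).trans ?_
    rw [← Real.norm_eq_abs, ← Complex.norm_real, h1]
    exact norm_sum_le _ _
  have hcs := sq_sum_le_card_mul_sum_sq (s := J ×ˢ (univ : Finset (Fin k → T)))
    (f := fun z => ‖∑ i ∈ s, b i * ∏ a, u i (z.1 a) (z.2 a)‖)
  have hcard : ((J ×ˢ (univ : Finset (Fin k → T))).card : ℝ) ≤
      (P.card : ℝ) ^ k * (Fintype.card T : ℝ) ^ k := by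
    have h1 : J.card ≤ P.card ^ k := by
      refine (card_filter_le _ _).trans ?_
      rw [Fintype.card_piFinset, prod_const, card_univ, Fintype.card_fin]
    rw [card_product, card_univ, Fintype.card_fun, Fintype.card_fin]
    exact_mod_cast Nat.mul_le_mul_right _ h1
  have hsq : ∑ z ∈ J ×ˢ (univ : Finset (Fin k → T)),
      ‖∑ i ∈ s, b i * ∏ a, u i (z.1 a) (z.2 a)‖ ^ 2 ≤ k ^ k * (s.card * (D + s.card * Off)) := by
    rw [sum_product]
    exact (sum_le_sum hQf).trans (hfib.trans (mul_le_mul_of_nonneg_left hup (by positivity)))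
  have hlow : s.card * (δ ^ k * (P.card : ℝ) ^ k / 2) ≤
      ∑ i ∈ s, ‖∑ f ∈ J, ∏ j, ∑ t, u i (f j) t‖ := by
    rw [← nsmul_eq_mul]
    exact card_nsmul_le_sum _ _ _ hS
  have hfin : (s.card * (δ ^ k * (P.card : ℝ) ^ k / 2)) ^ 2 ≤
      (P.card : ℝ) ^ k * (Fintype.card T : ℝ) ^ k * (k ^ k * (s.card * (D + s.card * Off))) :=
    (pow_le_pow_left₀ (by positivity) (hlow.trans hsum) 2).trans
      (hcs.trans (mul_le_mul hcard hsq (sum_nonneg fun _ _ => sq_nonneg _) (by positivity)))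
  rcases (mul_nonneg (Nat.cast_nonneg (α := ℝ) s.card)
    (pow_nonneg (Nat.cast_nonneg (α := ℝ) P.card) k)).eq_or_lt with h0 | h0
  · have : (s.card : ℝ) * (δ ^ (2 * k) * P.card ^ k) = 0 := by
      rw [mul_left_comm, ← h0, mul_zero]
    rw [this]
    positivity
  · refine le_of_mul_le_mul_left ?_ h0
    rw [pow_mul', ← sub_nonneg]
    rw [← sub_nonneg] at hfin
    refine le_of_le_of_eq (mul_nonneg (by norm_num : (0 : ℝ) ≤ 4) hfin) ?_
    ring

end Pool.Agent.Lib.MP_830c64_nt.CL
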