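import Pool.Agent.Lib.MP_830c64_nt.CL.BMainT0

/-! The large sieve for one subgroup. -/

namespace Pool.Agent.Lib.MP_830c64_nt.CL

open NumberField Module Equiv Finset
open scoped Classical ComplexConjugate

/-- `pigeon` for `i ↦ (d i).A I (alternatingGroup _ ⊔ t.H)`; `G` is the common value
(`prod_of_mem`, `index_alt`) or `G0 I` (`prod_of_ne`); `mainT0` with `ε / 2`. -/
theorem mainT (hC : CancelStmt) (hF : FIStmt) (hD : DensStmt) {n : ℕ} (h5 : 5 ≤ n) (t : Tri n)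
    {δ η' ε c0 : ℝ} (hδ : 0 < δ) (hη' : 0 < η') (hε : 0 < ε) (hc0 : 0 < c0) :
    ∃ η'' : ℝ, 0 < η'' ∧ ∃ A X0 : ℝ, 0 ≤ A ∧ ∀ (M : Type) [Field M] [NumberField M] [IsGalois ℚ M]
      (I : 𝓞 M) (ι : Type) (s : Finset ι) (X T y : ℝ) (d : ι → Dat M n T)
      (Q : ℕ → Ideal (𝓞 M)) (σ : ℕ → Gl M) (P : Finset ℕ),
      I ^ 2 = -1 → X0 ≤ X → 2 ≤ T → T ≤ X ^ c0 → X ^ η' ≤ y → y ≤ X →
      (∀ p, p.Prime → Frob (Q p) p (σ p)) → (∀ p ∈ P, p.Prime ∧ (p : ℝ) ≤ y ∧ p % 4 = 1) →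
      y ^ (1 - η'') ≤ P.card → (∀ i ∈ s, ∀ j ∈ s, i ≠ j → (d i).ρ.ker ≠ (d j).ρ.ker) →
      (∀ i ∈ s, δ * P.card +
        2 * n.factorial * (P.filter fun p => ¬ t.good ((d i).ρ (σ p))).card ≤
        (P.filter fun p => t.good ((d i).ρ (σ p)) ∧ (d i).ρ (σ p) ∈ t.H).card) →
      (s.card : ℝ) ≤ A * X ^ ε := by
  obtain ⟨η'', e0, A, X0, A0, h⟩ := mainT0 hC hF hD h5 t hδ hη' (half_pos hε) hc0
  refine ⟨η'', e0, A ^ 2, max X0 0, by positivity, ?_⟩
  intro M _ _ _ I ι s X T y d Q σ P hI hX hT hTX hy hyX hQ hP hPc hker hcnt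
  have x0 : 0 ≤ X := le_of_max_le_right hX
  obtain ⟨s', hs, hcard, hcase⟩ :=
    pigeon s fun i => (d i).A I (alternatingGroup (Fin n) ⊔ t.H)
  have key : (s'.card : ℝ) ≤ A * X ^ (ε / 2) := by
    have h' := fun G => h M I ι s' X T y d Q σ P G hI (le_of_max_le_left hX) hT hTX hy hyX hQ hP
      hPc fun i hi j hj => hker i (hs hi) j (hs hj)
    rcases hcase with h1 | h1
    · rcases s'.eq_empty_or_nonempty with rfl | ⟨i0, h0⟩
      · rw [card_empty, Nat.cast_zero]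
        positivity
      · refine h' ((d i0).A I (alternatingGroup (Fin n) ⊔ t.H)) (index_alt (G0_index hI) t.H)
          (fun i hi => ?_) (fun i hi j hj hij γ hγ => ?_) fun i hi => hcnt i (hs hi)
        · rw [← h1 i hi i0 h0]
          exact inf_le_inf_right _ (Subgroup.comap_mono le_sup_right)
        · rw [← h1 i hi i0 h0] at hγ
          exact prod_of_mem h5 (d i).surj (d j).surj (hker i (hs hi) j (hs hj) hij) (sq_mem_G0 hI)
            t.H hγ.2 (Or.inl hγ.1)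
    · exact h' (G0 I) ((G0_index hI).trans (by norm_num)) (fun i _ => inf_le_right)
        (fun i hi j hj hij γ hγ => prod_of_ne h5 (d i).surj (d j).surj
          (hker i (hs hi) j (hs hj) hij) (sq_mem_G0 hI) t.H (h1 i hi j hj hij) hγ)
        fun i hi => hcnt i (hs hi)
  calc (s.card : ℝ) ≤ (s'.card : ℝ) ^ 2 := by exact_mod_cast hcard
    _ ≤ (A * X ^ (ε / 2)) ^ 2 := pow_le_pow_left₀ (Nat.cast_nonneg _) key 2
    _ = A ^ 2 * X ^ ε := by
      rw [mul_pow, ← Real.rpow_mul_natCast x0]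
      norm_num

end Pool.Agent.Lib.MP_830c64_nt.CL
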