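import Pool.Agent.Lib.MP_830c64_nt.CL.BDict
import Pool.Agent.Lib.MP_830c64_nt.CL.BRn
import Pool.Agent.Lib.MP_830c64_nt.CL.BSep
import Pool.Agent.Lib.MP_33b3f9_ag.M4.NTDens
import Pool.Agent.Lib.MP_33b3f9_ag.M4.NTDensA

/-! The product character is not trivial. -/

namespace Pool.Agent.Lib.MP_830c64_nt.CL

open NumberField Module Equiv Finset
open scoped Classical ComplexConjugate

variable {M : Type} [Field M] [NumberField M]

/-- `dict` with `u = 1`. -/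
theorem rk_eq [IsGalois ℚ M] (H : Subgroup (Gl M)) : ∃ n0 : ℕ, ∀ (p : ℕ) (Q : Ideal (𝓞 M))
    (σ : Gl M), n0 ≤ p → p.Prime → Frob Q p σ → (Nat.card H : ℝ) * M4.NT.rk (FF H) p =
      (univ.filter fun τ : Gl M => τ⁻¹ * σ * τ ∈ H).card := by
  obtain ⟨Δ, h0, hs⟩ := sep_exists H
  refine ⟨Δ + 1, fun p Q σ hn hp hF => ?_⟩
  have := dict hp hF hs (Nat.not_dvd_of_pos_of_lt (Nat.pos_of_ne_zero h0) hn) fun _ => 1
  rw [← cast_card, ← cast_card] at this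
  rw [M4.NT.rk, if_pos hp, Nat.subtype_card _ fun _ => mem_np]
  exact_mod_cast this

/-- Suppose the product character takes only the values `0`, `1`. For large primes `p` and
`τ⁻¹ σ τ` in `A0` or in `A ⊓ B0` we get `χ.w (pr A Q τ) = 1` (`spl`; `Wp_pr`, `pow`, `pr_cop`). By
`dict` with the indicator function of `χ.w = 1` and inclusion-exclusion, `DensStmt` applies to
`z = (|A0| rk (FF A0) + |A ⊓ B0| rk (FF (A ⊓ B0)) - |A0 ⊓ B0| rk (FF (A0 ⊓ B0))) / |A|`, whose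
density (`M4.NT.dens_rk`, `Dens.add`, `Dens.const_mul`) exceeds `|A0| / |A| = 1 / l`. -/
theorem nt (hD : DensStmt) [IsGalois ℚ M] {A A0 B B0 : Subgroup (Gl M)} {l : ℕ} (hl : l.Prime)
    (hA0 : A0 ≤ A) (hB0 : B0 ≤ B) (hi : A0.relIndex A = l) (hx : ∃ τ ∈ A, τ ∈ B0 ∧ τ ∉ A0)
    (χ : Chr A A0 l) (χ' : Chr B B0 l) : ∃ J, Wp χ.w χ'.w J ≠ 0 ∧ Wp χ.w χ'.w J ≠ 1 := by
  by_contra hn
  push Not at hn
  obtain ⟨n1, h1⟩ := rk_eq A0
  obtain ⟨n2, h2⟩ := rk_eq (A ⊓ B0)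
  obtain ⟨n3, h3⟩ := rk_eq (A0 ⊓ B0)
  have a0 : (0 : ℝ) < Nat.card A := Nat.cast_pos.2 Nat.card_pos
  have l0 : (0 : ℝ) < l := Nat.cast_pos.2 hl.pos
  have c1 : (Nat.card A0 : ℝ) * l = Nat.card A := by
    rw [← hi, ← Nat.card_congr (Subgroup.subgroupOfEquivOfLe hA0).toEquiv]
    exact_mod_cast Subgroup.card_mul_index (A0.subgroupOf A)
  have c2 : (Nat.card (A0 ⊓ B0 : Subgroup (Gl M)) : ℝ) < Nat.card (A ⊓ B0 : Subgroup (Gl M)) := by
    obtain ⟨τ, t1, t2, t3⟩ := hx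
    refine Nat.cast_lt.2 (lt_of_not_ge fun e => t3 ?_)
    exact ((Subgroup.eq_of_le_of_card_ge (inf_le_inf_right B0 hA0) e).ge ⟨t1, t2⟩).1
  have key := hD (FF A) χ.f l χ.w χ.two hl χ.ray χ.pow χ.nt _ _ (n1 + n2 + n3 + χ.f + χ'.f + 1)
    ((((M4.NT.dens_rk (FF A0)).const_mul (Nat.card A0)).add
      (((M4.NT.dens_rk (FF (A ⊓ B0))).const_mul (Nat.card (A ⊓ B0 : Subgroup (Gl M)))).add
        ((M4.NT.dens_rk (FF (A0 ⊓ B0))).const_mul
          (-Nat.card (A0 ⊓ B0 : Subgroup (Gl M)))))).const_mul (Nat.card A : ℝ)⁻¹) fun p hp => ?_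
  · rw [inv_mul_le_iff₀ a0, ← c1, mul_assoc, mul_one_div_cancel l0.ne'] at key
    linarith
  split_ifs with pp
  · obtain ⟨Q, σ, hF⟩ := exists_frob (M := M) pp
    have f1 : ¬ p ∣ χ.f := Nat.not_dvd_of_pos_of_lt (two_pos.trans_le χ.two) (by omega)
    have f2 : ¬ p ∣ χ'.f := Nat.not_dvd_of_pos_of_lt (two_pos.trans_le χ'.two) (by omega)
    have d := dict pp hF χ.sep f1 fun P => if χ.w P = 1 then 1 else 0
    rw [sum_boole, sum_boole, filter_filter] at d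
    rw [inv_mul_le_iff₀ a0, neg_mul, h1 p Q σ (by omega) pp hF, h2 p Q σ (by omega) pp hF,
      h3 p Q σ (by omega) pp hF]
    have u := card_union_add_card_inter (univ.filter fun τ : Gl M => τ⁻¹ * σ * τ ∈ A0)
      (univ.filter fun τ : Gl M => τ⁻¹ * σ * τ ∈ A ⊓ B0)
    rw [← filter_and, ← filter_or, filter_congr (q := fun τ : Gl M => τ⁻¹ * σ * τ ∈ A0 ⊓ B0)
      (p := fun τ : Gl M => τ⁻¹ * σ * τ ∈ A0 ∧ τ⁻¹ * σ * τ ∈ A ⊓ B0)
      fun τ _ => ⟨fun h => ⟨h.1, h.2.2⟩, fun h => ⟨h.1, hA0 h.1, h.2⟩⟩] at u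
    have v := card_le_card (monotone_filter_right (univ : Finset (Gl M))
      (p := fun τ : Gl M => τ⁻¹ * σ * τ ∈ A0 ∨ τ⁻¹ * σ * τ ∈ A ⊓ B0)
      (q := fun τ => τ⁻¹ * σ * τ ∈ A ∧ χ.w (pr A Q τ) = 1) fun τ _ h => h.elim
        (fun h => ⟨hA0 h, χ.spl Q p σ τ pp hF f1 h⟩) fun h => ⟨h.1, by
          have e := Wp_pr χ.w χ'.w pp hF (τ := τ) ⟨h.1, hB0 h.2⟩
          rw [χ'.spl Q p σ τ pp hF f2 h.2, map_one, mul_one] at e
          rw [← e]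
          refine hn _ (e ▸ fun z => ?_)
          have := χ.pow _ ((pr_cop pp hF A τ χ.f).2 f1)
          rw [z, zero_pow hl.ne_zero] at this
          exact zero_ne_one this⟩)
    have d' : (Nat.card A : ℝ) * ((np (FF A) p).filter fun P => χ.w P = 1).card =
        (univ.filter fun τ : Gl M => τ⁻¹ * σ * τ ∈ A ∧ χ.w (pr A Q τ) = 1).card := by
      exact_mod_cast d
    have u' := congrArg (Nat.cast : ℕ → ℝ) u
    have v' := (Nat.cast_le (α := ℝ)).2 v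
    push_cast at u'
    linarith
  · simp [M4.NT.rk, pp]

end Pool.Agent.Lib.MP_830c64_nt.CL
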