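import Pool.Agent.Lib.MP_830c64_nt.CL.BDefs
import Pool.Agent.Lib.MP_830c64_nt.Divis

/-! The numerical end of the large sieve argument. -/

namespace Pool.Agent.Lib.MP_830c64_nt.CL

open NumberField Module Equiv Finset
open scoped Classical ComplexConjugate

/-- The diagonal term, by `pow_omega` in the file `Divis`. -/
theorem diag_le {c ε : ℝ} (hc : 0 ≤ c) (hε : 0 < ε) (K : ℕ) : ∃ A : ℝ, 0 ≤ A ∧ ∀ x : ℝ, 1 ≤ x →
    ∑ m ∈ sqf x, c ^ m.primeFactors.card * Real.log x ^ K ≤ A * x ^ (1 + ε) := by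
  obtain ⟨A, hA, h⟩ := pow_omega (le_max_right c 1) (half_pos hε)
  have hs : 0 < ε / 2 / (K + 1) := by positivity
  refine ⟨A / (ε / 2 / (K + 1)) ^ K, by positivity, fun x hx => ?_⟩
  have h0 : 0 < x := one_pos.trans_le hx
  have h1 : Real.log x ^ K ≤ x ^ (ε / 2) / (ε / 2 / (K + 1)) ^ K := by
    refine (pow_le_pow_left₀ (Real.log_nonneg hx) (Real.log_le_rpow_div h0.le hs) K).trans ?_
    rw [div_pow, ← Real.rpow_mul_natCast h0.le]
    gcongr
    rw [div_mul_eq_mul_div, div_le_iff₀ (by positivity)]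
    gcongr
    exact (lt_add_one _).le
  have h2 : ((sqf x).card : ℝ) ≤ x :=
    (Nat.cast_le.2 ((card_filter_le _ _).trans_eq (by simp))).trans (Nat.floor_le h0.le)
  refine (sum_le_card_nsmul _ _ (A * x ^ (ε / 2) * (x ^ (ε / 2) / (ε / 2 / (K + 1)) ^ K))
    fun m hm => ?_).trans ?_
  · have h3 := mem_Icc.1 (mem_filter.1 hm).1
    refine mul_le_mul ((pow_le_pow_left₀ hc (le_max_left c 1) _).trans ((h m (by omega)).trans ?_))
      h1 (pow_nonneg (Real.log_nonneg hx) _) (by positivity)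
    gcongr
    exact (Nat.cast_le.2 h3.2).trans (Nat.floor_le h0.le)
  · rw [nsmul_eq_mul]
    refine (mul_le_mul_of_nonneg_right h2 (by positivity)).trans_eq ?_
    rw [show 1 + ε = 1 + ε / 2 + ε / 2 by ring, Real.rpow_add h0, Real.rpow_add h0, Real.rpow_one]
    ring

/-- Choose `k` with `k * η' * δ0 / 2 ≥ c + 1`, and `η'' ≤ δ0 / 4` with `2 * k * η'' ≤ ε`,
`ε1 = η''`. Then `p ^ k ≥ y ^ (k * (1 - η''))`, the last term is at most half of the left side for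
large `X`, and `R ≤ const * y ^ (2 * k * η'') ≤ const * X ^ ε`. -/
theorem num {δ δ0 η' ε c : ℝ} (hδ : 0 < δ) (hδ0 : 0 < δ0) (hδ1 : δ0 ≤ 1) (hη' : 0 < η')
    (hε : 0 < ε) (hc : 0 ≤ c) : ∃ (k : ℕ) (η'' : ℝ), 1 ≤ k ∧ 0 < η'' ∧ η'' ≤ 1 / 2 ∧
    ∀ a1 a2 a3 : ℝ, 0 ≤ a1 → 0 ≤ a2 → 0 ≤ a3 → ∃ A X0 : ℝ, 0 ≤ A ∧ ∀ X y p R : ℝ, X0 ≤ X →
      X ^ η' ≤ y → y ≤ X → y ^ (1 - η'') ≤ p → 0 ≤ R →
      R * (δ ^ (2 * k) * p ^ k) ≤
        a1 * (a2 * (3 * y ^ k) ^ (1 + η'') + R * (a3 * X ^ c * (3 * y ^ k) ^ (1 - δ0))) →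
      R ≤ A * X ^ ε := by
  obtain ⟨k, hk⟩ := exists_nat_ge (2 * (c + 1) / (η' * δ0))
  have hk0 : (0 : ℝ) < k := lt_of_lt_of_le (by positivity) hk
  rw [div_le_iff₀ (by positivity)] at hk
  obtain ⟨η, hη, h1, h2⟩ : ∃ η : ℝ, 0 < η ∧ η ≤ δ0 / 2 ∧ η ≤ ε / (2 * k) :=
    ⟨min _ _, by positivity, min_le_left _ _, min_le_right _ _⟩
  rw [le_div_iff₀ (by positivity)] at h2
  refine ⟨k, η, Nat.cast_pos.1 hk0, hη, by linarith, fun a1 a2 a3 ha1 ha2 ha3 => ?_⟩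
  have hD : 0 < δ ^ (2 * k) := by positivity
  refine ⟨18 * a1 * a2 / δ ^ (2 * k), max 1 (6 * a1 * a3 / δ ^ (2 * k)), by positivity,
    fun X y p R hX hy hyX hp hR h => ?_⟩
  have x1 : 1 ≤ X := (le_max_left _ _).trans hX
  have x2 := (div_le_iff₀ hD).1 ((le_max_right _ _).trans hX)
  have y1 : 1 ≤ y := (Real.one_le_rpow x1 hη'.le).trans hy
  have x0 : 0 < X := one_pos.trans_le x1
  have y0 : 0 < y := one_pos.trans_le y1
  have hu : 0 < y ^ ((1 - η) * k) := by positivity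
  have b1 : y ^ ((1 - η) * k) ≤ p ^ k := by
    rw [Real.rpow_mul_natCast y0.le]
    gcongr
  have b2 : (3 * y ^ k) ^ (1 + η) ≤ 9 * (y ^ ((1 - η) * k) * X ^ ε) := by
    rw [Real.mul_rpow (by norm_num) (by positivity), ← Real.rpow_natCast_mul y0.le,
      show k * (1 + η) = (1 - η) * k + η * (2 * k) by ring, Real.rpow_add y0]
    refine mul_le_mul ((Real.rpow_le_rpow_of_exponent_le (by norm_num)
      (show 1 + η ≤ 2 by linarith)).trans_eq (by norm_num)) (mul_le_mul_of_nonneg_left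
        ((Real.rpow_le_rpow_of_exponent_le y1 h2).trans ?_) hu.le) (by positivity) (by norm_num)
    gcongr
  have b3 : X ^ c * (3 * y ^ k) ^ (1 - δ0) * X ≤ 3 * y ^ ((1 - η) * k) := by
    have c1 : X ^ c * X ≤ y ^ (k * δ0 / 2) := by
      rw [← Real.rpow_add_one x0.ne']
      refine (Real.rpow_le_rpow_of_exponent_le x1 (show c + 1 ≤ η' * (k * δ0 / 2) by
        linarith)).trans ?_
      rw [Real.rpow_mul x0.le]
      gcongr
    have c2 : (3 * y ^ k) ^ (1 - δ0) ≤ 3 * y ^ (k * (1 - δ0)) := by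
      rw [Real.mul_rpow (by norm_num) (by positivity), ← Real.rpow_natCast_mul y0.le]
      gcongr
      exact (Real.rpow_le_rpow_of_exponent_le (by norm_num)
        (show 1 - δ0 ≤ 1 by linarith)).trans_eq (Real.rpow_one 3)
    rw [mul_right_comm]
    refine (mul_le_mul c1 c2 (by positivity) (by positivity)).trans ?_
    rw [mul_left_comm, ← Real.rpow_add y0]
    gcongr
    nlinarith
  have hT : 0 ≤ X ^ c * (3 * y ^ k) ^ (1 - δ0) := by positivity
  rw [mul_assoc a3] at h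
  generalize X ^ c * (3 * y ^ k) ^ (1 - δ0) = T at *
  generalize y ^ ((1 - η) * k) = u at *
  generalize δ ^ (2 * k) = D at *
  have b4 : 2 * (a1 * a3 * T) ≤ D * u := by
    nlinarith [mul_le_mul_of_nonneg_right x2 hT, mul_le_mul_of_nonneg_right b3 hD.le]
  rw [div_mul_eq_mul_div, le_div_iff₀ hD]
  refine le_of_mul_le_mul_right ?_ hu
  nlinarith [mul_le_mul_of_nonneg_left b4 hR, mul_le_mul_of_nonneg_left b1 (mul_nonneg hR hD.le),
    mul_le_mul_of_nonneg_left b2 (mul_nonneg ha1 ha2)]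

end Pool.Agent.Lib.MP_830c64_nt.CL
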