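import Pool.Agent.Lib.MP_830c64_nt.CL.BSep

/-! Small integers span the fixed fields. -/

namespace Pool.Agent.Lib.MP_830c64_nt.CL

open NumberField Module Equiv Finset
open scoped Classical ComplexConjugate

variable {M : Type} [Field M] [NumberField M]

/-- The span of the integers of size at most `Y`. -/
noncomputable def bsmallV (E : Type) [Field E] [NumberField E] (Y : ℝ) : Submodule ℚ E :=
  Submodule.span ℚ {x : E | IsIntegral ℤ x ∧ ∀ φ : E →+* ℂ, ‖φ x‖ ≤ Y}

theorem bsmall_mono {E : Type} [Field E] [NumberField E] {Y Y' : ℝ} (h : Y ≤ Y') :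
    bsmallV E Y ≤ bsmallV E Y' :=
  Submodule.span_mono fun _ hx => ⟨hx.1, fun φ => (hx.2 φ).trans h⟩

theorem bsmall_mul {E : Type} [Field E] [NumberField E] {T Y : ℝ} (hT : 0 ≤ T) {s x : E}
    (hs : IsIntegral ℤ s ∧ ∀ φ : E →+* ℂ, ‖φ s‖ ≤ T) (hx : x ∈ bsmallV E Y) :
    s * x ∈ bsmallV E (T * Y) := by
  induction hx using Submodule.span_induction with
  | mem x hx =>
    refine Submodule.subset_span ⟨hs.1.mul hx.1, fun φ => ?_⟩
    rw [map_mul, norm_mul]
    exact mul_le_mul (hs.2 φ) (hx.2 φ) (norm_nonneg _) hT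
  | zero => rw [mul_zero]; exact zero_mem _
  | add x y _ _ h1 h2 => rw [mul_add]; exact add_mem h1 h2
  | smul a x _ h1 => rw [mul_smul_comm]; exact Submodule.smul_mem _ a h1

theorem bsmall_top {E : Type} [Field E] [NumberField E] {S : Set E} {V : Submodule ℚ E}
    (hg : IntermediateField.adjoin ℚ S = ⊤) (h1 : (1 : E) ∈ V) (h : ∀ s ∈ S, ∀ x ∈ V, s * x ∈ V) :
    V = ⊤ := by
  have ha : Algebra.adjoin ℚ S = ⊤ := by
    rw [← IntermediateField.adjoin_toSubalgebra, hg, IntermediateField.top_toSubalgebra]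
  have key : ∀ y ∈ Algebra.adjoin ℚ S, ∀ x ∈ V, y * x ∈ V := by
    intro y hy
    induction hy using Algebra.adjoin_induction with
    | mem s hs => exact h s hs
    | algebraMap r => intro x hx; rw [← Algebra.smul_def]; exact V.smul_mem r hx
    | add a b _ _ h2 h3 => intro x hx; rw [add_mul]; exact add_mem (h2 x hx) (h3 x hx)
    | mul a b _ _ h2 h3 => intro x hx; rw [mul_assoc]; exact h2 _ (h3 x hx)
  refine eq_top_iff.2 fun y _ => ?_
  simpa using key y (ha ▸ Algebra.mem_top) 1 h1

theorem bsmall_lift {F L : Type} [Field F] [Field L] [Algebra F L] (K : IntermediateField F L)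
    (S : Set K) (h : K ≤ IntermediateField.adjoin F (Subtype.val '' S)) :
    IntermediateField.adjoin F S = ⊤ := by
  apply IntermediateField.lift_injective
  rw [IntermediateField.lift_adjoin, IntermediateField.lift_top]
  refine le_antisymm (IntermediateField.adjoin_le_iff.2 ?_) h
  rintro _ ⟨x, -, rfl⟩
  exact x.2

theorem bsmall_rank (k E : Type) [Field k] [NumberField k] [Field E] [NumberField E]
    [Algebra k E] : finrank k E ≤ finrank ℚ E := by
  rw [← Module.finrank_mul_finrank ℚ k E]
  exact Nat.le_mul_of_pos_left _ finrank_pos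

/-- If `E` is generated as a field by a finite set of integers of size at most `T`, the products
of at most `finrank` of them span `E`: the spans `V j` of the products of at most `j` generators
increase, and `V j = V (j + 1)` forces `V j` to be a subalgebra. -/
theorem small_of_adjoin {E : Type} [Field E] [NumberField E] (S : Set E) {T : ℝ} (hT : 1 ≤ T)
    (hS : ∀ s ∈ S, IsIntegral ℤ s ∧ ∀ φ : E →+* ℂ, ‖φ s‖ ≤ T)
    (hg : IntermediateField.adjoin ℚ S = ⊤) : Small E (T ^ finrank ℚ E) := by
  have hm : ∀ j : ℕ, bsmallV E (T ^ j) ≤ bsmallV E (T ^ (j + 1)) := fun j =>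
    bsmall_mono (pow_le_pow_right₀ hT j.le_succ)
  have key : ∀ j : ℕ, bsmallV E (T ^ j) = ⊤ ∨ j ≤ finrank ℚ (bsmallV E (T ^ j)) := by
    intro j
    induction j with
    | zero => exact Or.inr (Nat.zero_le _)
    | succ j ih =>
      rcases (hm j).eq_or_lt with he | hlt
      · left
        rw [← he]
        refine bsmall_top hg (Submodule.subset_span ⟨isIntegral_one, fun φ => ?_⟩)
          fun s hs x hx => ?_
        · rw [map_one, norm_one]
          exact one_le_pow₀ hT
        · rw [he, pow_succ']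
          exact bsmall_mul (zero_le_one.trans hT) (hS s hs) hx
      · rcases ih with ih | ih
        · exact absurd (ih ▸ hlt) not_top_lt
        · exact Or.inr (ih.trans_lt (Submodule.finrank_lt_finrank_of_lt hlt))
  rcases key (finrank ℚ E) with h | h
  · exact h
  · exact Submodule.eq_top_of_finrank_eq (le_antisymm (Submodule.finrank_le _) h)

/-- The trace is onto, rational linear, preserves integrality, and is the sum of the embeddings
(`trace_eq_sum_embeddings`, with `ℂ` a `k`-algebra through `φ`). -/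
theorem small_trace {k E : Type} [Field k] [NumberField k] [Field E] [NumberField E] [Algebra k E]
    {Y : ℝ} (h : Small E Y) : Small k (finrank k E * Y) := by
  have : Module.Finite k E := Module.Finite.of_restrictScalars_finite ℚ k E
  refine eq_top_iff.2 fun y _ => ?_
  obtain ⟨x, rfl⟩ := Algebra.trace_surjective k E y
  have hx : x ∈ bsmallV E Y := by
    have h' : bsmallV E Y = ⊤ := h
    rw [h']
    exact Submodule.mem_top
  induction hx using Submodule.span_induction with
  | mem x hx =>
    refine Submodule.subset_span ⟨Algebra.isIntegral_trace hx.1, fun φ => ?_⟩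
    let _ : Algebra k ℂ := φ.toAlgebra
    have h1 : φ (Algebra.trace k E x) = ∑ σ : E →ₐ[k] ℂ, σ x := trace_eq_sum_embeddings ℂ
    rw [h1, ← AlgHom.card k E ℂ]
    refine (norm_sum_le _ _).trans ?_
    have h2 := sum_le_card_nsmul univ (fun σ : E →ₐ[k] ℂ => ‖σ x‖) Y
      fun σ _ => hx.2 (σ : E →+* ℂ)
    rwa [nsmul_eq_mul, card_univ] at h2
  | zero => rw [map_zero]; exact zero_mem _
  | add x y _ _ h1 h2 => rw [map_add]; exact add_mem (h1 trivial) (h2 trivial)
  | smul a x _ h1 =>
    rw [LinearMap.map_smul_of_tower]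
    exact Submodule.smul_mem _ a (h1 trivial)

/-- The fixed field of `C` is generated by `S` (Galois correspondence); descend to the fixed field
of `H` by the trace, with the algebra structure `alg hCH`. -/
theorem small_of_gens [IsGalois ℚ M] (S : Finset (𝓞 M)) {T : ℝ} (hT : 1 ≤ T)
    (hS : ∀ s ∈ S, ∀ φ : M →+* ℂ, ‖φ s‖ ≤ T) {C H : Subgroup (Gl M)}
    (hC : ∀ τ, τ ∈ C ↔ ∀ s ∈ S, τ • s = s) (hCH : C ≤ H) {N : ℕ} (hN : C.index ≤ N) :
    Small (FF H) (N * T ^ N) := by
  have h1 : Small (FF C) (T ^ finrank ℚ (FF C)) := by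
    refine small_of_adjoin {x : FF C | ∃ s ∈ S, (s : M) = x} hT ?_ ?_
    · rintro x ⟨s, hs, e⟩
      refine ⟨?_, fun φ => ?_⟩
      · rw [← isIntegral_algebraMap_iff (B := M) (algebraMap (FF C) M).injective]
        have h2 : IsIntegral ℤ (s : M) := s.isIntegral_coe
        rwa [e] at h2
      · have h2 := hS s hs (ComplexEmbedding.lift M φ)
        rw [e] at h2
        exact (congrArg norm (ComplexEmbedding.lift_algebraMap_apply M φ x)).symm.trans_le h2
    · refine bsmall_lift _ _ ?_
      rw [← IsGalois.fixedField_fixingSubgroup (IntermediateField.adjoin ℚ _)]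
      refine ff_le fun τ hτ => (hC τ).2 fun s hs => ?_
      have h2 : (s : M) ∈ IntermediateField.fixedField C := fun g =>
        congrArg (fun z : 𝓞 M => (z : M)) ((hC g.1).1 g.2 s hs)
      exact RingOfIntegers.ext ((IntermediateField.mem_fixingSubgroup_iff _ τ).1 hτ s
        (IntermediateField.subset_adjoin _ _ ⟨⟨s, h2⟩, ⟨s, hs, rfl⟩, rfl⟩))
  let _ := alg hCH
  have h2 : finrank ℚ (FF C) ≤ N := (finrank_FF C).trans_le hN
  have h3 : finrank (FF H) (FF C) ≤ N := (bsmall_rank (FF H) (FF C)).trans h2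
  refine (small_trace (k := FF H) h1).mono ?_
  exact mul_le_mul (Nat.cast_le.2 h3) (pow_le_pow_right₀ hT h2)
    (pow_nonneg (zero_le_one.trans hT) _) (Nat.cast_nonneg _)

end Pool.Agent.Lib.MP_830c64_nt.CL
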