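import Pool.Agent.Lib.MP_830c64_nt.CL.BChr
import Pool.Agent.Lib.MP_830c64_nt.CL.BSmall
import Pool.Agent.Lib.MP_830c64_nt.CL.BIdx

/-! Sizes of the moduli and of the spanning sets. -/

namespace Pool.Agent.Lib.MP_830c64_nt.CL

open NumberField Module Equiv Finset
open scoped Classical ComplexConjugate

variable {M : Type} [Field M] [NumberField M]

/-- `small_of_gens` with `S` the set of the `θ a` and `I` (the subgroup fixing them is
`d.A I ⊥`), respectively of the `θ a`, `θ' a` and `I`. All conjugates of `I` have norm one. -/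
theorem small_A [IsGalois ℚ M] {n : ℕ} {T : ℝ} (hT : 1 ≤ T) (d d' : Dat M n T) {I : 𝓞 M}
    (hI : I ^ 2 = -1) (H H' : Subgroup (Perm (Fin n))) :
    Small (FF (d.A I H ⊓ d'.A I H'))
      (((2 * n.factorial) ^ 2 : ℕ) * T ^ ((2 * n.factorial) ^ 2)) := by
  have h1 : ∀ (e : Dat M n T) τ, e.ρ τ = 1 ↔ ∀ a, τ • e.θ a = e.θ a := fun e τ =>
    ⟨fun h a => by rw [e.act, h, Perm.one_apply],
      fun h => Equiv.ext fun a => e.inj ((e.act τ a).symm.trans (h a))⟩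
  refine small_of_gens (insert I (univ.image d.θ ∪ univ.image d'.θ)) hT (fun s hs φ => ?_)
    (C := d.A I ⊥ ⊓ d'.A I ⊥) (fun τ => ?_)
    (inf_le_inf (inf_le_inf_right _ (Subgroup.comap_mono bot_le))
      (inf_le_inf_right _ (Subgroup.comap_mono bot_le))) (index_AA (G0_index hI) ⊥ ⊥)
  · simp only [mem_insert, mem_union, mem_image, mem_univ, true_and] at hs
    rcases hs with rfl | ⟨a, rfl⟩ | ⟨a, rfl⟩
    · have h2 : ‖φ s‖ ^ 2 = 1 := by
        have h3 : (s : M) ^ 2 = -1 := by simpa using congrArg (algebraMap (𝓞 M) M) hI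
        rw [← norm_pow, ← map_pow, h3, map_neg, map_one, norm_neg, norm_one]
      exact ((pow_eq_one_iff_of_nonneg (norm_nonneg _) two_ne_zero).1 h2).trans_le hT
    · exact d.bd a φ
    · exact d'.bd a φ
  · simp only [Dat.A, G0, Subgroup.mem_inf, Subgroup.mem_comap, Subgroup.mem_bot, h1,
      MulAction.mem_stabilizer_iff, mem_insert, mem_union, mem_image, mem_univ, true_and]
    constructor
    · rintro ⟨⟨h2, h3⟩, h4, -⟩ s (rfl | ⟨a, rfl⟩ | ⟨a, rfl⟩)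
      exacts [h3, h2 a, h4 a]
    · exact fun h => ⟨⟨fun a => h _ (.inr (.inl ⟨a, rfl⟩)), h _ (.inl rfl)⟩,
        fun a => h _ (.inr (.inr ⟨a, rfl⟩)), h _ (.inl rfl)⟩

/-- `small_A` with `d' = d`, `H' = H` (or `small_of_gens` again), `sep_of_small` for `H` and `H0`,
the product of the two moduli, `chr_exists`, `relIndex_A`, `index_A`. -/
theorem bpack (hF : FIStmt) {n : ℕ} (t : Tri n) : ∃ c : ℕ, ∀ (M : Type) [Field M] [NumberField M]
    [IsGalois ℚ M] (I : 𝓞 M) (T : ℝ) (d : Dat M n T), I ^ 2 = -1 → 2 ≤ T →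
    ∃ χ : Chr (d.A I t.H) (d.A I t.H0) t.l, (χ.f : ℝ) ≤ T ^ c := by
  obtain ⟨c, hc⟩ := chr_exists hF (2 * n.factorial)
  obtain ⟨N, hN⟩ : ∃ N, N = (2 * n.factorial) ^ 2 := ⟨_, rfl⟩
  obtain ⟨K, hK⟩ : ∃ K, K = (2 * n.factorial) ^ 4 := ⟨_, rfl⟩
  refine ⟨(2 * ((2 * N + 1) * K) + 1) * c, fun M _ _ _ I T d hI hT => ?_⟩
  have hT1 : 1 ≤ T := by linarith
  have h0 : 1 ≤ N := hN ▸ Nat.one_le_iff_ne_zero.2 (by positivity)
  have h1 : (N : ℝ) ≤ T ^ N := by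
    calc (N : ℝ) ≤ 2 ^ N := by exact_mod_cast Nat.lt_two_pow_self.le
      _ ≤ T ^ N := by gcongr
  have h2 : ∀ H, ∃ Δ : ℕ, Δ ≠ 0 ∧ (Δ : ℝ) ≤ T ^ ((2 * N + 1) * K) ∧ Sep (d.A I H) Δ := fun H => by
    have h3 := small_A hT1 d d hI H H
    rw [inf_idem, ← hN] at h3
    obtain ⟨Δ, h4, h5, h6⟩ := sep_of_small (H := d.A I H) (index_A (G0_index hI) H)
      (one_le_mul_of_one_le_of_one_le (by exact_mod_cast h0) (one_le_pow₀ hT1)) h3
    refine ⟨Δ, h4, h5.trans ?_, h6⟩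
    rw [← hK, pow_mul, pow_succ', two_mul N, pow_add]
    gcongr
  obtain ⟨Δ, a1, a2, a3⟩ := h2 t.H
  obtain ⟨Δ', b1, b2, b3⟩ := h2 t.H0
  obtain ⟨χ, hχ⟩ := hc M I (d.A I t.H) (d.A I t.H0) t.l (Δ * Δ') hI inf_le_right
    (inf_le_inf_right _ (Subgroup.comap_mono t.le))
    (fun a ha x hx => Subgroup.mem_inf.2 ⟨by
      simpa only [Subgroup.mem_comap, map_mul, map_inv] using t.nrm _ ha.1 _ hx.1,
      (G0 I).mul_mem ((G0 I).mul_mem ha.2 hx.2) ((G0 I).inv_mem ha.2)⟩)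
    t.prime (relIndex_A d.surj (sq_mem_G0 hI) t) (index_A (G0_index hI) _) (mul_ne_zero a1 b1)
    (a3.mono (dvd_mul_right _ _)) (b3.mono (dvd_mul_left _ _))
  refine ⟨χ, (Nat.cast_le.2 hχ).trans ?_⟩
  rw [pow_mul, pow_succ', two_mul (_ * K), pow_add]
  push_cast
  gcongr

end Pool.Agent.Lib.MP_830c64_nt.CL
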