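import Pool.Agent.Lib.MP_830c64_nt.CL.BOff
import Pool.Agent.Lib.MP_830c64_nt.CL.BNt
import Pool.Agent.Lib.MP_830c64_nt.CL.BPack
import Pool.Agent.Lib.MP_830c64_nt.CL.BNum
import Pool.Agent.Lib.MP_830c64_nt.CL.BLs2

/-! The large sieve for one subgroup, with a common base. -/

namespace Pool.Agent.Lib.MP_830c64_nt.CL

open NumberField Module Equiv Finset
open scoped Classical ComplexConjugate

theorem bmaint0_om {f : ℕ} (hf : 2 ≤ f) : (f.primeFactors.card : ℝ) * Real.log 2 ≤ Real.log f := by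
  have h1 : 2 ^ f.primeFactors.card ≤ f :=
    (Finset.pow_card_le_prod _ (fun p => p) 2 fun p hp =>
      (Nat.prime_of_mem_primeFactors hp).two_le).trans
      (Nat.le_of_dvd (by omega) (Nat.prod_primeFactors_dvd f))
  rw [← Real.log_pow]
  exact Real.log_le_log (by positivity) (by exact_mod_cast h1)

theorem bmaint0_ev (a a' : ℝ) {b r : ℝ} (ha : 0 < a) (hb : 0 < b) (hr : 0 < r) :
    ∃ X0 : ℝ, ∀ X, X0 ≤ X → 1 ≤ X ∧ a * Real.log X ≤ b * X ^ r ∧ a' ≤ X ^ r := by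
  refine Filter.eventually_atTop.1 ?_
  filter_upwards [Filter.eventually_ge_atTop 1, (isLittleO_log_rpow_atTop hr).bound (div_pos hb ha),
    (tendsto_rpow_atTop hr).eventually_ge_atTop a'] with X h1 h2 h3
  refine ⟨h1, ?_, h3⟩
  rw [Real.norm_of_nonneg (Real.log_nonneg h1), Real.norm_of_nonneg (by positivity),
    div_mul_eq_mul_div, le_div_iff₀' ha] at h2
  exact h2

/-- The case of a common group `G`. -/
theorem mainT0 (hC : CancelStmt) (hF : FIStmt) (hD : DensStmt) {n : ℕ} (h5 : 5 ≤ n) (t : Tri n)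
    {δ η' ε c0 : ℝ} (hδ : 0 < δ) (hη' : 0 < η') (hε : 0 < ε) (hc0 : 0 < c0) :
    ∃ η'' : ℝ, 0 < η'' ∧ ∃ A X0 : ℝ, 0 ≤ A ∧ ∀ (M : Type) [Field M] [NumberField M] [IsGalois ℚ M]
      (I : 𝓞 M) (ι : Type) (s : Finset ι) (X T y : ℝ) (d : ι → Dat M n T)
      (Q : ℕ → Ideal (𝓞 M)) (σ : ℕ → Gl M) (P : Finset ℕ) (G : Subgroup (Gl M)),
      I ^ 2 = -1 → X0 ≤ X → 2 ≤ T → T ≤ X ^ c0 → X ^ η' ≤ y → y ≤ X →
      (∀ p, p.Prime → Frob (Q p) p (σ p)) → (∀ p ∈ P, p.Prime ∧ (p : ℝ) ≤ y ∧ p % 4 = 1) →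
      y ^ (1 - η'') ≤ P.card → (∀ i ∈ s, ∀ j ∈ s, i ≠ j → (d i).ρ.ker ≠ (d j).ρ.ker) →
      G.index ≤ 4 → (∀ i ∈ s, (d i).A I t.H ≤ G) →
      (∀ i ∈ s, ∀ j ∈ s, i ≠ j → ∀ γ ∈ G, ∃ a ∈ (d i).A I t.H, ∃ b ∈ (d j).A I t.H, γ = a * b) →
      (∀ i ∈ s, δ * P.card +
        2 * n.factorial * (P.filter fun p => ¬ t.good ((d i).ρ (σ p))).card ≤
        (P.filter fun p => t.good ((d i).ρ (σ p)) ∧ (d i).ρ (σ p) ∈ t.H).card) →
      (s.card : ℝ) ≤ A * X ^ ε := by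
  obtain ⟨c, hc⟩ := bpack hF t
  obtain ⟨C, δ0, C1, d0, d1, hoff⟩ := off hC ((2 * n.factorial) ^ 2)
  obtain ⟨N, hN⟩ : ∃ N, N = (2 * n.factorial) ^ 2 := ⟨_, rfl⟩
  obtain ⟨k, η'', k1, e0, e1, hnum⟩ := num (c := c0 * (2 * N + 2 * c + 1 : ℕ) * C) (half_pos hδ) d0
    (by linarith) hη' hε (by positivity)
  obtain ⟨a2, a0, hdiag⟩ := diag_le (c := 4 * (2 * n.factorial : ℝ) ^ 2) (by positivity) e0 N
  obtain ⟨A, X0, A0, hA⟩ := hnum (4 * 4 ^ k * k ^ k) a2 C (by positivity) a0 (by positivity)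
  obtain ⟨X1, hX1⟩ := bmaint0_ev (c0 * (c + 1))
    (2 * k ^ 2 * (4 * (2 * n.factorial : ℝ)) ^ k / (δ / 2) ^ k) (b := δ / 2 * Real.log 2)
    (by positivity) (by positivity) (half_pos hη')
  refine ⟨η'', e0, A, max X0 X1, A0, ?_⟩
  intro M _ _ _ I ι s X T y d Q σ P G hI hX hT hTX hy hyX hQ hP hPc hker hG hAG hprod hcnt
  obtain ⟨x1, x2, x3⟩ := hX1 X (le_of_max_le_right hX)
  have y1 : 1 ≤ y := (Real.one_le_rpow x1 hη'.le).trans hy
  have T1 : 1 ≤ T := by linarith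
  have p1 : X ^ (η' / 2) ≤ P.card := by
    refine le_trans ?_ ((Real.rpow_le_rpow_of_exponent_le y1 (by linarith : 1 / 2 ≤ 1 - η'')).trans
      hPc)
    rw [div_eq_mul_one_div, Real.rpow_mul (by linarith)]
    exact Real.rpow_le_rpow (by positivity) hy (by norm_num)
  have x0 : 1 ≤ 3 * y ^ k := by linarith [one_le_pow₀ (n := k) y1]
  have g4 : (Fintype.card (Gl M ⧸ G) : ℝ) ≤ 4 := by
    rw [← Nat.card_eq_fintype_card, ← Subgroup.index_eq_card]
    exact_mod_cast hG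
  choose χ hχ using fun i => hc M I T (d i) hI hT
  have hm : ∀ i, (d i).A I t.H0 ≤ (d i).A I t.H := fun i =>
    inf_le_inf_right _ (Subgroup.comap_mono t.le)
  have key := ls s (fun i p u => lam ((d i).A I t.H) G (χ i).w (Q p) (σ p) u) P k N
    (B := 2 * n.factorial) (δ := δ / 2) (x := 3 * y ^ k)
    (Off := C * X ^ (c0 * (2 * N + 2 * c + 1 : ℕ) * C) * (3 * y ^ k) ^ (1 - δ0))
    (by positivity) (half_pos hδ) (by positivity) y1 k1 (fun p hp => ⟨(hP p hp).1, (hP p hp).2.1⟩)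
    (fun i _ p u => (lam_le _ G (χ i).ray.norm_le _ _ u).trans
      (by exact_mod_cast index_A (G0_index hI) t.H)) le_rfl (fun i hi j hj hij => ?_)
    (fun i hi => ?_) ?_
  · refine hA X y P.card s.card (le_of_max_le_left hX) hy hyX hPc (by positivity)
      (key.trans ?_)
    have l0 := Real.log_nonneg x0
    refine le_trans ?_ (mul_le_mul_of_nonneg_left (add_le_add_left (hdiag _ x0) _) (by positivity))
    gcongr
  · obtain ⟨h, h1, h2, h3⟩ := t.ev
    obtain ⟨τ, t1, t2, t3⟩ := gour h5 (d i).surj (d j).surj (hker i hi j hj hij) (sq_mem_G0 hI) h3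
    subst hN
    refine (hoff M _ _ _ _ G _ (χ i) (χ j) Q σ (T ^ (2 * (2 * n.factorial) ^ 2 + 2 * c + 1))
      (hAG i hi) (hAG j hj) (hprod i hi j hj hij) (index_AA (G0_index hI) _ _)
      (hT.trans (le_self_pow₀ T1 (by omega))) ((small_A T1 _ _ hI _ _).mono ?_) ?_
      (nt hD t.prime (hm i) (hm j) (relIndex_A (d i).surj (sq_mem_G0 hI) t)
        ⟨τ, ⟨Subgroup.mem_comap.2 (t2 ▸ h1), t1⟩, ⟨Subgroup.mem_comap.2 (t3 ▸ one_mem _), t1⟩,
          fun h4 => h2 (t2 ▸ Subgroup.mem_comap.1 h4.1)⟩ _ _) hQ _ x0).trans ?_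
    · generalize (2 * n.factorial) ^ 2 = N
      have h4 : (N : ℝ) ≤ T ^ N := le_trans (by exact_mod_cast Nat.lt_two_pow_self.le)
        (pow_le_pow_left₀ zero_le_two hT N)
      refine (mul_le_mul_of_nonneg_right h4 (by positivity)).trans ?_
      rw [← pow_add]
      exact pow_le_pow_right₀ T1 (by omega)
    · rw [Nat.cast_mul]
      refine (mul_le_mul (hχ i) (hχ j) (by positivity) (by positivity)).trans ?_
      rw [← pow_add]
      exact pow_le_pow_right₀ T1 (by omega)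
    · rw [Real.rpow_mul (by linarith), Real.rpow_mul_natCast (by linarith)]
      gcongr
  · have h1 := psi (d i) hI t (χ i) G Q σ P fun p hp => ⟨(hP p hp).1, (hP p hp).2.2, hQ p (hP p hp).1⟩
    have h2 := bmaint0_om (χ i).two
    have h3 : Real.log (χ i).f ≤ c0 * (c + 1) * Real.log X := by
      have f0 : (0 : ℝ) < (χ i).f := by exact_mod_cast (zero_lt_two.trans_le (χ i).two)
      have h4 := Real.log_le_log f0 ((hχ i).trans (pow_le_pow_left₀ (by linarith) hTX c))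
      rw [Real.log_pow, Real.log_rpow (by linarith)] at h4
      nlinarith [mul_nonneg hc0.le (Real.log_nonneg x1)]
    have h4 : ((χ i).f.primeFactors.card : ℝ) ≤ δ / 2 * P.card := by
      refine le_of_mul_le_mul_right (h2.trans (h3.trans (x2.trans ?_))) (Real.log_pos one_lt_two)
      rw [mul_right_comm]
      have := Real.log_pos one_lt_two
      gcongr
    linarith [hcnt i hi]
  · have h1 := (div_le_iff₀' (by positivity)).1 (x3.trans p1)
    refine le_trans ?_ h1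
    gcongr

end Pool.Agent.Lib.MP_830c64_nt.CL
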