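import Pool.Agent.Lib.MP_830c64_nt.CL.BDefs
import Pool.Agent.Lib.MP_33b3f9_ag.M4.NTIdc

/-! The Moebius function on ideals. -/

namespace Pool.Agent.Lib.MP_830c64_nt.CL

open NumberField Module Equiv Finset
open scoped Classical ComplexConjugate

variable {E : Type} [Field E] [NumberField E]

theorem mem_dvs {I D : Ideal (𝓞 E)} (hI : I ≠ ⊥) : D ∈ dvs I ↔ D ∣ I := by
  rw [dvs, mem_filter, mem_idl (Nat.cast_nonneg _)]
  refine ⟨fun h => h.2, fun h => ⟨⟨ne_zero_of_dvd_ne_zero hI h, ?_⟩, h⟩⟩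
  exact_mod_cast Nat.le_of_dvd (Nat.pos_of_ne_zero (mt Ideal.absNorm_eq_zero_iff.mp hI))
    (map_dvd Ideal.absNorm h)

/-- By `M4.NT.idc`: a divisor of `I` has norm dividing the norm of `I`. -/
theorem card_dvs {I : Ideal (𝓞 E)} (hI : I ≠ ⊥) :
    (dvs I).card ≤ (Ideal.absNorm I).divisors.card ^ (finrank ℚ E + 1) := by
  have hN : Ideal.absNorm I ≠ 0 := mt Ideal.absNorm_eq_zero_iff.mp hI
  have h1 : dvs I ⊆ (Ideal.absNorm I).divisors.biUnion (np E) := fun D hD =>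
    mem_biUnion.mpr ⟨_, Nat.mem_divisors.mpr ⟨map_dvd Ideal.absNorm ((mem_dvs hI).mp hD), hN⟩,
      mem_np.mpr rfl⟩
  rw [pow_succ']
  refine (card_le_card h1).trans (card_biUnion_le_card_mul _ _ _ fun d hd => ?_)
  have hd0 : d ≠ 0 := (Nat.pos_of_mem_divisors hd).ne'
  have h2 : (np E d).card = Nat.card {J : Ideal (𝓞 E) // Ideal.absNorm J = d} := by
    rw [← Nat.card_eq_finsetCard]
    exact Nat.card_congr (Equiv.subtypeEquivRight fun J => mem_np)
  rw [h2]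
  exact (M4.NT.idc E hd0).trans (Nat.pow_le_pow_left (card_le_card
    (Nat.divisors_subset_of_dvd hN (Nat.dvd_of_mem_divisors hd))) _)

/-- Sign reversing involution: if `P` is a prime ideal and `u` is a function on the divisors with
`u (P * D) = u D`, the sum of `moebius D * u D` over the divisors `D` of `P * I` vanishes. -/
theorem moeb_zero {P I : Ideal (𝓞 E)} (hP : Prime P) (hI : I ≠ ⊥) (u : Ideal (𝓞 E) → ℤ)
    (hu : ∀ D, D ∣ I → ¬ P ∣ D → u (P * D) = u D) :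
    ∑ D ∈ dvs (P * I), UniqueFactorizationMonoid.moebius D * u D = 0 := by
  have hPI : P * I ≠ ⊥ := mul_ne_zero hP.ne_zero hI
  have h1 : (dvs (P * I)).filter (P ∣ ·) = (dvs I).image (P * ·) := by
    ext D
    simp only [mem_filter, mem_image, mem_dvs hI, mem_dvs hPI]
    constructor
    · rintro ⟨h, D', rfl⟩
      exact ⟨D', (mul_dvd_mul_iff_left hP.ne_zero).mp h, rfl⟩
    · rintro ⟨D', h, rfl⟩
      exact ⟨mul_dvd_mul_left P h, dvd_mul_right _ _⟩
  have h2 : (dvs (P * I)).filter (fun D => ¬ P ∣ D) = (dvs I).filter (fun D => ¬ P ∣ D) := by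
    ext D
    simp only [mem_filter, mem_dvs hI, mem_dvs hPI]
    exact ⟨fun h => ⟨(hP.irreducible.isRelPrime_iff_not_dvd.mpr h.2).symm.dvd_of_dvd_mul_left h.1,
      h.2⟩, fun h => ⟨h.1.mul_left P, h.2⟩⟩
  rw [← sum_filter_add_sum_filter_not _ (P ∣ ·), h1, h2,
    sum_image fun a _ b _ h => mul_left_cancel₀ hP.ne_zero h, sum_filter, ← sum_add_distrib]
  refine sum_eq_zero fun D hD => ?_
  by_cases h : P ∣ D
  · rw [if_neg (not_not.mpr h), UniqueFactorizationMonoid.moebius_of_not_squarefree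
      fun hs => hP.not_isUnit (hs P (mul_dvd_mul_left P h))]
    simp
  · rw [if_pos h, (hP.irreducible.isRelPrime_iff_not_dvd.mpr h).moebius_mul,
      hP.irreducible.moebius_eq, hu D ((mem_dvs hI).mp hD) h]
    ring

/-- The quotient of two ideals. -/
noncomputable def bmob1_q (D D1 : Ideal (𝓞 E)) : Ideal (𝓞 E) :=
  if h : D1 ∣ D then h.choose else ⊥

theorem bmob1_q_mul {D D1 : Ideal (𝓞 E)} (h : D1 ∣ D) : D1 * bmob1_q D D1 = D := by
  rw [bmob1_q, dif_pos h]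
  exact h.choose_spec.symm

theorem bmob1_q_eq {D D1 D2 : Ideal (𝓞 E)} (h0 : D ≠ ⊥) (h : D = D1 * D2) :
    bmob1_q D D1 = D2 :=
  mul_left_cancel₀ (left_ne_zero_of_mul (h ▸ h0 : D1 * D2 ≠ 0)) ((bmob1_q_mul ⟨D2, h⟩).trans h)

theorem bmob1_sum {J : Ideal (𝓞 E)} (hJ : J ≠ ⊥) :
    ∑ D ∈ dvs J, UniqueFactorizationMonoid.moebius D = if J = 1 then 1 else 0 := by
  split_ifs with h
  · subst h
    rw [sum_eq_single 1, UniqueFactorizationMonoid.moebius_one]
    · exact fun D hD hne => (hne (isUnit_iff_eq_one.mp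
        (isUnit_of_dvd_one ((mem_dvs hJ).mp hD)))).elim
    · exact fun h => (h ((mem_dvs hJ).mpr dvd_rfl)).elim
  · obtain ⟨P, hP, J', rfl⟩ := WfDvdMonoid.exists_irreducible_factor
      (mt isUnit_iff_eq_one.mp h) hJ
    simpa using moeb_zero hP.prime (right_ne_zero_of_mul hJ) (fun _ => 1) fun _ _ _ => rfl

/-- `G D` is the sum over `D = D1 * D2` of `moebius D1` times the indicator function of
`Squarefree (absNorm D2)`. If `p` divides the norm of `D` exactly once then `D = P * D'` with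
`absNorm P = p` prime to the norm of `D'`. -/
theorem mob1 (E : Type) [Field E] [NumberField E] : ∃ G : Ideal (𝓞 E) → ℤ,
    (∀ I, I ≠ ⊥ → ∑ D ∈ dvs I, G D = if Squarefree (Ideal.absNorm I) then 1 else 0) ∧
    (∀ D, D ≠ ⊥ → G D ≠ 0 → ∀ p : ℕ, p.Prime → p ∣ Ideal.absNorm D → p ^ 2 ∣ Ideal.absNorm D) ∧
    ∀ D, D ≠ ⊥ → |G D| ≤ (dvs D).card := by
  set s : Ideal (𝓞 E) → ℤ := fun J => if Squarefree (Ideal.absNorm J) then 1 else 0 with hs
  refine ⟨fun D => ∑ D1 ∈ dvs D, UniqueFactorizationMonoid.moebius D1 * s (bmob1_q D D1),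
    fun I hI => ?_, fun D hD hG p hp hpD => ?_, fun D hD => ?_⟩
  · have h1 : ∑ D ∈ dvs I, ∑ D1 ∈ dvs D, UniqueFactorizationMonoid.moebius D1 * s (bmob1_q D D1)
        = ∑ D2 ∈ dvs I, ∑ D1 ∈ dvs (bmob1_q I D2),
          UniqueFactorizationMonoid.moebius D1 * s D2 := by
      have hq : ∀ D2, D2 ∣ I → bmob1_q I D2 ≠ ⊥ := fun D2 h =>
        right_ne_zero_of_mul ((bmob1_q_mul h).symm ▸ hI : D2 * bmob1_q I D2 ≠ 0)
      rw [sum_sigma', sum_sigma']
      refine sum_bij' (fun x _ => ⟨bmob1_q x.1 x.2, x.2⟩) (fun x _ => ⟨x.2 * x.1, x.2⟩)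
        ?_ ?_ ?_ ?_ ?_
      · rintro ⟨D, D1⟩ hx
        obtain ⟨h1, h2⟩ := mem_sigma.mp hx
        have h3 := (mem_dvs hI).mp h1
        have h0 : D ≠ ⊥ := ne_zero_of_dvd_ne_zero hI h3
        obtain ⟨D2, h4⟩ := (mem_dvs h0).mp h2
        obtain ⟨D3, h5⟩ := h3
        have h6 : I = D2 * (D1 * D3) := by rw [h5, h4]; ring
        simp only [mem_sigma, bmob1_q_eq h0 h4]
        refine ⟨(mem_dvs hI).mpr ⟨_, h6⟩, (mem_dvs (hq _ ⟨_, h6⟩)).mpr ?_⟩
        rw [bmob1_q_eq hI h6]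
        exact dvd_mul_right _ _
      · rintro ⟨D2, D1⟩ hx
        obtain ⟨h1, h2⟩ := mem_sigma.mp hx
        have h3 := (mem_dvs hI).mp h1
        obtain ⟨D3, h4⟩ := (mem_dvs (hq _ h3)).mp h2
        have h5 : D1 * D2 ∣ I := ⟨D3, by rw [← bmob1_q_mul h3, h4]; ring⟩
        exact mem_sigma.mpr ⟨(mem_dvs hI).mpr h5,
          (mem_dvs (ne_zero_of_dvd_ne_zero hI h5)).mpr (dvd_mul_right _ _)⟩
      · rintro ⟨D, D1⟩ hx
        obtain ⟨h1, h2⟩ := mem_sigma.mp hx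
        have h0 : D ≠ ⊥ := ne_zero_of_dvd_ne_zero hI ((mem_dvs hI).mp h1)
        simp only [bmob1_q_mul ((mem_dvs h0).mp h2)]
      · rintro ⟨D2, D1⟩ hx
        obtain ⟨h1, h2⟩ := mem_sigma.mp hx
        have h3 := (mem_dvs hI).mp h1
        have h0 : D1 * D2 ≠ ⊥ := mul_ne_zero
          (ne_zero_of_dvd_ne_zero (hq _ h3) ((mem_dvs (hq _ h3)).mp h2))
          (ne_zero_of_dvd_ne_zero hI h3)
        simp only [bmob1_q_eq h0 rfl]
      · exact fun _ _ => rfl
    rw [h1, sum_eq_single I]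
    · rw [← sum_mul, bmob1_q_eq hI (mul_one I).symm, bmob1_sum one_ne_zero, if_pos rfl, one_mul]
    · intro D2 h hne
      have h3 := bmob1_q_mul ((mem_dvs hI).mp h)
      rw [← sum_mul, bmob1_sum (right_ne_zero_of_mul (h3.symm ▸ hI : D2 * bmob1_q I D2 ≠ 0)),
        if_neg fun h4 => hne (by rw [← h3, h4, mul_one]), zero_mul]
    · exact fun h => (h ((mem_dvs hI).mpr dvd_rfl)).elim
  · by_contra h2
    obtain ⟨P, hP, h3, D', rfl⟩ := Ideal.exists_isMaximal_dvd_of_dvd_absNorm' hp D hpD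
    have h4 : (p : 𝓞 E) ∈ P := by
      have : (p : ℤ) ∈ P.under ℤ := h3 ▸ Ideal.mem_span_singleton_self _
      simpa using this
    obtain ⟨f, hf, h5⟩ := M4.NT.over_norm hp hP.isPrime h4
    rw [map_mul, h5] at h2
    obtain rfl : f = 1 := by
      by_contra h6
      exact h2 ((pow_dvd_pow p (by omega)).mul_right _)
    rw [pow_one] at h2 h5
    have h6 : ¬ p ∣ Ideal.absNorm D' := fun h => h2 (sq p ▸ mul_dvd_mul_left p h)
    refine hG (moeb_zero (Ideal.prime_of_isPrime (left_ne_zero_of_mul hD) hP.isPrime)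
      (right_ne_zero_of_mul hD) _ ?_)
    rintro D1 ⟨D3, rfl⟩ -
    rw [bmob1_q_eq hD (mul_assoc P D1 D3).symm, bmob1_q_eq hD (mul_left_comm P D1 D3)]
    have h7 : p.Coprime (Ideal.absNorm D3) := hp.coprime_iff_not_dvd.mpr
      fun h => h6 (by rw [map_mul]; exact h.mul_left _)
    simp only [hs, map_mul, h5, Nat.squarefree_mul h7, hp.squarefree, true_and]
  · refine (abs_sum_le_sum_abs _ _).trans ((sum_le_card_nsmul _ _ 1 fun D1 _ => ?_).trans
      (by simp))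
    simp only [hs, UniqueFactorizationMonoid.moebius]
    split_ifs <;> simp

end Pool.Agent.Lib.MP_830c64_nt.CL
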