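import Pool.Agent.Lib.MP_830c64_nt.CL.BDefs
import Pool.Agent.Lib.MP_830c64_nt.Divis

/-! A sum over squarefull numbers. -/

namespace Pool.Agent.Lib.MP_830c64_nt.CL

open NumberField Module Equiv Finset
open scoped Classical ComplexConjugate

theorem bsqf_rep {m : ℕ} (h : ∀ p : ℕ, p.Prime → p ∣ m → p ^ 2 ∣ m) :
    ∃ x : ℕ × ℕ, x.1 ^ 3 * x.2 ^ 2 = m := by
  obtain ⟨a, b, rfl, ha⟩ := Nat.sq_mul_squarefree m
  obtain ⟨c, rfl⟩ : a ∣ b := by
    rw [← Nat.prod_primeFactors_of_squarefree ha]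
    refine Finset.prod_primes_dvd b (fun p hp => (Nat.prime_of_mem_primeFactors hp).prime)
      fun p hp => ?_
    have h1 := Nat.prime_of_mem_primeFactors hp
    by_contra h2
    exact h1.prime.not_isUnit (ha p (sq p ▸ (Nat.Coprime.pow 2 2
      ((Nat.Prime.coprime_iff_not_dvd h1).2 h2)).dvd_of_dvd_mul_left
        (h p h1 ((Nat.dvd_of_mem_primeFactors hp).mul_left _))))
  exact ⟨(a, c), by ring⟩

/-- The sum over squarefull numbers converges. -/
theorem sqfull (r : ℕ) : ∃ C : ℝ, 0 ≤ C ∧ ∀ S : Finset ℕ,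
    (∀ m ∈ S, m ≠ 0 ∧ ∀ p : ℕ, p.Prime → p ∣ m → p ^ 2 ∣ m) →
    ∑ m ∈ S, (m.divisors.card : ℝ) ^ r * (m : ℝ) ^ (-(3 / 4 : ℝ)) ≤ C := by
  have hr : (0 : ℝ) < 8 * (r + 1) := by positivity
  obtain ⟨A, hA, h⟩ := divis le_rfl (one_div_pos.2 hr)
  have hs : Summable fun x : ℕ × ℕ => (x.1 : ℝ) ^ (-(15 / 8 : ℝ)) * (x.2 : ℝ) ^ (-(5 / 4 : ℝ)) :=
    (Real.summable_nat_rpow.2 (by norm_num)).mul_of_nonneg (Real.summable_nat_rpow.2 (by norm_num))
      (fun _ => by positivity) fun _ => by positivity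
  refine ⟨A ^ r * ∑' x, _, mul_nonneg (by positivity) (tsum_nonneg fun x : ℕ × ℕ => (by positivity :
    0 ≤ (x.1 : ℝ) ^ (-(15 / 8 : ℝ)) * (x.2 : ℝ) ^ (-(5 / 4 : ℝ)))), fun S hS => ?_⟩
  choose! x hx using fun m (hm : m ∈ S) => bsqf_rep (hS m hm).2
  refine le_trans ?_ (mul_le_mul_of_nonneg_left (hs.sum_le_tsum (S.image x) fun _ _ => by
    positivity) (by positivity))
  rw [sum_image fun m hm m' hm' e => by rw [← hx m hm, ← hx m' hm', e], mul_sum]
  refine sum_le_sum fun m hm => ?_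
  have h1 : (1 : ℝ) ≤ m := by exact_mod_cast Nat.pos_of_ne_zero (hS m hm).1
  have h2 : (m.divisors.card : ℝ) ≤ A * (m : ℝ) ^ (1 / (8 * (r + 1)) : ℝ) := by
    refine le_trans ?_ (h m (hS m hm).1)
    rw [Nat.card_divisors (hS m hm).1]
    push_cast
    exact prod_le_prod (fun _ _ => by positivity) fun _ _ => by linarith
  have h3 : (m : ℝ) ^ (-(5 / 8 : ℝ)) =
      ((x m).1 : ℝ) ^ (-(15 / 8 : ℝ)) * ((x m).2 : ℝ) ^ (-(5 / 4 : ℝ)) := by
    conv_lhs => rw [← hx m hm]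
    push_cast
    rw [Real.mul_rpow (by positivity) (by positivity), ← Real.rpow_natCast, ← Real.rpow_natCast,
      ← Real.rpow_mul (by positivity), ← Real.rpow_mul (by positivity)]
    norm_num
  refine (mul_le_mul_of_nonneg_right (pow_le_pow_left₀ (by positivity) h2 r) (by positivity)).trans ?_
  rw [← h3, mul_pow, mul_assoc, ← Real.rpow_mul_natCast (by positivity),
    ← Real.rpow_add (by linarith)]
  refine mul_le_mul_of_nonneg_left (Real.rpow_le_rpow_of_exponent_le h1 ?_) (by positivity)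
  have : 1 / (8 * ((r : ℝ) + 1)) * r ≤ 1 / 8 := by
    rw [one_div_mul_eq_div, div_le_div_iff₀ hr (by norm_num)]
    linarith
  linarith

end Pool.Agent.Lib.MP_830c64_nt.CL
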