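import Pool.Agent.Lib.MP_830c64_nt.CL.BMob1
import Pool.Agent.Lib.MP_830c64_nt.CL.BSqf

/-! Removing the condition that the norm is squarefree. -/

namespace Pool.Agent.Lib.MP_830c64_nt.CL

open NumberField Module Equiv Finset
open scoped Classical ComplexConjugate

theorem bmob2_fib {E α : Type} [Field E] [NumberField E] [AddCommMonoid α] (x : ℝ)
    (F : Ideal (𝓞 E) → α) : ∑ I ∈ idl E x, F I = ∑ m ∈ Icc 1 ⌊x⌋₊, ∑ I ∈ np E m, F I :=
  sum_biUnion fun _ _ _ _ h => disjoint_left.2 fun _ a b => h ((mem_np.1 a).symm.trans (mem_np.1 b))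

theorem bmob2_one {E : Type} [Field E] [NumberField E] {D : Ideal (𝓞 E)} (h : D ≠ ⊥) :
    (1 : ℝ) ≤ Ideal.absNorm D := by
  exact_mod_cast Nat.one_le_iff_ne_zero.2 (Ideal.absNorm_eq_zero_iff.not.2 h)

theorem bmob2_swap {E : Type} [Field E] [NumberField E] {x : ℝ} (hx : 0 ≤ x)
    (F : Ideal (𝓞 E) → Ideal (𝓞 E) → ℂ) : ∑ I ∈ idl E x, ∑ D ∈ dvs I, F I D =
      ∑ D ∈ idl E x, ∑ J ∈ idl E (x / Ideal.absNorm D), F (D * J) D := by
  rw [sum_comm' (t' := idl E x) (s' := fun D => (idl E x).filter (D ∣ ·))]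
  · refine sum_congr rfl fun D hD => ?_
    have D0 := ((mem_idl hx).1 hD).1
    have D1 := one_pos.trans_le (bmob2_one D0)
    have e : ∀ J, J ∈ idl E (x / Ideal.absNorm D) ↔ D * J ∈ idl E x := fun J => by
      rw [mem_idl hx, mem_idl (div_nonneg hx D1.le), le_div_iff₀' D1, map_mul, Nat.cast_mul]
      simp [D0]
    refine (sum_bij (fun J _ => D * J) (fun J hJ => mem_filter.2 ⟨(e J).1 hJ, dvd_mul_right _ _⟩)
      (fun _ _ _ _ h => mul_left_cancel₀ D0 h) (fun I hI => ?_) fun _ _ => rfl).symm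
    obtain ⟨h, J, rfl⟩ := mem_filter.1 hI
    exact ⟨J, (e J).2 h, rfl⟩
  · intro I D
    rw [mem_filter, and_assoc]
    refine and_congr_right fun hI => ?_
    obtain ⟨I0, I1⟩ := (mem_idl hx).1 hI
    rw [mem_dvs I0, iff_self_and, mem_idl hx]
    exact fun h => ⟨ne_zero_of_dvd_ne_zero I0 h, le_trans (Nat.cast_le.2 (Nat.le_of_dvd
      (Nat.pos_of_ne_zero (Ideal.absNorm_eq_zero_iff.not.2 I0)) (map_dvd _ h))) I1⟩

/-- The sum is the sum over `D ∈ idl E x` of `G D * W D` times the full sum at `x / absNorm D`. -/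
theorem mob (N : ℕ) : ∃ C : ℝ, 0 ≤ C ∧ ∀ (E : Type) [Field E] [NumberField E] (f K : ℕ)
    (W : Ideal (𝓞 E) → ℂ) (B δ : ℝ), finrank ℚ E ≤ N → Ray E f W → 0 ≤ B → 0 < δ → δ ≤ 1 / 4 →
    (∀ x : ℝ, 1 ≤ x → ‖∑ I ∈ idl E x, W I * ((Real.log (x / Ideal.absNorm I)) ^ K : ℝ)‖ ≤
      B * x ^ (1 - δ)) →
    ∀ x : ℝ, 1 ≤ x → ‖∑ m ∈ sqf x, (∑ I ∈ np E m, W I) * ((Real.log (x / m)) ^ K : ℝ)‖ ≤
      C * B * x ^ (1 - δ) := by
  obtain ⟨C, C0, hC⟩ := sqfull (N + (N + 1))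
  refine ⟨C, C0, fun E _ _ f K W B δ hN hW hB _ hδ h x hx => ?_⟩
  obtain ⟨G, g1, g2, g3⟩ := mob1 E
  have x0 := zero_le_one.trans hx
  have e1 : ∑ m ∈ sqf x, (∑ I ∈ np E m, W I) * ((Real.log (x / m)) ^ K : ℝ) =
      ∑ I ∈ idl E x, ∑ D ∈ dvs I,
        (G D : ℂ) * (W I * ((Real.log (x / Ideal.absNorm I)) ^ K : ℝ)) := by
    rw [bmob2_fib, sqf, sum_filter]
    refine sum_congr rfl fun m hm => ?_
    refine Eq.trans ?_ (sum_congr rfl (g := fun I => if Squarefree m then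
      W I * ((Real.log (x / m)) ^ K : ℝ) else 0) fun I hI => ?_).symm
    · split_ifs
      · rw [sum_mul]
      · rw [sum_const_zero]
    · obtain rfl := mem_np.1 hI
      rw [← sum_mul, ← Int.cast_sum,
        g1 I (Ideal.absNorm_eq_zero_iff.not.1 (Nat.one_le_iff_ne_zero.1 (mem_Icc.1 hm).1))]
      split_ifs <;> simp
  have P0 : 0 ≤ B * x ^ (1 - δ) := by positivity
  rw [e1, bmob2_swap x0, bmob2_fib, mul_assoc]
  refine (norm_sum_le _ _).trans (le_trans ?_ (mul_le_mul_of_nonneg_right (hC ((Icc 1 ⌊x⌋₊).filter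
    fun m => ∀ p : ℕ, p.Prime → p ∣ m → p ^ 2 ∣ m) fun m hm => ⟨Nat.one_le_iff_ne_zero.1
      (mem_Icc.1 (mem_filter.1 hm).1).1, (mem_filter.1 hm).2⟩) P0))
  rw [sum_mul, sum_filter]
  refine sum_le_sum fun m hm => ?_
  obtain ⟨m1, m2⟩ := mem_Icc.1 hm
  have m0 : m ≠ 0 := Nat.one_le_iff_ne_zero.1 m1
  have m3 : (1 : ℝ) ≤ m := by exact_mod_cast m1
  have D0 : ∀ D ∈ np E m, D ≠ ⊥ := fun D hD =>
    Ideal.absNorm_eq_zero_iff.not.1 ((mem_np.1 hD).trans_ne m0)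
  split_ifs with hq
  · have t1 : 1 ≤ m.divisors.card := card_pos.2 ⟨1, Nat.one_mem_divisors.2 m0⟩
    refine (norm_sum_le _ _).trans ((sum_le_card_nsmul _ _ ((m.divisors.card : ℝ) ^ (N + 1) *
      ((m : ℝ) ^ (-(3 / 4 : ℝ)) * (B * x ^ (1 - δ)))) fun D hD => ?_).trans ?_)
    · have e2 : ∀ J, (G D : ℂ) * (W (D * J) *
          ((Real.log (x / Ideal.absNorm (D * J))) ^ K : ℝ)) = G D * (W D * (W J *
            ((Real.log (x / Ideal.absNorm D / Ideal.absNorm J)) ^ K : ℝ))) := fun J => by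
        rw [hW.mul, map_mul, Nat.cast_mul, div_div, mul_assoc]
      simp only [e2]
      rw [← mul_sum, ← mul_sum, norm_mul, norm_mul, mem_np.1 hD]
      refine mul_le_mul ?_ ((mul_le_of_le_one_left (norm_nonneg _) (hW.norm_le D)).trans
        ((h _ ((one_le_div (by linarith)).2 ((Nat.le_floor_iff x0).1 m2))).trans ?_))
        (by positivity) (by positivity)
      · rw [Complex.norm_intCast]
        have := (card_dvs (D0 D hD)).trans
          (Nat.pow_le_pow_right ((mem_np.1 hD).symm ▸ t1) (Nat.succ_le_succ hN))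
        rw [mem_np.1 hD] at this
        exact_mod_cast (g3 D (D0 D hD)).trans (Nat.cast_le.2 this)
      · rw [Real.div_rpow x0 (by linarith), div_eq_mul_inv, ← Real.rpow_neg (by linarith),
          ← mul_assoc, mul_comm]
        exact mul_le_mul_of_nonneg_right
          (Real.rpow_le_rpow_of_exponent_le m3 (by linarith)) P0
    · rw [nsmul_eq_mul, pow_add _ N (N + 1), mul_assoc, mul_assoc]
      refine mul_le_mul_of_nonneg_right ?_ (by positivity)
      rw [← Nat.subtype_card _ fun _ => mem_np]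
      exact_mod_cast (M4.NT.idc E m0).trans (Nat.pow_le_pow_right t1 hN)
  · refine (norm_eq_zero.2 (sum_eq_zero fun D hD => ?_)).le
    have : G D = 0 := by_contra fun hG => hq (mem_np.1 hD ▸ g2 D (D0 D hD) hG)
    simp [this]

end Pool.Agent.Lib.MP_830c64_nt.CL
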