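import Pool.Agent.Lib.MP_830c64_nt.CL.BDefs

/-! Ideals of squarefree norm. -/

namespace Pool.Agent.Lib.MP_830c64_nt.CL

open NumberField Module Equiv Finset
open scoped Classical ComplexConjugate

variable {E : Type} [Field E] [NumberField E]

/-- For coprime `a`, `b` the map `(I, J) ↦ I * J` is a bijection onto the ideals of norm `a * b`;
the inverse is `L ↦ (L ⊔ span {a}, L ⊔ span {b})` (or split the prime factorisation). -/
theorem np_mul_cop (W : Ideal (𝓞 E) → ℂ) (hW : ∀ I J, W (I * J) = W I * W J) {a b : ℕ}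
    (ha : a ≠ 0) (hb : b ≠ 0) (hab : a.Coprime b) :
    ∑ L ∈ np E (a * b), W L = (∑ I ∈ np E a, W I) * ∑ J ∈ np E b, W J := by
  have h1 : ∀ {a b : ℕ}, a.Coprime b → Ideal.span {(a : 𝓞 E)} ⊔ Ideal.span {(b : 𝓞 E)} = ⊤ :=
    fun h => Ideal.isCoprime_iff_sup_eq.1 ((Ideal.isCoprime_span_singleton_iff _ _).2 h.cast)
  have h2 : ∀ {a b : ℕ}, a.Coprime b → ∀ I ∈ np E a, ∀ J ∈ np E b,
      I * J ⊔ Ideal.span {(a : 𝓞 E)} = I := fun h I hI J hJ => by
    rw [Ideal.mul_sup_eq_of_coprime_right (top_le_iff.1 ((h1 h.symm).ge.trans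
      (sup_le_sup_right (mem_np.1 hJ ▸ J.span_singleton_absNorm_le) _)))]
    exact sup_eq_left.2 (mem_np.1 hI ▸ I.span_singleton_absNorm_le)
  have h3 : ∀ {a b : ℕ}, a.Coprime b → ∀ L : Ideal (𝓞 E),
      (Ideal.absNorm (L ⊔ Ideal.span {(a : 𝓞 E)})).Coprime b := fun h L =>
    Nat.Coprime.coprime_dvd_left (Ideal.absNorm_dvd_absNorm_of_le le_sup_right) (by
      rw [Ideal.absNorm_span_natCast]
      exact h.pow_left _)
  rw [sum_mul_sum, ← sum_product']
  refine (sum_bij (fun p _ => p.1 * p.2) (fun p hp => ?_) (fun p hp q hq e => ?_) (fun L hL => ?_)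
    fun p _ => (hW _ _).symm).symm
  · rw [mem_product, mem_np, mem_np] at hp
    rw [mem_np, map_mul, hp.1, hp.2]
  · rw [mem_product] at hp hq
    refine Prod.ext ?_ ?_
    · rw [← h2 hab _ hp.1 _ hp.2, e, h2 hab _ hq.1 _ hq.2]
    · rw [← h2 hab.symm _ hp.2 _ hp.1, mul_comm, e, mul_comm, h2 hab.symm _ hq.2 _ hq.1]
  · have h4 : (L ⊔ Ideal.span {(a : 𝓞 E)}) * (L ⊔ Ideal.span {(b : 𝓞 E)}) = L := by
      refine le_antisymm ?_ ?_
      · rw [Ideal.sup_mul, Ideal.mul_sup (Ideal.span _), Ideal.span_singleton_mul_span_singleton,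
          ← Nat.cast_mul, ← mem_np.1 hL]
        exact sup_le Ideal.mul_le_left (sup_le Ideal.mul_le_right L.span_singleton_absNorm_le)
      · refine (Ideal.mul_top L).ge.trans ?_
        rw [← h1 hab, Ideal.mul_sup, mul_comm L]
        exact sup_le (Ideal.mul_mono le_sup_right le_sup_left)
          (Ideal.mul_mono le_sup_left le_sup_right)
    have h5 := congrArg Ideal.absNorm h4
    rw [map_mul, mem_np.1 hL] at h5
    refine ⟨(_, _), mem_product.2 ⟨mem_np.2 (Nat.dvd_antisymm ?_ ?_),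
      mem_np.2 (Nat.dvd_antisymm ?_ ?_)⟩, h4⟩
    · exact (h3 hab L).dvd_of_dvd_mul_right ⟨_, h5.symm⟩
    · exact (h3 hab.symm L).symm.dvd_of_dvd_mul_right ⟨_, h5⟩
    · exact (h3 hab.symm L).dvd_of_dvd_mul_left (Dvd.intro_left _ h5)
    · exact (h3 hab L).symm.dvd_of_dvd_mul_left (Dvd.intro_left _ h5.symm)

theorem np_mul {f : ℕ} {W : Ideal (𝓞 E) → ℂ} (hW : Ray E f W) {m : ℕ} (hm : Squarefree m) :
    ∏ p ∈ m.primeFactors, ∑ P ∈ np E p, W P = ∑ I ∈ np E m, W I := by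
  induction m using Nat.recOnPosPrimePosCoprime with
  | prime_pow p n hp hn =>
    obtain rfl : n = 1 := ((Nat.squarefree_pow_iff hp.ne_one hn.ne').1 hm).2
    simp [hp.primeFactors]
  | zero => exact absurd hm not_squarefree_zero
  | one =>
    have : np E 1 = {⊤} := by ext; simp [mem_np]
    simp [this, hW.one]
  | coprime a b ha hb hab iha ihb =>
    rw [hab.primeFactors_mul, prod_union hab.disjoint_primeFactors, iha hm.of_mul_left,
      ihb hm.of_mul_right, np_mul_cop W hW.mul (by omega) (by omega) hab]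

end Pool.Agent.Lib.MP_830c64_nt.CL
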