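import Pool.Agent.Lib.MP_830c64_nt.CL.BGram
import Pool.Agent.Lib.MP_830c64_nt.CL.BMul
import Pool.Agent.Lib.MP_830c64_nt.CL.BMob2
import Pool.Agent.Lib.MP_830c64_nt.CL.BIdx

/-! The off diagonal terms, and the lower bound at derangements. -/

namespace Pool.Agent.Lib.MP_830c64_nt.CL

open NumberField Module Equiv Finset
open scoped Classical ComplexConjugate

variable {M : Type} [Field M] [NumberField M]

/-- `gram`, `np_mul`, `mob` and `CancelStmt` for the fixed field of `A ⊓ B`. -/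
theorem off (hC : CancelStmt) (N : ℕ) : ∃ C δ : ℝ, 1 ≤ C ∧ 0 < δ ∧ δ ≤ 1 / 4 ∧
    ∀ (M : Type) [Field M] [NumberField M] [IsGalois ℚ M] (A A0 B B0 G : Subgroup (Gl M)) (l : ℕ)
      (χ : Chr A A0 l) (χ' : Chr B B0 l) (Q : ℕ → Ideal (𝓞 M)) (σ : ℕ → Gl M) (Y : ℝ),
      A ≤ G → B ≤ G → (∀ γ ∈ G, ∃ a ∈ A, ∃ b ∈ B, γ = a * b) → (A ⊓ B).index ≤ N → 2 ≤ Y →
      Small (FF (A ⊓ B)) Y → ((χ.f * χ'.f : ℕ) : ℝ) ≤ Y →
      (∃ J, Wp χ.w χ'.w J ≠ 0 ∧ Wp χ.w χ'.w J ≠ 1) → (∀ p, p.Prime → Frob (Q p) p (σ p)) →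
      ∀ x : ℝ, 1 ≤ x → ‖∑ m ∈ sqf x, (∏ p ∈ m.primeFactors, ∑ t : Gl M ⧸ G,
        lam A G χ.w (Q p) (σ p) t * conj (lam B G χ'.w (Q p) (σ p) t)) *
          ((Real.log (x / m)) ^ N : ℝ)‖ ≤ C * Y ^ C * x ^ (1 - δ) := by
  obtain ⟨C, δ, c1, d0, d1, h⟩ := hC N
  obtain ⟨C', c', hm⟩ := mob N
  refine ⟨C + C' * C, δ, le_add_of_le_of_nonneg c1 (by positivity), d0, d1,
    fun M _ _ _ A A0 B B0 G l χ χ' Q σ Y hA hB hAB hN hY hS hf hn hF x hx => ?_⟩
  have r := ray_pair χ.ray χ'.ray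
  have hr : finrank ℚ (FF (A ⊓ B)) ≤ N := (finrank_FF _).trans_le hN
  have y1 : 1 ≤ Y := one_le_two.trans hY
  have := hm _ _ N _ (C * Y ^ C) δ hr r (by positivity) d0 d1
    (h _ Y _ _ hr hY hS (χ.two.trans (Nat.le_mul_of_pos_right _ (two_pos.trans_le χ'.two))) hf r hn)
    x hx
  rw [sum_congr rfl fun m hm' => by
    rw [prod_congr rfl fun p hp => gram hA hB hAB χ χ' (Nat.prime_of_mem_primeFactors hp)
      (hF p (Nat.prime_of_mem_primeFactors hp)), np_mul r (mem_filter.1 hm').2]]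
  refine this.trans (mul_le_mul_of_nonneg_right ?_ (by positivity))
  rw [← mul_assoc]
  exact mul_le_mul (le_add_of_nonneg_left (by positivity)) (Real.rpow_le_rpow_of_exponent_le y1
    (le_add_of_nonneg_right (by positivity))) (by positivity) (by positivity)

theorem boff_le (A : Subgroup (Gl M)) {w : Ideal (𝓞 (FF A)) → ℂ} (hw : ∀ I, ‖w I‖ ≤ 1)
    (s : Finset (Gl M)) (u : Gl M → Ideal (𝓞 (FF A))) :
    ‖(Nat.card A : ℂ)⁻¹ * ∑ τ ∈ s, w (u τ)‖ ≤ A.index := by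
  rw [norm_mul, norm_inv, Complex.norm_natCast, inv_mul_le_iff₀ (Nat.cast_pos.2 Nat.card_pos),
    ← Nat.cast_mul, A.card_mul_index, Nat.card_eq_fintype_card]
  refine (norm_sum_le_of_le s fun τ _ => hw (u τ)).trans ?_
  rw [sum_const, nsmul_one, Nat.cast_le]
  exact card_le_univ s

theorem lam_le (A G : Subgroup (Gl M)) {w : Ideal (𝓞 (FF A)) → ℂ} (hw : ∀ I, ‖w I‖ ≤ 1)
    (Q : Ideal (𝓞 M)) (σ : Gl M) (t : Gl M ⧸ G) : ‖lam A G w Q σ t‖ ≤ A.index := by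
  exact boff_le A hw _ _

theorem lam_sum (A G : Subgroup (Gl M)) (w : Ideal (𝓞 (FF A)) → ℂ) (Q : Ideal (𝓞 M))
    (σ : Gl M) : ∑ t : Gl M ⧸ G, lam A G w Q σ t = (Nat.card A : ℂ)⁻¹ *
      ∑ τ ∈ univ.filter (fun τ : Gl M => τ⁻¹ * σ * τ ∈ A), w (pr A Q τ) := by
  simp only [lam, ← mul_sum]
  rw [← sum_fiberwise (univ.filter fun τ : Gl M => τ⁻¹ * σ * τ ∈ A) fun τ => (τ : Gl M ⧸ G)]
  simp only [filter_filter, and_comm]

/-- At a good prime every term is `1` (or every term is `0`, if `p` divides the modulus); if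
moreover `σ p ∈ A` all `τ ∈ A` contribute. At the other primes the sum has norm at most the index
of `A`, by `lam_sum`. The primes of `P` dividing the modulus are prime factors of it. -/
theorem psi {n : ℕ} {T : ℝ} (d : Dat M n T) {I : 𝓞 M} (hI : I ^ 2 = -1) (t : Tri n)
    (χ : Chr (d.A I t.H) (d.A I t.H0) t.l) (G : Subgroup (Gl M)) (Q : ℕ → Ideal (𝓞 M))
    (σ : ℕ → Gl M) (P : Finset ℕ) (hP : ∀ p ∈ P, p.Prime ∧ p % 4 = 1 ∧ Frob (Q p) p (σ p)) :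
    ((P.filter fun p => t.good (d.ρ (σ p)) ∧ d.ρ (σ p) ∈ t.H).card : ℝ) -
      χ.f.primeFactors.card -
      2 * n.factorial * (P.filter fun p => ¬ t.good (d.ρ (σ p))).card ≤
      ‖∑ p ∈ P, ∑ u : Gl M ⧸ G, lam (d.A I t.H) G χ.w (Q p) (σ p) u‖ := by
  have key : ∀ p ∈ P, (if t.good (d.ρ (σ p)) ∧ d.ρ (σ p) ∈ t.H then 1 else 0 : ℝ) -
      (if p ∣ χ.f then 1 else 0) - 2 * n.factorial * (if ¬ t.good (d.ρ (σ p)) then 1 else 0) ≤
      (∑ u : Gl M ⧸ G, lam (d.A I t.H) G χ.w (Q p) (σ p) u).re := fun p hp => by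
    obtain ⟨p1, p4, pF⟩ := hP p hp
    rw [lam_sum]
    by_cases hg : t.good (d.ρ (σ p))
    · rw [if_neg (not_not.2 hg), mul_zero, sub_zero]
      by_cases hf : p ∣ χ.f
      · rw [sum_eq_zero fun τ _ => χ.ray.zero _ fun h => (pr_cop p1 pF _ τ _).1 h hf, if_pos hf]
        split_ifs <;> simp
      · rw [if_neg hf, sub_zero, sum_congr rfl fun τ hτ => χ.spl _ p _ τ p1 pF hf
          ⟨by simpa using hg (d.ρ τ) (by simpa using (mem_filter.1 hτ).2.1), (mem_filter.1 hτ).2.2⟩,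
          sum_const, nsmul_one, ← Complex.ofReal_natCast, ← Complex.ofReal_natCast,
          ← Complex.ofReal_inv, ← Complex.ofReal_mul, Complex.ofReal_re]
        split_ifs with h
        · have m : σ p ∈ d.A I t.H := ⟨h.2, frob_I p1 pF hI p4⟩
          rw [le_inv_mul_iff₀ (Nat.cast_pos.2 Nat.card_pos), mul_one, Nat.cast_le,
            Nat.card_eq_fintype_card, Fintype.card_subtype]
          exact card_le_card fun τ hτ => mem_filter.2 ⟨mem_univ _,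
            mul_mem (mul_mem (inv_mem (mem_filter.1 hτ).2) m) (mem_filter.1 hτ).2⟩
        · positivity
    · rw [if_neg fun h => hg h.1, if_pos hg, mul_one]
      have h1 := (Complex.abs_re_le_norm _).trans (boff_le (d.A I t.H) χ.ray.norm_le
        (univ.filter fun τ : Gl M => τ⁻¹ * σ p * τ ∈ d.A I t.H) (pr _ (Q p)))
      have h2 : ((d.A I t.H).index : ℝ) ≤ 2 * n.factorial := by
        exact_mod_cast index_A (ρ := d.ρ) (G0_index hI) t.H
      have h3 : (0 : ℝ) ≤ if p ∣ χ.f then 1 else 0 := by positivity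
      linarith [(abs_le.1 h1).1]
  have h1 := sum_le_sum key
  rw [sum_sub_distrib, sum_sub_distrib, ← mul_sum, sum_boole, sum_boole, sum_boole,
    ← Complex.re_sum] at h1
  have h2 : ((P.filter fun p => p ∣ χ.f).card : ℝ) ≤ χ.f.primeFactors.card :=
    Nat.cast_le.2 (card_le_card fun p hp => Nat.mem_primeFactors.2 ⟨(hP p (mem_filter.1 hp).1).1,
      (mem_filter.1 hp).2, (two_pos.trans_le χ.two).ne'⟩)
  linarith [Complex.re_le_norm (∑ p ∈ P, ∑ u : Gl M ⧸ G, lam (d.A I t.H) G χ.w (Q p) (σ p) u)]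

end Pool.Agent.Lib.MP_830c64_nt.CL
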