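import Pool.Agent.Lib.MP_830c64_nt.CL.BDefs
import Pool.Agent.Lib.MP_33b3f9_ag.M4.NTQuad

/-! Many primes that are one modulo four. -/

namespace Pool.Agent.Lib.MP_830c64_nt.CL

open NumberField Module Equiv Finset
open scoped Classical ComplexConjugate

/-- `M4.NT.quad` with `L = ℚ` and `δ = 1`; `y = 2 * Y`, `Z = X ^ (η / (2 * A))`; remove the prime
`2`; `ZMod.exists_sq_eq_neg_one_iff`. -/
theorem primes_one {η : ℝ} (hη : 0 < η) : ∃ η' : ℝ, 0 < η' ∧ ∀ κ : ℝ, 0 < κ → ∃ X0 : ℝ,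
    ∀ X : ℝ, X0 ≤ X → ∃ (y : ℝ) (P : Finset ℕ), X ^ η' ≤ y ∧ y ≤ X ^ η ∧
      (∀ p ∈ P, p.Prime ∧ (p : ℝ) ≤ y ∧ p % 4 = 1) ∧ y ^ (1 - κ) ≤ P.card := by
  obtain ⟨A, hA, h⟩ := M4.NT.quad ℚ
  have hA' : (1 : ℝ) ≤ A := by exact_mod_cast hA
  refine ⟨η / (2 * A), by positivity, fun κ hκ => ?_⟩
  obtain ⟨Z0, h0⟩ := h (min (κ / 2) 1) (by positivity) (min_le_right _ _)
  obtain ⟨Z1, h1⟩ := Filter.eventually_atTop.1
    ((tendsto_rpow_atTop (half_pos hκ)).eventually_ge_atTop 2)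
  obtain ⟨X0, h2⟩ := Filter.eventually_atTop.1
    ((tendsto_rpow_atTop (show 0 < η / (2 * A) by positivity)).eventually_ge_atTop
      (max (max Z0 Z1) 3))
  refine ⟨max X0 0, fun X hX => ?_⟩
  have hX0 : 0 ≤ X := (le_max_right _ _).trans hX
  obtain ⟨h3, h4⟩ := max_le_iff.1 (h2 X ((le_max_left _ _).trans hX))
  obtain ⟨h5, h6⟩ := max_le_iff.1 h3
  have h7 : (X ^ (η / (2 * A))) ^ A * (X ^ (η / (2 * A))) ^ A = X ^ η := by
    rw [← pow_add, ← Real.rpow_natCast, ← Real.rpow_mul hX0]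
    congr 1
    push_cast
    field_simp
    ring
  generalize X ^ (η / (2 * A)) = Z at h4 h5 h6 h7 ⊢
  obtain ⟨Y, y1, y2, y3⟩ := h0 Z h5 1 le_rfl
    (by simpa using Real.one_le_rpow (by linarith) (by positivity))
  have y4 : (3 : ℝ) ≤ Y := h4.trans y1
  have y5 : 3 ≤ Y := by exact_mod_cast y4
  refine ⟨2 * Y, _, by linarith, ?_, fun p hp => ?_, le_trans ?_ y3⟩
  · rw [← h7]
    nlinarith
  · obtain ⟨p1, p2, -, p3⟩ := mem_filter.1 hp
    obtain ⟨p4, p5⟩ := mem_Icc.1 p1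
    have := Fact.mk p2
    have p6 := ZMod.exists_sq_eq_neg_one_iff.1 (by simpa using p3)
    have p7 := p2.eq_two_or_odd
    exact ⟨p2, by exact_mod_cast p5, by omega⟩
  · have e1 : (2 : ℝ) ^ (1 - κ) ≤ (Y : ℝ) ^ (κ / 2) :=
      ((Real.rpow_le_rpow_of_exponent_le one_le_two (by linarith)).trans_eq
        (Real.rpow_one 2)).trans (h1 Y (h6.trans y1))
    rw [Real.mul_rpow (by norm_num) (by positivity)]
    refine (mul_le_mul_of_nonneg_right e1 (by positivity)).trans ?_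
    rw [← Real.rpow_add (by linarith)]
    exact Real.rpow_le_rpow_of_exponent_le (by linarith) (by linarith [min_le_left (κ / 2) 1])

end Pool.Agent.Lib.MP_830c64_nt.CL
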