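import Pool.Agent.Lib.MP_830c64_nt.CL.BFrob

/-! A small generator and a common Galois extension. -/

namespace Pool.Agent.Lib.MP_830c64_nt.CL

open NumberField Module Equiv Finset
open scoped Classical ComplexConjugate

variable {M : Type} [Field M] [NumberField M]

/-- A field of odd degree has a small generator. -/
theorem exists_gen {n : ℕ} (hn : Odd n) : ∃ c : ℝ, 2 ≤ c ∧ ∀ (K : Type) [Field K] [NumberField K],
    finrank ℚ K = n → ∃ θ : 𝓞 K, IntermediateField.adjoin ℚ {(θ : K)} = ⊤ ∧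
      ∀ φ : K →+* ℂ, ‖φ θ‖ ≤ c * |(discr K : ℝ)| := by
  refine ⟨2 ^ n + 1, by linarith [one_le_pow₀ (n := n) (one_le_two (α := ℝ))], fun K _ _ h => ?_⟩
  obtain ⟨⟨w, hw⟩⟩ := Fintype.card_pos_iff.1 (InfinitePlace.nrRealPlaces_pos_of_odd_finrank (h ▸ hn))
  have h1 : (1 : NNReal) ≤ ‖discr K‖₊ := by
    rw [← NNReal.coe_le_coe, coe_nnnorm, Int.norm_eq_abs, NNReal.coe_one]
    exact_mod_cast Int.one_le_abs (discr_ne_zero K)
  obtain ⟨θ, h2, h3⟩ := mixedEmbedding.exists_primitive_element_lt_of_isReal K hw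
    (B := ‖discr K‖₊ * 2 ^ n + 1) (by
      refine lt_of_le_of_lt (b := ((‖discr K‖₊ * 2 ^ n : NNReal) : ENNReal)) ?_ ?_
      · rw [mixedEmbedding.minkowskiBound,
          mixedEmbedding.volume_fundamentalDomain_fractionalIdealLatticeBasis, Units.val_one,
          FractionalIdeal.absNorm_one, Rat.cast_one, ENNReal.ofReal_one, one_mul,
          mixedEmbedding.finrank, mixedEmbedding.volume_fundamentalDomain_latticeBasis, h,
          ENNReal.coe_mul, ENNReal.coe_pow, ENNReal.coe_ofNat, ← one_mul (‖discr K‖₊ : ENNReal)]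
        gcongr
        · exact pow_le_one₀ (by positivity) (by simp)
        · exact NNReal.sqrt_le_iff_le_sq.2 (le_self_pow₀ h1 two_ne_zero)
      · exact_mod_cast (lt_add_one _).trans_le
          (le_mul_of_one_le_left zero_le (mixedEmbedding.one_le_convexBodyLTFactor K)))
  refine ⟨θ, h2, fun φ => (h3 (.mk φ)).le.trans ?_⟩
  rw [← NNReal.coe_le_coe, coe_nnnorm, Int.norm_eq_abs] at h1
  push_cast at h1 ⊢
  rw [Int.norm_eq_abs]
  have : 0 ≤ |(discr K : ℝ)| * 2 ^ n := by positivity
  exact max_le (by linarith) (by linarith)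

/-- A common Galois extension that contains a square root of `-1`. -/
theorem exists_big (ι : Type) [Fintype ι] (K : ι → Type) [∀ i, Field (K i)]
    [∀ i, NumberField (K i)] : ∃ (M : Type) (_ : Field M) (_ : NumberField M),
      IsGalois ℚ M ∧ (∃ I : 𝓞 M, I ^ 2 = -1) ∧
      ∀ i, Nat.card (K i →ₐ[ℚ] M) = finrank ℚ (K i) := by
  let b := fun i => Field.powerBasisOfFiniteOfSeparable ℚ (K i)
  let p : Polynomial ℚ := (Polynomial.X ^ 2 + 1) * ∏ i, minpoly ℚ (b i).gen
  have h1 : (Polynomial.X ^ 2 + 1 : Polynomial ℚ).degree = 2 := Polynomial.degree_X_pow_add_C two_pos 1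
  have hp : p.map (algebraMap ℚ p.SplittingField) ≠ 0 := Polynomial.map_ne_zero
    (mul_ne_zero (fun e => by simp [e] at h1) (prod_ne_zero_iff.2 fun i _ =>
      minpoly.ne_zero (Algebra.IsIntegral.isIntegral _)))
  have hs := fun q (h : q ∣ p) => (Polynomial.SplittingField.splits p).of_dvd hp
    (Polynomial.map_dvd _ h)
  have : Normal ℚ p.SplittingField :=
    Normal.of_isSplittingField (hFEp := Polynomial.IsSplittingField.splittingField p) p
  refine ⟨p.SplittingField, inferInstance, {}, {}, ?_, fun i => (AlgHom.natCard_of_powerBasis (b i)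
    (Algebra.IsSeparable.isSeparable _ _) (hs _ ((dvd_prod_of_mem _ (mem_univ i)).mul_left _))).trans
      (b i).finrank.symm⟩
  obtain ⟨x, hx⟩ := (hs _ (dvd_mul_right _ _)).exists_eval_eq_zero (by
    rw [Polynomial.degree_map, h1]
    decide)
  have h2 : x ^ 2 = -1 := eq_neg_of_add_eq_zero_left (by simpa using hx)
  exact ⟨⟨x, IsIntegral.of_pow two_pos (h2 ▸ isIntegral_one.neg)⟩, Subtype.ext h2⟩

end Pool.Agent.Lib.MP_830c64_nt.CL
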