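import Pool.Agent.Lib.MP_830c64_nt.CL.BMainT
import Pool.Agent.Lib.MP_830c64_nt.CL.BComb
import Pool.Agent.Lib.MP_830c64_nt.CL.BPrim
import Pool.Agent.Lib.MP_830c64_nt.CL.BGrp3

/-! Almost all fields have many small primes of degree one. -/

namespace Pool.Agent.Lib.MP_830c64_nt.CL

open NumberField Module Equiv Finset
open scoped Classical ComplexConjugate

/-- The sieve for each of the finitely many derangements. -/
theorem sieve (hC : CancelStmt) (hF : FIStmt) (hD : DensStmt) {n : ℕ} (hn : Odd n) (h5 : 5 ≤ n)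
    {η ε c0 : ℝ} (hη : 0 < η) (hη1 : η ≤ 1) (hε : 0 < ε) (hc0 : 0 < c0) :
    ∃ η' : ℝ, 0 < η' ∧ ∃ A X0 : ℝ, 0 ≤ A ∧ ∀ X : ℝ, X0 ≤ X → ∃ (y : ℝ) (P : Finset ℕ),
      X ^ η' ≤ y ∧ y ≤ X ^ η ∧ (∀ p ∈ P, p.Prime ∧ (p : ℝ) ≤ y) ∧
      ∀ (M : Type) [Field M] [NumberField M] [IsGalois ℚ M] (I : 𝓞 M) (ι : Type) (s : Finset ι)
        (T : ℝ) (d : ι → Dat M n T) (Q : ℕ → Ideal (𝓞 M)) (σ : ℕ → Gl M),
        I ^ 2 = -1 → 2 ≤ T → T ≤ X ^ c0 → (∀ p, p.Prime → Frob (Q p) p (σ p)) →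
        (∀ i ∈ s, ∀ j ∈ s, i ≠ j → (d i).ρ.ker ≠ (d j).ρ.ker) →
        (∀ i ∈ s, ((P.filter fun p => ¬ Der ((d i).ρ (σ p))).card : ℝ) < y ^ (1 - η)) →
        (s.card : ℝ) ≤ A * X ^ ε := by
  choose t ht using fun g (hg : Der g) => grp hn h5 hg
  obtain ⟨δ, hδ, -, hc⟩ := comb t ht
  obtain ⟨η', hη', hP⟩ := primes_one hη
  choose κ hκ A X1 hA hm using fun g : {g : Perm (Fin n) // Der g} =>
    mainT hC hF hD h5 (t g.1 g.2) hδ hη' hε hc0
  obtain ⟨k, k1, k2, k3⟩ := (((Filter.eventually_all.2 fun g => Ioc_mem_nhdsGT (hκ g))).and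
    (Ioc_mem_nhdsGT (half_pos hη))).exists
  obtain ⟨X2, h2⟩ := hP k k2
  obtain ⟨X0, h0⟩ := Filter.eventually_atTop.1
    ((Filter.eventually_all.2 fun g => Filter.eventually_ge_atTop (X1 g)).and
      ((Filter.eventually_ge_atTop X2).and ((Filter.eventually_ge_atTop 1).and
        ((tendsto_rpow_atTop (mul_pos hη' (half_pos hη))).eventually_ge_atTop δ⁻¹))))
  refine ⟨η', hη', ∑ g, A g, X0, sum_nonneg fun g _ => hA g, fun X hX => ?_⟩
  obtain ⟨x1, x2, x3, x4⟩ := h0 X hX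
  obtain ⟨y, P, y1, y2, y3, y4⟩ := h2 X x2
  refine ⟨y, P, y1, y2, fun p hp => ⟨(y3 p hp).1, (y3 p hp).2.1⟩,
    fun M _ _ _ I ι s T d Q σ hI T1 T2 hQ hk hs => ?_⟩
  have y5 : 1 ≤ y := (Real.one_le_rpow x3 hη'.le).trans y1
  have y6 : y ^ (1 - η) ≤ δ * P.card := by
    rw [Real.rpow_mul (by linarith)] at x4
    have h3 := x4.trans (Real.rpow_le_rpow (by positivity) y1 (half_pos hη).le)
    have h4 := Real.rpow_le_rpow_of_exponent_le y5 (show η / 2 + (1 - η) ≤ 1 - k by linarith)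
    rw [Real.rpow_add (by linarith)] at h4
    exact (inv_mul_le_iff₀ hδ).1
      (((mul_le_mul_of_nonneg_right h3 (by positivity)).trans h4).trans y4)
  choose g hg e using fun i : s => hc P _ ((hs i.1 i.2).trans_le y6)
  rw [← card_attach, card_eq_sum_card_fiberwise (f := fun i => (⟨g i, hg i⟩ : {g // Der g}))
    (t := univ) fun _ _ => mem_univ _, Nat.cast_sum, sum_mul]
  refine sum_le_sum fun a _ => hm a M I s _ X T y (fun i => d i) Q σ P hI (x1 a) T1 T2 y1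
    (y2.trans ((Real.rpow_le_rpow_of_exponent_le x3 hη1).trans_eq (Real.rpow_one X))) hQ y3
    ((Real.rpow_le_rpow_of_exponent_le y5 (sub_le_sub_left (k1 a).2 1)).trans y4)
    (fun i _ j _ h => hk i i.2 j j.2 (Subtype.coe_ne_coe.2 h)) fun i hi => ?_
  obtain rfl := (mem_filter.1 hi).2
  exact e i

end Pool.Agent.Lib.MP_830c64_nt.CL
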