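import Pool.Agent.Lib.MP_830c64_nt.CL.ULat
import Pool.Agent.Lib.MP_830c64_nt.CL.UVol

/-! The number of points of a coset of an ideal in a box. -/

namespace Pool.Agent.Lib.MP_830c64_nt.CL

open NumberField Module MeasureTheory
open scoped nonZeroDivisors Classical

/-- Convexity: `(R + ρ) ^ n - R ^ n` and `R ^ n - (max (R - ρ) 0) ^ n` are at most
`n ρ (R + ρ) ^ (n - 1)` (`abs_pow_sub_pow_le`). -/
theorem pow_diff {R ρ t : ℝ} (hR : 0 ≤ R) (hρ : 0 ≤ ρ) (n : ℕ) (h1 : (max (R - ρ) 0) ^ n ≤ t)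
    (h2 : t ≤ (R + ρ) ^ n) : |t - R ^ n| ≤ n * ρ * (R + ρ) ^ (n - 1) := by
  have hn : (0 : ℝ) ≤ n := Nat.cast_nonneg n
  have hm : 0 ≤ max (R - ρ) 0 := le_max_right _ _
  have hm2 : max (R - ρ) 0 ≤ R := max_le (by linarith) hR
  have hm3 : R - ρ ≤ max (R - ρ) 0 := le_max_left _ _
  have a1 := (abs_le.1 (abs_pow_sub_pow_le (R + ρ) R n)).2
  have a2 := (abs_le.1 (abs_pow_sub_pow_le R (max (R - ρ) 0) n)).2
  rw [add_sub_cancel_left, abs_of_nonneg hρ, abs_of_nonneg (add_nonneg hR hρ), abs_of_nonneg hR,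
    max_eq_left (by linarith)] at a1
  rw [abs_of_nonneg hR, abs_of_nonneg hm, max_eq_left hm2,
    abs_of_nonneg (by linarith : 0 ≤ R - max (R - ρ) 0)] at a2
  have a3 : (R - max (R - ρ) 0) * n * R ^ (n - 1) ≤ ρ * n * (R + ρ) ^ (n - 1) := by
    gcongr <;> linarith
  rw [abs_le]
  constructor <;> linarith

/-- `lat_count` for the basis `fractionalIdealLatticeBasis K (Units.mk0 ↑b _)`, the image of `T`
under `mixedEmbedding`, `B = Bx (R ψ)`, `Bp = Bx ((R + ρ) ψ)`, `Bm = Bx (max (R - ρ) 0 * ψ)`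
(empty if `R ≤ ρ`), `D = {z | ∀ w, normAtPlace w z ≤ ρ * ψ w}`. Then `vol_Bx`, `vol_fd`, `vl_mul`,
`pow_diff`. -/
theorem cnt_coset {K : Type} [Field K] [NumberField K] {b : Ideal (𝓞 K)} (hb : b ≠ ⊥)
    (ψ : InfinitePlace K → ℝ) (hψ : ∀ w, 0 < ψ w) {ρ R : ℝ} (hρ : 0 ≤ ρ) (hR : 0 < R)
    (hcov : Cov b ψ ρ) (a : K) (T : Finset K)
    (hT : ∀ x, x ∈ T ↔ (∃ y ∈ b, x - a = (y : K)) ∧ ∀ w : InfinitePlace K, w x < R * ψ w) :
    |(T.card : ℝ) - mK K * vl ψ / Ideal.absNorm b * R ^ finrank ℚ K| ≤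
      mK K * vl ψ / Ideal.absNorm b *
        (finrank ℚ K * ρ * (R + ρ) ^ (finrank ℚ K - 1)) := by
  set I : (FrI K)ˣ := Units.mk0 (b : FrI K) (FractionalIdeal.coeIdeal_ne_zero.2 hb) with hI
  have hmem : ∀ z, z ∈ Submodule.span ℤ
      (Set.range (mixedEmbedding.fractionalIdealLatticeBasis K I)) ↔
      ∃ y ∈ b, mixedEmbedding K (y : K) = z := by
    intro z
    rw [mixedEmbedding.mem_span_fractionalIdealLatticeBasis]
    constructor
    · rintro ⟨x, hx, rfl⟩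
      obtain ⟨y, hy, rfl⟩ := (FractionalIdeal.mem_coeIdeal _).1 hx
      exact ⟨y, hy, rfl⟩
    · rintro ⟨y, hy, rfl⟩
      exact ⟨y, (FractionalIdeal.mem_coeIdeal _).2 ⟨y, hy, rfl⟩, rfl⟩
  have hm : 0 ≤ max (R - ρ) 0 := le_max_right _ _
  obtain ⟨h1, h2⟩ := lat_count volume (mixedEmbedding.fractionalIdealLatticeBasis K I)
    (mixedEmbedding K a) (Bx fun w => max (R - ρ) 0 * ψ w) (Bx fun w => R * ψ w)
    (Bx fun w => (R + ρ) * ψ w) {z | ∀ w, mixedEmbedding.normAtPlace w z ≤ ρ * ψ w}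
    (isOpen_Bx _).measurableSet (isOpen_Bx _).measurableSet
    (fun z => by
      obtain ⟨y, hy, h⟩ := hcov z
      exact ⟨_, (hmem _).2 ⟨y, hy, rfl⟩, h⟩)
    (fun x hx d hd w => by
      have := mixedEmbedding.normAtPlace_add_le w x d
      have := hx w
      have := hd w
      change _ < (R + ρ) * ψ w
      linarith)
    (fun y hy d hd w => by
      have h3 := mixedEmbedding.normAtPlace_add_le w y (-d)
      rw [mixedEmbedding.normAtPlace_neg, ← sub_eq_add_neg] at h3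
      have h4 : _ < max (R - ρ) 0 * ψ w := hy w
      have h5 := hd w
      have h6 := mixedEmbedding.normAtPlace_nonneg w y
      change _ < R * ψ w
      rcases le_total (R - ρ) 0 with h | h
      · rw [max_eq_right h] at h4; linarith
      · rw [max_eq_left h] at h4; linarith)
    (T.map ⟨mixedEmbedding K, mixedEmbedding_injective K⟩)
    (fun x => by
      simp only [Finset.mem_map, Function.Embedding.coeFn_mk, hT, hmem, Bx, Set.mem_ofPred_eq]
      constructor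
      · rintro ⟨u, ⟨⟨y, hy, e⟩, hu⟩, rfl⟩
        exact ⟨⟨y, hy, by rw [← e, map_sub]⟩, fun w => by
          rw [mixedEmbedding.normAtPlace_apply]; exact hu w⟩
      · rintro ⟨⟨y, hy, e⟩, hu⟩
        have e2 : mixedEmbedding K (a + y) = x := by rw [map_add, e]; abel
        refine ⟨a + y, ⟨⟨y, hy, by ring⟩, fun w => ?_⟩, e2⟩
        rw [← mixedEmbedding.normAtPlace_apply, e2]; exact hu w)
  have hV := vl_pos hψ
  have hD : 0 < rD K := one_pos.trans_le (one_le_rD K)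
  have hN : (0 : ℝ) < Ideal.absNorm b := by
    exact_mod_cast Nat.pos_of_ne_zero (mt Ideal.absNorm_eq_zero_iff.1 hb)
  rw [Finset.card_map, vol_fd, vol_Bx _ (fun w => mul_nonneg (by positivity) (hψ w).le), vl_mul,
    ← ENNReal.ofReal_natCast, ← ENNReal.ofReal_mul (Nat.cast_nonneg _), hI, Units.val_mk0, nI_coe,
    ENNReal.ofReal_le_ofReal_iff (by positivity)] at h1 h2
  set c : ℝ := mK K * vl ψ / Ideal.absNorm b with hc
  have hc0 : 0 < c := by have := mK_pos K; positivity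
  set F : ℝ := Ideal.absNorm b * (2⁻¹ ^ InfinitePlace.nrComplexPlaces K * rD K) with hF
  have hF0 : 0 < F := by positivity
  have e : ∀ s : ℝ, 2 ^ InfinitePlace.nrRealPlaces K * Real.pi ^ InfinitePlace.nrComplexPlaces K *
      (s * vl ψ) = s * c * F := by
    intro s
    rw [hc, hF, mK, mul_pow, inv_pow]
    field_simp
  rw [e] at h1 h2
  have h3 := pow_diff (t := T.card / c) hR.le hρ (finrank ℚ K)
    ((le_div_iff₀ hc0).2 (le_of_mul_le_mul_right h1 hF0))
    ((div_le_iff₀ hc0).2 (le_of_mul_le_mul_right h2 hF0))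
  rw [show (T.card : ℝ) - c * R ^ finrank ℚ K = c * (T.card / c - R ^ finrank ℚ K) by field_simp,
    abs_mul, abs_of_pos hc0]
  exact mul_le_mul_of_nonneg_left h3 hc0.le

end Pool.Agent.Lib.MP_830c64_nt.CL
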