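import Pool.Agent.Lib.MP_830c64_nt.CL.UVol
import Pool.Agent.Lib.MP_830c64_nt.GoSpan

/-! Covering radius of an ideal, and the size of the discriminant. -/

namespace Pool.Agent.Lib.MP_830c64_nt.CL

open NumberField Module
open scoped nonZeroDivisors Classical

variable {K : Type} [Field K] [NumberField K]

/-- `exists_linearIndependent`, as in `gospan_exists`. -/
theorem Small.basis {Y : ℝ} (h : Small K Y) :
    ∃ e : Module.Free.ChooseBasisIndex ℤ (𝓞 K) → 𝓞 K,
      (∀ i, ∀ φ : K →+* ℂ, ‖φ (e i : K)‖ ≤ Y) ∧ (RingOfIntegers.basis K).det e ≠ 0 ∧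
      Submodule.span ℚ (Set.range fun i => (e i : K)) = ⊤ := by
  obtain ⟨e, he, h0⟩ := gospan_exists K (box K Y) (by
    rw [← h]
    congr 1
    ext x
    exact ⟨by rintro ⟨y, hy, rfl⟩; exact ⟨y.2, hy⟩, fun hx => ⟨⟨x, hx.1⟩, hx.2, rfl⟩⟩)
  refine ⟨e, he, h0, LinearIndependent.span_eq_top_of_card_eq_finrank' ?_
    (finrank_eq_card_basis (integralBasis K)).symm⟩
  by_contra hl
  have h1 := gospan_discr K e
  rw [Algebra.discr_zero_of_not_linearIndependent ℚ hl] at h1
  exact mul_ne_zero (pow_ne_zero 2 (by exact_mod_cast h0)) (by exact_mod_cast discr_ne_zero K)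
    h1.symm

/-- `gospan_bound`, `Nat.factorial_le_pow`. -/
theorem Small.rD_le {Y : ℝ} (h : Small K Y) : rD K ≤ (finrank ℚ K * Y) ^ finrank ℚ K := by
  obtain ⟨e, he, h0, -⟩ := h.basis
  have h1 := gospan_bound K Y e he
  have h2 : (1 : ℝ) ≤ (((RingOfIntegers.basis K).det e).natAbs : ℕ) := by
    exact_mod_cast Int.natAbs_pos.2 h0
  obtain ⟨φ⟩ : Nonempty (K →+* ℂ) := inferInstance
  obtain ⟨i⟩ := (integralBasis K).index_nonempty
  have hY : 0 ≤ Y := (norm_nonneg _).trans (he i φ)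
  rw [mul_pow]
  refine ((le_mul_of_one_le_left (Real.sqrt_nonneg _) h2).trans h1).trans
    (mul_le_mul_of_nonneg_right ?_ (pow_nonneg hY _))
  exact_mod_cast Nat.factorial_le_pow _

/-- The integral basis is bounded. -/
theorem exists_small (K : Type) [Field K] [NumberField K] (Y₀ : ℝ) :
    ∃ Y : ℝ, Y₀ ≤ Y ∧ Small K Y := by
  refine ⟨max Y₀ (∑ i, ∑ φ : K →+* ℂ, ‖φ (integralBasis K i)‖), le_max_left _ _, ?_⟩
  rw [Small, eq_top_iff, ← (integralBasis K).span_eq]
  refine Submodule.span_mono ?_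
  rintro _ ⟨i, rfl⟩
  refine ⟨by rw [integralBasis_apply]; exact (RingOfIntegers.basis K i).2,
    fun φ => le_max_of_le_right (le_trans ?_ (Finset.single_le_sum
      (f := fun i => ∑ φ : K →+* ℂ, ‖φ (integralBasis K i)‖)
      (fun i _ => Finset.sum_nonneg fun _ _ => norm_nonneg _) (Finset.mem_univ i)))⟩
  exact Finset.single_le_sum (f := fun φ : K →+* ℂ => ‖φ (integralBasis K i)‖)
    (fun _ _ => norm_nonneg _) (Finset.mem_univ φ)

/-- By `mink` there is `x₀ ≠ 0` in `c` with `w x₀ < 2 * rD K * ψ w` (`vl_mul`, `one_le_rD`). The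
elements `q x₀ e i` span `K` over `ℚ`, so their images span the mixed space over `ℝ` (each
`latticeBasis K i` is in the span). Write `z = ∑ c i • (q x₀ e i)`
(`Submodule.mem_span_range_iff_exists_fun`), `y = ∑ ⌊c i⌋ • (q x₀ e i)`; `normAtPlace_add_le`,
`normAtPlace_smul`. -/
theorem Small.cov {Y : ℝ} (h : Small K Y) {c : Ideal (𝓞 K)} (hc : c ≠ ⊥)
    (ψ : InfinitePlace K → ℝ) (hψ : ∀ w, 0 < ψ w) (hv : vl ψ = Ideal.absNorm c) {q : ℕ}
    (hq : q ≠ 0) : Cov (Ideal.span {(q : 𝓞 K)} * c) ψ (2 * finrank ℚ K * q * Y * rD K) := by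
  obtain ⟨e, he, -, hsp⟩ := h.basis
  have hr := one_le_rD K
  have hN : (0 : ℝ) < Ideal.absNorm c := by
    exact_mod_cast Nat.pos_of_ne_zero (fun e => hc (Ideal.absNorm_eq_zero_iff.1 e))
  obtain ⟨x, hx, hx0⟩ := mink (I := (c : FrI K)) (FractionalIdeal.coeIdeal_ne_zero.2 hc)
    (fun w => 2 * rD K * ψ w) (fun w => mul_pos (by linarith) (hψ w)) (by
      rw [vl_mul, hv, nI_coe, mul_comm]
      exact mul_lt_mul_of_pos_right (lt_of_lt_of_le (by linarith)
        (le_self_pow₀ (by linarith : 1 ≤ 2 * rD K) finrank_pos.ne')) hN)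
  obtain ⟨hx1, hx2⟩ := mem_bx.1 hx
  obtain ⟨x, hxc, rfl⟩ := (FractionalIdeal.mem_coeIdeal _).1 hx1
  have hqx : (q : K) * x ≠ 0 := mul_ne_zero (by exact_mod_cast hq) hx0
  let v := fun i => mixedEmbedding K ((q * x * e i : 𝓞 K) : K)
  have h1 : ∀ y : K, mixedEmbedding K (q * x * y) ∈ Submodule.span ℝ (Set.range v) := by
    intro y
    have hy : y ∈ Submodule.span ℚ (Set.range fun i => (e i : K)) := hsp ▸ Submodule.mem_top
    induction hy using Submodule.span_induction with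
    | mem _ hy => obtain ⟨i, rfl⟩ := hy; exact Submodule.subset_span ⟨i, by simp [v]⟩
    | zero => simp
    | add a b _ _ ha hb => rw [mul_add, map_add]; exact add_mem ha hb
    | smul r a _ ha =>
      rw [mul_smul_comm, map_rat_smul, ← Rat.cast_smul_eq_qsmul ℝ]
      exact Submodule.smul_mem _ _ ha
  intro z
  have hz : z ∈ Submodule.span ℝ (Set.range v) := by
    have : z ∈ Submodule.span ℝ (Set.range (mixedEmbedding.latticeBasis K)) := by
      rw [Basis.span_eq]; trivial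
    refine Submodule.span_le.2 ?_ this
    rintro _ ⟨i, rfl⟩
    have := h1 (((q : K) * x)⁻¹ * integralBasis K i)
    rwa [mul_inv_cancel_left₀ hqx, ← mixedEmbedding.latticeBasis_apply] at this
  obtain ⟨t, rfl⟩ := (Submodule.mem_span_range_iff_exists_fun ℝ).1 hz
  refine ⟨∑ i, ⌊t i⌋ • (q * x * e i), Submodule.sum_mem _ fun i _ => zsmul_mem
    (Ideal.mul_mem_right _ _ (Ideal.mul_mem_mul (Ideal.mem_span_singleton_self _) hxc)) _,
    fun w => ?_⟩
  have h2 : ∑ i, t i • v i - mixedEmbedding K ((∑ i, ⌊t i⌋ • (q * x * e i) : 𝓞 K) : K) =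
      ∑ i, Int.fract (t i) • v i := by
    change _ - mixedEmbedding K (algebraMap (𝓞 K) K _) = _
    rw [map_sum, map_sum, ← Finset.sum_sub_distrib]
    refine Finset.sum_congr rfl fun i _ => ?_
    rw [map_zsmul, map_zsmul, Int.fract, sub_smul, Int.cast_smul_eq_zsmul]
  rw [h2]
  refine (Finset.le_sum_of_subadditive (mixedEmbedding.normAtPlace w) (map_zero _).le
    (mixedEmbedding.normAtPlace_add_le w) _ _).trans ?_
  refine (Finset.sum_le_card_nsmul _ _ (q * (2 * rD K * ψ w) * Y) fun i _ => ?_).trans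
    (le_of_eq ?_)
  · rw [mixedEmbedding.normAtPlace_smul, mixedEmbedding.normAtPlace_apply,
      abs_of_nonneg (Int.fract_nonneg _)]
    refine (mul_le_of_le_one_left (apply_nonneg _ _) (Int.fract_lt_one _).le).trans ?_
    have h3 : w (e i : K) ≤ Y := by rw [← w.norm_embedding_eq]; exact he i _
    have h4 : w (q : K) = q := by rw [← w.norm_embedding_eq]; simp
    have h5 := hψ w
    push_cast
    rw [map_mul, map_mul, h4]
    exact mul_le_mul (mul_le_mul_of_nonneg_left (hx2 w).le (Nat.cast_nonneg _)) h3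
      (apply_nonneg _ _) (by positivity)
  · rw [nsmul_eq_mul, Finset.card_univ, ← finrank_eq_card_basis (integralBasis K)]
    ring

end Pool.Agent.Lib.MP_830c64_nt.CL
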