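import Pool.Agent.Lib.MP_830c64_nt.CL.CCnt

/-! Sums of periodic functions over boxes. -/

namespace Pool.Agent.Lib.MP_830c64_nt.CL

open NumberField Module
open scoped nonZeroDivisors Classical

/-- Each class `α` modulo `q` has a representative `a α ∈ c`; for `x ∈ c`, `x ≡ a α` modulo `q` iff
`x - a α ∈ span {q} * c` (`Ideal.mul_eq_inf_of_isCoprime`). Split the sum by classes
(`Finset.sum_fiberwise`); on the class `α` the function is the constant `g α.out`; `cnt_coset`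
counts the points, `absNorm (span {q} * c) = q ^ n * absNorm c` (`Ideal.absNorm_span_natCast`), and
there are `q ^ n` classes. -/
theorem per_sum {K : Type} [Field K] [NumberField K] {q : ℕ} (hq : q ≠ 0) {c : Ideal (𝓞 K)}
    (hc : c ≠ ⊥) (hcq : IsCoprime c (Ideal.span {(q : 𝓞 K)})) (ψ : InfinitePlace K → ℝ)
    (hψ : ∀ w, 0 < ψ w) (hv : vl ψ = Ideal.absNorm c) {ρ R : ℝ} (hρ : 0 ≤ ρ) (hR : 0 < R)
    (hcov : Cov (Ideal.span {(q : 𝓞 K)} * c) ψ ρ) (g : 𝓞 K → ℂ) (hg : ∀ x, ‖g x‖ ≤ 1)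
    (hper : ∀ x y : 𝓞 K, (q : 𝓞 K) ∣ x - y → g x = g y) (G : K → ℂ)
    (hG : ∀ x : 𝓞 K, G x = g x) :
    ‖∑ x ∈ bx (c : FrI K) (fun w => R * ψ w), G x -
        mean q g * ((mK K * R ^ finrank ℚ K : ℝ) : ℂ)‖ ≤
      mK K * (finrank ℚ K * ρ * (R + ρ) ^ (finrank ℚ K - 1)) := by
  have hq0 : Ideal.span {(q : 𝓞 K)} ≠ ⊥ := by simpa using hq
  have hN : Ideal.absNorm (Ideal.span {(q : 𝓞 K)}) = q ^ finrank ℚ K := by
    rw [Ideal.absNorm_span_natCast, RingOfIntegers.rank]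
  have hcard : Nat.card (𝓞 K ⧸ Ideal.span {(q : 𝓞 K)}) = q ^ finrank ℚ K := by
    rw [← hN, Ideal.absNorm_apply, Submodule.cardQuot_apply]
  have : Finite (𝓞 K ⧸ Ideal.span {(q : 𝓞 K)}) :=
    Nat.finite_of_card_ne_zero (hcard ▸ pow_ne_zero _ hq)
  have := Fintype.ofFinite (𝓞 K ⧸ Ideal.span {(q : 𝓞 K)})
  obtain ⟨u, hu, v, hv', huv⟩ := Ideal.isCoprime_iff_exists.1 hcq
  have ha : ∀ α : 𝓞 K ⧸ Ideal.span {(q : 𝓞 K)}, Ideal.Quotient.mk _ (α.out * u) = α := fun α => by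
    rw [eq_sub_of_add_eq huv, map_mul, map_sub, Ideal.Quotient.eq_zero_iff_mem.2 hv', sub_zero,
      map_one, mul_one, Ideal.Quotient.mk_out]
  let σ : K → 𝓞 K := Function.invFun (algebraMap (𝓞 K) K)
  have hσ : ∀ y : 𝓞 K, σ y = y := Function.leftInverse_invFun (FaithfulSMul.algebraMap_injective _ _)
  set B := bx (c : FrI K) fun w => R * ψ w
  have hq' : (0 : ℝ) < (q : ℝ) ^ finrank ℚ K := pow_pos (Nat.cast_pos.2 (Nat.pos_of_ne_zero hq)) _
  have hc' : (Ideal.absNorm c : ℝ) ≠ 0 := Nat.cast_ne_zero.2 (mt Ideal.absNorm_eq_zero_iff.1 hc)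
  have hcnt : ∀ α : 𝓞 K ⧸ Ideal.span {(q : 𝓞 K)},
      |((B.filter fun x => Ideal.Quotient.mk _ (σ x) = α).card : ℝ) -
        mK K / q ^ finrank ℚ K * R ^ finrank ℚ K| ≤ mK K / q ^ finrank ℚ K *
          (finrank ℚ K * ρ * (R + ρ) ^ (finrank ℚ K - 1)) := fun α => by
    have := cnt_coset (mul_ne_zero hq0 hc) ψ hψ hρ hR hcov ((α.out * u : 𝓞 K) : K)
      (B.filter fun x => Ideal.Quotient.mk _ (σ x) = α) fun x => by
        rw [Finset.mem_filter, mem_bx, FractionalIdeal.mem_coeIdeal,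
          Ideal.mul_eq_inf_of_isCoprime hcq.symm]
        constructor
        · rintro ⟨⟨⟨y, hy, rfl⟩, h1⟩, h2⟩
          exact ⟨⟨y - α.out * u, ⟨Ideal.Quotient.eq.1 (by rw [ha, ← h2, hσ]),
            c.sub_mem hy (c.mul_mem_left _ hu)⟩, by simp⟩, h1⟩
        · rintro ⟨⟨y, hy, h1⟩, h2⟩
          have h3 : x = ((y + α.out * u : 𝓞 K) : K) := by
            rw [eq_add_of_sub_eq h1]
            simp
          refine ⟨⟨⟨_, c.add_mem hy.2 (c.mul_mem_left _ hu), h3.symm⟩, h2⟩, ?_⟩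
          rw [h3, hσ, map_add, Ideal.Quotient.eq_zero_iff_mem.2 hy.1, zero_add, ha]
    rwa [hv, map_mul, hN, Nat.cast_mul, Nat.cast_pow, mul_div_mul_right _ _ hc'] at this
  have h1 : ∑ x ∈ B, G x - mean q g * ((mK K * R ^ finrank ℚ K : ℝ) : ℂ) =
      ∑ α : 𝓞 K ⧸ Ideal.span {(q : 𝓞 K)}, g α.out *
        ((((B.filter fun x => Ideal.Quotient.mk _ (σ x) = α).card : ℝ) -
          mK K / q ^ finrank ℚ K * R ^ finrank ℚ K : ℝ) : ℂ) := by
    rw [mean, finsum_eq_sum_of_fintype, Finset.sum_div, Finset.sum_mul,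
      ← Finset.sum_fiberwise B (fun x => Ideal.Quotient.mk (Ideal.span {(q : 𝓞 K)}) (σ x)) G,
      ← Finset.sum_sub_distrib]
    refine Finset.sum_congr rfl fun α _ => ?_
    rw [Finset.sum_congr rfl (g := fun _ => g α.out) fun x hx => ?_, Finset.sum_const,
      nsmul_eq_mul]
    · push_cast
      ring
    · obtain ⟨h2, h3⟩ := Finset.mem_filter.1 hx
      obtain ⟨y, -, rfl⟩ := (FractionalIdeal.mem_coeIdeal _).1 (mem_bx.1 h2).1
      refine (hG y).trans (hper _ _ (Ideal.mem_span_singleton.1 (Ideal.Quotient.eq.1 ?_)))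
      rw [Ideal.Quotient.mk_out, ← h3, hσ]
  rw [h1]
  refine (norm_sum_le _ _).trans ((Finset.sum_le_sum fun α _ => ?_).trans
    (b := ∑ _α : 𝓞 K ⧸ Ideal.span {(q : 𝓞 K)}, mK K / q ^ finrank ℚ K *
      (finrank ℚ K * ρ * (R + ρ) ^ (finrank ℚ K - 1))) (le_of_eq ?_))
  · rw [norm_mul, Complex.norm_real, Real.norm_eq_abs]
    exact (mul_le_of_le_one_left (abs_nonneg _) (hg _)).trans (hcnt α)
  · rw [Finset.sum_const, Finset.card_univ, ← Nat.card_eq_fintype_card, hcard, nsmul_eq_mul,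
      Nat.cast_pow, ← mul_assoc, mul_div_cancel₀ _ hq'.ne']

end Pool.Agent.Lib.MP_830c64_nt.CL
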