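import Pool.Agent.Lib.MP_830c64_nt.CL.UDefs

/-! Raising the exponent of the weight. -/

namespace Pool.Agent.Lib.MP_830c64_nt.CL

open MeasureTheory

/-- `∫ t in 1..x, wt r t m / t = wt (r + 1) x m / (r + 1)`: for `m < x` the integrand vanishes on
`[1, m]` and has the primitive `log (t / m) ^ (r + 1) / (r + 1)` on `[m, x]`. -/
theorem wt_integral (r : ℕ) {x m : ℝ} (hm : 1 ≤ m) (hx : 1 ≤ x) :
    IntervalIntegrable (fun t => wt r t m / t) volume 1 x ∧
      ∫ t in (1 : ℝ)..x, wt r t m / t = wt (r + 1) x m / (r + 1) := by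
  have lo : ∀ y, 1 ≤ y → y ≤ m → IntervalIntegrable (fun t => wt r t m / t) volume 1 y ∧
      ∫ t in (1 : ℝ)..y, wt r t m / t = 0 := fun y h1 h2 => by
    have : Set.EqOn (fun _ : ℝ => (0 : ℝ)) (fun t => wt r t m / t) (Set.uIcc 1 y) := fun t ht => by
      rw [Set.uIcc_of_le h1] at ht
      simp [wt, (ht.2.trans h2).not_gt]
    exact ⟨IntervalIntegrable.congr (this.mono Set.uIoc_subset_uIcc) intervalIntegrable_const,
      by rw [← intervalIntegral.integral_congr this, intervalIntegral.integral_zero]⟩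
  rcases le_or_gt x m with h | h
  · simpa [wt, h.not_gt] using lo x hx h
  have h0 : ∀ t ∈ Set.uIcc m x, t ≠ 0 := fun t ht => by
    rw [Set.uIcc_of_le h.le] at ht
    linarith [ht.1]
  have hm0 : m ≠ 0 := by linarith
  have he : Set.EqOn (fun t => Real.log (t / m) ^ r / t) (fun t => wt r t m / t) (Set.uIoc m x) :=
    fun t ht => by
    rw [Set.uIoc_of_le h.le] at ht
    simp [wt, ht.1]
  have hi : IntervalIntegrable (fun t => Real.log (t / m) ^ r / t) volume m x :=
    ContinuousOn.intervalIntegrable ((((continuousOn_id.div_const m).log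
      fun t ht => div_ne_zero (h0 t ht) hm0).pow r).div continuousOn_id h0)
  refine ⟨(lo m hm le_rfl).1.trans (hi.congr he), ?_⟩
  rw [← intervalIntegral.integral_add_adjacent_intervals (lo m hm le_rfl).1 (hi.congr he),
    (lo m hm le_rfl).2, zero_add, ← intervalIntegral.integral_congr_ae (ae_of_all _ he),
    intervalIntegral.integral_eq_sub_of_hasDerivAt
      (f := fun t => Real.log (t / m) ^ (r + 1) / (r + 1)) (fun t ht => ?_) hi]
  · simp [wt, h, hm0]
  · refine (((((hasDerivAt_id t).div_const m).log (div_ne_zero (h0 t ht) hm0)).pow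
      (r + 1)).div_const _).congr_deriv ?_
    have := h0 t ht
    simp only [id, Nat.add_sub_cancel]
    push_cast
    field_simp

/-- `intervalIntegral.integral_finset_sum`, `intervalIntegral.norm_integral_le_of_norm_le` with the
majorant `B * t ^ (-δ)`, `integral_rpow`; `1 / (1 - δ) ≤ 2`. -/
theorem raise_one {ι : Type} (s : Finset ι) (c : ι → ℂ) (m : ι → ℝ) (hm : ∀ i ∈ s, 1 ≤ m i)
    (r : ℕ) {B δ x : ℝ} (hB : 0 ≤ B) (hδ : δ ≤ 1 / 2) (hx : 1 ≤ x)
    (h : ∀ t, 1 ≤ t → t ≤ x → ‖∑ i ∈ s, c i * (wt r t (m i) : ℝ)‖ ≤ B * t ^ (1 - δ)) :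
    ‖∑ i ∈ s, c i * (wt (r + 1) x (m i) : ℝ)‖ ≤ 2 * (r + 1) * B * x ^ (1 - δ) := by
  have h1 : ∑ i ∈ s, c i * (wt (r + 1) x (m i) : ℝ) = ((r + 1 : ℝ) : ℂ) *
      ∫ t in (1 : ℝ)..x, ∑ i ∈ s, c i * (wt r t (m i) / t : ℝ) := by
    rw [intervalIntegral.integral_finsetSum fun i hi =>
      IntervalIntegrable.const_mul ⟨(wt_integral r (hm i hi) hx).1.1.ofReal,
        (wt_integral r (hm i hi) hx).1.2.ofReal⟩ _, Finset.mul_sum]
    refine Finset.sum_congr rfl fun i hi => ?_
    have : (r : ℂ) + 1 ≠ 0 := Nat.cast_add_one_ne_zero r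
    rw [intervalIntegral.integral_const_mul, intervalIntegral.integral_ofReal,
      (wt_integral r (hm i hi) hx).2]
    push_cast
    field_simp
  have h2 : ‖∫ t in (1 : ℝ)..x, ∑ i ∈ s, c i * (wt r t (m i) / t : ℝ)‖ ≤
      ∫ t in (1 : ℝ)..x, B * t ^ (-δ) := by
    refine intervalIntegral.norm_integral_le_of_norm_le hx (ae_of_all _ fun t ht => ?_)
      ((intervalIntegral.intervalIntegrable_rpow' (by linarith)).const_mul _)
    have h0 : 0 < t := by linarith [ht.1]
    simp only [Complex.ofReal_div, ← mul_div_assoc, ← Finset.sum_div]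
    rw [norm_div, Complex.norm_real, Real.norm_of_nonneg h0.le, div_le_iff₀ h0, mul_assoc,
      ← Real.rpow_add_one h0.ne', neg_add_eq_sub]
    exact h t ht.1.le ht.2
  rw [intervalIntegral.integral_const_mul, integral_rpow (Or.inl (by linarith)), Real.one_rpow,
    neg_add_eq_sub] at h2
  have h3 : (x ^ (1 - δ) - 1) / (1 - δ) ≤ 2 * x ^ (1 - δ) := by
    have := Real.rpow_nonneg (zero_le_one.trans hx) (1 - δ)
    rw [div_le_iff₀ (by linarith)]
    nlinarith
  rw [h1, norm_mul, Complex.norm_real, Real.norm_of_nonneg (by positivity)]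
  calc _ ≤ (r + 1) * (B * (2 * x ^ (1 - δ))) :=
        mul_le_mul_of_nonneg_left (h2.trans (mul_le_mul_of_nonneg_left h3 hB)) (by positivity)
    _ = _ := by ring

/-- Induction on `N` from `r` (`Nat.le_induction`), with the statement for all `t ∈ [1, x]`. -/
theorem raise {ι : Type} (s : Finset ι) (c : ι → ℂ) (m : ι → ℝ) (hm : ∀ i ∈ s, 1 ≤ m i)
    {r N : ℕ} (hr : r ≤ N) {B δ x : ℝ} (hB : 0 ≤ B) (hδ : δ ≤ 1 / 2) (hx : 1 ≤ x)
    (h : ∀ t, 1 ≤ t → t ≤ x → ‖∑ i ∈ s, c i * (wt r t (m i) : ℝ)‖ ≤ B * t ^ (1 - δ)) :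
    ‖∑ i ∈ s, c i * (wt N x (m i) : ℝ)‖ ≤ (2 * (N + 1)) ^ N * B * x ^ (1 - δ) := by
  induction N, hr using Nat.le_induction generalizing x with
  | base =>
    refine (h x hx le_rfl).trans (mul_le_mul_of_nonneg_right (le_mul_of_one_le_left hB
      (one_le_pow₀ ?_)) (by positivity))
    linarith [(Nat.cast_nonneg r : (0 : ℝ) ≤ r)]
  | succ N _ ih =>
    refine (raise_one s c m hm N (by positivity) hδ hx fun t h1 h2 =>
      ih h1 fun u h3 h4 => h u h3 (h4.trans h2)).trans ?_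
    rw [← mul_assoc, ← pow_succ']
    push_cast
    gcongr
    linarith

end Pool.Agent.Lib.MP_830c64_nt.CL
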