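import Pool.Agent.Lib.MP_830c64_nt.CL.UCls

/-! Basic properties of ray class characters. -/

namespace Pool.Agent.Lib.MP_830c64_nt.CL

open NumberField Module
open scoped nonZeroDivisors Classical

variable {K : Type} [Field K] [NumberField K] {f : ℕ} {W : Ideal (𝓞 K) → ℂ}

/-- `f` is not a unit (its norm is `f ^ n`). -/
theorem span_ne_top (hf : 2 ≤ f) : Ideal.span {(f : 𝓞 K)} ≠ ⊤ := by
  intro h
  rw [Ideal.span_singleton_eq_top] at h
  have h1 : IsUnit (algebraMap ℤ (𝓞 K) (f : ℤ)) := by simpa using h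
  have h2 := Int.isUnit_iff.1 (isUnit_of_map_unit _ _ h1)
  omega

theorem Ray.bot (h : Ray K f W) (hf : 2 ≤ f) : W ⊥ = 0 := by
  refine h.zero _ fun hc => span_ne_top (K := K) hf ?_
  rwa [Ideal.isCoprime_iff_sup_eq, bot_sup_eq] at hc

theorem uray_ne_zero (hf : 2 ≤ f) {a : 𝓞 K} (ha : a - 1 ∈ Ideal.span {(f : 𝓞 K)}) : a ≠ 0 := by
  rintro rfl
  rw [zero_sub, neg_mem_iff] at ha
  exact span_ne_top hf ((Ideal.eq_top_iff_one _).2 ha)

theorem uray_ne_bot (hf : 2 ≤ f) {I : Ideal (𝓞 K)} (hI : IsCoprime I (Ideal.span {(f : 𝓞 K)})) :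
    I ≠ ⊥ := by
  rintro rfl
  rw [Ideal.isCoprime_iff_sup_eq, bot_sup_eq] at hI
  exact span_ne_top hf hI

/-- There is `a ∈ I` with `a - 1 ∈ span {f}`; `span {a} = I * J`. -/
theorem Ray.norm_one (h : Ray K f W) (hf : 2 ≤ f) {I : Ideal (𝓞 K)}
    (hI : IsCoprime I (Ideal.span {(f : 𝓞 K)})) : ‖W I‖ = 1 := by
  obtain ⟨a, ha, j, hj, e⟩ := Ideal.isCoprime_iff_exists.1 hI
  have h1 : a - 1 ∈ Ideal.span {(f : 𝓞 K)} := by
    rw [← e, sub_add_cancel_left]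
    exact neg_mem hj
  obtain ⟨J, hJ⟩ := Ideal.dvd_iff_le.2 ((Ideal.span_singleton_le_iff_mem _).2 ha)
  have h2 := congrArg norm (h.ray a h1 (uray_ne_zero hf h1))
  rw [hJ, h.mul, norm_mul, NormOneClass.norm_one] at h2
  refine le_antisymm (h.norm_le I) ?_
  rw [← h2]
  exact mul_le_of_le_one_right (norm_nonneg _) (h.norm_le J)

/-- If `a` is prime to `f` pick `c` with `a * c ≡ 1`; otherwise both sides vanish. -/
theorem Ray.congr (h : Ray K f W) (hf : 2 ≤ f) {a b : 𝓞 K} (hab : (f : 𝓞 K) ∣ a - b) :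
    W (Ideal.span {a}) = W (Ideal.span {b}) := by
  obtain ⟨k, hk⟩ := hab
  by_cases hc : IsCoprime a (f : 𝓞 K)
  · obtain ⟨u, v, e⟩ := hc
    have h1 : u * a - 1 ∈ Ideal.span {(f : 𝓞 K)} :=
      Ideal.mem_span_singleton.2 ⟨-v, by linear_combination e⟩
    have h2 : u * b - 1 ∈ Ideal.span {(f : 𝓞 K)} :=
      Ideal.mem_span_singleton.2 ⟨-v - u * k, by linear_combination e - u * hk⟩
    have h3 := h.ray _ h1 (uray_ne_zero hf h1)
    have h4 := h.ray _ h2 (uray_ne_zero hf h2)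
    rw [← Ideal.span_singleton_mul_span_singleton, h.mul] at h3 h4
    exact mul_left_cancel₀ (left_ne_zero_of_mul_eq_one h3) (h3.trans h4.symm)
  · rw [h.zero _ fun h1 => hc ((Ideal.isCoprime_span_singleton_iff _ _).1 h1), h.zero _ fun h1 => ?_]
    obtain ⟨u, v, e⟩ := (Ideal.isCoprime_span_singleton_iff _ _).1 h1
    exact hc ⟨u, v - u * k, by linear_combination e + u * hk⟩

theorem Ray.pow (h : Ray K f W) {a : ℕ} (ha : a ≠ 0) : Ray K f fun I => W I ^ a :=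
  ⟨fun I J => by rw [h.mul, mul_pow], by rw [h.one, one_pow],
    fun I => by rw [norm_pow]; exact pow_le_one₀ (norm_nonneg _) (h.norm_le I),
    fun I hI => by rw [h.zero I hI, zero_pow ha], fun x h1 h2 => by rw [h.ray x h1 h2, one_pow]⟩

/-- Multiplication by `a` permutes the quotient by `span {f}`. -/
theorem Ray.mean_mul (h : Ray K f W) (hf : 2 ≤ f) {a : 𝓞 K}
    (ha : IsCoprime (Ideal.span {a}) (Ideal.span {(f : 𝓞 K)})) :
    mean f (fun x => W (Ideal.span {x})) =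
      W (Ideal.span {a}) * mean f (fun x => W (Ideal.span {x})) := by
  obtain ⟨u, v, e⟩ := (Ideal.isCoprime_span_singleton_iff _ _).1 ha
  have hu : IsUnit (Ideal.Quotient.mk (Ideal.span {(f : 𝓞 K)}) a) := by
    refine IsUnit.of_mul_eq_one (Ideal.Quotient.mk _ u) ?_
    rw [← map_mul, ← map_one (Ideal.Quotient.mk _), Ideal.Quotient.eq]
    exact Ideal.mem_span_singleton.2 ⟨-v, by linear_combination e⟩
  unfold mean
  rw [← mul_div_assoc, mul_finsum, ← finsum_comp_equiv hu.unit.mulLeft]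
  congr 1
  refine finsum_congr fun q => ?_
  rw [← h.mul, Ideal.span_singleton_mul_span_singleton]
  refine h.congr hf (Ideal.mem_span_singleton.1 (Ideal.Quotient.eq.1 ?_))
  rw [map_mul, Ideal.Quotient.mk_out, Ideal.Quotient.mk_out]
  rfl

/-- If the mean is not zero then `W` is one on principal ideals prime to `f` (`Ray.mean_mul`), so
`W b` depends only on the class of `b` (multiply by `c` of the inverse class, `cls_eq_inv_iff`).
For `I` with `W I ≠ 0, 1` the shift `γ ↦ γ * (cls I)⁻¹` multiplies the sum by `(W I)⁻¹`. -/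
theorem Ray.main_zero (h : Ray K f W) (hf : 2 ≤ f) (hW : ∃ I, W I ≠ 0 ∧ W I ≠ 1)
    (c : ClassGroup (𝓞 K) → Ideal (𝓞 K))
    (hc : ∀ γ, IsCoprime (c γ) (Ideal.span {(f : 𝓞 K)}) ∧ cls (c γ) = γ⁻¹) :
    mean f (fun x => W (Ideal.span {x})) * ∑ γ, (W (c γ))⁻¹ = 0 := by
  by_cases h0 : mean f (fun x => W (Ideal.span {x})) = 0
  · rw [h0, zero_mul]
  have h1 : ∀ b γ, IsCoprime b (Ideal.span {(f : 𝓞 K)}) → cls b = γ⁻¹ → W b * W (c γ⁻¹) = 1 := by
    intro b γ hb e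
    obtain ⟨x, -, hx⟩ := (cls_eq_inv_iff (uray_ne_bot hf hb) (uray_ne_bot hf (hc γ⁻¹).1)).1
      (by rw [e, (hc γ⁻¹).2, inv_inv])
    have h2 := h.mean_mul hf (hx ▸ hb.mul_left (hc γ⁻¹).1)
    rw [← h.mul, hx]
    exact mul_right_cancel₀ h0 (h2.symm.trans (one_mul _).symm)
  obtain ⟨I, hI0, hI1⟩ := hW
  have hI : IsCoprime I (Ideal.span {(f : 𝓞 K)}) := by
    by_contra hn
    exact hI0 (h.zero I hn)
  have h2 : ∀ γ, W (c (γ * (cls I)⁻¹)) = W I * W (c γ) := by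
    intro γ
    have h3 := h1 _ _ (hc (γ * (cls I)⁻¹)).1 (hc _).2
    have h4 := h1 (I * c γ) (γ * (cls I)⁻¹) (hI.mul_left (hc γ).1) (by
      rw [cls_mul (uray_ne_bot hf hI) (uray_ne_bot hf (hc γ).1), (hc γ).2, mul_inv_rev, inv_inv])
    rw [← h.mul]
    exact mul_right_cancel₀ (right_ne_zero_of_mul_eq_one h3) (h3.trans h4.symm)
  have h3 : ∑ γ, (W (c γ))⁻¹ = (W I)⁻¹ * ∑ γ, (W (c γ))⁻¹ := by
    rw [Finset.mul_sum, ← Equiv.sum_comp (Equiv.mulRight (cls I)⁻¹)]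
    exact Finset.sum_congr rfl fun γ _ => by rw [Equiv.coe_mulRight, h2, mul_inv]
  have h4 : (1 - (W I)⁻¹) * ∑ γ, (W (c γ))⁻¹ = 0 := by rw [sub_mul, one_mul, ← h3, sub_self]
  rw [(mul_eq_zero.1 h4).resolve_left fun e => hI1 (inv_eq_one.1 (sub_eq_zero.1 e).symm), mul_zero]

end Pool.Agent.Lib.MP_830c64_nt.CL
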