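import Pool.Agent.Lib.MP_830c64_nt.CL.CPer
import Pool.Agent.Lib.MP_830c64_nt.CL.CCov
import Pool.Agent.Lib.MP_830c64_nt.CL.URay
import Pool.Agent.Lib.MP_830c64_nt.CL.UHR

/-! Cancellation with the natural weight. -/

namespace Pool.Agent.Lib.MP_830c64_nt.CL

open NumberField Module
open scoped nonZeroDivisors Classical

/-- Let `S` be the sum, `‖θ‖ = 1` with `‖S‖ = θ * S` (`Complex.exists_norm_eq_mul_self`). Choose
`c γ` prime to `f` in the class `γ⁻¹` (`exists_coprime_rep`). Put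
`G z = if h : IsIntegral ℤ z then W (span {⟨z, h⟩}) else 0`. Apply `Tr` with `J` the class group,
`I γ = c γ`, `R γ = (x * N (c γ)) ^ (1 / n)`, `σ = 1`, functions `(θ * (W (c γ))⁻¹ * G z).re` and
`(θ * W a).re` (`gen_coe_iff`, `Ray.norm_one`). For a shape `f` use `per_sum` with
`ψ = N (c γ) ^ (1 / n) * f`, `R = x ^ (1 / n)`, `Small.cov`, `Ray.congr`; `G 0 = 0` by `Ray.bot`;
the main terms cancel by `Ray.main_zero`. Finish with `sum_SI`. -/
theorem cancel_zero {K : Type} [Field K] [NumberField K] {Φ : ℝ} (hΦ : Tr K Φ) {Y : ℝ}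
    (hY : Small K Y) (hY0 : 0 ≤ Y) {f : ℕ} {W : Ideal (𝓞 K) → ℂ} (h : Ray K f W) (hf : 2 ≤ f)
    (hW : ∃ I, W I ≠ 0 ∧ W I ≠ 1) {x ρ : ℝ} (hx : 0 < x)
    (hρ : ρ = 2 * finrank ℚ K * f * Y * rD K) :
    ‖∑ a ∈ idl K x, W a * (wt (Units.rank K) x (Ideal.absNorm a) : ℝ)‖ ≤
      Nat.card (ClassGroup (𝓞 K)) * Φ * (mK K * (finrank ℚ K * ρ *
        (x ^ (1 / finrank ℚ K : ℝ) + ρ) ^ (finrank ℚ K - 1))) := by
  have hf0 : f ≠ 0 := by omega
  have hn : finrank ℚ K ≠ 0 := finrank_pos.ne'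
  obtain ⟨θ, hθ, hS⟩ := Complex.exists_norm_eq_mul_self
    (∑ a ∈ idl K x, W a * (wt (Units.rank K) x (Ideal.absNorm a) : ℝ))
  choose c hc0 hcf hcc using fun γ : ClassGroup (𝓞 K) => exists_coprime_rep (K := K) hf0 γ⁻¹
  have hN : ∀ γ, (0 : ℝ) < Ideal.absNorm (c γ) := fun γ => by
    exact_mod_cast Nat.pos_of_ne_zero (fun e => hc0 γ (Ideal.absNorm_eq_zero_iff.1 e))
  have hW1 : ∀ γ, ‖W (c γ)‖ = 1 := fun γ => h.norm_one hf (hcf γ)
  have hpw : ∀ t : ℝ, 0 ≤ t → (t ^ (1 / finrank ℚ K : ℝ)) ^ finrank ℚ K = t := fun t ht => by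
    rw [one_div]; exact Real.rpow_inv_natCast_pow ht hn
  let G : K → ℂ := fun z => if hz : IsIntegral ℤ z then W (Ideal.span {(⟨z, hz⟩ : 𝓞 K)}) else 0
  have hG : ∀ y : 𝓞 K, G y = W (Ideal.span {y}) := fun y => dif_pos y.2
  have hG0 : G 0 = 0 := by
    have := hG 0
    rwa [Ideal.span_singleton_eq_bot.2 rfl, h.bot hf] at this
  have hρ0 : 0 ≤ ρ := by
    have := one_le_rD K
    rw [hρ]; positivity
  set e := mK K * (finrank ℚ K * ρ * (x ^ (1 / finrank ℚ K : ℝ) + ρ) ^ (finrank ℚ K - 1))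
    with he
  have key := hΦ (ClassGroup (𝓞 K)) Finset.univ (fun γ => (c γ : FrI K))
    (fun γ => (x * Ideal.absNorm (c γ)) ^ (1 / finrank ℚ K : ℝ)) (fun _ => 1)
    (fun γ z => (θ * (W (c γ))⁻¹ * G z).re) (fun _ a => (θ * W a).re)
    (Nat.card (ClassGroup (𝓞 K)) * e) (fun γ _ => ⟨?_, ?_, Or.inl rfl, fun z a hz => ?_⟩)
    (fun s hs hv => ?_)
  · have e1 : ∀ γ, ((x * Ideal.absNorm (c γ)) ^ (1 / finrank ℚ K : ℝ)) ^ finrank ℚ K /
        nI (c γ : FrI K) = x := fun γ => by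
      rw [hpw _ (mul_pos hx (hN γ)).le, nI_coe, mul_div_cancel_right₀ _ (hN γ).ne']
    simp only [e1] at key
    rw [sum_SI _ c (fun γ => ⟨hc0 γ, hcc γ⟩), Finset.filter_true_of_mem
      (fun a _ => Finset.mem_univ _)] at key
    have e2 := congrArg Complex.re hS
    rw [Complex.ofReal_re, Finset.mul_sum, Complex.re_sum] at e2
    rw [e2]
    refine le_trans (le_of_eq (Finset.sum_congr rfl fun a _ => ?_)) (key.trans (le_of_eq ?_))
    · rw [← mul_assoc, Complex.re_mul_ofReal]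
    · ring
  · exact FractionalIdeal.coeIdeal_ne_zero.2 (hc0 γ)
  · exact Real.rpow_pos_of_pos (mul_pos hx (hN γ)) _
  · obtain ⟨y, -, rfl, hy⟩ := gen_coe_iff.1 hz
    have : W (c γ) ≠ 0 := fun e => by simpa [e] using hW1 γ
    rw [hG, ← hy, h.mul, mul_assoc, inv_mul_cancel_left₀ this]
  · set M : ℂ := mean f (fun y : 𝓞 K => W (Ideal.span {y})) *
      ((mK K * (x ^ (1 / finrank ℚ K : ℝ)) ^ finrank ℚ K : ℝ) : ℂ) with hM
    let T : ClassGroup (𝓞 K) → ℂ := fun γ => ∑ z ∈ bx (c γ : FrI K) (fun w =>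
      x ^ (1 / finrank ℚ K : ℝ) * ((Ideal.absNorm (c γ) : ℝ) ^ (1 / finrank ℚ K : ℝ) * s w)), G z
    have hT : ∀ γ, ‖T γ - M‖ ≤ e := fun γ => by
      have hψ : ∀ w, 0 < (Ideal.absNorm (c γ) : ℝ) ^ (1 / finrank ℚ K : ℝ) * s w := fun w =>
        mul_pos (Real.rpow_pos_of_pos (hN γ) _) (hs w)
      have hv' : vl (fun w => (Ideal.absNorm (c γ) : ℝ) ^ (1 / finrank ℚ K : ℝ) * s w) =
          Ideal.absNorm (c γ) := by rw [vl_mul, hv, mul_one, hpw _ (hN γ).le]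
      exact per_sum hf0 (hc0 γ) (hcf γ) _ hψ hv' hρ0 (Real.rpow_pos_of_pos hx _)
        (hρ ▸ hY.cov (hc0 γ) _ hψ hv' hf0) _ (fun y => h.norm_le _)
        (fun y y' hy => h.congr hf hy) G hG
    have e3 : ∀ γ, SB (c γ : FrI K)
        (fun w => (x * Ideal.absNorm (c γ)) ^ (1 / finrank ℚ K : ℝ) * s w ^ (1 : ℤ))
        (fun z => (θ * (W (c γ))⁻¹ * G z).re) = (θ * (W (c γ))⁻¹ * T γ).re := fun γ => by
      rw [SB, Finset.sum_erase _ (by simp [hG0]), Finset.mul_sum, Complex.re_sum]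
      simp only [zpow_one, Real.mul_rpow hx.le (hN γ).le, mul_assoc]
    have e4 : ∑ γ, θ * (W (c γ))⁻¹ * M = 0 := by
      have := h.main_zero hf hW c (fun γ => ⟨hcf γ, hcc γ⟩)
      rw [← Finset.sum_mul, ← Finset.mul_sum, hM]
      linear_combination
        θ * ((mK K * (x ^ (1 / finrank ℚ K : ℝ)) ^ finrank ℚ K : ℝ) : ℂ) * this
    simp only [e3]
    have e5 : ∑ γ, θ * (W (c γ))⁻¹ * T γ = ∑ γ, θ * (W (c γ))⁻¹ * (T γ - M) := by
      simp only [mul_sub, Finset.sum_sub_distrib, e4, sub_zero]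
    rw [← Complex.re_sum, e5]
    refine (Complex.re_le_norm _).trans ((norm_sum_le _ _).trans ?_)
    refine (Finset.sum_le_card_nsmul _ _ e fun γ _ => ?_).trans (le_of_eq ?_)
    · rw [norm_mul, norm_mul, norm_inv, hθ, hW1]
      simpa using hT γ
    · rw [nsmul_eq_mul, Finset.card_univ, Nat.card_eq_fintype_card]

end Pool.Agent.Lib.MP_830c64_nt.CL
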