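import Pool.Agent.Lib.MP_830c64_nt.CL.CZero
import Pool.Agent.Lib.MP_830c64_nt.CL.CRaise
import Pool.Agent.Lib.MP_830c64_nt.CL.UTr

/-! Cancellation in Riesz means of a ray class character, uniformly in the field. -/

namespace Pool.Agent.Lib.MP_830c64_nt.CL

open NumberField Module
open scoped nonZeroDivisors Classical

/-- With `R = x ^ (1 / n) ≥ 1` and `ρ ≥ 1`: `ρ (R + ρ) ^ (n - 1) ≤ 2 ^ n ρ ^ n R ^ (n - 1)`,
`R ^ (n - 1) = x ^ (1 - 1 / n) ≤ x ^ (1 - 1 / (N + 4))`. -/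
theorem cancel_num {n N : ℕ} (hn : 1 ≤ n) (hN : n ≤ N) {x ρ : ℝ} (hx : 1 ≤ x) (hρ : 1 ≤ ρ) :
    n * ρ * (x ^ (1 / n : ℝ) + ρ) ^ (n - 1) ≤
      N * (2 * ρ) ^ N * x ^ (1 - 1 / (N + 4 : ℝ)) := by
  obtain ⟨k, rfl⟩ : ∃ k, n = k + 1 := ⟨n - 1, by omega⟩
  rw [Nat.add_sub_cancel]
  have hN' : ((k + 1 : ℕ) : ℝ) ≤ N := by exact_mod_cast hN
  have hk : (0 : ℝ) < ((k + 1 : ℕ) : ℝ) := by positivity
  have hR1 : 1 ≤ x ^ (1 / ((k + 1 : ℕ) : ℝ)) := Real.one_le_rpow hx (by positivity)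
  have h3 : (x ^ (1 / ((k + 1 : ℕ) : ℝ))) ^ k ≤ x ^ (1 - 1 / (N + 4 : ℝ)) := by
    rw [← Real.rpow_natCast, ← Real.rpow_mul (by linarith)]
    apply Real.rpow_le_rpow_of_exponent_le hx
    have e1 : 1 / (N + 4 : ℝ) ≤ 1 / ((k + 1 : ℕ) : ℝ) :=
      one_div_le_one_div_of_le hk (by linarith)
    have e2 : 1 / ((k + 1 : ℕ) : ℝ) * k = 1 - 1 / ((k + 1 : ℕ) : ℝ) := by
      field_simp
      push_cast
      ring
    linarith
  generalize x ^ (1 / ((k + 1 : ℕ) : ℝ)) = R at hR1 h3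
  have h1 : R + ρ ≤ 2 * ρ * R := by nlinarith
  have h2 : (R + ρ) ^ k ≤ (2 * ρ) ^ k * R ^ k := by
    rw [← mul_pow]
    exact pow_le_pow_left₀ (by positivity) h1 k
  have h4 : ρ * (2 * ρ) ^ k ≤ (2 * ρ) ^ N := by
    have e1 : (2 * ρ) ^ (k + 1) ≤ (2 * ρ) ^ N := pow_le_pow_right₀ (by linarith) hN
    have e2 : 0 ≤ (2 * ρ) ^ k := by positivity
    rw [pow_succ] at e1
    nlinarith
  have hρ0 : 0 ≤ ρ := by linarith
  calc ((k + 1 : ℕ) : ℝ) * ρ * (R + ρ) ^ k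
      ≤ ((k + 1 : ℕ) : ℝ) * ρ * ((2 * ρ) ^ k * R ^ k) := by gcongr
    _ = ((k + 1 : ℕ) : ℝ) * (ρ * (2 * ρ) ^ k) * R ^ k := by ring
    _ ≤ N * (2 * ρ) ^ N * x ^ (1 - 1 / (N + 4 : ℝ)) := by gcongr

theorem cancel_restrict {E : Type} [Field E] [NumberField E] (W : Ideal (𝓞 E) → ℂ) (r : ℕ)
    {t x : ℝ} (h : t ≤ x) :
    ∑ I ∈ idl E x, W I * (wt r t (Ideal.absNorm I) : ℝ) =
      ∑ I ∈ idl E t, W I * (wt r t (Ideal.absNorm I) : ℝ) := by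
  symm
  apply Finset.sum_subset
  · intro I hI
    rw [mem_idl'] at hI ⊢
    exact ⟨hI.1, hI.2.trans h⟩
  · intro I hI hI'
    rw [mem_idl'] at hI hI'
    have : ¬ (Ideal.absNorm I : ℝ) < t := fun h1 => hI' ⟨hI.1, h1.le⟩
    simp [wt, this]

theorem cancel_wt {N : ℕ} (hN : 1 ≤ N) {x m : ℝ} (hx : 0 < x) (h : m ≤ x) :
    wt N x m = Real.log (x / m) ^ N := by
  unfold wt
  split_ifs with h1
  · rfl
  · have : m = x := le_antisymm h (not_lt.1 h1)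
    rw [this, div_self hx.ne', Real.log_one, zero_pow (by omega)]

theorem cancel_B {n N f : ℕ} (hn : 1 ≤ n) (hN : n ≤ N) {Y D H m C₀ : ℝ} (hY : 2 ≤ Y)
    (hf : (f : ℝ) ≤ Y) (hD1 : 1 ≤ D) (hD : D ≤ (n * Y) ^ n) (hC : 1 ≤ C₀)
    (hH : H ≤ C₀ * D ^ (1 + 1 : ℝ)) (hm0 : 0 ≤ m) (hm : m ≤ 3 ^ n / D) :
    H * (m * (N * (2 * (2 * n * f * Y * D)) ^ N)) ≤
      C₀ * (N ^ N) ^ 2 * 3 ^ N * N * (4 * N * N ^ N) ^ N * Y ^ (2 * N + (2 + N) * N) := by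
  have hn' : (1 : ℝ) ≤ n := by exact_mod_cast hn
  have hN' : (n : ℝ) ≤ N := by exact_mod_cast hN
  have hY0 : 0 ≤ Y := by linarith
  have h1 : D ≤ (N : ℝ) ^ N * Y ^ N := by
    rw [← mul_pow]
    refine hD.trans ((pow_le_pow_left₀ (by positivity) (by gcongr) n).trans
      (pow_le_pow_right₀ (by nlinarith) hN))
  have h2 : H ≤ C₀ * ((N : ℝ) ^ N * Y ^ N) ^ 2 := by
    refine hH.trans ?_
    rw [one_add_one_eq_two, Real.rpow_two]
    gcongr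
  have h3 : m ≤ 3 ^ N := by
    refine hm.trans ((div_le_self (by positivity) hD1).trans ?_)
    exact pow_le_pow_right₀ (by norm_num) hN
  have h4 : 2 * (2 * n * f * Y * D) ≤ 2 * (2 * N * Y * Y * ((N : ℝ) ^ N * Y ^ N)) := by
    gcongr
  have h5 : (2 * (2 * n * f * Y * D)) ^ N ≤ (2 * (2 * N * Y * Y * ((N : ℝ) ^ N * Y ^ N))) ^ N :=
    pow_le_pow_left₀ (by positivity) h4 N
  calc H * (m * (N * (2 * (2 * n * f * Y * D)) ^ N))
      ≤ C₀ * ((N : ℝ) ^ N * Y ^ N) ^ 2 *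
        (3 ^ N * (N * (2 * (2 * N * Y * Y * ((N : ℝ) ^ N * Y ^ N))) ^ N)) := by gcongr
    _ = _ := by
      have e : 2 * (2 * N * Y * Y * ((N : ℝ) ^ N * Y ^ N)) = (4 * N * N ^ N) * Y ^ (2 + N) := by
        ring
      rw [e, mul_pow (4 * (N : ℝ) * N ^ N), ← pow_mul, pow_add, mul_pow, ← pow_mul Y,
        mul_comm N 2]
      ring

/-- `δ = 1 / (N + 4)`. `cancel_zero` with `Φ` from `transfer`, `hr_le N one_pos`, `mK_le`,
`Small.rD_le` (so `rD E ≤ (N Y) ^ N`, `ρ ≤ 2 N Y ^ 2 (N Y) ^ N`), `cancel_num`. For `t ≤ x` the sum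
over `idl E x` with weight `wt r t` equals the sum over `idl E t`. Then `raise` (`rank_lt`); for
`1 ≤ N` and `m ≤ x`, `wt N x m = log (x / m) ^ N`. -/
theorem cancel : CancelStmt := by
  intro N
  obtain ⟨C₀, hC₀, hhr⟩ := hr_le N one_pos
  obtain ⟨A, hA⟩ : ∃ A : ℝ, A = C₀ * (N ^ N) ^ 2 * 3 ^ N * N * (4 * N * N ^ N) ^ N := ⟨_, rfl⟩
  obtain ⟨e, he⟩ : ∃ e : ℕ, e = 2 * N + (2 + N) * N := ⟨_, rfl⟩
  have hA0 : 0 ≤ A := by rw [hA]; positivity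
  have hP : (0 : ℝ) ≤ (2 * (N + 1)) ^ N * A := by positivity
  have he0 : (0 : ℝ) ≤ e := by positivity
  have hδ : 1 / (N + 4 : ℝ) ≤ 1 / 4 :=
    one_div_le_one_div_of_le (by norm_num) (by linarith [Nat.cast_nonneg (α := ℝ) N])
  refine ⟨1 + (2 * (N + 1)) ^ N * A + e, 1 / (N + 4), by linarith, by positivity, hδ, ?_⟩
  intro E _ _ Y f W hE hY hS hf hfY hR hW x hx
  obtain ⟨Φ, hΦ0, hΦ⟩ := transfer E
  have hn : 1 ≤ finrank ℚ E := finrank_pos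
  have hn' : (1 : ℝ) ≤ finrank ℚ E := by exact_mod_cast hn
  have hf' : (2 : ℝ) ≤ f := by exact_mod_cast hf
  have hD := one_le_rD E
  have hY0 : 0 ≤ Y := by linarith
  have hρ : 1 ≤ 2 * finrank ℚ E * f * Y * rD E := by
    refine one_le_mul_of_one_le_of_one_le (one_le_mul_of_one_le_of_one_le
      (one_le_mul_of_one_le_of_one_le ?_ ?_) ?_) hD <;> linarith
  have hB := cancel_B hn hE hY hfY hD hS.rD_le hC₀ (hhr E hE Φ hΦ) (mK_pos E).le (mK_le E)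
  rw [← hA, ← he] at hB
  have hm := (mK_pos E).le
  have key := raise (idl E x) W (fun I => (Ideal.absNorm I : ℝ)) (fun I hI => by
      rw [mem_idl'] at hI
      have : Ideal.absNorm I ≠ 0 := by simpa [Ideal.absNorm_eq_zero_iff] using hI.1
      exact_mod_cast Nat.one_le_iff_ne_zero.2 this)
    ((rank_lt E).le.trans hE) (B := A * Y ^ e) (δ := 1 / (N + 4)) (by positivity)
    (by linarith) hx (fun t ht htx => by
      rw [cancel_restrict W _ htx]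
      refine (cancel_zero hΦ hS hY0 hR hf hW (by linarith) rfl).trans ?_
      have h1 := cancel_num hn hE ht hρ
      have h2 : 0 ≤ t ^ (1 - 1 / (N + 4 : ℝ)) := by positivity
      calc _ ≤ Nat.card (ClassGroup (𝓞 E)) * Φ * (mK E * (N * (2 * (2 * finrank ℚ E * f * Y *
            rD E)) ^ N * t ^ (1 - 1 / (N + 4 : ℝ)))) := by gcongr
        _ = Nat.card (ClassGroup (𝓞 E)) * Φ * (mK E * (N * (2 * (2 * finrank ℚ E * f * Y *
            rD E)) ^ N)) * t ^ (1 - 1 / (N + 4 : ℝ)) := by ring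
        _ ≤ _ := by gcongr)
  have e1 : ∑ I ∈ idl E x, W I * ((Real.log (x / Ideal.absNorm I)) ^ N : ℝ) =
      ∑ I ∈ idl E x, W I * (wt N x (Ideal.absNorm I) : ℝ) :=
    Finset.sum_congr rfl fun I hI => by
      rw [cancel_wt (hn.trans hE) (by linarith) (mem_idl'.1 hI).2]
  rw [e1]
  refine key.trans ?_
  have h2 : 0 ≤ x ^ (1 - 1 / (N + 4 : ℝ)) := by positivity
  have h3 : Y ^ e ≤ Y ^ (1 + (2 * (N + 1)) ^ N * A + e : ℝ) := by
    rw [← Real.rpow_natCast]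
    exact Real.rpow_le_rpow_of_exponent_le (by linarith) (by linarith)
  rw [← mul_assoc]
  gcongr
  linarith

end Pool.Agent.Lib.MP_830c64_nt.CL
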