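import Pool.Agent.Lib.MP_830c64_nt.CL.IDefs
import Pool.Agent.Lib.MP_439fea_co.Herb

/-! Definitions for the first inequality. -/

namespace Pool.Agent.Lib.MP_830c64_nt.CL

open NumberField WithZero MP_439fea_co
open scoped Classical

/-- The group of norms. -/
noncomputable def NmG (k M : Type) [Field k] [Field M] [Algebra k M] : Subgroup kˣ :=
  (Units.map (Algebra.norm k : M →* k)).range

/-- The units congruent to one to order `m`. -/
def Lev {K : Type} [Field K] (v : Valuation K ℤᵐ⁰) (m : ℕ) : Subgroup Kˣ where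
  carrier := {x | v (x : K) = 1 ∧ v ((x : K) - 1) ≤ exp (-(m : ℤ))}
  one_mem' := by simp
  mul_mem' := by
    rintro x y ⟨hx, hx'⟩ ⟨hy, hy'⟩
    refine ⟨by rw [Units.val_mul, map_mul, hx, hy, one_mul], ?_⟩
    have e : ((x * y : Kˣ) : K) - 1 = ((x : K) - 1) * y + ((y : K) - 1) := by
      rw [Units.val_mul]; ring
    rw [e]
    refine (v.map_add _ _).trans (max_le ?_ hy')
    rw [map_mul, hy, mul_one]
    exact hx'
  inv_mem' := by
    rintro x ⟨hx, hx'⟩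
    refine ⟨by rw [Units.val_inv_eq_inv_val, map_inv₀, hx, inv_one], ?_⟩
    have e : ((x⁻¹ : Kˣ) : K) - 1 = -(((x : K) - 1) * (x : K)⁻¹) := by
      rw [Units.val_inv_eq_inv_val]; field_simp; ring
    rw [e, Valuation.map_neg, map_mul, map_inv₀, hx, inv_one, mul_one]
    exact hx'

theorem mem_Lev {K : Type} [Field K] {v : Valuation K ℤᵐ⁰} {m : ℕ} {x : Kˣ} :
    x ∈ Lev v m ↔ v (x : K) = 1 ∧ v ((x : K) - 1) ≤ exp (-(m : ℤ)) := Iff.rfl

variable {k : Type} [Field k] [NumberField k]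

/-- There is only one prime of `M` above `v`. -/
def Uniq (M : Type) [Field M] [NumberField M] [Algebra k M] (v : P k) : Prop :=
  ∀ w w' : P M, und k w = v → und k w' = v → w = w'

/-- The prime `w` is unramified over `k`. -/
def Unr (k : Type) [Field k] [NumberField k] {M : Type} [Field M] [NumberField M] [Algebra k M]
    (w : P M) : Prop :=
  ∀ x : k, val w (algebraMap k M x) = val (und k w) x

/-- The exponent of `v` in `a`. -/
noncomputable def ordI (v : P k) (a : Ideal (𝓞 k)) : ℤ := (multiplicity v.asIdeal a : ℕ)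

/-- The data from which the character is built. -/
structure OmD (M : Type) [Field M] [NumberField M] [Algebra k M] (l Δ : ℕ)
    (S Ra Ie : Finset (P k)) (ψ : P k → kˣ → ZMod l) (c : P k → ZMod l)
    (Ω : Ideal (𝓞 k) → ZMod l) : Prop where
  pid : PidOut (herbOver M S)
  unr : ∀ w : P M, und k w ∉ S → Unr k w
  ti : ∀ v ∈ Ie, v ∈ S ∧ Uniq M v ∧ ∀ w : P M, und k w = v → Unr k w
  tr : ∀ v ∈ Ra, (Δ : 𝓞 k) ∈ v.asIdeal ∧ (∀ x y, ψ v (x * y) = ψ v x + ψ v y) ∧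
    (∀ x ∈ NmG k M, ψ v x = 0) ∧
    (∃ t : ℕ, val v ((l : k) ^ 2) ≤ exp (-(t : ℤ)) ∧ ∀ x ∈ Lev (val v) (t + 1), ψ v x = 0) ∧
    ∃ y ∈ Lev (val v) 0, ψ v y ≠ 0
  ne : (∃ v ∈ Ra, c v ≠ 0) ∨ ∃ v ∈ Ie, c v ≠ 0
  mul : ∀ a b, a ≠ ⊥ → b ≠ ⊥ → Ω (a * b) = Ω a + Ω b
  eq : ∀ a, a ≠ ⊥ → ∀ x : kˣ, (∀ u ∉ S, MP_439fea_co.ord u (x : k) = ordI u a) →
    Ω a = ∑ v ∈ Ra, c v * ψ v x + ∑ v ∈ Ie, c v * ((MP_439fea_co.ord v (x : k) - ordI v a : ℤ) : ZMod l)

end Pool.Agent.Lib.MP_830c64_nt.CL
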