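import Pool.Agent.Lib.MP_830c64_nt.CL.FDefs

/-! The index of the image of an endomorphism of a finitely generated abelian group. -/

namespace Pool.Agent.Lib.MP_830c64_nt.CL

open Module

variable {B : Type} [AddCommGroup B]

/-- The determinant on the quotient by the torsion. -/
noncomputable def dt (φ : Module.End ℤ B) : ℤ :=
  LinearMap.det ((Submodule.torsion ℤ B).mapQ (Submodule.torsion ℤ B) φ (by
    rintro x ⟨a, ha⟩
    exact ⟨a, by rw [Submonoid.smul_def, ← map_smul, ← Submonoid.smul_def, ha, map_zero]⟩))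

/-- `Submodule.mapQ_comp`. -/
theorem dt_mul (φ ψ : Module.End ℤ B) : dt (φ * ψ) = dt φ * dt ψ := by
  rw [dt, dt, dt, ← map_mul]
  congr 1
  ext x
  rfl

theorem dt_one : dt (1 : Module.End ℤ B) = 1 := by
  rw [dt, ← LinearMap.det_id (A := ℤ) (M := B ⧸ Submodule.torsion ℤ B)]
  congr 1
  ext x
  rfl

theorem dt_pow (φ : Module.End ℤ B) (n : ℕ) : dt (φ ^ n) = dt φ ^ n := by
  induction n with
  | zero => rw [pow_zero, pow_zero, dt_one]
  | succ n ih => rw [pow_succ, pow_succ, dt_mul, ih]

/-- `LinearMap.det_smul`, `finrank_quotient_torsion_eq` or `rk_finrank_finite`; the quotient is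
free. -/
theorem dt_smul [Module.Finite ℤ B] (c : ℤ) (φ : Module.End ℤ B) :
    dt (c • φ) = c ^ finrank ℤ B * dt φ := by
  have e : finrank ℤ (B ⧸ Submodule.torsion ℤ B) = finrank ℤ B :=
    congrArg Cardinal.toNat (rank_quotient_eq_of_le_torsion le_rfl)
  rw [dt, dt, ← e, ← LinearMap.det_smul]
  congr 1
  ext x
  rfl

/-- Let `T` be the torsion (finite) and `R = range φ`. The induced map on `B ⧸ T` is injective (a
multiple of `x` lies in the finite kernel), so its determinant is not zero and the index of its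
range is `|dt φ|` (`Submodule.natAbs_det_equiv` with `LinearEquiv.ofInjective`); that index is the
index of `R ⊔ T` (`AddSubgroup.index_map` or `index_comap_of_surjective`). The relative index of
`R` in `R ⊔ T` is that of `R ⊓ T = φ T` in `T` (`AddSubgroup.relIndex_sup_left`), which is the
size of the kernel of `φ` on the finite group `T`, and `ker φ ≤ T`. -/
theorem index_range [Module.Finite ℤ B] (φ : Module.End ℤ B) [Finite (LinearMap.ker φ)] :
    dt φ ≠ 0 ∧ (LinearMap.range φ).toAddSubgroup.index =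
      (dt φ).natAbs * Nat.card (LinearMap.ker φ) := by
  set T := Submodule.torsion ℤ B with hT
  have h0 : T ≤ T.comap φ := by
    rintro x ⟨a, ha⟩
    exact ⟨a, by rw [Submonoid.smul_def, ← map_smul, ← Submonoid.smul_def, ha, map_zero]⟩
  have h1 : LinearMap.ker φ ≤ T := fun x hx =>
    ⟨⟨Nat.card (LinearMap.ker φ), mem_nonZeroDivisors_of_ne_zero (by
      exact_mod_cast Nat.card_pos.ne')⟩, by
        simpa using congrArg Subtype.val (card_nsmul_eq_zero' (x := (⟨x, hx⟩ : LinearMap.ker φ)))⟩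
  have h2 : ∀ x, φ x ∈ T → x ∈ T := by
    rintro x ⟨a, ha⟩
    obtain ⟨b, hb⟩ := h1 (show a • x ∈ LinearMap.ker φ by
      rw [LinearMap.mem_ker, Submonoid.smul_def, map_smul]; exact ha)
    exact ⟨b * a, by rwa [mul_smul]⟩
  have inj : Function.Injective (T.mapQ T φ h0) := by
    rw [← LinearMap.ker_eq_bot, Submodule.ker_mapQ, eq_bot_iff]
    rintro _ ⟨x, hx, rfl⟩
    exact (Submodule.Quotient.mk_eq_zero _).2 (h2 x hx)
  have h3 : (dt φ).natAbs = (LinearMap.range (T.mapQ T φ h0)).toAddSubgroup.index :=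
    Submodule.natAbs_det_equiv _ (LinearEquiv.ofInjective _ inj)
  have h4 : (LinearMap.range (T.mapQ T φ h0)).toAddSubgroup.comap T.mkQ.toAddMonoidHom =
      T.toAddSubgroup ⊔ (LinearMap.range φ).toAddSubgroup := by
    rw [← Submodule.sup_toAddSubgroup, ← Submodule.comap_map_mkQ, Submodule.range_mapQ]
    rfl
  have fin : Finite T := Module.finite_of_fg_torsion T Submodule.torsion_isTorsion
  let ψ : T →+ T := (φ.restrict (p := T) (q := T) fun x hx => h0 hx).toAddMonoidHom
  have h5 : (LinearMap.range φ).toAddSubgroup.addSubgroupOf T.toAddSubgroup = ψ.range := by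
    ext x
    exact ⟨fun ⟨y, hy⟩ => ⟨⟨y, h2 y (hy ▸ x.2)⟩, Subtype.ext hy⟩,
      fun ⟨y, hy⟩ => ⟨y, congrArg Subtype.val hy⟩⟩
  have h6 : Nat.card ψ.ker = Nat.card (LinearMap.ker φ) := Nat.card_congr
    ⟨fun x => ⟨x.1, congrArg Subtype.val x.2⟩, fun x => ⟨⟨x, h1 x.2⟩, Subtype.ext x.2⟩,
      fun _ => rfl, fun _ => rfl⟩
  refine ⟨fun e => ?_, ?_⟩
  · exact (LinearMap.det_eq_zero_iff_ker_ne_bot.1 e) (LinearMap.ker_eq_bot.2 inj)
  · rw [← AddSubgroup.relIndex_mul_index (le_sup_right (a := T.toAddSubgroup)),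
      AddSubgroup.relIndex_sup_right, ← h4,
      AddSubgroup.index_comap_of_surjective _ T.mkQ_surjective, ← h3, mul_comm,
      AddSubgroup.relIndex, h5, AddSubgroup.index_range]
    exact congrArg _ h6

end Pool.Agent.Lib.MP_830c64_nt.CL
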