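import Pool.Agent.Lib.MP_830c64_nt.CL.FDefs

/-! The index of the higher unit groups. -/

namespace Pool.Agent.Lib.MP_830c64_nt.CL

open NumberField WithZero MP_439fea_co

theorem flocb_eq {K : Type} [Field K] (v : Valuation K ℤᵐ⁰) (n : ℕ) (a b : Lev v 0) :
    (a : Lev v 0 ⧸ (Lev v n).subgroupOf (Lev v 0)) = b ↔
      v (((b : Kˣ) : K) - (a : Kˣ)) ≤ exp (-(n : ℤ)) := by
  have e : ((((a⁻¹ * b : Lev v 0) : Kˣ) : K) - 1) = (((b : Kˣ) : K) - (a : Kˣ)) / (a : Kˣ) := by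
    simp only [Subgroup.coe_mul, Subgroup.coe_inv, Units.val_mul, Units.val_inv_eq_inv_val]
    field_simp
  rw [QuotientGroup.eq, Subgroup.mem_subgroupOf, mem_Lev, e, map_div₀, a.2.1, div_one]
  exact and_iff_right (a⁻¹ * b).2.1

theorem lev_index {K : Type} [Field K] [NumberField K] (v : P K) (m : ℕ) :
    (Lev (val v) (m + 1)).relIndex (Lev (val v) 0) + Ideal.absNorm v.asIdeal ^ m =
      Ideal.absNorm v.asIdeal ^ (m + 1) := by
  classical
  have hfin : Finite (𝓞 K ⧸ v.asIdeal ^ (m + 1)) :=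
    Ideal.finiteQuotientOfFreeOfNeBot _ (pow_ne_zero _ v.ne_bot)
  choose s hs using (Ideal.Quotient.mk_surjective (I := v.asIdeal ^ (m + 1)))
  have hle : v.asIdeal ^ (m + 1) ≤ v.asIdeal := Ideal.pow_le_self m.succ_ne_zero
  let π := Ideal.Quotient.factor hle
  have hπ : ∀ a : 𝓞 K, π (Ideal.Quotient.mk _ a) ≠ 0 ↔ val v (a : K) = 1 := fun a => by
    rw [Ideal.Quotient.factor_mk, Ne, Ideal.Quotient.eq_zero_iff_mem, ← Val_lt_iff_mem, not_lt]
    exact ⟨le_antisymm (v.valuation_le_one a), fun h => h.ge⟩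
  have h1 : ∀ r : {r // π r ≠ 0}, val v (s r : K) = 1 := fun r => (hπ _).1 (by
    rw [hs]
    exact r.2)
  have h2 : ∀ r : {r // π r ≠ 0}, ∃ u : Lev (val v) 0, ((u : Kˣ) : K) = s r := fun r =>
    ⟨⟨Units.mk0 (s r : K) fun e => by simpa [e] using h1 r, h1 r, by
      simpa using Valuation.map_sub_le _ (h1 r).le (map_one (val v)).le⟩, rfl⟩
  choose u hu using h2
  have hs' : ∀ (a : 𝓞 K) r, Ideal.Quotient.mk _ a = r ↔
      val v ((a : K) - s r) ≤ exp (-((m + 1 : ℕ) : ℤ)) := fun a r => by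
    conv_lhs => rw [← hs r, Ideal.Quotient.eq, ← Val_le_iff_mem]
    simp
  have hb : Function.Bijective fun r =>
      (u r : Lev (val v) 0 ⧸ (Lev (val v) (m + 1)).subgroupOf (Lev (val v) 0)) := by
    refine ⟨fun r r' h => Subtype.ext ?_, fun c => ?_⟩
    · rw [flocb_eq, hu, hu, ← hs', hs] at h
      exact h.symm
    · obtain ⟨x, rfl⟩ := QuotientGroup.mk_surjective c
      obtain ⟨a, ha⟩ := v.exists_valuation_sub_lt_of_integer x.2.1.le
        (Units.mk0 (exp (-((m + 1 : ℕ) : ℤ))) exp_ne_zero)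
      have ha' : val v ((a : K) - (x : Kˣ)) < exp (-((m + 1 : ℕ) : ℤ)) := ha
      have h3 := (val v).map_add_eq_of_lt_right (x := (a : K) - (x : Kˣ)) (y := ((x : Kˣ) : K)) (by
        rw [x.2.1]
        exact ha'.trans (show _ < exp (0 : ℤ) from exp_lt_exp.2 (by omega)))
      rw [sub_add_cancel, x.2.1] at h3
      refine ⟨⟨Ideal.Quotient.mk _ a, (hπ a).2 h3⟩, (flocb_eq _ _ _ _).2 ?_⟩
      rw [hu, ← sub_sub_sub_cancel_left _ _ (a : K)]
      exact Valuation.map_sub_le _ ((hs' a _).1 rfl) ha'.le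
  have c1 : Nat.card (𝓞 K ⧸ v.asIdeal ^ (m + 1)) = Ideal.absNorm v.asIdeal ^ (m + 1) := by
    rw [← map_pow, Ideal.absNorm_apply, Submodule.cardQuot_apply]
  have c2 := AddSubgroup.card_eq_card_quotient_mul_card_addSubgroup π.toAddMonoidHom.ker
  rw [Nat.card_congr (QuotientAddGroup.quotientKerEquivOfSurjective π.toAddMonoidHom
    (Ideal.Quotient.factor_surjective hle)).toEquiv, c1, ← Submodule.cardQuot_apply,
    ← Ideal.absNorm_apply, pow_succ', mul_right_inj' (by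
      simpa [Ideal.absNorm_eq_zero_iff] using v.ne_bot)] at c2
  rw [Subgroup.relIndex, Subgroup.index, ← Nat.card_eq_of_bijective _ hb, c2, ← c1, add_comm,
    ← Nat.card_sum]
  exact Nat.card_congr (Equiv.sumCompl fun r => π r = 0)

end Pool.Agent.Lib.MP_830c64_nt.CL
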