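import Pool.Agent.Lib.MP_830c64_nt.CL.FPoly

/-! The norm of a unit close to one. -/

namespace Pool.Agent.Lib.MP_830c64_nt.CL

open WithZero MP_439fea_co

/-- Work in `A = Additive Mˣ` with `s` induced by `Units.map σ`, `d = s - 1` and the subgroups
`(Lev w a).toAddSubgroup`. The map `d` sends level `a` to level `a + t`
(`σ x / x - 1 = (σ z - z) / x` for `z = x - 1`). The `l`-th power sends level `t + 1` to level
`l t + 1`: `(z + 1) ^ l = z ^ l + 1 + l z r` with `w r ≤ 1` (by `geom_poly` evaluated at `z`, or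
`add_pow` and `Nat.Prime.dvd_choose_self`). Apply `geom_end`. -/
theorem norm_lev {k M : Type} [Field k] [Field M] [Algebra k M] (w : Valuation M ℤᵐ⁰)
    (σ : M ≃ₐ[k] M) {l : ℕ} (hl : l.Prime) (hw : ∀ x, w (σ x) = w x) {t : ℕ}
    (ht : ∀ x, w (σ x - x) ≤ exp (-(t : ℤ)) * w x)
    (hv : w (l : M) ≤ exp (-(((l - 1) * t : ℕ) : ℤ))) {x : Mˣ} (hx : x ∈ Lev w (t + 1)) :
    w (∏ i ∈ Finset.range l, (σ ^ i) (x : M) - 1) ≤ exp (-((l * t + 1 : ℕ) : ℤ)) := by
  let s : Module.End ℤ (Additive Mˣ) :=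
    (MonoidHom.toAdditive (Units.map (σ : M →* M))).toIntLinearMap
  have hs : ∀ (i : ℕ) y, (((s ^ i) y).toMul : M) = (σ ^ i) (y.toMul : M) := fun i => by
    induction i with
    | zero => exact fun y => rfl
    | succ i ih => exact fun y => by rw [pow_succ, pow_succ, Module.End.mul_apply, ih]; rfl
  have hc : ∀ a : ℕ, ∀ y ∈ (Lev w a).toAddSubgroup, s y ∈ (Lev w a).toAddSubgroup :=
    fun a y hy => ⟨(hw _).trans hy.1, by
      have := hw ((y.toMul : M) - 1)
      rw [map_sub, map_one] at this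
      exact this.trans_le hy.2⟩
  have hd : ∀ a : ℕ, ∀ y ∈ (Lev w a).toAddSubgroup,
      (s - 1) y ∈ (Lev w (a + t)).toAddSubgroup := fun a y hy => by
    refine ⟨(AddSubgroup.sub_mem _ (hc a y hy) hy).1, ?_⟩
    have e : ((((s - 1) y).toMul : Mˣ) : M) - 1 =
        (σ ((y.toMul : M) - 1) - ((y.toMul : M) - 1)) * (y.toMul : M)⁻¹ := by
      change (((Units.map (σ : M →* M) y.toMul / y.toMul : Mˣ)) : M) - 1 = _
      rw [Units.val_div_eq_div_val, map_sub, map_one]
      simp [div_eq_mul_inv, sub_mul]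
    change w ((((s - 1) y).toMul : Mˣ) - 1) ≤ _
    rw [e, map_mul, map_inv₀, hy.1, inv_one, mul_one]
    refine (ht _).trans ((mul_le_mul_right hy.2 _).trans_eq ?_)
    rw [← exp_add]
    congr 1
    push_cast
    ring
  have hl1 : l = l - 1 + 1 := (Nat.sub_add_cancel hl.one_lt.le).symm
  have hp : ∀ y ∈ (Lev w (t + 1)).toAddSubgroup,
      (l : ℤ) • y ∈ (Lev w (l * t + 1)).toAddSubgroup := fun y hy => by
    refine ⟨(AddSubgroup.zsmul_mem _ hy _).1, ?_⟩
    have h2 : w ((y.toMul : M) - 1) ≤ exp (-((t + 1 : ℕ) : ℤ)) := hy.2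
    obtain ⟨r, hr⟩ := exists_add_pow_prime_eq hl
      (⟨(y.toMul : M) - 1, h2.trans (exp_le_exp.2 (by omega : _ ≤ (0 : ℤ)))⟩ : w.integer) 1
    have e := congrArg (fun a : w.integer => (a : M)) hr
    simp only [Subring.coe_pow, Subring.coe_add, Subring.coe_one, Subring.coe_mul,
      Subring.coe_natCast, sub_add_cancel, one_pow, mul_one] at e
    change w (((y.toMul ^ (l : ℤ) : Mˣ) : M) - 1) ≤ _
    rw [zpow_natCast, Units.val_pow_eq_pow_val, e, add_right_comm, add_sub_cancel_right]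
    refine (w.map_add _ _).trans (max_le ?_ ?_)
    · rw [map_pow]
      refine (pow_le_pow_left₀ zero_le h2 l).trans ?_
      rw [← exp_nsmul, exp_le_exp, nsmul_eq_mul]
      have := hl.one_lt
      push_cast
      nlinarith
    · rw [map_mul, map_mul]
      refine (mul_le_mul' (mul_le_mul' hv h2) r.2).trans_eq ?_
      rw [mul_one, ← exp_add, Nat.cast_mul, Nat.cast_sub hl.one_lt.le]
      congr 1
      push_cast
      ring
  have hj : ∀ j : ℕ, ((s - 1) ^ j) (Additive.ofMul x) ∈ (Lev w (t + 1 + j * t)).toAddSubgroup :=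
    fun j => by
      induction j with
      | zero => simpa using hx
      | succ j ih =>
        rw [pow_succ', Module.End.mul_apply, show t + 1 + (j + 1) * t = t + 1 + j * t + t by ring]
        exact hd _ _ ih
  obtain ⟨u, -, hu, he⟩ := geom_end hl s
  have h1 : (∑ i ∈ Finset.range l, s ^ i) (Additive.ofMul x) ∈
      (Lev w (l * t + 1)).toAddSubgroup := by
    have a1 := hu _ (hc _) _ (show Additive.ofMul x ∈ (Lev w (t + 1)).toAddSubgroup from hx)
    rw [he]
    refine AddSubgroup.add_mem _ ?_ (hp _ (AddSubgroup.add_mem _ hx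
      (AddSubgroup.sub_mem _ (hc _ _ a1) a1)))
    convert hj (l - 1) using 3
    conv_lhs => rw [hl1]
    ring
  have h2 := h1.2
  rw [LinearMap.sum_apply] at h2
  change w ((((∑ i ∈ Finset.range l, (s ^ i) (Additive.ofMul x)).toMul : Mˣ) : M) - 1) ≤ _ at h2
  rw [toMul_sum, Units.coe_prod] at h2
  simpa only [hs, toMul_ofMul] using h2

end Pool.Agent.Lib.MP_830c64_nt.CL
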