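import Pool.Agent.Lib.MP_830c64_nt.CL.FLocA
import Pool.Agent.Lib.MP_830c64_nt.CL.FLocN
import Pool.Agent.Lib.MP_830c64_nt.CL.FLocB

/-! At a ramified prime not every unit is a local norm. -/

namespace Pool.Agent.Lib.MP_830c64_nt.CL

open NumberField WithZero MP_439fea_co

variable {k M : Type} [Field k] [NumberField k] [Field M] [NumberField M] [Algebra k M]

/-- The group has prime order `l` (`IsGalois.card_aut_eq_finrank`), `σ` generates it
(`zpowers_eq_top_of_prime_card` or `orderOf_eq_prime`); `Algebra.norm_eq_prod_automorphisms`. -/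
theorem norm_eq_prod [IsGalois k M] {l : ℕ} (hl : l.Prime) (hd : Module.finrank k M = l)
    {σ : M ≃ₐ[k] M} (h1 : σ ≠ 1) : σ ^ l = 1 ∧ (∀ τ, τ ∈ Subgroup.zpowers σ) ∧
      ∀ x : M, algebraMap k M (Algebra.norm k x) = ∏ i ∈ Finset.range l, (σ ^ i) x := by
  have hG : Nat.card (M ≃ₐ[k] M) = l := (IsGalois.card_aut_eq_finrank k M).trans hd
  have : Fact l.Prime := ⟨hl⟩
  have h2 : σ ^ l = 1 := hG ▸ pow_card_eq_one'
  have ho : orderOf σ = l := orderOf_eq_prime h2 h1
  have h3 : ∀ τ, τ ∈ Subgroup.zpowers σ := fun τ => mem_zpowers_of_prime_card hG h1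
  refine ⟨h2, h3, fun x => ?_⟩
  rw [Algebra.norm_eq_prod_automorphisms]
  refine (Finset.prod_bij (fun i _ => σ ^ i) (fun _ _ => Finset.mem_univ _)
    (fun i hi j hj e => pow_injOn_Iio_orderOf (ho ▸ Finset.mem_range.1 hi)
      (ho ▸ Finset.mem_range.1 hj) e) (fun τ _ => ?_) fun _ _ => rfl).symm
  classical
  obtain ⟨i, hi, e⟩ := Finset.mem_image.1 (mem_zpowers_iff_mem_range_orderOf.1 (h3 τ))
  exact ⟨i, ho ▸ hi, e⟩

theorem floc_root {a : ℤᵐ⁰} {l : ℕ} (hl : l ≠ 0) {n m : ℤ} (h : a ^ l ≤ exp n)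
    (hm : n < l * (m + 1)) : a ≤ exp m := by
  rcases eq_or_ne a 0 with rfl | ha
  · exact zero_le
  rw [← exp_log ha, ← exp_nsmul, exp_le_exp, nsmul_eq_mul] at h
  rw [← exp_log ha, exp_le_exp]
  have h0 : (0 : ℤ) < l := by exact_mod_cast Nat.pos_of_ne_zero hl
  exact Int.lt_add_one_iff.1 (lt_of_mul_lt_mul_left (h.trans_lt hm) h0.le)

theorem floc_zero {K : Type} [Field K] {v : Valuation K ℤᵐ⁰} {x : Kˣ} :
    x ∈ Lev v 0 ↔ v (x : K) = 1 :=
  ⟨fun h => h.1, fun h => ⟨h, (v.map_sub _ _).trans (by simp [h])⟩⟩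

theorem floc_ne {K : Type} [Field K] [NumberField K] (v : P K) (m : ℕ) :
    (Lev (val v) (m + 1)).relIndex (Lev (val v) 0) ≠ 0 := fun h => by
  have h1 := lev_index v m
  have h2 : 1 < Ideal.absNorm v.asIdeal := NumberField.HeightOneSpectrum.one_lt_absNorm v
  rw [h, zero_add] at h1
  exact (Nat.pow_lt_pow_right h2 (Nat.lt_succ_self m)).ne h1

/-- Take `t`, `x₀` from `exists_break` (`mem_stabilizer_iff_val`). `val_prime_le` and `he` give
`val v l ^ l ≤ exp (-((l - 1) t))`, so `val v (l ^ 2) ≤ exp (-t)` as `l ≤ 2 (l - 1)`. Let `N` be the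
norm on units. By `norm_lev` and `he` it maps `Lev w (t + 1)` to `Lev v (t + 1)`; also
`val v (N z) = val w z`. The subgroup `H = (Lev v (t + 1)).comap N ⊓ Lev w 0` contains
`Lev w (t + 1)` and `σ x₀ / x₀` (norm one), which is not in `Lev w (t + 1)`. If every `y ∈ Lev v 0`
were in `NmG ⊔ Lev v (t + 1)` then `N` would map `Lev w 0` onto the quotient, so
`H.relIndex (Lev w 0) = (Lev v (t + 1)).relIndex (Lev v 0) = (Lev w (t + 1)).relIndex (Lev w 0)` by
`lev_index` (nonzero), forcing `H = Lev w (t + 1)` (`Subgroup.relIndex_mul_relIndex`,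
`Subgroup.relIndex_eq_one`). -/
theorem loc [IsGalois k M] {l : ℕ} (hl : l.Prime) (hd : Module.finrank k M = l)
    {σ : M ≃ₐ[k] M} (h1 : σ ≠ 1) (w : P M) (hw : σ • w = w)
    (he : ∀ x : k, val w (algebraMap k M x) = val (und k w) x ^ l)
    (hf : Ideal.absNorm w.asIdeal = Ideal.absNorm (und k w).asIdeal) :
    ∃ t : ℕ, val (und k w) ((l : k) ^ 2) ≤ exp (-(t : ℤ)) ∧
      ∃ y ∈ Lev (val (und k w)) 0, y ∉ NmG k M ⊔ Lev (val (und k w)) (t + 1) := by
  obtain ⟨h2, -, h3⟩ := norm_eq_prod hl hd h1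
  have hσ : ∀ x, val w (σ x) = val w x := (mem_stabilizer_iff_val σ w).1 hw
  obtain ⟨t, ht, x₀, h0, hx₀⟩ := exists_break (val w) σ h1 hσ
  have hv := val_prime_le (val w) σ hl h2 hσ ht h0 hx₀
  have hl2 : (2 : ℤ) ≤ l := by exact_mod_cast hl.two_le
  have ht0 : (0 : ℤ) ≤ t := Int.natCast_nonneg t
  refine ⟨t, floc_root hl.ne_zero (n := -(2 * ((l - 1) * t))) ?_ (by nlinarith), ?_⟩
  · rw [← he, map_pow, map_natCast, map_pow]
    refine (pow_le_pow_left₀ zero_le hv 2).trans_eq ?_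
    rw [← exp_nsmul]
    congr 1
    push_cast [Nat.cast_sub hl.one_le]
    ring
  by_contra hc
  push Not at hc
  let N : Mˣ →* kˣ := Units.map (Algebra.norm k : M →* k)
  have hp : ∀ (i : ℕ) x, val w ((σ ^ i) x) = val w x := fun i => by
    induction i with
    | zero => exact fun _ => rfl
    | succ i ih => exact fun x => by rw [pow_succ, AlgEquiv.mul_apply, ih, hσ]
  have hN : ∀ z : Mˣ, val (und k w) (N z : k) = val w (z : M) := fun z => by
    refine (pow_left_inj₀ zero_le zero_le hl.ne_zero).1 ?_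
    rw [← he]
    change val w (algebraMap k M (Algebra.norm k (z : M))) = _
    rw [h3, map_prod, Finset.prod_congr rfl fun i _ => hp i _, Finset.prod_const,
      Finset.card_range]
  have hle : Lev (val w) (t + 1) ≤ (Lev (val (und k w)) (t + 1)).comap N := fun z hz => by
    refine ⟨(hN z).trans hz.1, floc_root hl.ne_zero (n := -((l * t + 1 : ℕ) : ℤ)) ?_ ?_⟩
    · rw [← he, map_sub, map_one]
      change val w (algebraMap k M (Algebra.norm k (z : M)) - 1) ≤ _
      rw [h3]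
      exact norm_lev (val w) σ hl hσ ht hv hz
    · push_cast
      nlinarith
  have hmap : (Lev (val w) 0).map N ⊔ Lev (val (und k w)) (t + 1) = Lev (val (und k w)) 0 := by
    refine le_antisymm (sup_le ?_ fun y hy => floc_zero.2 hy.1) fun y hy => ?_
    · rintro _ ⟨z, hz, rfl⟩
      exact floc_zero.2 ((hN z).trans hz.1)
    · obtain ⟨_, ⟨z, rfl⟩, u, hu, rfl⟩ := Subgroup.mem_sup.1 (hc y hy)
      refine Subgroup.mul_mem_sup ⟨z, floc_zero.2 ?_, rfl⟩ hu
      have := hy.1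
      rwa [Units.val_mul, map_mul, hu.1, mul_one, hN] at this
  have e1 : ((Lev (val (und k w)) (t + 1)).comap N).relIndex (Lev (val w) 0) =
      (Lev (val w) (t + 1)).relIndex (Lev (val w) 0) := by
    rw [Subgroup.relIndex_comap, ← Subgroup.relIndex_sup_right, hmap]
    have a := lev_index w t
    have b := lev_index (und k w) t
    rw [hf] at a
    omega
  have e2 := Subgroup.relIndex_mul_relIndex (Lev (val w) (t + 1))
    ((Lev (val (und k w)) (t + 1)).comap N ⊓ Lev (val w) 0) (Lev (val w) 0)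
    (le_inf hle fun y hy => floc_zero.2 hy.1) inf_le_right
  rw [Subgroup.inf_relIndex_right, e1, Nat.mul_eq_right (floc_ne w t),
    Subgroup.relIndex_eq_one] at e2
  have hx0 : val w x₀ ≠ 0 := by simpa using h0
  have hs : σ x₀ / x₀ ≠ 0 := div_ne_zero (by simpa using h0) h0
  have e3 := (e2 (x := Units.mk0 _ hs) ⟨?_, floc_zero.2 ?_⟩).2
  · rw [Units.val_mk0, div_sub_one h0, map_div₀, hx₀, mul_div_cancel_right₀ _ hx0,
      exp_le_exp] at e3
    omega
  · have : N (Units.mk0 _ hs) = 1 := Units.ext (by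
      change Algebra.norm k (σ x₀ / x₀) = 1
      rw [div_eq_mul_inv, map_mul, Algebra.norm_eq_of_algEquiv, ← map_mul, mul_inv_cancel₀ h0,
        map_one])
    exact Subgroup.mem_comap.2 (this ▸ one_mem _)
  · rw [Units.val_mk0, map_div₀, hσ, div_self hx0]

end Pool.Agent.Lib.MP_830c64_nt.CL
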