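import Pool.Agent.Lib.MP_830c64_nt.CL.FDefs

/-! The three types of primes in a Galois extension of prime degree. -/

namespace Pool.Agent.Lib.MP_830c64_nt.CL

open NumberField WithZero MP_439fea_co
open scoped Classical

variable {k M : Type} [Field k] [NumberField k] [Field M] [NumberField M] [Algebra k M]

theorem fprime_ef [IsGalois k M] (w : P M) : ∃ f : ℕ,
    Nat.card (MulAction.stabilizer (M ≃ₐ[k] M) w) =
      Nat.card (w.asIdeal.inertia (M ≃ₐ[k] M)) * f ∧
    (∀ x : k, val w (algebraMap k M x) =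
      val (und k w) x ^ Nat.card (w.asIdeal.inertia (M ≃ₐ[k] M))) ∧
    Ideal.relNorm (𝓞 k) w.asIdeal = (und k w).asIdeal ^ f := by
  have := w.isPrime
  have := w.isMaximal
  have := (und k w).isPrime
  have := (und k w).isMaximal
  have : w.asIdeal.LiesOver (und k w).asIdeal := ⟨rfl⟩
  have : Finite (𝓞 k ⧸ (und k w).asIdeal) := Ring.HasFiniteQuotients.finiteQuotient (und k w).ne_bot
  refine ⟨w.asIdeal.inertiaDeg (𝓞 k), ?_, fun x => ?_, Ideal.relNorm_eq_pow_of_isMaximal _ _⟩
  · rw [stabilizer_eq, Ideal.card_stabilizer_eq_card_inertia_mul_finrank (und k w).asIdeal]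
  · rw [Ideal.card_inertia_eq_ramificationIdxIn (und k w).asIdeal,
      Ideal.ramificationIdxIn_eq_ramificationIdx _ w.asIdeal (M ≃ₐ[k] M),
      ← Ideal.ramificationIdx'_eq_ramificationIdx (und k w).asIdeal w.asIdeal (und k w).ne_bot]
    exact (IsDedekindDomain.HeightOneSpectrum.valuation_liesOver M (und k w) w x).symm

/-- `Ideal.ncard_primesOver_mul_ramificationIdxIn_mul_inertiaDegIn` gives `g * (e * f) = l`. The
values: `HeightOneSpectrum.valuation_liesOver` (see `val_algebraMap`),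
`Ideal.relNorm_eq_pow_of_isMaximal`, `Ideal.absNorm_relNorm`. If `g = l` the stabilizer is trivial
(the primes above form one orbit, `exists_smul_eq`, `MulAction.card_orbit_mul_card_stabilizer_eq_card_group`).
If `e = l` then `f = 1`, the map of residue fields is onto (injective between finite sets of equal
size), so `x ≡ a` with `a` from `𝓞 k` and `τ • x ≡ a` since `τ • w = w`. -/
theorem prime_cases [IsGalois k M] {l : ℕ} (hl : l.Prime) (hd : Module.finrank k M = l)
    (w : P M) :
    (¬ Uniq M (und k w) ∧ Unr k w ∧ Ideal.relNorm (𝓞 k) w.asIdeal = (und k w).asIdeal ∧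
      ∀ τ : M ≃ₐ[k] M, τ • w = w → τ = 1) ∨
    (Uniq M (und k w) ∧ Unr k w ∧ Ideal.relNorm (𝓞 k) w.asIdeal = (und k w).asIdeal ^ l) ∨
    (Uniq M (und k w) ∧ (∀ x : k, val w (algebraMap k M x) = val (und k w) x ^ l) ∧
      Ideal.absNorm w.asIdeal = Ideal.absNorm (und k w).asIdeal ∧
      ∀ (τ : M ≃ₐ[k] M) (x : 𝓞 M), τ • x - x ∈ w.asIdeal) := by
  obtain ⟨f, h1, h2, h3⟩ := fprime_ef (k := k) w
  have hG : Nat.card (M ≃ₐ[k] M) = l := (IsGalois.card_aut_eq_finrank k M).trans hd
  rcases (Nat.dvd_prime hl).1 (hG ▸ (MulAction.stabilizer (M ≃ₐ[k] M) w).card_subgroup_dvd_card)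
    with h | h
  · have hb : ∀ τ : M ≃ₐ[k] M, τ • w = w → τ = 1 := fun τ hτ =>
      Subgroup.mem_bot.1 (Subgroup.card_eq_one.1 h ▸ MulAction.mem_stabilizer_iff.2 hτ)
    rw [h] at h1
    rw [Nat.eq_one_of_mul_eq_one_right h1.symm] at h2
    rw [Nat.eq_one_of_mul_eq_one_left h1.symm, pow_one] at h3
    have : Nontrivial (M ≃ₐ[k] M) := Finite.one_lt_card_iff_nontrivial.1 (hG ▸ hl.one_lt)
    obtain ⟨τ, hτ⟩ := exists_ne (1 : M ≃ₐ[k] M)
    exact Or.inl ⟨fun hu => hτ (hb τ (hu _ _ (und_smul τ w) rfl)),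
      fun x => (h2 x).trans (pow_one _), h3, hb⟩
  · have ht := Subgroup.eq_top_of_card_eq _ (h.trans hG.symm)
    have hw : ∀ w' : P M, und k w' = und k w → w' = w := fun w' e => by
      obtain ⟨τ, rfl⟩ := exists_smul_eq e.symm
      exact MulAction.mem_stabilizer_iff.1 (ht ▸ Subgroup.mem_top τ)
    have hu : Uniq M (und k w) := fun a b ha hb => (hw a ha).trans (hw b hb).symm
    rw [h] at h1
    rcases (Nat.dvd_prime hl).1 (Dvd.intro _ h1.symm) with e | e
    · rw [e, one_mul] at h1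
      rw [e] at h2
      exact Or.inr (Or.inl ⟨hu, fun x => (h2 x).trans (pow_one _), h1 ▸ h3⟩)
    · have hi := Subgroup.eq_top_of_card_eq _ (e.trans hG.symm)
      rw [e] at h1 h2
      rw [(Nat.mul_eq_left hl.ne_zero).1 h1.symm, pow_one] at h3
      refine Or.inr (Or.inr ⟨hu, h2, by rw [← h3, Ideal.absNorm_relNorm], fun τ x => ?_⟩)
      exact (hi ▸ Subgroup.mem_top τ : τ ∈ w.asIdeal.inertia (M ≃ₐ[k] M)) x

/-- As `herb_card`: above `v` there is at least one prime, and at least `l` primes if `v` is not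
`Uniq` (`τ ↦ τ • w` is injective by `prime_cases`). -/
theorem over_card [IsGalois k M] {l : ℕ} (hl : l.Prime) (hd : Module.finrank k M = l)
    (S : Finset (P k)) :
    l * S.card ≤ (herbOver M S).card + (l - 1) * (S.filter (Uniq M)).card := by
  have hG : Nat.card (M ≃ₐ[k] M) = l := (IsGalois.card_aut_eq_finrank k M).trans hd
  rw [herbOver, Finset.card_biUnion (fun v _ v' _ h => Finset.disjoint_left.2 fun w h1 h2 => by
    simp only [Set.Finite.mem_toFinset, Set.mem_ofPred_eq] at h1 h2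
    exact h (h1.symm.trans h2)), Finset.card_filter, Finset.mul_sum, ← Finset.sum_add_distrib,
    mul_comm, ← smul_eq_mul, ← Finset.sum_const]
  refine Finset.sum_le_sum fun v _ => ?_
  obtain ⟨w, rfl⟩ := exists_over M v
  split_ifs with h
  · have : 0 < (finite_over M (und k w)).toFinset.card := Finset.card_pos.2 ⟨w, by simp⟩
    omega
  · have hb : ∀ τ : M ≃ₐ[k] M, τ • w = w → τ = 1 := by
      rcases prime_cases hl hd w with h' | h' | h'
      exacts [h'.2.2.2, absurd h'.1 h, absurd h'.1 h]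
    have := Finset.card_le_card_of_injOn (s := Finset.univ) (t := (finite_over M (und k w)).toFinset)
      (fun τ : M ≃ₐ[k] M => τ • w) (fun τ _ => by simp [und_smul]) fun a _ b _ e =>
        (inv_mul_eq_one.1 (hb (b⁻¹ * a) (by rw [mul_smul, show a • w = b • w from e,
          inv_smul_smul]))).symm
    rw [Finset.card_univ, ← Nat.card_eq_fintype_card, hG] at this
    omega

/-- `Algebra.norm_eq_prod_automorphisms`, `ord_mul`, `ord_smul`; reindex by inversion. -/
theorem ord_norm [IsGalois k M] {w : P M} (hu : Unr k w) {z : M} (hz : z ≠ 0) :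
    MP_439fea_co.ord (und k w) (Algebra.norm k z) = ∑ τ : M ≃ₐ[k] M, MP_439fea_co.ord (τ • w) z := by
  have key : ∀ s : Finset (M ≃ₐ[k] M),
      MP_439fea_co.ord w (∏ τ ∈ s, τ z) = ∑ τ ∈ s, MP_439fea_co.ord w (τ z) := fun s => by
    induction s using Finset.induction_on with
    | empty => simp [ord_one]
    | insert a s ha ih =>
      rw [Finset.prod_insert ha, Finset.sum_insert ha, ord_mul w (by simpa using hz)
        (Finset.prod_ne_zero_iff.2 fun τ _ => by simpa using hz), ih]
  rw [MP_439fea_co.ord, ← hu, Algebra.norm_eq_prod_automorphisms, ← MP_439fea_co.ord, key]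
  refine Fintype.sum_equiv (Equiv.inv _) _ _ fun τ => ?_
  rw [Equiv.inv_apply, ← ord_smul τ (τ⁻¹ • w) z, smul_inv_smul]
  rfl

end Pool.Agent.Lib.MP_830c64_nt.CL
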