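import Pool.Agent.Lib.MP_830c64_nt.CL.FHerb
import Pool.Agent.Lib.MP_830c64_nt.CL.FPrime
import Pool.Agent.Lib.MP_830c64_nt.CL.FLoc

/-! The index of the norms in the group of `S`-units. -/

namespace Pool.Agent.Lib.MP_830c64_nt.CL

open NumberField WithZero MP_439fea_co Module
open scoped Classical

variable {k M : Type} [Field k] [NumberField k] [Field M] [NumberField M] [Algebra k M]

/-- As in `MP_439fea_co.herb`. `groupCohomology.exists_div_of_norm_eq_one` gives `y`; replace it by
its inverse. The values `val w y` for `w` outside `herbOver M S` are invariant under `σ`, hence under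
the group (`norm_eq_prod`, `exists_smul_eq`); divide `y` by `z` from `hS`. -/
theorem h90_US [IsGalois k M] {l : ℕ} (hl : l.Prime) (hd : finrank k M = l)
    {σ : M ≃ₐ[k] M} (h1 : σ ≠ 1) {S : Finset (P k)} (hS : PidOut S)
    (hun : ∀ w : P M, und k w ∉ S → Unr k w) {x : Mˣ} (hx : x ∈ US (herbOver M S))
    (hn : Algebra.norm k (x : M) = 1) :
    ∃ y ∈ US (herbOver M S), (x : M) = σ (y : M) / (y : M) := by
  obtain ⟨-, hg, -⟩ := norm_eq_prod hl hd h1
  have : FiniteDimensional k M := Module.Finite.of_restrictScalars_finite ℚ k M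
  have : IsCyclic (M ≃ₐ[k] M) := ⟨⟨σ, hg⟩⟩
  obtain ⟨y, hy⟩ := groupCohomology.exists_div_of_norm_eq_one hg hn
  have h8 : σ (y : M) ≠ 0 := by simp
  have hout : ∀ (τ : M ≃ₐ[k] M), ∀ w ∉ herbOver M S, τ • w ∉ herbOver M S := fun τ w hw => by
    rwa [mem_herbOver, und_smul, ← mem_herbOver]
  have h4 : ∀ w ∉ herbOver M S, val (σ • w) (y : M) = val w (y : M) := fun w hw => by
    have e : (y : M) = x * σ y := by rw [← hy, div_mul_cancel₀ _ h8]
    have h5 : val (σ • w) (σ (y : M)) = val w (y : M) := val_smul σ w (y : M)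
    rw [← h5]
    conv_lhs => rw [e, map_mul, mem_US.1 hx _ (hout σ w hw), one_mul]
  have h5 : ∀ (n : ℕ), ∀ w ∉ herbOver M S, val ((σ ^ n) • w) (y : M) = val w (y : M) := by
    intro n w hw
    induction n with
    | zero => rw [pow_zero, one_smul]
    | succ n ih => rw [pow_succ', mul_smul, h4 _ (hout _ w hw), ih]
  choose ov hov using exists_over (K := k) M
  obtain ⟨z, hz⟩ := hS (fun v => MP_439fea_co.ord (ov v) (y : M))
    (((finite_supp y.ne_zero).image (und k)).subset
      fun v hv => ⟨ov v, fun h => hv (by simp [MP_439fea_co.ord, h]), hov v⟩)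
  refine ⟨Units.map (algebraMap k M : k →* M) z / y, mem_US.2 fun w hw => ?_, ?_⟩
  · have h6 : val w (y : M) = val (ov (und k w)) (y : M) := by
      obtain ⟨τ, hτ⟩ := exists_smul_eq (hov (und k w))
      obtain ⟨n, rfl⟩ := mem_powers_iff_mem_zpowers.2 (hg τ)
      conv_lhs => rw [← hτ]
      exact h5 n _ (by rw [mem_herbOver, hov, ← mem_herbOver]; exact hw)
    have h7 : val w (algebraMap k M z) = val w (y : M) := by
      rw [hun w (mt mem_herbOver.2 hw), val_eq_exp _ z.ne_zero, hz _ (mt mem_herbOver.2 hw), h6,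
        val_eq_exp _ y.ne_zero]
    have h9 : val w (y : M) ≠ 0 := by simp
    simp [h7, h9]
  · have h9 : algebraMap k M z ≠ 0 := by simp
    have h10 := y.ne_zero
    simp only [Units.val_div_eq_div_val, Units.coe_map, MonoidHom.coe_coe, map_div₀,
      AlgEquiv.commutes]
    rw [← hy]
    field_simp

theorem fglob_arith {l i a g r R p q t : ℕ} (h2 : 2 ≤ l) (r2 : g + 1 = r + p) (r3 : a + 1 = R + q)
    (r6 : r * l = R) (r7 : l * p ≤ q + (l - 1) * t) (r8 : i ^ (l - 1) * l ^ a ≤ l ^ (l * g)) :
    l * i ≤ l ^ t := by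
  obtain ⟨m, rfl⟩ : ∃ m, l = m + 1 := ⟨l - 1, by omega⟩
  rw [Nat.add_sub_cancel] at r7 r8
  refine (Nat.pow_le_pow_iff_left (n := m) (by omega)).1 (Nat.le_of_mul_le_mul_right ?_
    (pow_pos m.succ_pos a))
  rw [mul_pow, mul_assoc, ← pow_mul, ← pow_add]
  refine (Nat.mul_le_mul_left _ r8).trans ?_
  rw [← pow_add]
  refine Nat.pow_le_pow_right m.succ_pos ?_
  have r9 : (m + 1) * (g + 1) = (m + 1) * (r + p) := by rw [r2]
  nlinarith

/-- Apply `herbrand_l` to `A = Additive (US (herbOver M S))` with `s` induced by a generator `σ`.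
The inclusion `US S → A` is injective with image `ker (s - 1)` (`IsGalois.mem_bot_iff_fixed`), and
the preimage of the range of the norm lies in `NmG k M` (`norm_eq_prod`), so the index here divides
the index there. Ranks: `finrank_US`, `two_mul_card_infinitePlace`, `Module.finrank_mul_finrank`,
`over_card`; with `t` the card of the filter one gets `(l * idx) ^ (l - 1) ≤ (l ^ t) ^ (l - 1)`. -/
theorem glob_index [IsGalois k M] [IsTotallyComplex k] {l : ℕ} (hl : l.Prime)
    (hd : finrank k M = l) {S : Finset (P k)} (hS : PidOut S)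
    (hun : ∀ w : P M, und k w ∉ S → Unr k w) :
    (NmG k M).relIndex (US S) ≠ 0 ∧
      l * (NmG k M).relIndex (US S) ≤ l ^ (S.filter (Uniq M)).card := by
  have : FiniteDimensional k M := Module.Finite.of_restrictScalars_finite ℚ k M
  have : IsTotallyComplex M := isTotallyComplex_of_algebra k M
  have : Nontrivial (M ≃ₐ[k] M) := Finite.one_lt_card_iff_nontrivial.1 (by
    rw [IsGalois.card_aut_eq_finrank, hd]; exact hl.one_lt)
  obtain ⟨σ, h1⟩ := exists_ne (1 : M ≃ₐ[k] M)
  obtain ⟨hσ, hg, hN⟩ := norm_eq_prod hl hd h1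
  obtain ⟨c, hc⟩ : ∃ c : Additive (US (herbOver M S)) → M,
      ∀ x, c x = ((Additive.toMul x : US (herbOver M S)) : Mˣ) := ⟨_, fun _ => rfl⟩
  have c0 : c 0 = 1 := by rw [hc]; rfl
  have cadd : ∀ x y, c (x + y) = c x * c y := fun x y => by rw [hc, hc, hc]; rfl
  have cne : ∀ x, c x ≠ 0 := fun x => by rw [hc]; exact Units.ne_zero _
  have csub : ∀ x y, c (x - y) = c x / c y := fun x y => by
    rw [eq_div_iff (cne y), ← cadd, sub_add_cancel]
  have cinj : ∀ x y, c x = c y → x = y := fun x y h => by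
    rw [hc, hc] at h
    exact Additive.toMul.injective (Subtype.ext (Units.ext h))
  obtain ⟨s, hs⟩ : ∃ s : Module.End ℤ (Additive (US (herbOver M S))), ∀ x, c (s x) = σ (c x) := by
    refine ⟨(MonoidHom.toAdditive (((Units.map (σ : M →* M)).comp
      (US (herbOver M S)).subtype).codRestrict (US (herbOver M S)) fun x =>
        mem_US.2 fun w hw => ?_)).toIntLinearMap, fun x => by rw [hc, hc]; rfl⟩
    have h5 := val_smul σ (σ⁻¹ • w) ((x : Mˣ) : M)
    rw [smul_inv_smul] at h5
    refine h5.trans (mem_US.1 x.2 _ ?_)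
    rwa [mem_herbOver, und_smul, ← mem_herbOver]
  obtain ⟨j, hj⟩ : ∃ j : Additive (US S) →ₗ[ℤ] Additive (US (herbOver M S)),
      ∀ x, c (j x) = algebraMap k M ((Additive.toMul x : US S) : kˣ) :=
    ⟨(MonoidHom.toAdditive (((Units.map (algebraMap k M : k →* M)).comp
      (US S).subtype).codRestrict (US (herbOver M S)) fun x => mem_US.2 fun w hw =>
        (val_algebraMap_eq_one_iff w ((x : kˣ) : k)).2
          (mem_US.1 x.2 _ (mt mem_herbOver.2 hw)))).toIntLinearMap, fun x => by rw [hc]; rfl⟩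
  have hpow : ∀ (n : ℕ) x, c ((s ^ n) x) = (σ ^ n) (c x) := by
    intro n x
    induction n with
    | zero => rfl
    | succ n ih => rw [pow_succ', pow_succ', Module.End.mul_apply, hs, ih, AlgEquiv.mul_apply]
  have hsum : ∀ (n : ℕ) x, c ((∑ i ∈ Finset.range n, s ^ i) x) =
      ∏ i ∈ Finset.range n, (σ ^ i) (c x) := by
    intro n x
    induction n with
    | zero => simpa using c0
    | succ n ih =>
      rw [Finset.sum_range_succ, Finset.prod_range_succ, LinearMap.add_apply, cadd, ih, hpow]
  have hjinj : Function.Injective j := fun x y h => by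
    have h2 := congrArg c h
    rw [hj, hj] at h2
    exact Additive.toMul.injective (Subtype.ext (Units.ext ((algebraMap k M).injective h2)))
  have hker : LinearMap.range j = LinearMap.ker (s - 1) := by
    ext x
    rw [LinearMap.mem_range, LinearMap.mem_ker, LinearMap.sub_apply, Module.End.one_apply,
      sub_eq_zero]
    constructor
    · rintro ⟨y, rfl⟩
      exact cinj _ _ (by rw [hs, hj, AlgEquiv.commutes])
    · intro h
      have h2 : σ (c x) = c x := by rw [← hs, h]
      obtain ⟨y, hy⟩ := (IsGalois.mem_range_algebraMap_iff_fixed (F := k) (c x)).2 fun τ => by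
        obtain ⟨n, rfl⟩ := mem_powers_iff_mem_zpowers.2 (hg τ)
        induction n with
        | zero => rfl
        | succ n ih => simp only [pow_succ, AlgEquiv.mul_apply, h2] at ih ⊢; exact ih
      have hy0 : y ≠ 0 := fun h => cne x (by rw [← hy, h, map_zero])
      refine ⟨Additive.ofMul ⟨Units.mk0 y hy0, mem_US.2 fun v hv => ?_⟩, cinj _ _ ?_⟩
      · obtain ⟨w, rfl⟩ := exists_over M v
        refine (val_algebraMap_eq_one_iff w y).1 ?_
        rw [hy, hc]
        exact mem_US.1 (Additive.toMul x).2 w (mt mem_herbOver.1 hv)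
      · rw [hj]
        exact hy
  obtain ⟨k0, k1⟩ := herbrand_l hl s
    (LinearMap.ext fun x => cinj _ _ (by rw [hpow, hσ]; rfl)) (fun x hx => by
      have h2 := hsum l x
      rw [hx, c0, ← hN, eq_comm, map_eq_one_iff _ (algebraMap k M).injective, hc] at h2
      obtain ⟨y, hy, hy'⟩ := h90_US hl hd h1 hS hun (Additive.toMul x).2 h2
      refine ⟨Additive.ofMul ⟨y, hy⟩, cinj _ _ ?_⟩
      rw [csub, hs, hc, hc]
      exact hy')
  have hdvd : (NmG k M).relIndex (US S) ∣
      (LinearMap.range (∑ i ∈ Finset.range l, s ^ i)).toAddSubgroup.relIndex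
        (LinearMap.ker (s - 1)).toAddSubgroup := by
    rw [← hker, LinearMap.range_toAddSubgroup j, ← AddSubgroup.index_comap, Subgroup.relIndex,
      ← Subgroup.index_toAddSubgroup]
    refine AddSubgroup.index_dvd_of_le fun x hx => ?_
    obtain ⟨y, hy⟩ := hx
    have h2 := hsum l y
    have h3 : (∑ i ∈ Finset.range l, s ^ i) y = j x := hy
    rw [h3, hj, ← hN, hc] at h2
    exact ⟨(Additive.toMul y : US (herbOver M S)), Units.ext ((algebraMap k M).injective h2).symm⟩
  refine ⟨ne_zero_of_dvd_ne_zero k0 hdvd, ?_⟩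
  have r1 : finrank ℤ (LinearMap.ker (s - 1)) = finrank ℤ (Additive (US S)) := by
    rw [← hker, LinearMap.finrank_range_of_inj hjinj]
  have r2 := finrank_US S
  have r3 := finrank_US (herbOver M S)
  have r4 := two_mul_card_infinitePlace (K := k)
  have r5 := two_mul_card_infinitePlace (K := M)
  have r6 := Module.finrank_mul_finrank ℚ k M
  have r7 := over_card hl hd S
  rw [hd, ← r4, ← r5, mul_assoc] at r6
  rw [r1] at k1
  have r8 := (Nat.mul_le_mul_right _ (Nat.pow_le_pow_left
    (Nat.le_of_dvd (Nat.pos_of_ne_zero k0) hdvd) (l - 1))).trans k1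
  exact fglob_arith hl.two_le r2 r3 (by omega) r7 r8

end Pool.Agent.Lib.MP_830c64_nt.CL
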