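import Pool.Agent.Lib.MP_830c64_nt.CL.FDefs

/-! A polynomial identity and linear algebra over a prime field. -/

namespace Pool.Agent.Lib.MP_830c64_nt.CL

open Polynomial

/-- Multiply by `X`: `X * ∑ (X + 1) ^ i = (X + 1) ^ l - 1` (`mul_geom_sum`), and
`(X + 1) ^ l = X ^ l + 1 + l * X * r` (`add_pow_prime_eq` or `Commute.exists_add_pow_prime_eq`);
evaluation at zero gives `r(0) = 1`, so `r = 1 + X * g` (`X_dvd_iff`, `X_mul_divX_add`). -/
theorem geom_poly {l : ℕ} (hl : l.Prime) : ∃ g : ℤ[X],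
    ∑ i ∈ Finset.range l, (X + 1 : ℤ[X]) ^ i = X ^ (l - 1) + (l : ℤ[X]) * (1 + X * g) := by
  obtain ⟨r, hr⟩ := exists_add_pow_prime_eq hl (X : ℤ[X]) 1
  have h1 : ∑ i ∈ Finset.range l, (X + 1 : ℤ[X]) ^ i = X ^ (l - 1) + (l : ℤ[X]) * r := by
    refine mul_left_cancel₀ X_ne_zero ?_
    have := mul_geom_sum (X + 1 : ℤ[X]) l
    rw [add_sub_cancel_right, hr] at this
    rw [this, mul_add, ← pow_succ', Nat.sub_add_cancel hl.one_le]
    ring
  have h2 : r.coeff 0 = 1 := by
    have := congrArg (eval 0) h1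
    simp only [eval_finsetSum, eval_pow, eval_add, eval_X, eval_one, zero_add, one_pow,
      Finset.sum_const, Finset.card_range, nsmul_eq_mul, mul_one, eval_mul, eval_natCast,
      zero_pow (Nat.sub_ne_zero_of_lt hl.one_lt)] at this
    rw [coeff_zero_eq_eval_zero]
    exact mul_left_cancel₀ (Nat.cast_ne_zero.2 hl.ne_zero) (by rw [← this, mul_one])
  refine ⟨r.divX, ?_⟩
  rw [h1, add_comm 1, ← C_1, ← h2, X_mul_divX_add]

/-- Induction on the polynomial. -/
theorem aeval_mem {A : Type} [AddCommGroup A] (d : Module.End ℤ A) (U : AddSubgroup A)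
    (h : ∀ x ∈ U, d x ∈ U) (g : ℤ[X]) {x : A} (hx : x ∈ U) : aeval d g x ∈ U := by
  induction g using Polynomial.induction_on with
  | C a => simpa using U.zsmul_mem hx a
  | add p q hp hq => simpa using U.add_mem hp hq
  | monomial n a ih =>
    have : aeval d (C a * X ^ (n + 1)) = d * aeval d (C a * X ^ n) := by
      rw [pow_succ, ← mul_assoc, mul_comm, map_mul, aeval_X]
    rw [this]
    exact h _ ih

/-- `geom_poly` evaluated at `s - 1`. -/
theorem geom_end {A : Type} [AddCommGroup A] {l : ℕ} (hl : l.Prime) (s : Module.End ℤ A) :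
    ∃ u : Module.End ℤ A, Commute (s - 1) u ∧
      (∀ U : AddSubgroup A, (∀ x ∈ U, s x ∈ U) → ∀ x ∈ U, u x ∈ U) ∧
      ∑ i ∈ Finset.range l, s ^ i = (s - 1) ^ (l - 1) + (l : ℤ) • (1 + (s - 1) * u) := by
  obtain ⟨g, hg⟩ := geom_poly hl
  refine ⟨aeval (s - 1) g, ?_, fun U hU x hx =>
    aeval_mem _ U (fun y hy => U.sub_mem (hU y hy) hy) g hx, ?_⟩
  · simpa using (Commute.all X g).map (aeval (s - 1))
  · simpa [map_sum, mul_add] using congrArg (aeval (s - 1)) hg

theorem fpoly_aux {F M : Type} [Field F] [AddCommGroup M] [Module F M] {y : M} (hy : y ≠ 0) :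
    ∃ φ : M →+ F, φ y ≠ 0 := by
  obtain ⟨φ, hφ⟩ := not_forall.1 (mt (Module.forall_dual_apply_eq_zero_iff F y).1 hy)
  exact ⟨φ.toAddMonoidHom, hφ⟩

theorem fpoly_dual {M : Type} [AddCommGroup M] {l : ℕ} (hl : l.Prime) (h : ∀ x : M, l • x = 0)
    {y : M} (hy : y ≠ 0) : ∃ φ : M →+ ZMod l, φ y ≠ 0 :=
  have := Fact.mk hl
  @fpoly_aux (ZMod l) M _ _ (AddCommGroup.zmodModule h) y hy

/-- `Additive (A ⧸ H)` is a vector space over `ZMod l` (`AddCommGroup.zmodModule`);
`Module.forall_dual_apply_eq_zero_iff`. -/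
theorem exists_hom {A : Type} [CommGroup A] {l : ℕ} (hl : l.Prime) (H : Subgroup A)
    (h : ∀ x, x ^ l ∈ H) {y : A} (hy : y ∉ H) : ∃ ψ : A → ZMod l,
      (∀ x x', ψ (x * x') = ψ x + ψ x') ∧ (∀ x ∈ H, ψ x = 0) ∧ ψ y ≠ 0 := by
  obtain ⟨φ, hφ⟩ := fpoly_dual (M := Additive (A ⧸ H)) hl (fun x => by
    obtain ⟨a, rfl⟩ : ∃ a : A, Additive.ofMul (a : A ⧸ H) = x := QuotientGroup.mk_surjective x.toMul
    rw [← ofMul_pow, ← QuotientGroup.mk_pow, (QuotientGroup.eq_one_iff _).2 (h a), ofMul_one])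
    (y := Additive.ofMul (y : A ⧸ H)) fun e => hy ((QuotientGroup.eq_one_iff _).1 e)
  refine ⟨fun x => φ (Additive.ofMul (x : A ⧸ H)), fun x x' => ?_, fun x hx => ?_, hφ⟩
  · simp only [QuotientGroup.mk_mul, ofMul_mul, map_add]
  · simp only [(QuotientGroup.eq_one_iff _).2 hx, ofMul_one, map_zero]

/-- The image of `U` in `T → ZMod l` is an additive subgroup, hence a subspace
(`AddSubgroup.toZModSubmodule`), with at most `H.relIndex U < l ^ T.card` elements (the kernel contains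
`H.subgroupOf U`, `Subgroup.index_ker`, `Subgroup.index_dvd_of_le`). So it lies in the kernel of a
nonzero functional (`Submodule.exists_le_ker_of_lt_top`), whose coordinates are the `c i`
(`LinearMap.pi_apply_eq_sum_univ`). -/
theorem exists_rel {A ι : Type} [CommGroup A] {l : ℕ} (hl : l.Prime) (T : Finset ι)
    (U H : Subgroup A) (ψ : ι → A → ZMod l)
    (hψ : ∀ i ∈ T, ∀ x y, ψ i (x * y) = ψ i x + ψ i y) (hH : ∀ i ∈ T, ∀ x ∈ H, ψ i x = 0)
    (h0 : H.relIndex U ≠ 0) (h1 : l * H.relIndex U ≤ l ^ T.card) :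
    ∃ c : ι → ZMod l, (∃ i ∈ T, c i ≠ 0) ∧ ∀ x ∈ U, ∑ i ∈ T, c i * ψ i x = 0 := by
  classical
  have := Fact.mk hl
  let F : U →* Multiplicative (T → ZMod l) := MonoidHom.mk'
    (fun x => Multiplicative.ofAdd fun i => ψ i x) fun x y => by
      rw [← ofAdd_add]
      exact congrArg _ (funext fun i => hψ i i.2 x y)
  have hc : Nat.card F.range ≤ H.relIndex U := by
    rw [← Subgroup.index_ker]
    exact Nat.le_of_dvd (Nat.pos_of_ne_zero h0) (Subgroup.index_dvd_of_le fun x hx =>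
      congrArg Multiplicative.ofAdd (funext fun i => hH i i.2 x hx))
  have hlt : AddSubgroup.toZModSubmodule l (Subgroup.toAddSubgroup' F.range) < ⊤ := by
    refine lt_top_iff_ne_top.2 fun ht => ?_
    have : F.range = ⊤ := eq_top_iff.2 fun z _ =>
      (show z.toAdd ∈ AddSubgroup.toZModSubmodule l (Subgroup.toAddSubgroup' F.range) from
        ht ▸ trivial)
    rw [this, Subgroup.card_top, Nat.card_eq_fintype_card] at hc
    simp only [Fintype.card_multiplicative, Fintype.card_pi, ZMod.card, Finset.prod_const,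
      Finset.card_univ, Fintype.card_coe] at hc
    have := hl.two_le
    have := Nat.pos_of_ne_zero h0
    nlinarith
  obtain ⟨φ, h2, h3⟩ := Submodule.exists_le_ker_of_lt_top _ hlt
  refine ⟨fun i => if hi : i ∈ T then φ fun j => if ⟨i, hi⟩ = j then 1 else 0 else 0, ?_,
    fun x hx => ?_⟩
  · by_contra hn
    push Not at hn
    refine h2 (LinearMap.ext fun z => ?_)
    rw [LinearMap.pi_apply_eq_sum_univ]
    exact Finset.sum_eq_zero fun i _ => by
      have := hn i i.2
      rw [dif_pos i.2] at this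
      rw [this, smul_zero]
  · have : φ (fun i => ψ i x) = 0 := h3 ⟨⟨x, hx⟩, rfl⟩
    rw [LinearMap.pi_apply_eq_sum_univ] at this
    rw [← Finset.sum_coe_sort]
    refine (Finset.sum_congr rfl fun i _ => ?_).trans this
    simp only [dif_pos i.2, smul_eq_mul, mul_comm]

end Pool.Agent.Lib.MP_830c64_nt.CL
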