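import Pool.Agent.Lib.MP_830c64_nt.CL.FDet
import Pool.Agent.Lib.MP_830c64_nt.CL.FPoly

/-! The Herbrand quotient for a group of prime order when the first cohomology vanishes. -/

namespace Pool.Agent.Lib.MP_830c64_nt.CL

open Module

theorem fherb_restrict {A : Type} [AddCommGroup A] [Module.Finite ℤ A] (φ : Module.End ℤ A)
    (U : Submodule ℤ A) (h : ∀ x ∈ U, φ x ∈ U) [Finite ↥(U ⊓ LinearMap.ker φ)] :
    dt (φ.restrict h) ≠ 0 ∧ (U.map φ).toAddSubgroup.relIndex U.toAddSubgroup =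
      (dt (φ.restrict h)).natAbs * Nat.card ↥(U ⊓ LinearMap.ker φ) := by
  have e : LinearMap.ker (φ.restrict h) ≃ ↥(U ⊓ LinearMap.ker φ) :=
    { toFun := fun x => ⟨x.1.1, x.1.2, congrArg Subtype.val x.2⟩
      invFun := fun x => ⟨⟨x.1, x.2.1⟩, Subtype.ext x.2.2⟩
      left_inv := fun _ => rfl
      right_inv := fun _ => rfl }
  have : Finite (LinearMap.ker (φ.restrict h)) := Finite.of_equiv _ e.symm
  obtain ⟨h1, h2⟩ := index_range (φ.restrict h)
  refine ⟨h1, ?_⟩
  rw [← Nat.card_congr e, ← h2, AddSubgroup.relIndex]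
  refine congrArg AddSubgroup.index (AddSubgroup.ext fun x => ?_)
  constructor
  · rintro ⟨y, hy, e⟩
    exact ⟨⟨y, hy⟩, Subtype.ext e⟩
  · rintro ⟨y, e⟩
    exact ⟨y.1, y.2, congrArg Subtype.val e⟩

theorem fherb_index {A : Type} [AddCommGroup A] (φ : Module.End ℤ A) (U : Submodule ℤ A) :
    (U.map φ).toAddSubgroup.relIndex (LinearMap.range φ).toAddSubgroup =
      (U ⊔ LinearMap.ker φ).toAddSubgroup.index := by
  rw [← Submodule.comap_map_eq]
  exact (AddSubgroup.index_comap (U.map φ).toAddSubgroup φ.toAddMonoidHom).symm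

/-- Let `d = s - 1`, `G = ker d`, `B = ker Nm = range d` (`d * Nm = s ^ l - 1 = 0`), `τ` the number
of `x ∈ G` with `l • x = 0`; these form the finite group `G ⊓ B`. `index_range` for `l • 1` on `G`:
`[G : l G] = l ^ rk G * τ`, and `l G = Nm G ≤ range Nm ≤ G`. As in `MP_439fea_co.herbrand` (step
`e5`) `[Nm A : Nm G] = [A : G ⊔ B] = [d A : d B] = [B : d B]`. `index_range` for the restriction
`d'` of `d` to `B`: `[B : d B] = |dt d'| * τ`. On `B`, `geom_end` gives
`d' ^ (l - 1) = (-l) • u'`, so `|dt d'| ^ (l - 1) = l ^ rk B * |dt u'| ≥ l ^ rk B`. Finally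
`rk A ≤ rk G + rk B` (`rk_finrank_add`). -/
theorem herbrand_l {A : Type} [AddCommGroup A] [Module.Finite ℤ A] {l : ℕ} (hl : l.Prime)
    (s : Module.End ℤ A) (hs : s ^ l = 1)
    (h90 : ∀ x, (∑ i ∈ Finset.range l, s ^ i) x = 0 → ∃ y, x = s y - y) :
    (LinearMap.range (∑ i ∈ Finset.range l, s ^ i)).toAddSubgroup.relIndex
        (LinearMap.ker (s - 1)).toAddSubgroup ≠ 0 ∧
      (LinearMap.range (∑ i ∈ Finset.range l, s ^ i)).toAddSubgroup.relIndex
        (LinearMap.ker (s - 1)).toAddSubgroup ^ (l - 1) * l ^ finrank ℤ A ≤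
        l ^ (l * finrank ℤ (LinearMap.ker (s - 1))) := by
  obtain ⟨u, -, hu, e0⟩ := geom_end hl s
  have dN : (s - 1) * ∑ i ∈ Finset.range l, s ^ i = 0 := by rw [mul_geom_sum, hs, sub_self]
  have Nd : (∑ i ∈ Finset.range l, s ^ i) * (s - 1) = 0 := by rw [geom_sum_mul, hs, sub_self]
  have hG : ∀ x ∈ LinearMap.ker (s - 1), (∑ i ∈ Finset.range l, s ^ i) x = (l : ℤ) • x := by
    intro x hx
    have h1 : s x = x := sub_eq_zero.1 hx
    have h2 : ∀ i : ℕ, (s ^ i) x = x := fun i => by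
      rw [Module.End.pow_apply]
      exact Function.iterate_fixed h1 i
    simp only [LinearMap.sum_apply, h2, Finset.sum_const, Finset.card_range, natCast_zsmul]
  generalize ∑ i ∈ Finset.range l, s ^ i = N at *
  have hsd : ∀ x, s x = (s - 1) x + x := fun x => by simp
  have h90' : ∀ x, N x = 0 → ∃ y, (s - 1) y = x := fun x hx => (h90 x hx).imp fun y hy => hy.symm
  generalize s - 1 = d at *
  have hB : LinearMap.range d = LinearMap.ker N := by
    refine le_antisymm ?_ fun x hx => h90' x hx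
    rintro _ ⟨y, rfl⟩
    exact LinearMap.congr_fun Nd y
  have hNG : LinearMap.range N ≤ LinearMap.ker d := by
    rintro _ ⟨y, rfl⟩
    exact LinearMap.congr_fun dN y
  have s1 : ∀ x ∈ LinearMap.ker d, N x ∈ LinearMap.ker d := fun x _ => hNG ⟨x, rfl⟩
  have s2 : ∀ x ∈ LinearMap.ker N, d x ∈ LinearMap.ker N := fun x _ => hB ▸ ⟨x, rfl⟩
  have s3 : ∀ x ∈ LinearMap.ker N, (1 + d * u) x ∈ LinearMap.ker N := fun x hx =>
    Submodule.add_mem _ hx (hB ▸ ⟨u x, rfl⟩)
  have hl0 : (l : ℤ) ≠ 0 := Int.natCast_ne_zero.2 hl.ne_zero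
  have f1 : Finite ↥(LinearMap.ker d ⊓ LinearMap.ker N) :=
    Module.finite_of_fg_torsion _ fun x =>
      ⟨⟨l, mem_nonZeroDivisors_of_ne_zero hl0⟩, Subtype.ext ((hG x.1 x.2.1).symm.trans x.2.2)⟩
  have f2 : Finite ↥(LinearMap.ker N ⊓ LinearMap.ker d) := inf_comm (LinearMap.ker d) _ ▸ f1
  obtain ⟨-, a1⟩ := fherb_restrict N _ s1
  obtain ⟨a2, a3⟩ := fherb_restrict d _ s2
  have b1 : N.restrict s1 = (l : ℤ) • (1 : Module.End ℤ (LinearMap.ker d)) :=
    LinearMap.ext fun x => Subtype.ext (hG x.1 x.2)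
  have b2 : d.restrict s2 ^ (l - 1) = (-(l : ℤ)) • (1 + d * u).restrict s3 := by
    rw [Module.End.pow_restrict]
    refine LinearMap.ext fun x => Subtype.ext ?_
    have h1 := LinearMap.congr_fun e0 x.1
    rw [show N x.1 = 0 from x.2, LinearMap.add_apply, LinearMap.smul_apply] at h1
    change (d ^ (l - 1)) x.1 = (-(l : ℤ)) • (1 + d * u) x.1
    rw [neg_smul]
    exact eq_neg_of_add_eq_zero_left h1.symm
  have b3 := congrArg (fun φ => (dt φ).natAbs) b2
  simp only [dt_pow, dt_smul, Int.natAbs_pow, Int.natAbs_mul, Int.natAbs_neg,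
    Int.natAbs_natCast] at b3
  rw [b1, dt_smul, dt_one, mul_one, Int.natAbs_pow, Int.natAbs_natCast] at a1
  have e5 : ((LinearMap.ker d).map N).toAddSubgroup.relIndex (LinearMap.range N).toAddSubgroup =
      ((LinearMap.ker N).map d).toAddSubgroup.relIndex (LinearMap.ker N).toAddSubgroup := by
    rw [fherb_index, sup_comm, ← fherb_index, hB]
  have e6 := AddSubgroup.relIndex_mul_relIndex ((LinearMap.ker d).map N).toAddSubgroup
    (LinearMap.range N).toAddSubgroup (LinearMap.ker d).toAddSubgroup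
    (fun _ hx => LinearMap.map_le_range hx) hNG
  have e7 := MP_439fea_co.rk_finrank_add d
  rw [hB] at e7
  rw [e5, a1, a3, inf_comm (LinearMap.ker N), mul_right_comm] at e6
  have e8 := Nat.eq_of_mul_eq_mul_right Nat.card_pos e6
  have a4 := Int.natAbs_ne_zero.2 a2
  generalize (LinearMap.range N).toAddSubgroup.relIndex (LinearMap.ker d).toAddSubgroup = X at *
  generalize (dt (d.restrict s2)).natAbs = D at *
  generalize (dt ((1 + d * u).restrict s3)).natAbs = E at *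
  have hE : E ≠ 0 := by
    rintro rfl
    exact pow_ne_zero _ a4 (b3.trans (mul_zero _))
  refine ⟨fun h => pow_ne_zero _ hl.ne_zero (by rw [← e8, h, mul_zero]), ?_⟩
  rw [← e7]
  generalize finrank ℤ (LinearMap.ker N) = b at *
  generalize finrank ℤ (LinearMap.ker d) = g at *
  have h1 : l ^ b ≤ D ^ (l - 1) := b3 ▸ Nat.le_mul_of_pos_right _ (Nat.pos_of_ne_zero hE)
  calc X ^ (l - 1) * l ^ (b + g) = X ^ (l - 1) * l ^ b * l ^ g := by ring
    _ ≤ X ^ (l - 1) * D ^ (l - 1) * l ^ g := by gcongr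
    _ = (l ^ g) ^ (l - 1 + 1) := by rw [← mul_pow, mul_comm X, e8, pow_succ]
    _ = l ^ (l * g) := by rw [Nat.sub_add_cancel hl.pos, ← pow_mul, mul_comm]

end Pool.Agent.Lib.MP_830c64_nt.CL
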