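import Pool.Agent.Lib.MP_830c64_nt.CL.UDefs

/-! Ideal classes. -/

namespace Pool.Agent.Lib.MP_830c64_nt.CL

open NumberField Module
open scoped nonZeroDivisors Classical

variable {K : Type} [Field K] [NumberField K]

theorem cls_mul {a b : Ideal (𝓞 K)} (ha : a ≠ ⊥) (hb : b ≠ ⊥) : cls (a * b) = cls a * cls b := by
  rw [cls, cls, cls, dif_neg ha, dif_neg hb, dif_neg (show a * b ≠ ⊥ from mul_ne_zero ha hb),
    ← map_mul]
  rfl

theorem cls_top : cls (⊤ : Ideal (𝓞 K)) = 1 := by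
  rw [cls, dif_neg top_ne_bot, ClassGroup.mk0_eq_one_iff]
  exact top_isPrincipal

/-- `ClassGroup.mk0_eq_mk0_inv_iff`. -/
theorem cls_eq_inv_iff {a b : Ideal (𝓞 K)} (ha : a ≠ ⊥) (hb : b ≠ ⊥) :
    cls a = (cls b)⁻¹ ↔ ∃ x : 𝓞 K, x ≠ 0 ∧ a * b = Ideal.span {x} := by
  rw [cls, cls, dif_neg ha, dif_neg hb, ClassGroup.mk0_eq_mk0_inv_iff]

/-- A generator of the integral ideal `c * a` is integral; `FractionalIdeal.coeIdeal_span_singleton`,
`FractionalIdeal.coeIdeal_inj`. -/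
theorem gen_coe_iff {c a : Ideal (𝓞 K)} {x : K} :
    Gen (c : FrI K) x a ↔ ∃ y : 𝓞 K, y ≠ 0 ∧ x = y ∧ c * a = Ideal.span {y} := by
  rw [Gen, ← FractionalIdeal.coeIdeal_mul]
  constructor
  · rintro ⟨h0, h⟩
    have := FractionalIdeal.mem_spanSingleton_self (𝓞 K)⁰ x
    rw [h, FractionalIdeal.mem_coeIdeal] at this
    obtain ⟨y, -, rfl⟩ := this
    rw [← FractionalIdeal.coeIdeal_span_singleton, FractionalIdeal.coeIdeal_inj] at h
    exact ⟨y, fun e => h0 (by rw [e, map_zero]), rfl, h.symm⟩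
  · rintro ⟨y, h0, rfl, h⟩
    refine ⟨by exact_mod_cast h0, ?_⟩
    rw [h, FractionalIdeal.coeIdeal_span_singleton]

theorem gen_iff_cls {c a : Ideal (𝓞 K)} (hc : c ≠ ⊥) (ha : a ≠ ⊥) :
    (∃ x, Gen (c : FrI K) x a) ↔ cls a = (cls c)⁻¹ := by
  rw [cls_eq_inv_iff ha hc, mul_comm]
  constructor
  · rintro ⟨x, hx⟩
    obtain ⟨y, h0, -, h⟩ := gen_coe_iff.1 hx
    exact ⟨y, h0, h⟩
  · rintro ⟨y, h0, h⟩
    exact ⟨y, gen_coe_iff.2 ⟨y, h0, rfl, h⟩⟩

theorem diff_ne_bot (K : Type) [Field K] [NumberField K] : differentIdeal ℤ (𝓞 K) ≠ ⊥ := by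
  rw [ne_eq, ← FractionalIdeal.coeIdeal_inj (K := K), coeIdeal_differentIdeal ℤ ℚ K (𝓞 K)]
  simp

/-- `dual ℤ ℚ c = (d * c)⁻¹` with `d` the different (`FractionalIdeal.dual_eq_mul_inv`,
`coeIdeal_differentIdeal`), so `spanSingleton x * (d * c) = a`; clear the denominator of `x` and use
`ClassGroup.mk0_eq_mk0_iff`. -/
theorem gen_dual_cls {c a : Ideal (𝓞 K)} (hc : c ≠ ⊥) (ha : a ≠ ⊥) {x : K}
    (h : Gen (FractionalIdeal.dual ℤ ℚ (c : FrI K)) x a) :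
    cls a = cls (differentIdeal ℤ (𝓞 K)) * cls c := by
  have hd := diff_ne_bot K
  have hdc : differentIdeal ℤ (𝓞 K) * c ≠ ⊥ := mul_ne_zero hd hc
  rw [← cls_mul hd hc, cls, cls, dif_neg ha, dif_neg hdc, eq_comm,
    ClassGroup.mk0_eq_mk0_iff_exists_fraction_ring K]
  refine ⟨x, h.1, ?_⟩
  have h1 : FractionalIdeal.dual ℤ ℚ (1 : FrI K) ≠ 0 :=
    FractionalIdeal.dual_ne_zero _ _ one_ne_zero
  have h2 : (c : FrI K) ≠ 0 := FractionalIdeal.coeIdeal_ne_zero.2 hc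
  change _ * ((differentIdeal ℤ (𝓞 K) * c : Ideal (𝓞 K)) : FrI K) = (a : FrI K)
  rw [h.2, FractionalIdeal.dual_eq_mul_inv, FractionalIdeal.coeIdeal_mul,
    coeIdeal_differentIdeal ℤ ℚ K (𝓞 K)]
  field_simp

/-- Take `d ≠ ⊥` in the class `γ⁻¹` (`ClassGroup.mk0_surjective`). By
`IsDedekindDomain.exists_sup_span_eq` there is `x` with `span {f} * d ⊔ span {x} = d`; write
`span {x} = d * c` and cancel `d`. If `x = 0` then `span {f} = ⊤` and any representative works. -/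
theorem exists_coprime_rep {f : ℕ} (hf : f ≠ 0) (γ : ClassGroup (𝓞 K)) :
    ∃ c : Ideal (𝓞 K), c ≠ ⊥ ∧ IsCoprime c (Ideal.span {(f : 𝓞 K)}) ∧ cls c = γ := by
  obtain ⟨⟨d, hd⟩, hγ⟩ := ClassGroup.mk0_surjective γ⁻¹
  have hd0 : d ≠ ⊥ := nonZeroDivisors.ne_zero hd
  have hγ' : cls d = γ⁻¹ := by rw [cls, dif_neg hd0]; exact hγ
  have hf0 : Ideal.span {(f : 𝓞 K)} ≠ ⊥ := by
    rw [ne_eq, Ideal.span_singleton_eq_bot]; exact_mod_cast hf
  obtain ⟨x, hx⟩ := IsDedekindDomain.exists_sup_span_eq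
    (I := d * Ideal.span {(f : 𝓞 K)}) (J := d) Ideal.mul_le_left (mul_ne_zero hd0 hf0)
  obtain ⟨c, hc⟩ := Ideal.dvd_iff_le.2 (le_sup_right.trans hx.le)
  have hco : IsCoprime c (Ideal.span {(f : 𝓞 K)}) := by
    rw [Ideal.isCoprime_iff_sup_eq, sup_comm]
    apply mul_left_cancel₀ hd0
    rw [Ideal.mul_sup, ← hc, hx, Ideal.mul_top]
  by_cases hc0 : c = ⊥
  · obtain ⟨⟨e, he⟩, rfl⟩ := ClassGroup.mk0_surjective γ
    have he0 : e ≠ ⊥ := nonZeroDivisors.ne_zero he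
    rw [hc0, Ideal.isCoprime_iff_sup_eq, bot_sup_eq] at hco
    exact ⟨e, he0, by rw [Ideal.isCoprime_iff_sup_eq, hco, sup_top_eq], by rw [cls, dif_neg he0]⟩
  · refine ⟨c, hc0, hco, ?_⟩
    rw [← inv_inv γ, ← hγ', cls_eq_inv_iff hc0 hd0, mul_comm]
    refine ⟨x, fun e => mul_ne_zero hd0 hc0 ?_, hc.symm⟩
    rw [← hc, e]; exact Ideal.span_singleton_eq_bot.2 rfl

/-- `H = Sq ⊔ zpowers d` with `Sq` the range of squaring; its elements lie in `Sq ∪ d • Sq`, and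
`card Sq * card ker = card G` (`Subgroup.card_mul_index`, `Subgroup.index_ker`). -/
theorem exists_G0 {G : Type} [CommGroup G] [Finite G] (d : G) : ∃ H : Subgroup G, d ∈ H ∧
    (∀ c, c ^ 2 ∈ H) ∧ Nat.card H * Nat.card {c : G // c ^ 2 = 1} ≤ 2 * Nat.card G := by
  let φ : G →* G := powMonoidHom 2
  let H : Subgroup G :=
    { carrier := {g | g ∈ φ.range ∨ d * g ∈ φ.range}
      one_mem' := Or.inl (one_mem _)
      mul_mem' := by
        have hd : d * d ∈ φ.range := ⟨d, sq d⟩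
        rintro a b (ha | ha) (hb | hb)
        · exact Or.inl (mul_mem ha hb)
        · exact Or.inr (by rw [mul_left_comm]; exact mul_mem ha hb)
        · exact Or.inr (by rw [← mul_assoc]; exact mul_mem ha hb)
        · refine Or.inl ?_
          have := mul_mem (mul_mem ha hb) (inv_mem hd)
          rwa [mul_mul_mul_comm, mul_comm (d * d), mul_inv_cancel_right] at this
      inv_mem' := by
        have hd : d * d ∈ φ.range := ⟨d, sq d⟩
        rintro a (ha | ha)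
        · exact Or.inl (inv_mem ha)
        · refine Or.inr ?_
          have := mul_mem hd (inv_mem ha)
          rwa [mul_inv, ← mul_assoc, mul_inv_cancel_right] at this }
  refine ⟨H, Or.inr ⟨d, sq d⟩, fun c => Or.inl ⟨c, rfl⟩, ?_⟩
  have h1 : Nat.card H ≤ 2 * Nat.card φ.range := by
    have : Nat.card H ≤ Nat.card (φ.range ⊕ φ.range) := by
      refine Nat.card_le_card_of_surjective (β := H) (Sum.elim (fun g : φ.range => ⟨g, Or.inl g.2⟩)
        (fun g : φ.range => ⟨d⁻¹ * g, Or.inr (by rw [mul_inv_cancel_left]; exact g.2)⟩)) ?_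
      rintro ⟨g, hg | hg⟩
      · exact ⟨Sum.inl ⟨g, hg⟩, rfl⟩
      · exact ⟨Sum.inr ⟨d * g, hg⟩, Subtype.ext (inv_mul_cancel_left d g)⟩
    rwa [Nat.card_sum, ← two_mul] at this
  have h2 : Nat.card φ.ker * Nat.card φ.range = Nat.card G := by
    rw [← Subgroup.index_ker, Subgroup.card_mul_index]
  have h3 : Nat.card {c : G // c ^ 2 = 1} = Nat.card φ.ker := rfl
  rw [h3, ← h2, mul_comm (Nat.card φ.ker), ← mul_assoc]
  exact Nat.mul_le_mul_right _ h1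

end Pool.Agent.Lib.MP_830c64_nt.CL
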