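import Pool.Agent.Lib.MP_830c64_nt.CL.FOmB
import Pool.Agent.Lib.MP_830c64_nt.CL.UCls

/-! The additive function is not zero on the ideals prime to the modulus. -/

namespace Pool.Agent.Lib.MP_830c64_nt.CL

open NumberField WithZero MP_439fea_co Module
open scoped Classical

variable {k M : Type} [Field k] [NumberField k] [Field M] [NumberField M] [Algebra k M]
  {l Δ : ℕ} {S Ra Ie : Finset (P k)} {ψ : P k → kˣ → ZMod l} {c : P k → ZMod l}
  {Ω : Ideal (𝓞 k) → ZMod l}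

theorem OmD.exists_ne (h : OmD M l Δ S Ra Ie ψ c Ω) (hl : l.Prime) (h0 : Δ ≠ 0) :
    ∃ a : Ideal (𝓞 k), a ≠ ⊥ ∧ IsCoprime a (Ideal.span {((l ^ 2 * Δ : ℕ) : 𝓞 k)}) ∧ Ω a ≠ 0 := by
  have := Fact.mk hl
  have hf : l ^ 2 * Δ ≠ 0 := mul_ne_zero (pow_ne_zero _ hl.ne_zero) h0
  have hfK : ((l ^ 2 * Δ : ℕ) : k) ≠ 0 := Nat.cast_ne_zero.2 hf
  by_cases hR : ∃ v ∈ Ra, c v ≠ 0
  · obtain ⟨v₀, hv₀, hc₀⟩ := hR
    obtain ⟨-, -, -, -, y, hy, hy'⟩ := h.tr v₀ hv₀
    obtain ⟨γ, hγ, hγ'⟩ := herb_lower (finite_supp hfK).toFinset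
      (fun v => val v ((l ^ 2 * Δ : ℕ) : k)) (fun v _ => by simpa using hfK)
    obtain ⟨z, hz, hz1⟩ : ∃ z : P k → kˣ, z = (fun v => if v = v₀ then y else 1) ∧
        ∀ v, val v (z v : k) = 1 := by
      refine ⟨_, rfl, fun v => ?_⟩
      split_ifs with e
      · exact e ▸ hy.1
      · simp
    obtain ⟨x, hx, hx'⟩ := approx (finite_supp hfK).toFinset (fun v => (z v : k)) γ hγ
    have h1 : ∀ v ∈ (finite_supp hfK).toFinset, val v x = 1 := fun v hv => by
      have := (val v).map_add_eq_of_lt_right (x := x - z v) (y := (z v : k)) (by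
        rw [hz1]
        exact ((hx v hv).trans_lt (hγ' v hv)).trans_le (val_natCast_le_one v _))
      rw [sub_add_cancel] at this
      exact this.trans (hz1 v)
    obtain ⟨a, rfl⟩ := exists_int_of_val_le_one (x := x) fun v => by
      by_cases hv : v ∈ (finite_supp hfK).toFinset
      · exact (h1 v hv).le
      · exact hx' v hv
    have h2 : ∀ v ∈ Ra, ∀ t : ℕ, val v ((l : k) ^ 2) ≤ exp (-(t : ℤ)) →
        val v ((l ^ 2 * Δ : ℕ) : k) ≤ exp (-((t + 1 : ℕ) : ℤ)) := fun v hv t ht => by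
      have h3 := (Val_le_iff_mem v (Δ : 𝓞 k) 1).2 (by rw [pow_one]; exact (h.tr v hv).1)
      rw [Nat.cast_mul, Nat.cast_pow, map_mul, Nat.cast_add, neg_add, exp_add]
      exact mul_le_mul' ht (by simpa using h3)
    have h3 : ∀ v ∈ Ra, v ∈ (finite_supp hfK).toFinset := fun v hv => by
      obtain ⟨-, -, -, ⟨t, ht, -⟩, -⟩ := h.tr v hv
      have := (h2 v hv t ht).trans_lt (show _ < exp (0 : ℤ) from exp_lt_exp.2 (by omega))
      simpa using this.ne
    have ha : (a : k) ≠ 0 := fun e => by simpa [e] using h1 v₀ (h3 v₀ hv₀)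
    have h4 : ∀ v ∈ Ra, ψ v (Units.mk0 (a : k) ha) = ψ v (z v) := fun v hv => by
      obtain ⟨-, hm, -, ⟨t, ht, ht'⟩, -⟩ := h.tr v hv
      rw [← mul_inv_cancel_left (z v) (Units.mk0 (a : k) ha), hm, ht' (_ * _) ⟨?_, ?_⟩, add_zero]
      · simp [hz1, h1 v (h3 v hv)]
      · have e : (((z v)⁻¹ * Units.mk0 (a : k) ha : kˣ) : k) - 1 = ((a : k) - z v) / z v := by
          simp only [Units.val_mul, Units.val_inv_eq_inv_val, Units.val_mk0]
          field_simp
        rw [e, map_div₀, hz1, div_one]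
        exact ((hx v (h3 v hv)).trans (hγ' v (h3 v hv)).le).trans (h2 v hv t ht)
    refine ⟨Ideal.span {a}, fun e => ha ?_, ?_, ?_⟩
    · rw [Ideal.span_singleton_eq_bot.1 e]
      rfl
    · rw [Ideal.isCoprime_iff_sup_eq]
      by_contra hne
      obtain ⟨m, hm, hle⟩ := Ideal.exists_le_maximal _ hne
      have m1 : ((l ^ 2 * Δ : ℕ) : 𝓞 k) ∈ m :=
        hle (Ideal.mem_sup_right (Ideal.mem_span_singleton_self _))
      have hb : m ≠ ⊥ := fun e => by
        rw [e, Ideal.mem_bot] at m1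
        exact hf (by exact_mod_cast m1)
      have m2 := (Val_lt_iff_mem (⟨m, hm.isPrime, hb⟩ : P k) _).2 m1
      have m3 := (Val_lt_iff_mem (⟨m, hm.isPrime, hb⟩ : P k) _).2
        (hle (Ideal.mem_sup_left (Ideal.mem_span_singleton_self a)))
      exact m3.ne (h1 _ (by simpa using m2.ne))
    · rw [h.span ha, Finset.sum_eq_single_of_mem v₀ hv₀ fun v hv hne => ?_, h4 v₀ hv₀, hz]
      · simpa using ⟨hc₀, hy'⟩
      · have := (h.tr v hv).2.1 1 1
        rw [mul_one, left_eq_add] at this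
        rw [h4 v hv, hz]
        simp [hne, this]
  · obtain ⟨v, hv, hc⟩ := h.ne.resolve_left hR
    push Not at hR
    obtain ⟨b, hb, hb', hcl⟩ := exists_coprime_rep hf (cls v.asIdeal)⁻¹
    obtain ⟨x, hx, e⟩ := (cls_eq_inv_iff hb v.ne_bot).1 hcl
    refine ⟨b, hb, hb', fun h1 => hc ?_⟩
    have h2 := h.eq v.asIdeal v.ne_bot 1 fun u hu => by
      rw [Units.val_one, ord_one, ordI_prime, if_neg fun e : u = v => hu (e ▸ (h.ti v hv).1)]
    have h3 := h.mul b v.asIdeal hb v.ne_bot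
    rw [e, h.span (by exact_mod_cast hx), h1, h2,
      Finset.sum_eq_zero fun u hu => by rw [hR u hu, zero_mul],
      Finset.sum_eq_zero fun u hu => by rw [hR u hu, zero_mul],
      Finset.sum_eq_single_of_mem v hv fun u _ hne => by simp [ord_one, ordI_prime, hne]] at h3
    simpa [ord_one, ordI_prime] using h3

end Pool.Agent.Lib.MP_830c64_nt.CL
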