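import Pool.Agent.Lib.MP_830c64_nt.CL.FOmA
import Pool.Agent.Lib.MP_830c64_nt.CL.FOmC
import Pool.Agent.Lib.MP_830c64_nt.CL.URay

/-! The first inequality. -/

namespace Pool.Agent.Lib.MP_830c64_nt.CL

open NumberField WithZero MP_439fea_co Module
open scoped Classical

theorem fi_coprime {R : Type} [CommRing R] {p : Ideal R} (hp : p.IsMaximal) {a : R} :
    IsCoprime p (Ideal.span {a}) ↔ a ∉ p := by
  rw [Ideal.isCoprime_iff_sup_eq]
  refine ⟨fun h ha => hp.ne_top ?_, fun h => ?_⟩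
  · rwa [sup_eq_left.2 ((Ideal.span_singleton_le_iff_mem p).2 ha)] at h
  · exact hp.1.2 _ (left_lt_sup.2 fun h' => h ((Ideal.span_singleton_le_iff_mem p).1 h'))

theorem fi_ne_bot {K : Type} [Field K] [NumberField K] {f : ℕ} (hf : 2 ≤ f) {I : Ideal (𝓞 K)}
    (h : IsCoprime I (Ideal.span {(f : 𝓞 K)})) : I ≠ ⊥ := by
  rintro rfl
  rw [Ideal.isCoprime_iff_sup_eq, bot_sup_eq] at h
  exact span_ne_top hf h

/-- `c = 2 N + 1`, `f = l ^ 2 * Δ` (`l ≤ N` by `Module.finrank_mul_finrank`, `l < 2 ^ l`),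
`w I = if IsCoprime I (span {f}) then ZMod.stdAddChar (Ω I) else 0` (`ZMod.injective_stdAddChar`,
`span_ne_top`). For the norms use `UniqueFactorizationMonoid.induction_on_prime` on `J`,
`OmD.norm`, and `prime_cases` or `Ideal.relNorm_eq_pow_of_isMaximal` to see that the norm of a prime
not containing `f` is prime to `f`. -/
theorem fi : FIStmt := by
  intro N
  refine ⟨2 * N + 1, fun k M _ _ _ _ _ _ l σ x Δ hN hl hd hk h1 h0 hΔ => ?_⟩
  obtain ⟨S, Ra, Ie, ψ, c, Ω, h⟩ := omd_exists hl hd h1 h0 hΔ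
  have : NeZero l := ⟨hl.ne_zero⟩
  have hΔ1 : 1 ≤ Δ := Nat.pos_of_ne_zero h0
  have hf : 2 ≤ l ^ 2 * Δ := by have := hl.two_le; nlinarith
  have htop : Ω ⊤ = 0 := by
    have := h.mul ⊤ ⊤ top_ne_bot top_ne_bot
    rw [Ideal.top_mul] at this
    exact left_eq_add.1 this
  let w : Ideal (𝓞 k) → ℂ := fun I =>
    if IsCoprime I (Ideal.span {((l ^ 2 * Δ : ℕ) : 𝓞 k)}) then ZMod.stdAddChar (Ω I) else 0
  have hw : Ray k (l ^ 2 * Δ) w := by
    refine ⟨fun I J => ?_, ?_, fun I => ?_, fun I hI => if_neg hI, fun a ha ha0 => ?_⟩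
    · simp only [w, IsCoprime.mul_left_iff]
      by_cases hI : IsCoprime I (Ideal.span {((l ^ 2 * Δ : ℕ) : 𝓞 k)})
      · by_cases hJ : IsCoprime J (Ideal.span {((l ^ 2 * Δ : ℕ) : 𝓞 k)})
        · rw [if_pos ⟨hI, hJ⟩, if_pos hI, if_pos hJ, h.mul _ _ (fi_ne_bot hf hI) (fi_ne_bot hf hJ),
            AddChar.map_add_eq_mul]
        · rw [if_neg fun h => hJ h.2, if_neg hJ, mul_zero]
      · rw [if_neg fun h => hI h.1, if_neg hI, zero_mul]
    · simp only [w]
      rw [if_pos (Ideal.isCoprime_iff_sup_eq.2 (top_sup_eq _)), htop, AddChar.map_zero_eq_one]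
    · simp only [w]
      split_ifs
      · rw [ZMod.stdAddChar_apply, Circle.norm_coe]
      · simp
    · simp only [w]
      rw [if_pos, h.ray ha0 ha, AddChar.map_zero_eq_one]
      exact Ideal.isCoprime_iff_exists.2 ⟨a, Ideal.mem_span_singleton_self a, -(a - 1),
        neg_mem ha, by ring⟩
  refine ⟨l ^ 2 * Δ, w, hf, ?_, Dvd.intro_left _ rfl, hw, fun I hI => ?_, fun J => ?_, ?_⟩
  · have hlN : l ≤ N := by
      refine le_trans ?_ hN
      rw [← Module.finrank_mul_finrank ℚ k M, hd]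
      exact Nat.le_mul_of_pos_left _ Module.finrank_pos
    have a1 : l ≤ 2 ^ N := hlN.trans Nat.lt_two_pow_self.le
    calc l ^ 2 * Δ ≤ (2 ^ N) ^ 2 * Δ ^ (2 * N + 1) :=
          Nat.mul_le_mul (Nat.pow_le_pow_left a1 2) (Nat.le_self_pow (by omega) _)
      _ ≤ 2 ^ (2 * N + 1) * Δ ^ (2 * N + 1) := by
          rw [← pow_mul]
          exact Nat.mul_le_mul_right _ (Nat.pow_le_pow_right (by norm_num) (by omega))
      _ = _ := (mul_pow _ _ _).symm
  · simp only [w]
    rw [if_pos hI, ← AddChar.map_nsmul_eq_pow, nsmul_eq_mul, ZMod.natCast_self, zero_mul,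
      AddChar.map_zero_eq_one]
  · refine UniqueFactorizationMonoid.induction_on_prime J (fun hJ => absurd rfl (fi_ne_bot hf hJ))
      (fun I hI _ => ?_) fun a p _ hp ih hJ => ?_
    · rw [Ideal.isUnit_iff.1 hI, Ideal.relNorm_top, hw.one]
    · rw [IsCoprime.mul_left_iff] at hJ
      rw [map_mul, hw.mul, ih hJ.2, mul_one]
      let u : P M := ⟨p, Ideal.isPrime_of_prime hp, hp.ne_zero⟩
      have hu : ((l ^ 2 * Δ : ℕ) : 𝓞 M) ∉ u.asIdeal := (fi_coprime u.isMaximal).1 hJ.1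
      have : u.asIdeal.LiesOver (und k u).asIdeal := ⟨rfl⟩
      have := (und k u).isPrime
      obtain ⟨s, hs⟩ := Ideal.exists_relNorm_eq_pow_of_isPrime u.asIdeal (und k u).asIdeal
      have hz := h.norm hl hd hΔ u fun h' => hu (by
        rw [Nat.cast_mul]; exact Ideal.mul_mem_left _ _ h')
      change w (Ideal.relNorm (𝓞 k) u.asIdeal) = 1
      simp only [w]
      rw [if_pos, hz, AddChar.map_zero_eq_one]
      rw [hs]
      refine IsCoprime.pow_left ((fi_coprime (und k u).isMaximal).2 fun h' => hu ?_)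
      have := Ideal.mem_comap.1 h'
      rwa [map_natCast] at this
  · obtain ⟨a, -, ha, hΩ⟩ := h.exists_ne hl h0
    refine ⟨a, ?_, ?_⟩ <;> simp only [w] <;> rw [if_pos ha]
    · rw [ZMod.stdAddChar_apply]
      exact Circle.coe_ne_zero _
    · exact fun e => hΩ (ZMod.injective_stdAddChar (e.trans (AddChar.map_zero_eq_one _).symm))

end Pool.Agent.Lib.MP_830c64_nt.CL
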