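import Pool.Agent.Lib.MP_830c64_nt.CL.FPoly

/-! The ramification break of an automorphism of prime order. -/

namespace Pool.Agent.Lib.MP_830c64_nt.CL

open WithZero MP_439fea_co

/-- `Nat.find` for `∃ x ≠ 0, w (σ x - x) = exp (-t) * w x`; always `w (σ x - x) ≤ w x`. -/
theorem exists_break {k M : Type} [Field k] [Field M] [Algebra k M] (w : Valuation M ℤᵐ⁰)
    (σ : M ≃ₐ[k] M) (h1 : σ ≠ 1) (hw : ∀ x, w (σ x) = w x) :
    ∃ t : ℕ, (∀ x, w (σ x - x) ≤ exp (-(t : ℤ)) * w x) ∧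
      ∃ x, x ≠ 0 ∧ w (σ x - x) = exp (-(t : ℤ)) * w x := by
  classical
  have key : ∀ x, σ x - x ≠ 0 → x ≠ 0 ∧ ∃ t : ℕ, w (σ x - x) = exp (-(t : ℤ)) * w x := by
    intro x hx
    have h0 : x ≠ 0 := by rintro rfl; simp at hx
    have a1 : w (σ x - x) ≤ w x := (w.map_sub _ _).trans (by rw [hw, max_self])
    have a2 := w.ne_zero_iff.2 hx
    have a3 := w.ne_zero_iff.2 h0
    rw [← exp_log a2, ← exp_log a3, exp_le_exp] at a1
    refine ⟨h0, (log (w x) - log (w (σ x - x))).toNat, ?_⟩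
    rw [Int.toNat_of_nonneg (by omega), neg_sub, exp_sub, exp_log a2, exp_log a3,
      div_mul_cancel₀ _ a3]
  have hex : ∃ t : ℕ, ∃ x, x ≠ 0 ∧ w (σ x - x) = exp (-(t : ℤ)) * w x := by
    obtain ⟨x, hx⟩ := DFunLike.ne_iff.1 h1
    obtain ⟨h0, t, ht⟩ := key x (sub_ne_zero.2 hx)
    exact ⟨t, x, h0, ht⟩
  refine ⟨Nat.find hex, fun x => ?_, Nat.find_spec hex⟩
  rcases eq_or_ne (σ x - x) 0 with h | h
  · rw [h, map_zero]
    exact zero_le
  · obtain ⟨h0, t, ht⟩ := key x h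
    have := Nat.find_min' hex ⟨x, h0, ht⟩
    rw [ht]
    exact mul_le_mul_left (exp_le_exp.2 (by omega)) _

/-- For `t = 0` use `val_nat_le_one`. Let `s` be `σ` as an element of `Module.End ℤ M`, `d = s - 1`,
`u` from `geom_end` (it preserves the subgroups `{y | w y ≤ γ}`). From `d * ∑ s ^ i = s ^ l - 1 = 0`:
`d ^ l x = - l (d x + d (d (u x)))`. The left side has value `≤ exp (-(l t)) * w x`, and for `t ≥ 1`
the bracket has value `exp (-t) * w x` (`Valuation.map_add_eq_of_lt_left`). -/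
theorem val_prime_le {k M : Type} [Field k] [Field M] [Algebra k M] (w : Valuation M ℤᵐ⁰)
    (σ : M ≃ₐ[k] M) {l : ℕ} (hl : l.Prime) (hσ : σ ^ l = 1) (hw : ∀ x, w (σ x) = w x) {t : ℕ}
    (ht : ∀ x, w (σ x - x) ≤ exp (-(t : ℤ)) * w x) {x : M} (h0 : x ≠ 0)
    (hx : w (σ x - x) = exp (-(t : ℤ)) * w x) : w (l : M) ≤ exp (-(((l - 1) * t : ℕ) : ℤ)) := by
  rcases Nat.eq_zero_or_pos t with rfl | h1
  · simpa using val_nat_le_one w l
  let s : Module.End ℤ M := (σ : M →+ M).toIntLinearMap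
  have hs : ∀ (i : ℕ) y, (s ^ i) y = (σ ^ i) y := fun i => by
    induction i with
    | zero => exact fun y => rfl
    | succ i ih => exact fun y => by rw [pow_succ, pow_succ, Module.End.mul_apply, ih]; rfl
  have hd : ∀ y, (s - 1) y = σ y - y := fun y => rfl
  obtain ⟨u, -, hu, he⟩ := geom_end hl s
  have e1 := mul_geom_sum s l
  rw [he, mul_add, ← pow_succ', Nat.sub_add_cancel hl.one_lt.le, mul_smul_comm] at e1
  have e2 : ((s - 1) ^ l) x = -((l : M) * ((s - 1) x + (s - 1) ((s - 1) (u x)))) := by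
    have := congrArg (fun φ : Module.End ℤ M => φ x) e1
    simp only [LinearMap.add_apply, LinearMap.smul_apply, Module.End.mul_apply, map_add,
      Module.End.one_apply] at this
    rw [LinearMap.sub_apply (s ^ l), hs, hσ, zsmul_eq_mul, Int.cast_natCast] at this
    exact eq_neg_of_add_eq_zero_left (this.trans (sub_self x))
  have a1 : ∀ j : ℕ, w (((s - 1) ^ j) x) ≤ exp (-((j * t : ℕ) : ℤ)) * w x := fun j => by
    induction j with
    | zero => simp
    | succ j ih =>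
      rw [pow_succ', Module.End.mul_apply, hd]
      refine (ht _).trans ((mul_le_mul_right ih _).trans_eq ?_)
      rw [← mul_assoc, ← exp_add]
      congr 2
      push_cast
      ring
  have a2 : w (u x) ≤ w x := hu (w.leAddSubgroup (w x)) (fun y hy => (hw y).trans_le hy) x
    (le_refl (w x))
  have a3 := w.ne_zero_iff.2 h0
  have a4 : w ((s - 1) ((s - 1) (u x))) < w ((s - 1) x) := by
    rw [hd, hd x, hx]
    refine (ht _).trans_lt (mul_lt_mul_of_pos_left ?_ exp_pos)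
    refine ((ht _).trans (mul_le_mul_right a2 _)).trans_lt ?_
    exact mul_lt_of_lt_one_left (zero_lt_iff.2 a3) (exp_lt_exp.2 (by omega : -(t : ℤ) < 0))
  have a5 := a1 l
  rw [e2, w.map_neg, map_mul, w.map_add_eq_of_lt_left a4, hd, hx, ← mul_assoc] at a5
  have a6 := le_of_mul_le_mul_right a5 (zero_lt_iff.2 a3)
  refine le_of_mul_le_mul_right (a6.trans_eq ?_) exp_pos
  rw [← exp_add]
  congr 1
  rw [Nat.cast_mul, Nat.cast_mul, Nat.cast_sub hl.one_lt.le]
  push_cast
  ring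

end Pool.Agent.Lib.MP_830c64_nt.CL
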