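import Pool.Agent.Lib.MP_830c64_nt.CL.FDefs

/-! Exponents of primes in ideals; the additive function on ideals. -/

namespace Pool.Agent.Lib.MP_830c64_nt.CL

open NumberField WithZero MP_439fea_co
open scoped Classical

variable {k : Type} [Field k] [NumberField k]

/-- `multiplicity_mul`, `FiniteMultiplicity.of_prime_left`. -/
theorem ordI_mul (v : P k) {a b : Ideal (𝓞 k)} (ha : a ≠ ⊥) (hb : b ≠ ⊥) :
    ordI v (a * b) = ordI v a + ordI v b := by
  rw [ordI, ordI, ordI, multiplicity_mul v.prime (.of_prime_left v.prime (mul_ne_zero ha hb)),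
    Nat.cast_add]

/-- `Val_le_iff_mem`, `val_eq_exp`, `FiniteMultiplicity.pow_dvd_iff_le_multiplicity`. -/
theorem ordI_span (v : P k) {x : 𝓞 k} (hx : x ≠ 0) : ordI v (Ideal.span {x}) = MP_439fea_co.ord v (x : k) := by
  have hx' : (x : k) ≠ 0 := RingOfIntegers.coe_ne_zero_iff.2 hx
  have h : ∀ n : ℕ, n ≤ multiplicity v.asIdeal (Ideal.span {x}) ↔
      (n : ℤ) ≤ MP_439fea_co.ord v (x : k) := fun n => by
    rw [← (FiniteMultiplicity.of_prime_left v.prime
      (Ideal.span_singleton_eq_bot.not.2 hx)).pow_dvd_iff_le_multiplicity,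
      Ideal.dvd_span_singleton, ← Val_le_iff_mem, val_eq_exp v hx', exp_le_exp, neg_le_neg_iff]
  have h0 := (h 0).1 (Nat.zero_le _)
  have h1 := (h _).1 le_rfl
  have h2 := (h (MP_439fea_co.ord v (x : k)).toNat).2 (by omega)
  rw [ordI]
  omega

theorem ordI_eq_zero {v : P k} {a : Ideal (𝓞 k)} (h : ¬ v.asIdeal ∣ a) : ordI v a = 0 := by
  rw [ordI, multiplicity_eq_zero.2 h, Nat.cast_zero]

theorem ordI_prime (v u : P k) : ordI v u.asIdeal = if v = u then 1 else 0 := by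
  split_ifs with h
  · rw [h, ordI, multiplicity_self, Nat.cast_one]
  · exact ordI_eq_zero fun e => h (IsDedekindDomain.HeightOneSpectrum.ext
      (u.isMaximal.eq_of_le v.isPrime.ne_top (Ideal.le_of_dvd e)).symm)

/-- `Ideal.finite_factors`. -/
theorem ordI_finite {a : Ideal (𝓞 k)} (ha : a ≠ ⊥) : {v : P k | ordI v a ≠ 0}.Finite := by
  exact (Ideal.finite_factors ha).subset fun v hv => not_not.1 (mt ordI_eq_zero hv)

/-- Choose `x a` by `hS` and define `Ω a` by the formula; two choices differ by an element of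
`US S` (`sunit_ord_eq_zero_iff`, `ord_mul`, `ord_inv`). -/
theorem exists_Om {l : ℕ} {S : Finset (P k)} (hS : PidOut S) (Ra Ie : Finset (P k))
    (ψ : P k → kˣ → ZMod l) (c : P k → ZMod l)
    (hψ : ∀ v ∈ Ra, ∀ x y, ψ v (x * y) = ψ v x + ψ v y)
    (hc : ∀ x ∈ US S, ∑ v ∈ Ra, c v * ψ v x +
      ∑ v ∈ Ie, c v * ((MP_439fea_co.ord v (x : k) : ℤ) : ZMod l) = 0) :
    ∃ Ω : Ideal (𝓞 k) → ZMod l, (∀ a b, a ≠ ⊥ → b ≠ ⊥ → Ω (a * b) = Ω a + Ω b) ∧
      ∀ a, a ≠ ⊥ → ∀ x : kˣ, (∀ u ∉ S, MP_439fea_co.ord u (x : k) = ordI u a) →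
        Ω a = ∑ v ∈ Ra, c v * ψ v x +
          ∑ v ∈ Ie, c v * ((MP_439fea_co.ord v (x : k) - ordI v a : ℤ) : ZMod l) := by
  obtain ⟨A, hA⟩ : ∃ A : kˣ → ZMod l, ∀ x, A x = ∑ v ∈ Ra, c v * ψ v x +
      ∑ v ∈ Ie, c v * ((MP_439fea_co.ord v (x : k) : ℤ) : ZMod l) := ⟨_, fun _ => rfl⟩
  have h1 : ∀ x y, A (x * y) = A x + A y := fun x y => by
    rw [hA, hA, hA, add_add_add_comm, ← Finset.sum_add_distrib, ← Finset.sum_add_distrib]
    exact congrArg₂ _ (Finset.sum_congr rfl fun v hv => by rw [hψ v hv, mul_add])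
      (Finset.sum_congr rfl fun v _ => by
        rw [Units.val_mul, ord_mul v x.ne_zero y.ne_zero, Int.cast_add, mul_add])
  have h2 : ∀ x y : kˣ, (∀ u ∉ S, MP_439fea_co.ord u (x : k) = MP_439fea_co.ord u (y : k)) →
      A y = A x := fun x y h => by
    have h3 := h1 x (x⁻¹ * y)
    rwa [mul_inv_cancel_left, hA (x⁻¹ * y), hc _ (mem_US.2 fun v hv => ?_), add_zero] at h3
    rw [← sunit_ord_eq_zero_iff v (Units.ne_zero _), Units.val_mul,
      ord_mul v (Units.ne_zero _) y.ne_zero, Units.val_inv_eq_inv_val, ord_inv, h v hv,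
      neg_add_cancel]
  choose! z hz using fun (a : Ideal (𝓞 k)) (ha : a ≠ ⊥) => hS _ (ordI_finite ha)
  refine ⟨fun a => A (z a) - ∑ v ∈ Ie, c v * ((ordI v a : ℤ) : ZMod l), fun a b ha hb => ?_,
    fun a ha x hx => ?_⟩
  · have h3 := h2 (z a * z b) (z (a * b)) fun u hu => by
      rw [Units.val_mul, ord_mul u (Units.ne_zero _) (Units.ne_zero _), hz a ha u hu, hz b hb u hu,
        hz _ (mul_ne_zero ha hb) u hu, ordI_mul u ha hb]
    simp only [h3, h1, ordI_mul _ ha hb, Int.cast_add, mul_add, Finset.sum_add_distrib]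
    ring
  · simp only [h2 x (z a) fun u hu => by rw [hx u hu, hz a ha u hu], hA, Int.cast_sub, mul_sub,
      Finset.sum_sub_distrib, add_sub_assoc]

end Pool.Agent.Lib.MP_830c64_nt.CL
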