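import Pool.Agent.Lib.MP_830c64_nt.CL.FGlob
import Pool.Agent.Lib.MP_830c64_nt.CL.FOrd

/-! Construction of the data of the character. -/

namespace Pool.Agent.Lib.MP_830c64_nt.CL

open NumberField WithZero MP_439fea_co Module
open scoped Classical

variable {k M : Type} [Field k] [NumberField k] [Field M] [NumberField M] [Algebra k M]

theorem foma_mem {w : P M} {Δ : ℕ} (h : (Δ : 𝓞 M) ∈ w.asIdeal) :
    (Δ : 𝓞 k) ∈ (und k w).asIdeal := by
  have h1 := (Val_lt_iff_mem w _).2 h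
  have h2 := (val_algebraMap_lt_iff (K := k) w (Δ : k) 1).1 (by simpa using h1)
  exact (Val_lt_iff_mem (und k w) _).1 (by simpa using h2)

theorem foma_ram [IsGalois k M] {l : ℕ} (hl : l.Prime)
    (hd : finrank k M = l) {σ : M ≃ₐ[k] M} (h1 : σ ≠ 1) {x : 𝓞 M} {Δ : ℕ}
    (hΔ : σ • x - x ∣ (Δ : 𝓞 M)) {w : P M} (hw : ¬ Unr k w) :
    (Δ : 𝓞 k) ∈ (und k w).asIdeal ∧ ∃ ψ : kˣ → ZMod l, (∀ x y, ψ (x * y) = ψ x + ψ y) ∧
      (∀ x ∈ NmG k M, ψ x = 0) ∧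
      (∃ t : ℕ, val (und k w) ((l : k) ^ 2) ≤ exp (-(t : ℤ)) ∧
        ∀ x ∈ Lev (val (und k w)) (t + 1), ψ x = 0) ∧
      ∃ y ∈ Lev (val (und k w)) 0, ψ y ≠ 0 := by
  rcases prime_cases hl hd w with h | h | ⟨hu, he, hf, hi⟩
  · exact absurd h.2.1 hw
  · exact absurd h.2.1 hw
  refine ⟨foma_mem (Ideal.mem_of_dvd _ hΔ (hi σ x)), ?_⟩
  obtain ⟨t, ht, y, hy, hy'⟩ := loc hl hd h1 w (hu _ _ (und_smul σ w) rfl) he hf
  obtain ⟨ψ, p1, p2, p3⟩ := exists_hom hl (NmG k M ⊔ Lev (val (und k w)) (t + 1))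
    (fun z => Subgroup.mem_sup_left ⟨Units.map (algebraMap k M : k →* M) z, Units.ext (by
      simp [Algebra.norm_algebraMap, hd])⟩) hy'
  exact ⟨ψ, p1, fun z hz => p2 z (Subgroup.mem_sup_left hz),
    ⟨t, ht, fun z hz => p2 z (Subgroup.mem_sup_right hz)⟩, y, hy, p3⟩

theorem foma_ord [IsGalois k M] {l : ℕ} (hd : finrank k M = l) {v : P k} (hu : Uniq M v)
    (hv : ∀ w : P M, und k w = v → Unr k w) {x : kˣ} (hx : x ∈ NmG k M) :
    ((MP_439fea_co.ord v (x : k) : ℤ) : ZMod l) = 0 := by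
  obtain ⟨w, rfl⟩ := exists_over M v
  obtain ⟨z, rfl⟩ := hx
  have h := ord_norm (hv w rfl) z.ne_zero
  rw [Finset.sum_congr rfl fun τ _ => by rw [hu _ w (und_smul τ w) rfl], Finset.sum_const,
    Finset.card_univ, ← Nat.card_eq_fintype_card, IsGalois.card_aut_eq_finrank, hd] at h
  rw [Units.coe_map, h]
  simp

/-- `S = S₀ ∪ image (und k) S₁ ∪ {v | Δ ∈ v}` with `S₀`, `S₁` from `exists_pidOut` (`finite_supp`).
A prime `w` of the third type in `prime_cases` contains `Δ`. Let `T = S.filter (Uniq M)`,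
`Ie = T.filter (∀ w, und k w = v → Unr k w)`, `Ra` the rest of `T`. For `v ∈ Ra` the prime above is
of the third type: `loc` and `exists_hom` (`x ^ l` is a norm: `Algebra.norm_algebraMap`) give
`ψ v`. For `v ∈ Ie` use `x ↦ ord v x`, which kills norms by `ord_norm`. `glob_index`,
`exists_rel` on `T` (`Finset.sum_filter_add_sum_filter_not`), `exists_Om`. -/
theorem omd_exists [IsGalois k M] [IsTotallyComplex k] {l : ℕ} (hl : l.Prime)
    (hd : finrank k M = l) {σ : M ≃ₐ[k] M} (h1 : σ ≠ 1) {x : 𝓞 M} {Δ : ℕ} (h0 : Δ ≠ 0)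
    (hΔ : σ • x - x ∣ (Δ : 𝓞 M)) :
    ∃ (S Ra Ie : Finset (P k)) (ψ : P k → kˣ → ZMod l) (c : P k → ZMod l)
      (Ω : Ideal (𝓞 k) → ZMod l), OmD M l Δ S Ra Ie ψ c Ω := by
  obtain ⟨S₀, hS₀⟩ := exists_pidOut k
  obtain ⟨S₁, hS₁⟩ := exists_pidOut M
  have hΔ0 : (Δ : k) ≠ 0 := by exact_mod_cast h0
  let S : Finset (P k) := S₀ ∪ S₁.image (und k) ∪ (finite_supp hΔ0).toFinset
  have hS : PidOut S := hS₀ S fun v hv => by simp [S, hv]
  have hun : ∀ w : P M, und k w ∉ S → Unr k w := fun w hw => by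
    by_contra h
    have h2 := (Val_lt_iff_mem (und k w) _).2 (foma_ram hl hd h1 hΔ h).1
    refine hw (Finset.mem_union_right _ ((Set.Finite.mem_toFinset _).2 ?_))
    simpa using h2.ne
  let C : P k → Prop := fun v => ∀ w : P M, und k w = v → Unr k w
  have hψ : ∀ v : P k, ∃ ψ : kˣ → ZMod l, ¬ C v → (Δ : 𝓞 k) ∈ v.asIdeal ∧
      (∀ x y, ψ (x * y) = ψ x + ψ y) ∧ (∀ x ∈ NmG k M, ψ x = 0) ∧
      (∃ t : ℕ, val v ((l : k) ^ 2) ≤ exp (-(t : ℤ)) ∧ ∀ x ∈ Lev (val v) (t + 1), ψ x = 0) ∧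
      ∃ y ∈ Lev (val v) 0, ψ y ≠ 0 := fun v => by
    by_cases h : C v
    · exact ⟨0, fun h' => absurd h h'⟩
    · obtain ⟨w, hw⟩ := not_forall.1 h
      obtain ⟨rfl, hw'⟩ := Classical.not_imp.1 hw
      obtain ⟨a, ψ, b⟩ := foma_ram hl hd h1 hΔ hw'
      exact ⟨ψ, fun _ => ⟨a, b⟩⟩
  choose ψ hψ using hψ
  let T := S.filter (Uniq M)
  obtain ⟨g0, g1⟩ := glob_index hl hd hS hun
  obtain ⟨c, ⟨v, hv, hc⟩, hr⟩ := exists_rel hl T (US S) (NmG k M)
    (fun v x => if C v then ((MP_439fea_co.ord v (x : k) : ℤ) : ZMod l) else ψ v x)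
    (fun v _ x y => by
      split_ifs with h
      · rw [Units.val_mul, ord_mul v x.ne_zero y.ne_zero, Int.cast_add]
      · exact (hψ v h).2.1 x y)
    (fun v hv x hx => by
      split_ifs with h
      · exact foma_ord hd (Finset.mem_filter.1 hv).2 h hx
      · exact (hψ v h).2.2.1 x hx) g0 g1
  obtain ⟨Ω, o1, o2⟩ := exists_Om hS (T.filter fun v => ¬ C v) (T.filter C) ψ c
    (fun v hv => (hψ v (Finset.mem_filter.1 hv).2).2.1) (fun x hx => by
      rw [← hr x hx, ← Finset.sum_filter_add_sum_filter_not T C, add_comm]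
      congr 1
      · exact Finset.sum_congr rfl fun v hv => by rw [if_pos (Finset.mem_filter.1 hv).2]
      · exact Finset.sum_congr rfl fun v hv => by rw [if_neg (Finset.mem_filter.1 hv).2])
  refine ⟨S, T.filter fun v => ¬ C v, T.filter C, ψ, c, Ω, hS₁ _ fun w hw => ?_, hun,
    fun v hv => ?_, fun v hv => hψ v (Finset.mem_filter.1 hv).2, ?_, o1, o2⟩
  · exact mem_herbOver.2 (Finset.mem_union_left _
      (Finset.mem_union_right _ (Finset.mem_image_of_mem _ hw)))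
  · obtain ⟨a, b⟩ := Finset.mem_filter.1 hv
    exact ⟨(Finset.mem_filter.1 a).1, (Finset.mem_filter.1 a).2, b⟩
  · by_cases h : C v
    · exact Or.inr ⟨v, Finset.mem_filter.2 ⟨hv, h⟩, hc⟩
    · exact Or.inl ⟨v, Finset.mem_filter.2 ⟨hv, h⟩, hc⟩

end Pool.Agent.Lib.MP_830c64_nt.CL
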