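import Pool.Agent.Lib.MP_830c64_nt.CL.FPrime
import Pool.Agent.Lib.MP_830c64_nt.CL.FOrd

/-! The additive function vanishes on the ray and on norms. -/

namespace Pool.Agent.Lib.MP_830c64_nt.CL

open NumberField WithZero MP_439fea_co Module
open scoped Classical

variable {k M : Type} [Field k] [NumberField k] [Field M] [NumberField M] [Algebra k M]
  {l Δ : ℕ} {S Ra Ie : Finset (P k)} {ψ : P k → kˣ → ZMod l} {c : P k → ZMod l}
  {Ω : Ideal (𝓞 k) → ZMod l}

/-- The value at a principal ideal. -/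
theorem OmD.span (h : OmD M l Δ S Ra Ie ψ c Ω) {a : 𝓞 k} (ha : (a : k) ≠ 0) :
    Ω (Ideal.span {a}) = ∑ v ∈ Ra, c v * ψ v (Units.mk0 (a : k) ha) := by
  have h0 : a ≠ 0 := fun e => ha (by simp [e])
  simp [h.eq _ (Ideal.span_singleton_eq_bot.not.2 h0) (Units.mk0 (a : k) ha)
    fun u _ => (ordI_span u h0).symm, ordI_span _ h0]

/-- The function vanishes on the ray. -/
theorem OmD.ray (h : OmD M l Δ S Ra Ie ψ c Ω) {a : 𝓞 k} (ha : a ≠ 0)
    (h1 : a - 1 ∈ Ideal.span {((l ^ 2 * Δ : ℕ) : 𝓞 k)}) : Ω (Ideal.span {a}) = 0 := by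
  have h0 : (a : k) ≠ 0 := RingOfIntegers.coe_ne_zero_iff.2 ha
  rw [h.span h0]
  refine Finset.sum_eq_zero fun v hv => ?_
  obtain ⟨h2, -, -, ⟨t, h3, h4⟩, -⟩ := h.tr v hv
  obtain ⟨b, hb⟩ := Ideal.mem_span_singleton'.1 h1
  have h5 : val v ((a : k) - 1) ≤ exp (-((t + 1 : ℕ) : ℤ)) := by
    have e : (a : k) - 1 = b * ((l : k) ^ 2 * ((Δ : 𝓞 k) : k)) := by
      simpa using congrArg (algebraMap _ k) hb.symm
    have h7 : val v (b : k) ≤ 1 := v.valuation_le_one b
    have h8 := (Val_le_iff_mem v (Δ : 𝓞 k) 1).2 (by rwa [pow_one])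
    rw [e, map_mul, map_mul, Nat.cast_add, neg_add, exp_add]
    exact (mul_le_of_le_one_left' h7).trans (mul_le_mul' h3 h8)
  have h6 := (val v).map_one_add_of_lt (h5.trans_lt (by
    rw [← exp_zero, exp_lt_exp]
    omega))
  rw [add_sub_cancel] at h6
  rw [h4 (Units.mk0 (a : k) h0) ⟨h6, h5⟩, mul_zero]

theorem fomb_pow (h : OmD M l Δ S Ra Ie ψ c Ω) {a : Ideal (𝓞 k)} (ha : a ≠ ⊥) (n : ℕ) :
    Ω (a ^ (n + 1)) = (n + 1 : ℕ) * Ω a := by
  induction n with
  | zero => simp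
  | succ n ih =>
    rw [pow_succ, h.mul _ _ (pow_ne_zero _ ha) ha, ih, Nat.cast_succ (n + 1), add_one_mul]

/-- The function vanishes on norms of primes. -/
theorem OmD.norm [IsGalois k M] (h : OmD M l Δ S Ra Ie ψ c Ω) (hl : l.Prime)
    (hd : finrank k M = l) {σ : M ≃ₐ[k] M} {x : 𝓞 M} (hΔ : σ • x - x ∣ (Δ : 𝓞 M)) (w : P M)
    (hw : (Δ : 𝓞 M) ∉ w.asIdeal) : Ω (Ideal.relNorm (𝓞 k) w.asIdeal) = 0 := by
  rcases prime_cases hl hd w with ⟨h1, h2, h3, h4⟩ | ⟨-, -, h3⟩ | ⟨-, -, -, h4⟩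
  · have key : ∀ z : Mˣ, (∀ u ∉ S, MP_439fea_co.ord u (Algebra.norm k (z : M)) =
        ordI u (und k w).asIdeal) → Ω (und k w).asIdeal = 0 := fun z hz => by
      rw [h.eq _ (und k w).ne_bot (Units.map (Algebra.norm k : M →* k) z) hz,
        Finset.sum_eq_zero fun v hv => by rw [(h.tr v hv).2.2.1 _ ⟨z, rfl⟩, mul_zero], zero_add]
      refine Finset.sum_eq_zero fun v hv => ?_
      obtain ⟨-, h5, h6⟩ := h.ti v hv
      obtain ⟨u, rfl⟩ := exists_over M v
      rw [ordI_prime, if_neg fun e : und k u = und k w => h1 (e ▸ h5), Units.coe_map,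
        ord_norm (h6 u rfl) z.ne_zero]
      simp only [fun τ : M ≃ₐ[k] M => h5 _ u (und_smul τ u) rfl]
      simp [← Nat.card_eq_fintype_card, IsGalois.card_aut_eq_finrank, hd]
    rw [h3]
    by_cases hS : und k w ∈ S
    · exact key 1 fun u hu => by
        rw [ordI_prime, if_neg fun e : u = und k w => hu (e ▸ hS), Units.val_one, map_one,
          ord_one]
    obtain ⟨z, hz⟩ := h.pid (fun u => if u = w then 1 else 0)
      ((Set.finite_singleton w).subset fun u hu => by simpa using hu)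
    have e : ∀ u : P M, und k u ∉ S → MP_439fea_co.ord (und k u) (Algebra.norm k (z : M)) =
        ∑ τ : M ≃ₐ[k] M, if τ • u = w then 1 else 0 := fun u hu => by
      rw [ord_norm (h.unr u hu) z.ne_zero]
      exact Finset.sum_congr rfl fun τ _ => hz _ (by rwa [mem_herbOver, und_smul])
    refine key z fun v hv => ?_
    rw [ordI_prime]
    split_ifs with h5
    · rw [h5, e w hS, Finset.sum_eq_single 1 (fun τ _ h6 => if_neg (mt (h4 τ) h6)) (by simp),
        if_pos (one_smul _ w)]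
    · obtain ⟨u, rfl⟩ := exists_over M v
      rw [e u hv]
      exact Finset.sum_eq_zero fun τ _ => if_neg fun h6 => h5 (by rw [← h6, und_smul])
  · have h5 := fomb_pow h (und k w).ne_bot (l - 1)
    rw [Nat.sub_add_cancel hl.pos, ZMod.natCast_self, zero_mul] at h5
    rwa [h3]
  · exact absurd (w.asIdeal.mem_of_dvd hΔ (h4 σ x)) hw

end Pool.Agent.Lib.MP_830c64_nt.CL
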