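import Pool.Agent.Lib.MP_830c64_nt.CL.Sn
import Pool.Agent.Lib.MP_830c64_nt.Defs
import Pool.Agent.Lib.MP_33b3f9_ag.M4.NTDefs

/-! The interface between the two halves of the proof. -/

namespace Pool.Agent.Lib.MP_830c64_nt.CL

open NumberField Module

/-- The integers with all conjugates of size at most `Y` span the field. -/
def Small (E : Type) [Field E] [NumberField E] (Y : ℝ) : Prop :=
  Submodule.span ℚ {x : E | IsIntegral ℤ x ∧ ∀ φ : E →+* ℂ, ‖φ x‖ ≤ Y} = ⊤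

/-- `W` is a ray class character modulo `f`, extended by zero. -/
structure Ray (E : Type) [Field E] (f : ℕ) (W : Ideal (𝓞 E) → ℂ) : Prop where
  mul : ∀ I J, W (I * J) = W I * W J
  one : W ⊤ = 1
  norm_le : ∀ I, ‖W I‖ ≤ 1
  zero : ∀ I, ¬ IsCoprime I (Ideal.span {(f : 𝓞 E)}) → W I = 0
  ray : ∀ a : 𝓞 E, a - 1 ∈ Ideal.span {(f : 𝓞 E)} → a ≠ 0 → W (Ideal.span {a}) = 1

/-- The ideals of norm `m`. -/
noncomputable def np (E : Type) [Field E] [NumberField E] (m : ℕ) : Finset (Ideal (𝓞 E)) :=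
  (Ideal.finite_setOfPred_absNorm_eq (S := 𝓞 E) m).toFinset

/-- The nonzero ideals of norm at most `x`. -/
noncomputable def idl (E : Type) [Field E] [NumberField E] (x : ℝ) : Finset (Ideal (𝓞 E)) :=
  open scoped Classical in (Finset.Icc 1 ⌊x⌋₊).biUnion (np E)

theorem mem_np {E : Type} [Field E] [NumberField E] {m : ℕ} {I : Ideal (𝓞 E)} :
    I ∈ np E m ↔ Ideal.absNorm I = m := by
  simp [np]

theorem mem_idl {E : Type} [Field E] [NumberField E] {x : ℝ} (hx : 0 ≤ x) {I : Ideal (𝓞 E)} :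
    I ∈ idl E x ↔ I ≠ ⊥ ∧ (Ideal.absNorm I : ℝ) ≤ x := by
  simp only [idl, Finset.mem_biUnion, Finset.mem_Icc, mem_np, exists_eq_right', Nat.le_floor_iff hx,
    Nat.one_le_iff_ne_zero, ne_eq, Ideal.absNorm_eq_zero_iff]

/-- Cancellation in Riesz means of a nontrivial ray class character. -/
def CancelStmt : Prop := ∀ N : ℕ, ∃ C δ : ℝ, 1 ≤ C ∧ 0 < δ ∧ δ ≤ 1 / 4 ∧
  ∀ (E : Type) [Field E] [NumberField E] (Y : ℝ) (f : ℕ) (W : Ideal (𝓞 E) → ℂ),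
    finrank ℚ E ≤ N → 2 ≤ Y → Small E Y → 2 ≤ f → (f : ℝ) ≤ Y → Ray E f W →
    (∃ I, W I ≠ 0 ∧ W I ≠ 1) → ∀ x : ℝ, 1 ≤ x →
      ‖∑ I ∈ idl E x, W I * ((Real.log (x / Ideal.absNorm I)) ^ N : ℝ)‖ ≤ C * Y ^ C * x ^ (1 - δ)

/-- The first inequality of class field theory for a cyclic extension of prime degree. -/
def FIStmt : Prop := ∀ N : ℕ, ∃ c : ℕ,
  ∀ (k M : Type) [Field k] [NumberField k] [Field M] [NumberField M] [Algebra k M] [IsGalois k M]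
    (l : ℕ) (σ : M ≃ₐ[k] M) (x : 𝓞 M) (Δ : ℕ), finrank ℚ M ≤ N → l.Prime → finrank k M = l →
    IsTotallyComplex k → σ ≠ 1 → Δ ≠ 0 → σ • x - x ∣ (Δ : 𝓞 M) →
    ∃ (f : ℕ) (w : Ideal (𝓞 k) → ℂ), 2 ≤ f ∧ f ≤ (2 * Δ) ^ c ∧ Δ ∣ f ∧ Ray k f w ∧
      (∀ I, IsCoprime I (Ideal.span {(f : 𝓞 k)}) → w I ^ l = 1) ∧
      (∀ J : Ideal (𝓞 M), IsCoprime J (Ideal.span {(f : 𝓞 M)}) →
        w (Ideal.relNorm (𝓞 k) J) = 1) ∧
      ∃ I, w I ≠ 0 ∧ w I ≠ 1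

open scoped Classical in
/-- The primes in the kernel of a nontrivial character of prime order `l` have density at most
`1 / l`. -/
def DensStmt : Prop :=
  ∀ (k : Type) [Field k] [NumberField k] (f l : ℕ) (w : Ideal (𝓞 k) → ℂ), 2 ≤ f → l.Prime →
    Ray k f w → (∀ I, IsCoprime I (Ideal.span {(f : 𝓞 k)}) → w I ^ l = 1) →
    (∃ I, w I ≠ 0 ∧ w I ≠ 1) → ∀ (z : ℕ → ℝ) (c : ℝ) (n0 : ℕ), M4.NT.Dens z c →
    (∀ m, n0 ≤ m → z m ≤ if m.Prime then (((np k m).filter fun P => w P = 1).card : ℝ) else 0) →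
    c ≤ 1 / l

/-- The bound for fields of odd degree with many small primes of degree one. -/
def SoftStmt : Prop := ∀ n : ℕ, Odd n → 5 ≤ n → ∀ ε : ℝ, 0 < ε → ∃ η : ℝ, 0 < η ∧ η ≤ 1 ∧
  ∀ η' : ℝ, 0 < η' → ∃ C : ℝ, 0 ≤ C ∧
    ∀ (K : Type) [Field K] [NumberField K] (X y : ℝ) (P : Finset ℕ), finrank ℚ K = n →
      1 ≤ X → |(discr K : ℝ)| ≤ X → X ^ η' ≤ y → y ≤ X ^ η →
      (∀ p ∈ P, p.Prime ∧ (p : ℝ) ≤ y ∧ ∃ J : Ideal (𝓞 K), Ideal.absNorm J = p) →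
      y ^ (1 - η) ≤ P.card → (h2 K : ℝ) ≤ C * X ^ (1 / 4 + ε)

end Pool.Agent.Lib.MP_830c64_nt.CL
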