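import Pool.Agent.Lib.MP_830c64_nt.CL.IDefs

/-! The interface for torsion of any order. -/

namespace Pool.Agent.Lib.MP_830c64_nt.CL

open NumberField Module

/-- The number of ideal classes that `l` kills. -/
noncomputable def hT (K : Type) [Field K] [NumberField K] (l : ℕ) : ℕ :=
  Nat.card {c : ClassGroup (𝓞 K) // c ^ l = 1}

/-- The bound for fields with many small primes of degree one. -/
def SoftL : Prop := ∀ n l : ℕ, 1 ≤ n → 1 ≤ l → ∀ ε : ℝ, 0 < ε → ∃ η : ℝ, 0 < η ∧ η ≤ 1 ∧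
  ∀ η' : ℝ, 0 < η' → ∃ C : ℝ, 0 ≤ C ∧
    ∀ (K : Type) [Field K] [NumberField K] (X y : ℝ) (P : Finset ℕ), finrank ℚ K = n →
      1 ≤ X → |(discr K : ℝ)| ≤ X → X ^ η' ≤ y → y ≤ X ^ η →
      (∀ p ∈ P, p.Prime ∧ (p : ℝ) ≤ y ∧ ∃ J : Ideal (𝓞 K), Ideal.absNorm J = p) →
      y ^ (1 - η) ≤ P.card → (hT K l : ℝ) ≤ C * X ^ (1 / 2 - 1 / (2 * l : ℝ) + ε)

end Pool.Agent.Lib.MP_830c64_nt.CL
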