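import Pool.Agent.Lib.MP_830c64_nt.CL.UVol

/-! Generators of the ideals in a class. -/

namespace Pool.Agent.Lib.MP_830c64_nt.CL

open NumberField Module MeasureTheory Units.dirichletUnitTheorem
open scoped nonZeroDivisors Classical

variable {K : Type} [Field K] [NumberField K]

/-- Every nonzero `x ∈ I` generates `I * a` for exactly one `a`
(`FractionalIdeal.le_one_iff_exists_coeIdeal` for `spanSingleton x * I⁻¹`). -/
theorem gen_exists {I : FrI K} (hI : I ≠ 0) {x : K} (hx : x ∈ I) (h0 : x ≠ 0) :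
    ∃! a, Gen I x a := by
  obtain ⟨a, ha⟩ : ∃ a : Ideal (𝓞 K), (a : FrI K) = I⁻¹ * FractionalIdeal.spanSingleton _ x := by
    refine FractionalIdeal.le_one_iff_exists_coeIdeal.1 ?_
    rw [← inv_mul_cancel₀ hI]
    exact mul_le_mul_right (FractionalIdeal.spanSingleton_le_iff_mem.2 hx) _
  refine ⟨a, ⟨h0, by rw [ha, mul_inv_cancel_left₀ hI]⟩, fun b hb => ?_⟩
  apply FractionalIdeal.coeIdeal_injective (K := K)
  change (b : FrI K) = (a : FrI K)
  rw [ha, hb.2, inv_mul_cancel_left₀ hI]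

theorem Gen.mem {I : FrI K} {x : K} {a : Ideal (𝓞 K)} (h : Gen I x a) : x ∈ I ∧ a ≠ ⊥ := by
  refine ⟨FractionalIdeal.spanSingleton_le_iff_mem.1 ?_, fun e => h.1 ?_⟩
  · rw [h.2]
    exact (mul_le_mul_right FractionalIdeal.coeIdeal_le_one I).trans (mul_one I).le
  · have := h.2
    rwa [e, FractionalIdeal.coeIdeal_bot, mul_zero, FractionalIdeal.spanSingleton_eq_zero_iff] at this

/-- `FractionalIdeal.absNorm_span_singleton`. -/
theorem Gen.norm {I : FrI K} {x : K} {a : Ideal (𝓞 K)} (h : Gen I x a) :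
    ((|Algebra.norm ℚ x| : ℚ) : ℝ) = nI I * Ideal.absNorm a := by
  rw [← FractionalIdeal.absNorm_span_singleton (𝓞 K), ← nI_coe, ← nI_mul, h.2]
  rfl

/-- `FractionalIdeal.spanSingleton_eq_spanSingleton`. -/
theorem Gen.iff_unit {I : FrI K} {x : K} {a : Ideal (𝓞 K)} (h : Gen I x a) (y : K) :
    Gen I y a ↔ ∃ u : (𝓞 K)ˣ, y = ((u : 𝓞 K) : K) * x := by
  refine ⟨fun hy => ?_, ?_⟩
  · obtain ⟨u, hu⟩ := FractionalIdeal.spanSingleton_eq_spanSingleton.1 (h.2.trans hy.2.symm)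
    exact ⟨u, hu.symm⟩
  · rintro ⟨u, rfl⟩
    exact ⟨mul_ne_zero (by simp) h.1,
      (FractionalIdeal.spanSingleton_eq_spanSingleton.2 ⟨u, rfl⟩).symm.trans h.2⟩

end Pool.Agent.Lib.MP_830c64_nt.CL
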