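import Pool.Agent.Lib.MP_830c64_nt.CL.UDefs

/-! The trace form on the mixed space. -/

namespace Pool.Agent.Lib.MP_830c64_nt.CL

open NumberField Module
open scoped nonZeroDivisors Classical

variable {K : Type} [Field K] [NumberField K]

omit [NumberField K] in
theorem utrf_cmp (w : InfinitePlace K) : ∃ c : mixedEmbedding.mixedSpace K →ₗ[ℝ] ℂ,
    (∀ y : K, c (mixedEmbedding K y) = w.embedding y) ∧
      ∀ ξ, ‖c ξ‖ = mixedEmbedding.normAtPlace w ξ := by
  rcases w.isReal_or_isComplex with h | h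
  · refine ⟨Complex.ofRealAm.toLinearMap ∘ₗ LinearMap.proj ⟨w, h⟩ ∘ₗ LinearMap.fst ℝ _ _,
      fun y => ?_, fun ξ => ?_⟩
    · simp
    · simp [mixedEmbedding.normAtPlace_apply_of_isReal h]
  · refine ⟨LinearMap.proj ⟨w, h⟩ ∘ₗ LinearMap.snd ℝ _ _, fun y => ?_, fun ξ => ?_⟩
    · simp
    · simp [mixedEmbedding.normAtPlace_apply_of_isComplex h]

theorem utrf_trace (z : K) : ((Algebra.trace ℚ K z : ℚ) : ℝ) =
    ∑ w : InfinitePlace K, w.mult * (w.embedding z).re := by
  have h := congrArg Complex.re (trace_eq_sum_embeddings (K := ℚ) ℂ (x := z))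
  rw [eq_ratCast, Complex.ratCast_re, Complex.re_sum] at h
  rw [h, ← Fintype.sum_equiv (RingHom.equivRatAlgHom K ℂ) (fun φ => (φ z).re) _ fun _ => rfl,
    ← Finset.univ.sum_fiberwise InfinitePlace.mk]
  refine Finset.sum_congr rfl fun w _ => ?_
  rw [← InfinitePlace.card_filter_mk_eq, ← nsmul_eq_mul, ← Finset.sum_const]
  refine Finset.sum_congr (by congr) fun φ hφ => ?_
  rw [← (Finset.mem_filter.1 hφ).2]
  rcases InfinitePlace.embedding_mk_eq φ with e | e <;> rw [e]
  simp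

/-- Take `φ ξ = ∑ real w, (mixedEmbedding K x * ξ).1 w + ∑ complex w, 2 * ((mixedEmbedding K x * ξ).2 w).re`.
For the first claim: `Algebra.trace_eq_sum_embeddings ℚ ℂ`, take real parts, group the embeddings
by places (`Finset.sum_fiberwise` for `InfinitePlace.mk`; `InfinitePlace.mk_eq_iff` shows that all
`φ` with `mk φ = w` have the same real part as `w.embedding`; `InfinitePlace.card_filter_mk_eq`
counts them), `InfinitePlace.sum_eq_sum_add_sum`. -/
theorem exists_trfun (x : K) : ∃ φ : mixedEmbedding.mixedSpace K →ₗ[ℝ] ℝ,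
    (∀ y : K, φ (mixedEmbedding K y) = (Algebra.trace ℚ K (x * y) : ℚ)) ∧
      ∀ ξ, |φ ξ| ≤ ∑ w : InfinitePlace K, w.mult * (w x * mixedEmbedding.normAtPlace w ξ) := by
  choose c hc hn using utrf_cmp (K := K)
  refine ⟨∑ w : InfinitePlace K, (w.mult : ℝ) •
    (Complex.reLm ∘ₗ LinearMap.mulLeft ℝ (w.embedding x) ∘ₗ c w), fun y => ?_, fun ξ => ?_⟩
  · rw [utrf_trace, LinearMap.sum_apply]
    refine Finset.sum_congr rfl fun w _ => ?_
    simp [hc]
  · rw [LinearMap.sum_apply]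
    refine (Finset.abs_sum_le_sum_abs _ _).trans (Finset.sum_le_sum fun w _ => ?_)
    rw [LinearMap.smul_apply, smul_eq_mul, abs_mul, Nat.abs_cast]
    refine mul_le_mul_of_nonneg_left ?_ (Nat.cast_nonneg _)
    rw [← hn, ← InfinitePlace.norm_embedding_eq, ← norm_mul]
    exact Complex.abs_re_le_norm _

/-- The trace is an integer (`FractionalIdeal.mem_dual`) of absolute value at most `1 / 3` by
`exists_trfun` and `InfinitePlace.sum_mult_eq`. -/
theorem trace_eq_zero {I : FrI K} (hI : I ≠ 0) (f : InfinitePlace K → ℝ) (hf : ∀ w, 0 < f w)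
    {x y : K} (hx : x ∈ bx I f)
    (hy : y ∈ bx (FractionalIdeal.dual ℤ ℚ I) fun w => (3 * finrank ℚ K * f w)⁻¹) :
    Algebra.trace ℚ K (x * y) = 0 := by
  obtain ⟨φ, h1, h2⟩ := exists_trfun x
  rw [mem_bx] at hx hy
  obtain ⟨m, hm⟩ := (FractionalIdeal.mem_dual hI).1 hy.1 x hx.1
  rw [Algebra.traceForm_apply, mul_comm, eq_intCast] at hm
  have hn : (0 : ℝ) < finrank ℚ K := Nat.cast_pos.2 finrank_pos
  have h3 : |φ (mixedEmbedding K y)| ≤ ∑ w : InfinitePlace K,
      (w.mult : ℝ) * (3 * finrank ℚ K : ℝ)⁻¹ := by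
    refine (h2 _).trans (Finset.sum_le_sum fun w _ =>
      mul_le_mul_of_nonneg_left ?_ (Nat.cast_nonneg _))
    rw [mixedEmbedding.normAtPlace_apply]
    refine (mul_le_mul (hx.2 w).le (hy.2 w).le (apply_nonneg _ _) (hf w).le).trans (le_of_eq ?_)
    have := (hf w).ne'
    field_simp
  rw [← Finset.sum_mul, ← Nat.cast_sum, InfinitePlace.sum_mult_eq, h1, ← hm, Rat.cast_intCast,
    show (finrank ℚ K : ℝ) * (3 * finrank ℚ K : ℝ)⁻¹ = 1 / 3 by field_simp] at h3
  have h4 : |m| < 1 := by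
    have : ((|m| : ℤ) : ℝ) < 1 := by
      rw [Int.cast_abs]
      linarith
    exact_mod_cast this
  rw [← hm, Int.abs_lt_one_iff.1 h4, Int.cast_zero]

end Pool.Agent.Lib.MP_830c64_nt.CL
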