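import Pool.Agent.Lib.MP_830c64_nt.CL.UPack
import Pool.Agent.Lib.MP_830c64_nt.CL.UTrf
import Pool.Agent.Lib.MP_830c64_nt.CL.UGen
import Pool.Agent.Lib.MP_830c64_nt.CL.ACnt

/-! Points of boxes in sublattices of prime power index. -/

namespace Pool.Agent.Lib.MP_830c64_nt.CL

open NumberField Module
open scoped nonZeroDivisors Classical

variable {K : Type} [Field K] [NumberField K]

/-- The number of nonzero points of a box. -/
noncomputable def nb (I : FrI K) (f : InfinitePlace K → ℝ) : ℕ := ((bx I f).erase 0).card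

theorem nb_add {I : FrI K} {f : InfinitePlace K → ℝ} (hf : ∀ w, 0 < f w) :
    ((bx I f).card : ℝ) = nb I f + 1 := by
  have h0 : (0 : K) ∈ bx I f := mem_bx.2 ⟨I.zero_mem, fun w => by simpa using hf w⟩
  rw [nb, ← Finset.card_erase_add_one h0]
  push_cast
  rfl

theorem nb_mono {I I' : FrI K} {f f' : InfinitePlace K → ℝ} (h : I ≤ I') (h' : ∀ w, f w ≤ f' w) :
    nb I f ≤ nb I' f' :=
  Finset.card_le_card (Finset.erase_subset_erase _ fun _ hx =>
    mem_bx.2 ⟨h (mem_bx.1 hx).1, fun w => ((mem_bx.1 hx).2 w).trans_le (h' w)⟩)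

theorem l1_cover (I : FrI K) {f : InfinitePlace K → ℝ} (hf : ∀ w, 0 < f w) {lam : ℝ}
    (hl : 1 ≤ lam) : (nb I f : ℝ) + 1 ≤
      (2 * lam + 1) ^ finrank ℚ K * (nb I (fun w => f w / lam) + 1) := by
  rw [← nb_add hf, ← nb_add fun w => div_pos (hf w) (by linarith)]
  exact cover_box I f hf hl _ (Submodule.finrank_le _)

theorem l1_grow {I : FrI K} (hI : I ≠ 0) {f : InfinitePlace K → ℝ} (hf : ∀ w, 0 < f w)
    (hv : (3 * finrank ℚ K) ^ finrank ℚ K * vl f < nI I * rD K) {lam : ℝ} (hl : 1 ≤ lam) :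
    (nb I f : ℝ) + 1 ≤ (2 * lam + 1) ^ (finrank ℚ K - 1) * (nb I (fun w => f w / lam) + 1) := by
  rw [← nb_add hf, ← nb_add fun w => div_pos (hf w) (by linarith)]
  refine cover_box I f hf hl _ ?_
  have hn : (0 : ℝ) < finrank ℚ K := Nat.cast_pos.2 finrank_pos
  have h1 := nI_pos hI
  have h2 := one_le_rD K
  have h3 := vl_pos hf
  obtain ⟨y, hy, y0⟩ := mink (FractionalIdeal.dual_ne_zero ℤ ℚ hI)
    (fun w => (3 * finrank ℚ K * f w)⁻¹) (fun w => by have := hf w; positivity) (by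
      rw [nI_dual hI, vl_inv fun w => 3 * finrank ℚ K * f w, vl_mul,
        show (nI I * rD K ^ 2)⁻¹ * rD K = (nI I * rD K)⁻¹ by field_simp]
      exact inv_strictAnti₀ (by positivity) hv)
  refine Nat.le_sub_one_of_lt (Submodule.finrank_lt fun e => y0 ?_)
  refine (traceForm_nondegenerate ℚ K).2 y fun x => ?_
  have hx : x ∈ Submodule.span ℚ (bx I f : Set K) := e ▸ Submodule.mem_top
  exact Submodule.span_induction (fun x hx => trace_eq_zero hI f hf hx hy) (by simp)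
    (fun a b _ _ ha hb => by rw [map_add, LinearMap.add_apply, ha, hb, add_zero])
    (fun c a _ ha => by rw [map_smul, LinearMap.smul_apply, ha, smul_zero]) hx

theorem l1_short (I : FrI K) {f : InfinitePlace K → ℝ} (hf : ∀ w, 0 < f w) {M : ℝ} (hM : 1 ≤ M)
    (h : (2 * M + 1) ^ finrank ℚ K < nb I f) : ∃ s ∈ I, s ≠ 0 ∧ ∀ w, w s < f w / M := by
  have h1 := l1_cover I hf hM
  obtain ⟨s, hs⟩ := Finset.card_ne_zero.1 (show nb I (fun w => f w / M) ≠ 0 from fun e => by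
    rw [e] at h1
    simp only [Nat.cast_zero, zero_add, mul_one] at h1
    linarith)
  rw [Finset.mem_erase, mem_bx] at hs
  exact ⟨s, hs.2.1, hs.1, hs.2.2⟩

theorem l1_int {p : ℕ} (hp : p.Prime) {J : Ideal (𝓞 K)} (hJ : Ideal.absNorm J = p) {m : ℤ}
    (h : (m : 𝓞 K) ∈ J) : (p : ℤ) ∣ m := by
  have h1 := Ideal.absNorm_dvd_absNorm_of_le ((Ideal.span_singleton_le_iff_mem J).2 h)
  rw [hJ, Ideal.absNorm_span_singleton, ← eq_intCast (algebraMap ℤ (𝓞 K)), Algebra.norm_algebraMap,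
    Int.natAbs_pow] at h1
  exact Int.natCast_dvd.2 (hp.dvd_of_dvd_pow h1)

theorem l1_prime {p : ℕ} (hp : p.Prime) {J : Ideal (𝓞 K)} (hJ : Ideal.absNorm J = p) : Prime J :=
  (Ideal.prime_iff_isPrime (acnt_ne hp hJ)).2 (Ideal.isPrime_of_irreducible_absNorm (hJ ▸ hp))

theorem l1_unr {p : ℕ} (hp : p.Prime) {J : Ideal (𝓞 K)} (hJ : Ideal.absNorm J = p)
    (hd : ¬ (p : ℤ) ∣ discr K) : (p : 𝓞 K) ∉ J ^ 2 := fun h2 => by
  have hpz : Prime (p : ℤ) := Nat.prime_iff_prime_int.mp hp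
  have hmax : (Ideal.span {(p : ℤ)}).IsMaximal := hpz.isMaximal_span_singleton
  have hb : Ideal.span {(p : ℤ)} ≠ ⊥ := by simpa using hp.ne_zero
  let := FractionRing.liftAlgebra ℤ (FractionRing (𝓞 K))
  have h3 := pow_sub_one_dvd_differentIdeal ℤ J 2 hb (by
    rw [Ideal.map_span, Set.image_singleton, Ideal.dvd_span_singleton]
    simpa using h2)
  exact hd (l1_int hp hJ (by simpa using Ideal.dvd_iff_le.1 h3 (discr_mem_differentIdeal K (𝓞 K))))

theorem l1_pow {p : ℕ} (hp : p.Prime) {J : Ideal (𝓞 K)} (hJ : Ideal.absNorm J = p)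
    (hd : ¬ (p : ℤ) ∣ discr K) (l : ℕ) : ∀ m : ℤ, (m : 𝓞 K) ∈ J ^ l → (p : ℤ) ^ l ∣ m := by
  obtain ⟨b, hb⟩ : J ∣ Ideal.span {(p : 𝓞 K)} :=
    Ideal.dvd_span_singleton.2 (hJ ▸ Ideal.absNorm_mem J)
  have h1 : ¬ J ∣ b := fun ⟨c, hc⟩ => l1_unr hp hJ hd (Ideal.dvd_span_singleton.1
    ⟨c, by rw [hb, hc, sq, mul_assoc]⟩)
  induction l with
  | zero => simp
  | succ l ih =>
    intro m hm
    obtain ⟨m, rfl⟩ := l1_int hp hJ (Ideal.pow_le_self l.succ_ne_zero hm)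
    rw [← Ideal.dvd_span_singleton, Int.cast_mul, Int.cast_natCast,
      ← Ideal.span_singleton_mul_span_singleton, hb, pow_succ', mul_assoc,
      mul_dvd_mul_iff_left (acnt_ne hp hJ)] at hm
    rw [pow_succ']
    exact mul_dvd_mul_left _ (ih m (Ideal.dvd_span_singleton.1
      ((l1_prime hp hJ).pow_dvd_of_dvd_mul_left l h1 hm)))

theorem Gen.dvd {I : FrI K} (hI : I ≠ 0) {x : K} {a b : Ideal (𝓞 K)} (h : Gen I x a) {m : 𝓞 K}
    (hx : (m : K) * x ∈ I * (b : FrI K)) : b ∣ Ideal.span {m} * a := by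
  rw [← FractionalIdeal.spanSingleton_le_iff_mem, ← FractionalIdeal.spanSingleton_mul_spanSingleton,
    h.2, mul_left_comm, ← FractionalIdeal.coeIdeal_span_singleton,
    ← FractionalIdeal.coeIdeal_mul] at hx
  have h1 := mul_le_mul_right hx I⁻¹
  rwa [inv_mul_cancel_left₀ hI, inv_mul_cancel_left₀ hI, FractionalIdeal.coeIdeal_le_coeIdeal,
    ← Ideal.dvd_iff_le] at h1

omit [NumberField K] in
theorem l1_le (I : FrI K) (b : Ideal (𝓞 K)) : I * (b : FrI K) ≤ I := by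
  simpa using mul_le_mul_right (FractionalIdeal.coeIdeal_le_one (I := b)) I

theorem l1_thin {I : FrI K} (hI : I ≠ 0) {f : InfinitePlace K → ℝ} (hf : ∀ w, 0 < f w) {p l : ℕ}
    (hp : p.Prime) {J a : Ideal (𝓞 K)} (hJ : Ideal.absNorm J = p) (hd : ¬ (p : ℤ) ∣ discr K)
    {s : K} (hs : Gen I s a) (ha : ¬ J ∣ a) {M : ℝ} (hM : (p : ℝ) ^ l ≤ M)
    (h : ∀ w, w s < f w / M) :
    (nb (I * ((J ^ l : Ideal (𝓞 K)) : FrI K)) f : ℝ) * p ^ l ≤ 5 ^ finrank ℚ K * (nb I f + 1) := by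
  have h0 : (0 : ℝ) < p ^ l := pow_pos (Nat.cast_pos.2 hp.pos) l
  have h1 := l1_cover I (f := fun w => 2 * f w) (fun w => by linarith [hf w]) one_le_two
  simp only [mul_div_cancel_left₀ _ (two_ne_zero (α := ℝ))] at h1
  rw [← nb_add fun w => by linarith [hf w], show (2 * 2 + 1 : ℝ) = 5 by norm_num] at h1
  refine le_trans ?_ h1
  have key := Finset.card_le_card_of_injOn
    (s := (bx (I * ((J ^ l : Ideal (𝓞 K)) : FrI K)) f).erase 0 ×ˢ Finset.range (p ^ l))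
    (t := bx I fun w => 2 * f w) (fun z => z.1 + z.2 * s) (fun z hz => ?_) fun z hz z' hz' e => ?_
  · rw [Finset.card_product, Finset.card_range] at key
    exact_mod_cast key
  · rw [Finset.mem_coe, Finset.mem_product, Finset.mem_erase, mem_bx, Finset.mem_range] at hz
    refine Finset.mem_coe.2 (mem_bx.2 ⟨I.val.add_mem (l1_le I _ hz.1.2.1)
      (nsmul_eq_mul z.2 s ▸ nsmul_mem (S := I.val) hs.mem.1 _),
      fun w => (w.1.add_le _ _).trans_lt ?_⟩)
    have h2 : w ((z.2 : K) * s) ≤ f w := by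
      have h3 : (z.2 : ℝ) ≤ M := le_trans (by exact_mod_cast hz.2.le) hM
      rw [map_mul, show w (z.2 : K) = z.2 from by simp]
      exact (mul_le_mul h3 (h w).le (apply_nonneg _ _) (h0.le.trans hM)).trans
        (mul_div_cancel₀ _ (h0.trans_le hM).ne').le
    have := hz.1.2.2 w
    change w z.1 + w ((z.2 : K) * s) < _
    linarith
  · rw [Finset.mem_coe, Finset.mem_product, Finset.mem_erase, mem_bx, Finset.mem_range] at hz hz'
    have h2 : ((((z.2 : ℤ) - z'.2 : ℤ) : 𝓞 K) : K) * s = z'.1 - z.1 := by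
      change algebraMap (𝓞 K) K _ * s = _
      rw [map_intCast]
      push_cast
      linear_combination e
    have h3 := l1_pow hp hJ hd l _ (Ideal.dvd_span_singleton.1 ((l1_prime hp hJ).pow_dvd_of_dvd_mul_right
      l ha (hs.dvd hI (h2 ▸ Submodule.sub_mem _ hz'.1.2.1 hz.1.2.1))))
    have h4 : z.2 = z'.2 := by
      have := Int.eq_of_sub_eq_zero (Int.eq_zero_of_abs_lt_dvd h3 (by
        have a1 : ((z.2 : ℕ) : ℤ) < p ^ l := by exact_mod_cast hz.2
        have a2 : ((z'.2 : ℕ) : ℤ) < p ^ l := by exact_mod_cast hz'.2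
        rw [abs_lt]
        omega))
      exact_mod_cast this
    simp only [h4, add_left_inj] at e
    exact Prod.ext e h4

theorem l1_few {I : FrI K} (hI : I ≠ 0) {f : InfinitePlace K → ℝ} {x : K} {a : Ideal (𝓞 K)}
    (h : Gen I x a) (hx : ∀ w, w x ≤ f w) {d : ℝ} (hv : vl f ≤ nI I * d) (P : Finset ℕ)
    (J : ℕ → Ideal (𝓞 K)) (hP : ∀ p ∈ P, p.Prime ∧ Ideal.absNorm (J p) = p) :
    ((P.filter fun p => J p ∣ a).card : ℝ) ≤ 2 * Real.log d := by
  have hn : Ideal.absNorm a ≠ 0 := mt Ideal.absNorm_eq_zero_iff.1 h.mem.2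
  have h1 : nI I * Ideal.absNorm a ≤ nI I * d := by
    refine le_trans ?_ hv
    rw [← h.norm, ← InfinitePlace.prod_eq_abs_norm]
    exact Finset.prod_le_prod (fun w _ => by positivity) fun w _ =>
      pow_le_pow_left₀ (apply_nonneg _ _) (hx w) _
  refine le_trans (Nat.cast_le.2 (Finset.card_le_card fun p hp => ?_)) ((acnt_log hn).trans
    (mul_le_mul_of_nonneg_left (Real.log_le_log (Nat.cast_pos.2 (Nat.pos_of_ne_zero hn))
      (le_of_mul_le_mul_left h1 (nI_pos hI))) zero_le_two))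
  obtain ⟨h2, h3⟩ := Finset.mem_filter.1 hp
  exact Nat.mem_primeFactors.2 ⟨(hP p h2).1, (hP p h2).2 ▸ map_dvd Ideal.absNorm h3, hn⟩

end Pool.Agent.Lib.MP_830c64_nt.CL
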