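import Pool.Agent.Lib.MP_830c64_nt.CL.L1

/-! A concave weight and the two inequalities for one box. -/

namespace Pool.Agent.Lib.MP_830c64_nt.CL

open NumberField Module
open scoped nonZeroDivisors Classical

/-- The weight: linear up to `F`, then a power. -/
noncomputable def ph (F a : ℝ) (u : ℕ) : ℝ := if (u : ℝ) ≤ F then u else F ^ (1 - a) * (u : ℝ) ^ a

variable {F a : ℝ} {u v : ℕ}

theorem ph_split (u : ℕ) : (u : ℝ) ^ (1 - a) * (u : ℝ) ^ a = u := by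
  rw [← Real.rpow_add' (Nat.cast_nonneg u) (by simp), sub_add_cancel, Real.rpow_one]

theorem ph_of_le (h : (u : ℝ) ≤ F) : ph F a u = u := if_pos h

theorem ph_of_gt (h : ¬ (u : ℝ) ≤ F) : ph F a u = F ^ (1 - a) * (u : ℝ) ^ a := if_neg h

theorem ph_self (hF : 0 ≤ F) (ha : a ≤ 1) (u : ℕ) : ph F a u ≤ u := by
  unfold ph
  split_ifs with h
  · exact le_rfl
  · refine le_trans ?_ (ph_split (a := a) u).le
    gcongr
    exact (not_le.1 h).le

theorem ph_pow (ha : a ≤ 1) (u : ℕ) : ph F a u ≤ F ^ (1 - a) * (u : ℝ) ^ a := by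
  unfold ph
  split_ifs with h
  · refine (ph_split (a := a) u).ge.trans ?_
    gcongr
  · exact le_rfl

theorem ph_mono (hF : 0 ≤ F) (h0 : 0 ≤ a) (ha : a ≤ 1) (h : u ≤ v) : ph F a u ≤ ph F a v := by
  by_cases hv : (v : ℝ) ≤ F
  · rw [ph_of_le hv]
    exact (ph_self hF ha u).trans (Nat.cast_le.2 h)
  · rw [ph_of_gt hv]
    refine (ph_pow ha u).trans ?_
    gcongr

theorem ph_nonneg (hF : 0 ≤ F) (u : ℕ) : 0 ≤ ph F a u := by
  unfold ph
  split_ifs <;> positivity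

theorem ph_grow (hF : 1 ≤ F) (h0 : 0 ≤ a) (ha : a ≤ 1) {L : ℝ} (hL : 0 ≤ L)
    (h : (u : ℝ) + 1 ≤ L * (v + 1)) : ph F a u ≤ (2 * L) ^ a * (ph F a v + F) := by
  have h1 := ph_nonneg (a := a) (zero_le_one.trans hF) v
  refine (ph_pow ha u).trans ?_
  by_cases hv : (v : ℝ) ≤ F
  · calc F ^ (1 - a) * (u : ℝ) ^ a ≤ F ^ (1 - a) * (2 * L * F) ^ a := by
          gcongr
          nlinarith
      _ = (2 * L) ^ a * F := by
          rw [Real.mul_rpow (by positivity) (by positivity), mul_left_comm,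
            ← Real.rpow_add (by positivity), sub_add_cancel, Real.rpow_one]
      _ ≤ _ := by gcongr; linarith
  · rw [ph_of_gt hv]
    calc F ^ (1 - a) * (u : ℝ) ^ a ≤ F ^ (1 - a) * (2 * L * v) ^ a := by
          gcongr
          nlinarith [not_le.1 hv]
      _ = (2 * L) ^ a * (F ^ (1 - a) * (v : ℝ) ^ a) := by
          rw [Real.mul_rpow (by positivity) (by positivity), mul_left_comm]
      _ ≤ _ := by gcongr; linarith

theorem l2_harm (P : Finset ℕ) {y : ℝ} (hy : 1 ≤ y) (hP : ∀ p ∈ P, p.Prime ∧ (p : ℝ) ≤ y) :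
    ∑ p ∈ P, (p : ℝ)⁻¹ ≤ 1 + Real.log y := by
  refine le_trans ?_ (harmonic_floor_le_one_add_log y hy)
  rw [harmonic_eq_sum_Icc]
  push_cast
  exact Finset.sum_le_sum_of_subset_of_nonneg (fun p hp => Finset.mem_Icc.2
    ⟨(hP p hp).1.pos, Nat.le_floor (hP p hp).2⟩) fun _ _ _ => by positivity

variable {K : Type} [Field K] [NumberField K]

theorem l2_small {I : FrI K} (hI : I ≠ 0) {f : InfinitePlace K → ℝ} {d : ℝ}
    (hv : vl f ≤ nI I * d) {l : ℕ} (hl : 1 ≤ l) (P : Finset ℕ) (J : ℕ → Ideal (𝓞 K))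
    (hP : ∀ p ∈ P, p.Prime ∧ Ideal.absNorm (J p) = p) :
    ∑ p ∈ P, (nb (I * ((J p ^ l : Ideal (𝓞 K)) : FrI K)) f : ℝ) ≤ 2 * Real.log d * nb I f := by
  choose! φ hφ _ using fun x (hx : x ∈ I) h0 => gen_exists hI hx h0
  refine (Finset.sum_le_sum (g := fun p => ∑ x ∈ (bx I f).erase 0, if J p ∣ φ x then (1 : ℝ)
    else 0) fun p hp => ?_).trans ?_
  · rw [Finset.sum_boole]
    refine Nat.cast_le.2 (Finset.card_le_card fun x hx => ?_)
    rw [Finset.mem_erase, mem_bx] at hx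
    have h1 := l1_le I _ hx.2.1
    refine Finset.mem_filter.2 ⟨Finset.mem_erase.2 ⟨hx.1, mem_bx.2 ⟨h1, hx.2.2⟩⟩, ?_⟩
    have := (hφ x h1 hx.1).dvd hI (m := 1) (b := J p ^ l) (by simpa using hx.2.1)
    rw [Ideal.span_singleton_one, Ideal.top_mul] at this
    exact (dvd_pow_self _ (by omega)).trans this
  · rw [Finset.sum_comm]
    refine (Finset.sum_le_card_nsmul _ _ (2 * Real.log d) fun x hx => ?_).trans ?_
    · rw [Finset.mem_erase, mem_bx] at hx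
      rw [Finset.sum_boole]
      exact l1_few hI (hφ x hx.2.1 hx.1) (fun w => (hx.2.2 w).le) hv P J hP
    · rw [nsmul_eq_mul, mul_comm]
      rfl

theorem l2_num {l p u v : ℕ} (hl : 1 ≤ l) (hp : 0 < p) {A : ℝ} (hA : 1 ≤ A) (hF : 1 ≤ F)
    (hu : ¬ (u : ℝ) ≤ F) (h : (v : ℝ) * p ^ l ≤ A * (u + 1)) :
    ph F (l : ℝ)⁻¹ v ≤ 2 * A * ph F (l : ℝ)⁻¹ u * (p : ℝ)⁻¹ := by
  have ha : (l : ℝ)⁻¹ ≤ 1 := inv_le_one_of_one_le₀ (Nat.one_le_cast.2 hl)
  have p0 : (0 : ℝ) < p := Nat.cast_pos.2 hp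
  refine (ph_pow ha _).trans ?_
  rw [ph_of_gt hu]
  calc _ ≤ F ^ (1 - (l : ℝ)⁻¹) * (2 * A * (u / p ^ l)) ^ (l : ℝ)⁻¹ := by
        gcongr
        rw [← mul_div_assoc, le_div_iff₀ (by positivity)]
        nlinarith [not_le.1 hu]
    _ ≤ _ := by
        rw [Real.mul_rpow (by positivity) (by positivity), Real.div_rpow (by positivity)
          (by positivity), Real.pow_rpow_inv_natCast p0.le (by omega), mul_left_comm,
          div_eq_mul_inv, ← mul_assoc (F ^ _), mul_assoc (2 * A)]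
        gcongr
        exact Real.rpow_le_self_of_one_le (by linarith) ha

theorem l2_step {I : FrI K} (hI : I ≠ 0) {f : InfinitePlace K → ℝ} (hf : ∀ w, 0 < f w) {d y : ℝ}
    (hd : 1 ≤ d) (hv : vl f ≤ nI I * d) (hy : 1 ≤ y) {l : ℕ} (hl : 1 ≤ l) (P : Finset ℕ)
    (J : ℕ → Ideal (𝓞 K))
    (hP : ∀ p ∈ P, p.Prime ∧ (p : ℝ) ≤ y ∧ Ideal.absNorm (J p) = p ∧ ¬ (p : ℤ) ∣ discr K)
    (hF : (2 * y ^ l + 1) ^ finrank ℚ K = F) :
    ∑ p ∈ P, ph F (l : ℝ)⁻¹ (nb (I * ((J p ^ l : Ideal (𝓞 K)) : FrI K)) f) ≤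
      (2 * Real.log d + 2 * 5 ^ finrank ℚ K * (1 + Real.log y)) * ph F (l : ℝ)⁻¹ (nb I f) := by
  have hM : 1 ≤ y ^ l := one_le_pow₀ hy
  have hF1 : 1 ≤ F := hF ▸ one_le_pow₀ (by linarith)
  have hF0 : 0 ≤ F := by linarith
  have ha : (l : ℝ)⁻¹ ≤ 1 := inv_le_one_of_one_le₀ (Nat.one_le_cast.2 hl)
  have hP' : ∀ p ∈ P, p.Prime ∧ Ideal.absNorm (J p) = p := fun p hp =>
    ⟨(hP p hp).1, (hP p hp).2.2.1⟩
  have h0 := ph_nonneg (a := (l : ℝ)⁻¹) hF0 (nb I f)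
  have hy0 := Real.log_nonneg hy
  by_cases hu : (nb I f : ℝ) ≤ F
  · refine (Finset.sum_le_sum fun p _ => ph_self hF0 ha _).trans
      ((l2_small hI hv hl P J hP').trans ?_)
    rw [ph_of_le hu]
    exact mul_le_mul_of_nonneg_right (le_add_of_nonneg_right (by positivity)) (by positivity)
  obtain ⟨s, s1, s0, hs⟩ := l1_short I hf hM (hF.trans_lt (not_le.1 hu))
  obtain ⟨b, hb, -⟩ := gen_exists hI s1 s0
  rw [← Finset.sum_filter_add_sum_filter_not P fun p => J p ∣ b, add_mul]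
  refine add_le_add ((Finset.sum_le_card_nsmul _ _ (ph F (l : ℝ)⁻¹ (nb I f)) fun p _ =>
    ph_mono hF0 (by positivity) ha (nb_mono (l1_le I _) fun _ => le_rfl)).trans ?_) ?_
  · rw [nsmul_eq_mul]
    exact mul_le_mul_of_nonneg_right (l1_few hI hb (fun w => (hs w).le.trans
      (div_le_self (hf w).le hM)) hv P J hP') h0
  refine (Finset.sum_le_sum (g := fun p : ℕ => 2 * 5 ^ finrank ℚ K * ph F (l : ℝ)⁻¹ (nb I f) *
    (p : ℝ)⁻¹) fun p hp => ?_).trans ?_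
  · obtain ⟨h1, h2⟩ := Finset.mem_filter.1 hp
    obtain ⟨p1, p2, p3, p4⟩ := hP p h1
    exact l2_num hl p1.pos (one_le_pow₀ (by norm_num)) hF1 hu
      (l1_thin hI hf p1 p3 p4 hb h2 (pow_le_pow_left₀ (Nat.cast_nonneg _) p2 l) hs)
  · rw [← Finset.mul_sum, mul_right_comm]
    refine mul_le_mul_of_nonneg_right (mul_le_mul_of_nonneg_left ?_ (by positivity)) h0
    exact l2_harm _ hy fun p hp => ⟨(hP p (Finset.mem_filter.1 hp).1).1,
      (hP p (Finset.mem_filter.1 hp).1).2.1⟩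

end Pool.Agent.Lib.MP_830c64_nt.CL
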