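import Pool.Agent.Lib.MP_830c64_nt.CL.L2
import Pool.Agent.Lib.MP_830c64_nt.CL.UTr
import Pool.Agent.Lib.MP_830c64_nt.CL.UHR

/-! The mean over all shapes of a function of the number of points of a box. -/

namespace Pool.Agent.Lib.MP_830c64_nt.CL

open NumberField Module MeasureTheory Units.dirichletUnitTheorem
open scoped nonZeroDivisors Classical ENNReal

/-- A fundamental domain for the unit lattice. -/
noncomputable def fd (K : Type) [Field K] [NumberField K] : Set (logSpace K) :=
  ZSpan.fundamentalDomain ((Units.basisUnitLattice K).ofZLatticeBasis ℝ _)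

theorem fd_dom (K : Type) [Field K] [NumberField K] :
    IsAddFundamentalDomain (Units.unitLattice K) (fd K) volume :=
  ZLattice.isAddFundamentalDomain _ _

theorem fd_meas (K : Type) [Field K] [NumberField K] : MeasurableSet (fd K) :=
  ZSpan.fundamentalDomain_measurableSet _

theorem fd_bdd (K : Type) [Field K] [NumberField K] : Bornology.IsBounded (fd K) :=
  ZSpan.fundamentalDomain_isBounded _

/-- The transfer principle with an explicit constant, and the mean number of points. -/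
theorem transfer' (K : Type) [Field K] [NumberField K] : ∃ T : ℝ, 0 < T ∧
    Tr K (volume.real (fd K) / T) ∧ ∀ I : FrI K, I ≠ 0 → ∀ R : ℝ, 0 < R →
      ∫⁻ t in fd K, ENNReal.ofReal (nb I fun w => R * ft t w) =
        ENNReal.ofReal (T * SI I (R ^ finrank ℚ K / nI I) fun _ => 1) := by
  obtain ⟨c, hc0, hc⟩ := vol_rg K
  set D := fd K with hDd
  have hD : IsAddFundamentalDomain (Units.unitLattice K) D volume := fd_dom K
  have hm : MeasurableSet D := fd_meas K
  have hb : Bornology.IsBounded D := fd_bdd K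
  have hfin : volume D ≠ ⊤ := hb.measure_lt_top.ne
  have hP := Measure.measurePreserving_neg (volume : Measure (logSpace K))
  have hE := (Homeomorph.neg (logSpace K)).measurableEmbedding
  have hD' : IsAddFundamentalDomain (Units.unitLattice K) (Neg.neg ⁻¹' D) volume :=
    hD.preimage_of_equiv hP.quasiMeasurePreserving neg_involutive.bijective fun g x => by
      simp [Submodule.vadd_def, add_comm]
  have hT : (0 : ℝ) < Units.torsionOrder K * c :=
    mul_pos (Nat.cast_pos.2 (Units.torsionOrder_pos K)) hc0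
  refine ⟨Units.torsionOrder K * c, hT, fun J s I R σ G F e h he => ?_, fun I hI R hR => ?_⟩
  · have key : ∀ j ∈ s, IntegrableOn (fun t => SB (I j) (fun w => R j * ft t w ^ σ j) (G j)) D ∧
        ∫ t in D, SB (I j) (fun w => R j * ft t w ^ σ j) (G j) =
          Units.torsionOrder K * c * SI (I j) (R j ^ finrank ℚ K / nI (I j)) (F j) := by
      intro j hj
      obtain ⟨h1, h2, h3 | h3, h4⟩ := h j hj
      · simpa only [h3, zpow_one] using unfold_box hc0 hc hD hm hb h1 h2 _ _ h4
      · obtain ⟨a1, a2⟩ := unfold_box hc0 hc hD' (hP.measurable hm) hb.neg h1 h2 _ _ h4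
        have e1 : D = Neg.neg ⁻¹' (Neg.neg ⁻¹' D) := by ext; simp
        simp only [h3, zpow_neg_one, ← ft_neg]
        rw [e1, ← a2]
        exact ⟨(hP.integrableOn_comp_preimage hE).2 a1,
          hP.setIntegral_preimage_emb hE (fun t => SB (I j) (fun w => R j * ft t w) (G j)) _⟩
    have h1 := setIntegral_mono_on (integrable_finsetSum s fun j hj => (key j hj).1)
      (integrableOn_const (C := e) hfin) hm fun t _ => he (ft t) (ft_pos t) (vl_ft t)
    rw [integral_finsetSum s fun j hj => (key j hj).1,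
      Finset.sum_congr rfl fun j hj => (key j hj).2, ← Finset.mul_sum, setIntegral_const,
      smul_eq_mul] at h1
    rw [div_mul_eq_mul_div, le_div_iff₀' hT]
    exact h1
  · obtain ⟨a1, a2⟩ := unfold_box hc0 hc hD hm hb hI hR (fun _ => 1) (fun _ => 1) fun _ _ _ => rfl
    have e : ∀ t, SB I (fun w => R * ft t w) (fun _ => 1) = nb I fun w => R * ft t w := fun t => by
      simp [SB, nb]
    simp only [e] at a1 a2
    rw [← a2, ofReal_integral_eq_lintegral_ofReal a1
      (Filter.Eventually.of_forall fun _ => Nat.cast_nonneg _)]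

variable {K : Type} [Field K] [NumberField K]

theorem nb_smul {u : K} (hu : u ≠ 0) (I : FrI K) (g : InfinitePlace K → ℝ) :
    nb (FractionalIdeal.spanSingleton (𝓞 K)⁰ u * I) (fun w => w u * g w) = nb I g := by
  have hw : ∀ w : InfinitePlace K, 0 < w u := fun w => InfinitePlace.pos_iff.2 hu
  symm
  refine Finset.card_bij (fun x _ => u * x) (fun x hx => ?_)
    (fun x _ y _ e => mul_left_cancel₀ hu e) fun y hy => ?_
  · rw [Finset.mem_erase, mem_bx] at hx ⊢
    refine ⟨mul_ne_zero hu hx.1, FractionalIdeal.mem_singleton_mul.2 ⟨x, hx.2.1, rfl⟩, fun w => ?_⟩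
    rw [map_mul]
    exact mul_lt_mul_of_pos_left (hx.2.2 w) (hw w)
  · rw [Finset.mem_erase, mem_bx] at hy
    obtain ⟨x, hx, rfl⟩ := FractionalIdeal.mem_singleton_mul.1 hy.2.1
    refine ⟨x, ?_, rfl⟩
    rw [Finset.mem_erase, mem_bx]
    refine ⟨right_ne_zero_of_mul hy.1, hx, fun w => ?_⟩
    have := hy.2.2 w
    rw [map_mul] at this
    exact lt_of_mul_lt_mul_left this (hw w).le

theorem bx_norm {I : FrI K} {g : InfinitePlace K → ℝ} {x : K} (hx : x ∈ bx I g)
    {a : Ideal (𝓞 K)} (h : Gen I x a) : nI I * Ideal.absNorm a < vl g := by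
  rw [← h.norm, ← InfinitePlace.prod_eq_abs_norm, vl]
  refine Finset.prod_lt_prod_of_nonempty (fun w _ => pow_pos (InfinitePlace.pos_iff.2 h.1) _)
    (fun w _ => pow_lt_pow_left₀ ((mem_bx.1 hx).2 w) (apply_nonneg _ _)
      InfinitePlace.mult_pos.ne') Finset.univ_nonempty

theorem one_le_absNorm {a : Ideal (𝓞 K)} (h : a ≠ ⊥) : (1 : ℝ) ≤ Ideal.absNorm a :=
  Nat.one_le_cast.2 (Nat.pos_of_ne_zero fun e => h (Ideal.absNorm_eq_zero_iff.1 e))

theorem nb_eq_zero {I : FrI K} (hI : I ≠ 0) {g : InfinitePlace K → ℝ} (h : vl g ≤ nI I) :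
    nb I g = 0 := by
  refine Finset.card_eq_zero.2 (Finset.eq_empty_of_forall_notMem fun x hx => ?_)
  obtain ⟨h0, hx⟩ := Finset.mem_erase.1 hx
  obtain ⟨a, ha, -⟩ := gen_exists hI (mem_bx.1 hx).1 h0
  have h1 := bx_norm hx ha
  have h2 := one_le_absNorm ha.mem.2
  have h3 := nI_pos hI
  nlinarith

theorem ft_add (s t : logSpace K) (w : InfinitePlace K) : ft (s + t) w = ft s w * ft t w := by
  unfold ft
  split_ifs <;> rw [← Real.exp_add] <;> simp [Finset.sum_add_distrib, add_div, add_comm]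

theorem ft_surj {g : InfinitePlace K → ℝ} (hg : ∀ w, 0 < g w) (hv : vl g = 1) :
    ∃ s : logSpace K, ∀ w, ft s w = g w := by
  refine ⟨fun v => v.1.mult * Real.log (g v.1), fun w => ?_⟩
  have h0 : ∀ w : InfinitePlace K, (w.mult : ℝ) ≠ 0 := fun _ => InfinitePlace.mult_coe_ne_zero
  unfold ft
  split_ifs with h
  · subst h
    have h1 := congrArg Real.log hv
    rw [vl, Real.log_prod fun w _ => (pow_pos (hg w) _).ne', Real.log_one,
      Fintype.sum_eq_add_sum_subtype_ne _ w₀] at h1
    simp only [Real.log_pow] at h1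
    rw [← Real.exp_log (hg w₀)]
    refine congrArg _ ?_
    rw [div_eq_iff (h0 _)]
    linarith
  · rw [mul_div_cancel_left₀ _ (h0 _), Real.exp_log (hg w)]

/-- The radius of the box of volume `x` times the norm of `I`. -/
noncomputable def rad (I : FrI K) (x : ℝ) : ℝ := (x * nI I) ^ ((finrank ℚ K : ℕ) : ℝ)⁻¹

theorem rad_pos {I : FrI K} (hI : I ≠ 0) {x : ℝ} (hx : 0 < x) : 0 < rad I x :=
  Real.rpow_pos_of_pos (mul_pos hx (nI_pos hI)) _

theorem rad_pow {I : FrI K} (hI : I ≠ 0) {x : ℝ} (hx : 0 < x) :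
    rad I x ^ finrank ℚ K = x * nI I :=
  Real.rpow_inv_natCast_pow (mul_pos hx (nI_pos hI)).le finrank_pos.ne'

theorem vl_rad {I : FrI K} (hI : I ≠ 0) {x : ℝ} (hx : 0 < x) (t : logSpace K) :
    vl (fun w => rad I x * ft t w) = x * nI I := by
  rw [vl_mul, vl_ft, mul_one, rad_pow hI hx]

/-- The mean of `u` of the number of points. -/
noncomputable def Mn (u : ℕ → ℝ) (I : FrI K) (x : ℝ) : ℝ≥0∞ :=
  ∫⁻ t in fd K, ENNReal.ofReal (u (nb I fun w => rad I x * ft t w))

theorem Mn_ne_top {u : ℕ → ℝ} (hu : Monotone u) {I : FrI K} (hI : I ≠ 0) {x : ℝ} (hx : 0 < x) :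
    Mn u I x ≠ ⊤ := by
  obtain ⟨B, hB⟩ := ft_bdd (fd_bdd K)
  refine ne_top_of_le_ne_top ?_ (setLIntegral_mono' (fd_meas K)
    (g := fun _ => ENNReal.ofReal (u (nb I fun _ => rad I x * B))) fun t ht =>
      ENNReal.ofReal_le_ofReal (hu (nb_mono le_rfl fun w =>
        mul_le_mul_of_nonneg_left (hB t ht w) (rad_pos hI hx).le)))
  rw [setLIntegral_const]
  exact ENNReal.mul_ne_top ENNReal.ofReal_ne_top (fd_bdd K).measure_lt_top.ne

/-- The mean only depends on the class. -/
theorem Mn_smul (u : ℕ → ℝ) {a : K} (ha : a ≠ 0) {I : FrI K} (hI : I ≠ 0) {x : ℝ} (hx : 0 < x) :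
    Mn u (FractionalIdeal.spanSingleton (𝓞 K)⁰ a * I) x = Mn u I x := by
  have : VAddInvariantMeasure (Units.unitLattice K) (logSpace K) volume :=
    inferInstanceAs (VAddInvariantMeasure (Units.unitLattice K).toAddSubgroup _ _)
  have : MeasurableVAdd (Units.unitLattice K) (logSpace K) :=
    inferInstanceAs (MeasurableVAdd (Units.unitLattice K).toAddSubgroup _)
  have hw : ∀ w : InfinitePlace K, 0 < w a := fun w => InfinitePlace.pos_iff.2 ha
  have hI' : FractionalIdeal.spanSingleton (𝓞 K)⁰ a * I ≠ 0 :=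
    mul_ne_zero (FractionalIdeal.spanSingleton_ne_zero_iff.2 ha) hI
  have h1 := rad_pos hI hx
  have h2 := rad_pos hI' hx
  set R' := rad (FractionalIdeal.spanSingleton (𝓞 K)⁰ a * I) x with hR'
  obtain ⟨s, hs⟩ := ft_surj (g := fun w => R' / rad I x * (w a)⁻¹)
    (fun w => by have := hw w; positivity) (by
      have h3 : vl (fun w : InfinitePlace K => w a) =
          nI (FractionalIdeal.spanSingleton (𝓞 K)⁰ a) := by
        rw [vl, InfinitePlace.prod_eq_abs_norm, nI, FractionalIdeal.absNorm_span_singleton]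
      have h4 := nI_pos hI
      have h5 := nI_pos (FractionalIdeal.spanSingleton_ne_zero_iff.2 ha)
      rw [vl_mul, vl_inv, h3, div_pow, hR', rad_pow hI' hx, rad_pow hI hx, nI_mul]
      field_simp)
  have e : ∀ t, nb (FractionalIdeal.spanSingleton (𝓞 K)⁰ a * I) (fun w => R' * ft t w) =
      nb I fun w => rad I x * ft (s + t) w := fun t => by
    rw [← nb_smul ha I]
    refine congrArg _ (funext fun w => ?_)
    have := (hw w).ne'
    rw [ft_add, hs]
    field_simp
  have hP := measurePreserving_add_left (volume : Measure (logSpace K)) s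
  have hE := (Homeomorph.addLeft s).measurableEmbedding
  have hD : IsAddFundamentalDomain (Units.unitLattice K) ((fun t => s + t) '' fd K) volume :=
    (fd_dom K).image_of_equiv (Equiv.addLeft s)
      (measurePreserving_add_left (volume : Measure (logSpace K)) (-s)).quasiMeasurePreserving
      (Equiv.refl _) fun g t => by simp [Submodule.vadd_def, add_left_comm]
  simp only [Mn, ← hR', e]
  rw [hP.setLIntegral_comp_emb hE
    (fun t => ENNReal.ofReal (u (nb I fun w => rad I x * ft t w))) (fd K)]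
  refine hD.setLIntegral_eq (fd_dom K) _ fun g t => ?_
  obtain ⟨g, v, -, rfl⟩ := g
  have h3 : FractionalIdeal.spanSingleton (𝓞 K)⁰ (((Additive.toMul v : (𝓞 K)ˣ) : 𝓞 K) : K) * I =
      I := by
    rw [show FractionalIdeal.spanSingleton (𝓞 K)⁰ (((Additive.toMul v : (𝓞 K)ˣ) : 𝓞 K) : K) =
      FractionalIdeal.spanSingleton (𝓞 K)⁰ 1 from
        (FractionalIdeal.spanSingleton_eq_spanSingleton.2 ⟨Additive.toMul v, mul_one _⟩).symm,
      FractionalIdeal.spanSingleton_one, one_mul]
  have h4 := nb_smul (u := (((Additive.toMul v : (𝓞 K)ˣ) : 𝓞 K) : K)) (by simp) I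
    fun w => rad I x * ft t w
  rw [h3] at h4
  rw [← h4]
  refine congrArg (fun z => ENNReal.ofReal (u (nb I z))) (funext fun w => ?_)
  rw [mul_left_comm, ← ft_add_log]
  rfl

theorem Mn_cls (u : ℕ → ℝ) {a b : Ideal (𝓞 K)} (ha : a ≠ ⊥) (hb : b ≠ ⊥) (h : cls a = cls b)
    {x : ℝ} (hx : 0 < x) : Mn u (a : FrI K) x = Mn u (b : FrI K) x := by
  rw [cls, cls, dif_neg ha, dif_neg hb, ClassGroup.mk0_eq_mk0_iff] at h
  obtain ⟨r, s, hr, hs, h⟩ := h
  have h1 := congrArg (fun c : Ideal (𝓞 K) => (c : FrI K)) h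
  simp only [FractionalIdeal.coeIdeal_mul, FractionalIdeal.coeIdeal_span_singleton] at h1
  rw [← Mn_smul u (a := algebraMap (𝓞 K) K r) (RingOfIntegers.coe_ne_zero_iff.2 hr)
    (FractionalIdeal.coeIdeal_ne_zero.2 ha) hx, h1,
    Mn_smul u (RingOfIntegers.coe_ne_zero_iff.2 hs) (FractionalIdeal.coeIdeal_ne_zero.2 hb) hx]

theorem sum_lintegral_le {α ι : Type} [MeasurableSpace α] (μ : Measure α) (s : Finset ι)
    (f : ι → α → ℝ≥0∞) : ∑ i ∈ s, ∫⁻ a, f i a ∂μ ≤ ∫⁻ a, ∑ i ∈ s, f i a ∂μ := by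
  induction s using Finset.induction_on with
  | empty => simp
  | insert i s hi ih =>
    simp only [Finset.sum_insert hi]
    exact (add_le_add_right ih _).trans (le_lintegral_add _ _)

end Pool.Agent.Lib.MP_830c64_nt.CL
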