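import Pool.Agent.Lib.MP_830c64_nt.CL.BFinal
import Pool.Agent.Lib.MP_830c64_nt.CL.L0

/-! The theorem for torsion of any order, from the four statements of the interface. -/

namespace Pool.Agent.Lib.MP_830c64_nt.CL

open NumberField Module Equiv Finset
open scoped Classical ComplexConjugate

/-- For large `X`: `SoftL`, `sieve` with `c0 = 2`, `setup`. -/
theorem mainL_X (hC : CancelStmt) (hF : FIStmt) (hD : DensStmt) (hS : SoftL) {n l : ℕ}
    (hn : Odd n) (h5 : 5 ≤ n) (hl : 1 ≤ l) {ε : ℝ} (hε : 0 < ε) :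
    ∃ A X0 : ℝ, 0 ≤ A ∧ ∀ X : ℝ, X0 ≤ X →
      ∀ (ι : Type) (s : Finset ι) (K : ι → Type) [∀ i, Field (K i)] [∀ i, NumberField (K i)],
      (∀ i ∈ s, finrank ℚ (K i) = n ∧ IsSn n (K i) ∧ |(discr (K i) : ℝ)| ≤ X) →
      (∀ i ∈ s, ∀ j ∈ s, Nonempty (K i ≃+* K j) → i = j) →
      (∀ i ∈ s, A * X ^ (1 / 2 - 1 / (2 * l : ℝ) + ε) < hT (K i) l) → (s.card : ℝ) ≤ A * X ^ ε := by
  obtain ⟨η, hη, hη1, hS⟩ := hS n l (by omega) hl ε hε
  obtain ⟨η', hη', A, X0, hA, hX⟩ := sieve hC hF hD hn h5 hη hη1 hε (two_pos (α := ℝ))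
  obtain ⟨C, hC0, hS⟩ := hS η' hη'
  obtain ⟨c, hc, hset⟩ := setup hn
  refine ⟨max C (2 ^ n.factorial * A), max X0 c, le_max_of_le_left hC0,
    fun X hXX ι s K _ _ h1 h2 h3 => ?_⟩
  have hXc : c ≤ X := (le_max_right _ _).trans hXX
  have hX1 : 1 ≤ X := by linarith
  obtain ⟨y, P, hy1, hy2, hP, hmain⟩ := hX X ((le_max_left _ _).trans hXX)
  obtain ⟨M, _, _, _, I, d, hI, hd, hthin⟩ := hset s (fun i => K i) X hX1 (fun i => h1 i i.2)
    fun i j h => Subtype.ext (h2 i i.2 j j.2 h)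
  obtain ⟨s', -, hs1, hs2⟩ := hthin univ
  have hQ : ∀ p : ℕ, ∃ (Q : Ideal (𝓞 M)) (σ : Gl M), p.Prime → Frob Q p σ := fun p => by
    by_cases hp : p.Prime
    · obtain ⟨Q, σ, h⟩ := exists_frob (M := M) hp
      exact ⟨Q, σ, fun _ => h⟩
    · exact ⟨⊤, 1, fun h => absurd h hp⟩
  choose Q σ hQ using hQ
  have h4 : (s'.card : ℝ) ≤ A * X ^ ε := by
    refine hmain M I s s' (c * X) d Q σ hI (by nlinarith) (by rw [Real.rpow_two]; nlinarith) hQ
      hs2 fun i _ => lt_of_not_ge fun h => (h3 i i.2).not_ge ?_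
    refine (hS (K i) X y _ (h1 i i.2).1 hX1 (h1 i i.2).2.2 hy1 hy2 (fun p hp => ?_) h).trans
      (mul_le_mul_of_nonneg_right (le_max_left _ _) (Real.rpow_nonneg (by linarith) _))
    obtain ⟨hp1, hp2⟩ := mem_filter.1 hp
    exact ⟨(hP p hp1).1, (hP p hp1).2, hd i (Q p) p (σ p) (hP p hp1).1 (hQ p (hP p hp1).1) hp2⟩
  rw [card_univ, Fintype.card_coe] at hs1
  have h5 : (s.card : ℝ) ≤ 2 ^ n.factorial * s'.card := by exact_mod_cast hs1
  calc (s.card : ℝ) ≤ 2 ^ n.factorial * (A * X ^ ε) :=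
        h5.trans (mul_le_mul_of_nonneg_left h4 (by positivity))
    _ ≤ _ := by
      rw [← mul_assoc]
      exact mul_le_mul_of_nonneg_right (le_max_right _ _) (Real.rpow_nonneg (by linarith) _)

theorem narrowL_le (K : Type) [Field K] [NumberField K] (l : ℕ) :
    Finite (NarrowCl K) ∧
      Nat.card {c : NarrowCl K // c ^ l = 1} ≤ 2 ^ Module.finrank ℚ K * hT K l := by
  obtain ⟨π, h1, h3⟩ := narrow_ker K
  have h4 : ∀ c, c / Function.invFun π (π c) ∈ π.ker := fun c => by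
    rw [MonoidHom.mem_ker, map_div, Function.invFun_eq (f := π) ⟨c, rfl⟩, div_self']
  have h5 : ∀ c c', π c = π c' → c / Function.invFun π (π c) = c' / Function.invFun π (π c') →
      c = c' := fun c c' e e' => by rwa [e, div_left_inj] at e'
  refine ⟨Finite.of_injective (fun c => ((⟨_, h4 c⟩ : π.ker), π c)) fun c c' e =>
    h5 c c' (congrArg Prod.snd e) (congrArg (fun x => x.1.1) e), ?_⟩
  refine (Nat.card_le_card_of_injective (fun c : {c : NarrowCl K // c ^ l = 1} =>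
    ((⟨_, h4 c.1⟩ : π.ker), (⟨π c.1, by rw [← map_pow, c.2, map_one]⟩ :
      {c : ClassGroup (𝓞 K) // c ^ l = 1}))) fun c c' e => Subtype.ext (h5 _ _
        (congrArg (fun x => x.2.1) e) (congrArg (fun x => x.1.1) e))).trans ?_
  rw [Nat.card_prod]
  exact Nat.mul_le_mul_right _ h3

/-- Split the exceptional set according to `2 ^ j ≤ |discr| < 2 ^ (j + 1)`, use `mainL_X` at
`2 ^ (j + 1)` (or `few`), sum the geometric series, and use `narrowL_le`. -/
theorem mainL (hC : CancelStmt) (hF : FIStmt) (hD : DensStmt) (hS : SoftL) (n : ℕ) (hn : Odd n)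
    (h5 : 5 ≤ n) (l : ℕ) (hl : 1 ≤ l) (ε : ℝ) (hε : 0 < ε) :
    ∃ A : ℝ, ∀ X : ℝ, 1 ≤ X → ∀ (ι : Type) (s : Finset ι) (K : ι → Type)
      [∀ i, Field (K i)] [∀ i, NumberField (K i)],
      (∀ i ∈ s, Module.finrank ℚ (K i) = n ∧ IsSn n (K i) ∧ |(discr (K i) : ℝ)| ≤ X) →
      (∀ i ∈ s, ∀ j ∈ s, Nonempty (K i ≃+* K j) → i = j) →
      (Set.ncard {i | i ∈ s ∧ ¬ (Finite (NarrowClass (𝓞 (K i)) (K i)) ∧
        (Nat.card {c : NarrowClass (𝓞 (K i)) (K i) // c ^ l = 1} : ℝ) ≤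
          A * |(discr (K i) : ℝ)| ^ (1 / 2 - 1 / (2 * l : ℝ) + ε))} : ℝ) ≤
        A * X ^ ε := by
  obtain ⟨A0, X0, hA0, hX⟩ := mainL_X hC hF hD hS hn h5 hl hε
  obtain ⟨B, hB, hfew⟩ := few X0
  have hθ : 0 ≤ 1 / 2 - 1 / (2 * l : ℝ) + ε := by
    have h1 : (1 : ℝ) ≤ l := Nat.one_le_cast.2 hl
    have h2 : 1 / (2 * l : ℝ) ≤ 1 / 2 := one_div_le_one_div_of_le two_pos (by linarith)
    linarith
  generalize 1 / 2 - 1 / (2 * l : ℝ) + ε = θ at hθ hX ⊢
  set r : ℝ := 2 ^ ε with hr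
  have hr1 : 1 < r := Real.one_lt_rpow one_lt_two hε
  set A1 : ℝ := 2 ^ n * A0 * 2 ^ θ with hA1
  set A2 : ℝ := (A0 + B) * (r ^ 2 / (r - 1)) with hA2
  refine ⟨max A1 A2, fun X h1 ι s K _ _ hK hi => ?_⟩
  set E : Finset ι := s.filter fun i => ¬ (Finite (NarrowClass (𝓞 (K i)) (K i)) ∧
    (Nat.card {c : NarrowClass (𝓞 (K i)) (K i) // c ^ l = 1} : ℝ) ≤
      max A1 A2 * |(discr (K i) : ℝ)| ^ θ) with hE
  have hset : {i | i ∈ s ∧ ¬ (Finite (NarrowClass (𝓞 (K i)) (K i)) ∧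
      (Nat.card {c : NarrowClass (𝓞 (K i)) (K i) // c ^ l = 1} : ℝ) ≤
        max A1 A2 * |(discr (K i) : ℝ)| ^ θ)} = (E : Set ι) := by
    rw [hE, Finset.coe_filter]
  rw [hset, Set.ncard_coe_finset]
  let lg : ι → ℕ := fun i => Nat.log 2 (discr (K i)).natAbs
  have habs : ∀ i, (((discr (K i)).natAbs : ℕ) : ℝ) = |(discr (K i) : ℝ)| := fun i => by
    rw [Nat.cast_natAbs, Int.cast_abs]
  have hlo : ∀ i, (2 : ℝ) ^ lg i ≤ |(discr (K i) : ℝ)| := fun i => by
    rw [← habs]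
    exact_mod_cast Nat.pow_log_le_self 2 (Int.natAbs_ne_zero.2 (discr_ne_zero (K i)))
  have hhi : ∀ i, |(discr (K i) : ℝ)| ≤ (2 : ℝ) ^ (lg i + 1) := fun i => by
    rw [← habs]
    exact_mod_cast (Nat.lt_pow_succ_log_self one_lt_two _).le
  set J : ℕ := Nat.log 2 ⌊X⌋₊ with hJ
  have hJX : (2 : ℝ) ^ J ≤ X := by
    refine le_trans ?_ (Nat.floor_le (zero_le_one.trans h1))
    exact_mod_cast Nat.pow_log_le_self 2 (Nat.floor_pos.2 h1).ne'
  have hmap : ∀ i ∈ E, lg i ∈ range (J + 1) := fun i hi' => by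
    rw [mem_range, Nat.lt_succ_iff]
    refine Nat.log_mono_right (Nat.le_floor ?_)
    rw [habs]
    exact (hK i (mem_filter.1 hi').1).2.2
  have hpow : ∀ j : ℕ, ((2 : ℝ) ^ j) ^ ε = r ^ j := fun j => by
    rw [hr, ← Real.rpow_natCast, ← Real.rpow_natCast, ← Real.rpow_mul zero_le_two,
      ← Real.rpow_mul zero_le_two, mul_comm]
  have hfib : ∀ j : ℕ, ((E.filter fun i => lg i = j).card : ℝ) ≤ (A0 + B) * r ^ (j + 1) := by
    intro j
    have hr2 : 1 ≤ r ^ (j + 1) := one_le_pow₀ hr1.le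
    have hsub : ∀ i ∈ E.filter fun i => lg i = j, i ∈ s := fun i hi' =>
      (mem_filter.1 (mem_filter.1 hi').1).1
    have hd : ∀ i ∈ E.filter fun i => lg i = j, |(discr (K i) : ℝ)| ≤ (2 : ℝ) ^ (j + 1) :=
      fun i hi' => by rw [← (mem_filter.1 hi').2]; exact hhi i
    rcases le_total X0 (2 ^ (j + 1)) with h | h
    · have h3 := hX _ h ι (E.filter fun i => lg i = j) K
        (fun i hi' => ⟨(hK i (hsub i hi')).1, (hK i (hsub i hi')).2.1, hd i hi'⟩)
        (fun i hi' k hk' => hi i (hsub i hi') k (hsub k hk')) (fun i hi' => ?_)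
      · rw [hpow] at h3
        nlinarith
      · obtain ⟨hf, ht⟩ := narrowL_le (K i) l
        have hb := (mem_filter.1 (mem_filter.1 hi').1).2
        have h4 : (Nat.card {c : NarrowClass (𝓞 (K i)) (K i) // c ^ l = 1} : ℝ) ≤ 2 ^ n * (hT (K i) l : ℝ) := by
          rw [← (hK i (hsub i hi')).1]
          exact_mod_cast ht
        have h5' := not_le.1 fun h => hb ⟨hf, h⟩
        have h6 : ((2 : ℝ) ^ (j + 1)) ^ θ ≤
            2 ^ θ * |(discr (K i) : ℝ)| ^ θ := by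
          rw [← Real.mul_rpow zero_le_two (abs_nonneg _)]
          refine Real.rpow_le_rpow (by positivity) ?_ (by positivity)
          have := hlo i
          rw [(mem_filter.1 hi').2] at this
          rw [pow_succ]
          linarith
        have h7 : A1 * |(discr (K i) : ℝ)| ^ θ ≤
            max A1 A2 * |(discr (K i) : ℝ)| ^ θ :=
          mul_le_mul_of_nonneg_right (le_max_left _ _) (by positivity)
        have h8 : (2 : ℝ) ^ n * (A0 * ((2 : ℝ) ^ (j + 1)) ^ θ) <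
            2 ^ n * (hT (K i) l : ℝ) := by
          refine lt_of_le_of_lt ?_ ((h7.trans_lt h5').trans_le h4)
          rw [hA1, mul_assoc, mul_assoc]
          exact mul_le_mul_of_nonneg_left (mul_le_mul_of_nonneg_left h6 hA0) (by positivity)
        exact lt_of_mul_lt_mul_left h8 (by positivity)
    · have h3 := hfew ι (E.filter fun i => lg i = j) K (fun i hi' => (hd i hi').trans h)
        (fun i hi' k hk' => hi i (hsub i hi') k (hsub k hk'))
      nlinarith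
  have hsum : (E.card : ℝ) ≤ (A0 + B) * ∑ j ∈ range (J + 1), r ^ (j + 1) := by
    rw [card_eq_sum_card_fiberwise hmap, Nat.cast_sum, mul_sum]
    exact sum_le_sum fun j _ => hfib j
  have hg : ∑ j ∈ range (J + 1), r ^ (j + 1) ≤ r ^ 2 / (r - 1) * X ^ ε := by
    have h3 : r ^ J ≤ X ^ ε := by
      rw [← hpow]
      exact Real.rpow_le_rpow (by positivity) hJX hε.le
    rw [div_mul_eq_mul_div, le_div_iff₀ (by linarith), bfinal_geom, pow_add]
    nlinarith [sq_nonneg r]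
  refine hsum.trans ((mul_le_mul_of_nonneg_left hg (by positivity)).trans ?_)
  rw [← mul_assoc]
  exact mul_le_mul_of_nonneg_right (le_max_right _ _) (by positivity)

end Pool.Agent.Lib.MP_830c64_nt.CL
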