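import Pool.Agent.Lib.MP_830c64_nt.CL.L3
import Pool.Agent.Lib.MP_830c64_nt.CL.L0

/-! The three inequalities for the means, summed over the classes of powers. -/

namespace Pool.Agent.Lib.MP_830c64_nt.CL

open NumberField Module MeasureTheory Units.dirichletUnitTheorem
open scoped nonZeroDivisors Classical ENNReal

variable {K : Type} [Field K] [NumberField K] {F a : ℝ}

theorem rad_mono {I I' : FrI K} {x x' : ℝ} (h0 : 0 ≤ x * nI I) (h : x * nI I ≤ x' * nI I') :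
    rad I x ≤ rad I' x' :=
  Real.rpow_le_rpow h0 h (by positivity)

theorem l5_step {c : Ideal (𝓞 K)} (hc : c ≠ ⊥) {l : ℕ} {x d y : ℝ} (hx : 0 < x) (hd : 1 ≤ d)
    (hv : x * y ^ l ≤ d) (hy : 1 ≤ y) (hl : 1 ≤ l) (P : Finset ℕ) (J : ℕ → Ideal (𝓞 K))
    (hP : ∀ p ∈ P, p.Prime ∧ (p : ℝ) ≤ y ∧ Ideal.absNorm (J p) = p ∧ ¬ (p : ℤ) ∣ discr K)
    (hF : (2 * y ^ l + 1) ^ finrank ℚ K = F) :
    ∑ p ∈ P, (Mn (ph F (l : ℝ)⁻¹) ((c * J p ^ l : Ideal (𝓞 K)) : FrI K) x).toReal ≤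
      (2 * Real.log d + 2 * 5 ^ finrank ℚ K * (1 + Real.log y)) *
        (Mn (ph F (l : ℝ)⁻¹) (c : FrI K) (x * y ^ l)).toReal := by
  have hM : 1 ≤ y ^ l := one_le_pow₀ hy
  have hF0 : 0 ≤ F := hF ▸ by positivity
  have ha : (l : ℝ)⁻¹ ≤ 1 := inv_le_one_of_one_le₀ (Nat.one_le_cast.2 hl)
  have hm : Monotone (ph F (l : ℝ)⁻¹) := fun _ _ => ph_mono hF0 (by positivity) ha
  have hI : (c : FrI K) ≠ 0 := FractionalIdeal.coeIdeal_ne_zero.2 hc
  have hJ : ∀ p ∈ P, ((c * J p ^ l : Ideal (𝓞 K)) : FrI K) ≠ 0 := fun p hp =>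
    FractionalIdeal.coeIdeal_ne_zero.2
      (mul_ne_zero hc (pow_ne_zero _ (acnt_ne (hP p hp).1 (hP p hp).2.2.1)))
  have hx' : 0 < x * y ^ l := by positivity
  have h1 := Real.log_nonneg hd
  have h2 := Real.log_nonneg hy
  generalize hC : 2 * Real.log d + 2 * 5 ^ finrank ℚ K * (1 + Real.log y) = C
  have hC0 : 0 ≤ C := hC ▸ by positivity
  rw [← ENNReal.toReal_sum fun p hp => Mn_ne_top hm (hJ p hp) hx, ← ENNReal.toReal_ofReal_mul _ _ hC0]
  refine ENNReal.toReal_mono (ENNReal.mul_ne_top ENNReal.ofReal_ne_top (Mn_ne_top hm hI hx')) ?_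
  refine (sum_lintegral_le _ _ _).trans ?_
  rw [Mn, ← lintegral_const_mul' _ _ ENNReal.ofReal_ne_top]
  refine lintegral_mono fun t => ?_
  rw [← ENNReal.ofReal_sum_of_nonneg fun p _ => ph_nonneg hF0 _, ← ENNReal.ofReal_mul hC0, ← hC]
  refine ENNReal.ofReal_le_ofReal (le_trans (Finset.sum_le_sum fun p hp => hm ?_)
    (l2_step hI (fun w => mul_pos (rad_pos hI hx') (ft_pos t w)) hd ?_ hy hl P J hP hF))
  · refine nb_mono (FractionalIdeal.coeIdeal_mul _ _).le fun w =>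
      mul_le_mul_of_nonneg_right (rad_mono (mul_pos hx (nI_pos (hJ p hp))).le ?_) (ft_pos t w).le
    rw [nI_coe, nI_coe, map_mul, map_pow, (hP p hp).2.2.1, mul_assoc, mul_comm (y ^ l)]
    push_cast
    gcongr
    exact (hP p hp).2.1
  · rw [vl_rad hI hx', mul_comm]
    exact mul_le_mul_of_nonneg_left hv (nI_pos hI).le

theorem l5_grow {I : FrI K} (hI : I ≠ 0) {x M : ℝ} (hx : 0 < x) (hM : 1 ≤ M) (hF : 1 ≤ F)
    (h0 : 0 ≤ a) (ha : a ≤ 1) (hv : (3 * finrank ℚ K) ^ finrank ℚ K * (x * M) < rD K) :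
    (Mn (ph F a) I (x * M)).toReal ≤
      (2 * (2 * M ^ (finrank ℚ K : ℝ)⁻¹ + 1) ^ (finrank ℚ K - 1)) ^ a *
        ((Mn (ph F a) I x).toReal + F * volume.real (fd K)) := by
  have hF0 : 0 ≤ F := by linarith
  have hm : Monotone (ph F a) := fun _ _ => ph_mono hF0 h0 ha
  have hx' : 0 < x * M := by positivity
  have hL : 1 ≤ M ^ (finrank ℚ K : ℝ)⁻¹ := Real.one_le_rpow hM (by positivity)
  have hD : volume (fd K) ≠ ⊤ := (fd_bdd K).measure_lt_top.ne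
  have e : rad I (x * M) = rad I x * M ^ (finrank ℚ K : ℝ)⁻¹ := by
    rw [rad, rad, mul_right_comm, Real.mul_rpow (mul_pos hx (nI_pos hI)).le (by linarith)]
  generalize M ^ (finrank ℚ K : ℝ)⁻¹ = lam at hL e ⊢
  have hB : 0 ≤ (2 * (2 * lam + 1) ^ (finrank ℚ K - 1)) ^ a := by positivity
  have h1 := ENNReal.mul_ne_top (ENNReal.ofReal_ne_top (r := F)) hD
  rw [Measure.real, ← ENNReal.toReal_ofReal_mul _ _ hF0,
    ← ENNReal.toReal_add (Mn_ne_top hm hI hx) h1, ← ENNReal.toReal_ofReal_mul _ _ hB]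
  refine ENNReal.toReal_mono (ENNReal.mul_ne_top ENNReal.ofReal_ne_top
    (ENNReal.add_ne_top.2 ⟨Mn_ne_top hm hI hx, h1⟩)) ?_
  rw [Mn, Mn, ← setLIntegral_const, ← lintegral_add_right _ measurable_const,
    ← lintegral_const_mul' _ _ ENNReal.ofReal_ne_top]
  refine lintegral_mono fun t => ?_
  rw [← ENNReal.ofReal_add (ph_nonneg hF0 _) hF0, ← ENNReal.ofReal_mul hB]
  refine ENNReal.ofReal_le_ofReal (ph_grow hF h0 ha (by positivity) ?_)
  have h2 := l1_grow hI (fun w => mul_pos (rad_pos hI hx') (ft_pos t w)) (by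
    rw [vl_rad hI hx', ← mul_assoc, mul_comm (nI I)]
    exact mul_lt_mul_of_pos_right hv (nI_pos hI)) hL
  have h3 : (fun w => rad I (x * M) * ft t w / lam) = fun w => rad I x * ft t w := by
    funext w
    rw [e, mul_right_comm, mul_div_cancel_right₀ _ (by linarith)]
  rwa [h3] at h2

theorem l5_base {M T : ℝ} (hM : 3 ≤ M) (hF : (2 * M + 1) ^ finrank ℚ K = F) (hT : 0 < T)
    (h : ∀ I : FrI K, I ≠ 0 → ∀ R : ℝ, 0 < R →
      ∫⁻ t in fd K, ENNReal.ofReal (nb I fun w => R * ft t w) =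
        ENNReal.ofReal (T * SI I (R ^ finrank ℚ K / nI I) fun _ => 1)) :
    T ≤ (Mn (ph F a) ((⊤ : Ideal (𝓞 K)) : FrI K) 3).toReal := by
  have hI : ((⊤ : Ideal (𝓞 K)) : FrI K) ≠ 0 := FractionalIdeal.coeIdeal_ne_zero.2 top_ne_bot
  have h1 := nI_pos hI
  have h3 : (0 : ℝ) < 3 := by norm_num
  have e : ∀ t, ph F a (nb ((⊤ : Ideal (𝓞 K)) : FrI K) fun w => rad ((⊤ : Ideal (𝓞 K)) : FrI K) 3 *
      ft t w) = nb ((⊤ : Ideal (𝓞 K)) : FrI K) fun w => rad ((⊤ : Ideal (𝓞 K)) : FrI K) 3 *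
      ft t w := fun t => ph_of_le (by
    have h2 := l1_cover ((⊤ : Ideal (𝓞 K)) : FrI K)
      (fun w => mul_pos (rad_pos hI h3) (ft_pos t w)) (lam := M) (by linarith)
    rw [nb_eq_zero hI (g := fun w => _ / M) (by
      simp only [div_eq_inv_mul _ M]
      rw [vl_mul, vl_rad hI h3, inv_pow, inv_mul_le_iff₀ (by positivity)]
      exact mul_le_mul_of_nonneg_right (hM.trans (le_self_pow₀ (by linarith) finrank_pos.ne'))
        h1.le), hF] at h2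
    simp only [Nat.cast_zero, zero_add, mul_one] at h2
    linarith)
  have h4 : 1 ≤ SI ((⊤ : Ideal (𝓞 K)) : FrI K) 3 fun _ => 1 := by
    refine le_trans ?_ (Finset.single_le_sum (a := ⊤) (fun b hb => mul_nonneg zero_le_one
      (wt_nonneg _ _ (zero_lt_one.trans_le
        (one_le_absNorm (mem_idl'.1 (Finset.mem_filter.1 hb).1).1))))
      (Finset.mem_filter.2 ⟨mem_idl'.2 ⟨top_ne_bot, by simp⟩,
        (gen_iff_cls top_ne_bot top_ne_bot).2 (by rw [cls_top, inv_one])⟩))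
    rw [one_mul]
    exact one_le_wt _ (by simp) (by simp)
  simp only [Mn, e]
  rw [h _ hI _ (rad_pos hI h3), rad_pow hI h3, mul_div_cancel_right₀ _ h1.ne',
    ENNReal.toReal_ofReal (by positivity)]
  exact le_mul_of_one_le_right hT.le h4

theorem cls_pow {J : Ideal (𝓞 K)} (hJ : J ≠ ⊥) (l : ℕ) : cls (J ^ l) = cls J ^ l := by
  induction l with
  | zero => rw [pow_zero, pow_zero, Ideal.one_eq_top, cls_top]
  | succ l ih => rw [pow_succ, pow_succ, cls_mul (pow_ne_zero _ hJ) hJ, ih]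

theorem l5_main {l k : ℕ} (hl : 1 ≤ l) {y Q : ℝ} (hy : 3 ≤ y) (P : Finset ℕ)
    (J : ℕ → Ideal (𝓞 K))
    (hP : ∀ p ∈ P, p.Prime ∧ (p : ℝ) ≤ y ∧ Ideal.absNorm (J p) = p ∧ ¬ (p : ℤ) ∣ discr K)
    (h1 : (2 * Real.log (rD K) + 2 * 5 ^ finrank ℚ K * (1 + Real.log y)) * Q ≤ P.card)
    (h2 : 2 * (2 * (2 * (y ^ l) ^ (finrank ℚ K : ℝ)⁻¹ + 1) ^ (finrank ℚ K - 1)) ^ (l : ℝ)⁻¹ ≤ Q)
    (h3 : (3 * finrank ℚ K) ^ finrank ℚ K * (3 * (y ^ l) ^ (k + 1)) < rD K) :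
    ∃ Φ V : ℝ, Tr K Φ ∧ hT K l * V = Nat.card (ClassGroup (𝓞 K)) * Φ ∧
      Q ^ k ≤ (2 * y ^ l + 1) ^ finrank ℚ K * V := by
  obtain ⟨T, hT0, hΦ, hb⟩ := transfer' K
  set G : Subgroup (ClassGroup (𝓞 K)) := (powMonoidHom l).range with hG
  refine ⟨_, Nat.card G * (volume.real (fd K) / T), hΦ, ?_, ?_⟩
  · rw [← mul_assoc, ← Nat.cast_mul, hG, ← Subgroup.index_ker,
      show hT K l = Nat.card (powMonoidHom l : ClassGroup (𝓞 K) →* _).ker from rfl,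
      Subgroup.card_mul_index]
  have hy1 : 1 ≤ y := by linarith
  have hM : 3 ≤ y ^ l := hy.trans (le_self_pow₀ hy1 (by omega))
  have hM1 : 1 ≤ y ^ l := by linarith
  generalize hF : (2 * y ^ l + 1) ^ finrank ℚ K = F
  have hF1 : 1 ≤ F := hF ▸ one_le_pow₀ (by linarith)
  have ha : (l : ℝ)⁻¹ ≤ 1 := inv_le_one_of_one_le₀ (Nat.one_le_cast.2 hl)
  choose c hc0 _ hc using fun γ : ClassGroup (𝓞 K) => exists_coprime_rep one_ne_zero γ
  set Ψ : ℕ → ℝ := fun j => ∑ γ : G,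
    (Mn (ph F (l : ℝ)⁻¹) (c γ : FrI K) (3 * (y ^ l) ^ j)).toReal with hΨ
  have Ψ0 : ∀ j, 0 ≤ Ψ j := fun j => Finset.sum_nonneg fun _ _ => ENNReal.toReal_nonneg
  have hx : ∀ j : ℕ, 0 < 3 * (y ^ l) ^ j := fun j => by positivity
  have e : ∀ j : ℕ, 3 * (y ^ l) ^ (j + 1) = 3 * (y ^ l) ^ j * y ^ l := fun j => by ring
  have hlog := Real.log_nonneg (one_le_rD K)
  have hlog' := Real.log_nonneg hy1
  have hA : ∀ j ≤ k, Q * Ψ j ≤ Ψ (j + 1) := fun j hj => by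
    have hv : 3 * (y ^ l) ^ j * y ^ l ≤ rD K := by
      refine le_trans ?_ ((le_mul_of_one_le_left (hx _).le (one_le_pow₀ ?_)).trans h3.le)
      · rw [← e]
        gcongr
      · have : (1 : ℝ) ≤ finrank ℚ K := Nat.one_le_cast.2 finrank_pos
        linarith
    have a1 := Finset.sum_le_sum fun (γ : G) (_ : γ ∈ Finset.univ) =>
      l5_step (hc0 γ) (hx j) (one_le_rD K) hv hy1 hl P J hP hF
    have a2 : ∀ p ∈ P, ∑ γ : G, (Mn (ph F (l : ℝ)⁻¹) ((c γ * J p ^ l : Ideal (𝓞 K)) : FrI K)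
        (3 * (y ^ l) ^ j)).toReal = Ψ j := fun p hp => by
      have b := acnt_ne (hP p hp).1 (hP p hp).2.2.1
      refine Fintype.sum_equiv (Equiv.mulRight (⟨cls (J p) ^ l, _, rfl⟩ : G)) _ _ fun γ => ?_
      refine congrArg _ (Mn_cls _ (mul_ne_zero (hc0 _) (pow_ne_zero _ b)) (hc0 _) ?_ (hx j))
      rw [cls_mul (hc0 _) (pow_ne_zero _ b), cls_pow b, hc, hc]
      rfl
    rw [Finset.sum_comm, Finset.sum_congr rfl a2, Finset.sum_const, nsmul_eq_mul, ← Finset.mul_sum,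
      ← e] at a1
    refine le_of_mul_le_mul_left (le_trans ?_ a1) (by positivity)
    rw [← mul_assoc]
    exact mul_le_mul_of_nonneg_right h1 (Ψ0 j)
  have hB := Finset.sum_le_sum fun (γ : G) (_ : γ ∈ Finset.univ) =>
    l5_grow (FractionalIdeal.coeIdeal_ne_zero.2 (hc0 γ)) (hx k) hM1 hF1 (by positivity) ha (e k ▸ h3)
  rw [← Finset.mul_sum, Finset.sum_add_distrib, Finset.sum_const, Finset.card_univ, nsmul_eq_mul,
    ← Nat.card_eq_fintype_card, ← e] at hB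
  have hB0 : 0 < (2 * (2 * (y ^ l) ^ (finrank ℚ K : ℝ)⁻¹ + 1) ^ (finrank ℚ K - 1)) ^ (l : ℝ)⁻¹ := by
    positivity
  generalize (2 * (2 * (y ^ l) ^ (finrank ℚ K : ℝ)⁻¹ + 1) ^ (finrank ℚ K - 1)) ^ (l : ℝ)⁻¹ = B
    at hB hB0 h2
  have hk : Ψ k ≤ Nat.card G * (F * volume.real (fd K)) := by
    have a1 := (mul_le_mul_of_nonneg_right h2 (Ψ0 k)).trans ((hA k le_rfl).trans hB)
    refine le_of_mul_le_mul_left ?_ hB0
    change _ ≤ B * (Ψ k + _) at a1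
    linarith
  have hC : ∀ j ≤ k, Q ^ j * T ≤ Ψ j := fun j => by
    induction j with
    | zero =>
      intro _
      refine le_trans ?_ (Finset.single_le_sum (a := (1 : G))
        (fun _ _ => ENNReal.toReal_nonneg) (Finset.mem_univ _))
      rw [pow_zero, pow_zero, one_mul, mul_one, Mn_cls _ (hc0 ((1 : G) : ClassGroup (𝓞 K)))
        top_ne_bot ((hc _).trans cls_top.symm) three_pos]
      exact l5_base hM hF hT0 hb
    | succ j ih =>
      intro hj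
      rw [pow_succ', mul_assoc]
      exact (mul_le_mul_of_nonneg_left (ih (by omega)) (by linarith)).trans (hA j (by omega))
  rw [← mul_div_assoc, ← mul_div_assoc, le_div_iff₀ hT0, mul_left_comm]
  exact (hC k le_rfl).trans hk

end Pool.Agent.Lib.MP_830c64_nt.CL
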