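import Pool.Agent.Lib.MP_830c64_nt.CL.UDiv

/-! Inequalities between real numbers for the bound on torsion of any order. -/

namespace Pool.Agent.Lib.MP_830c64_nt.CL

theorem l3_num {n l : ℕ} (hn : 1 ≤ n) (hl : 1 ≤ l) {η η' : ℝ} (hη : 0 < η) (h4 : η ≤ 1 / (4 * n))
    (hη' : 0 < η') : ∃ y₀ : ℝ, 3 ≤ y₀ ∧ ∀ y L q : ℝ, y₀ ≤ y → 0 ≤ L → η' * L ≤ Real.log y →
      y ^ (1 - η) ≤ q + 2 * L →
      (2 * L + 2 * 5 ^ n * (1 + Real.log y)) * y ^ (1 - 2 * η) ≤ q ∧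
        2 * (2 * (2 * (y ^ l) ^ (n : ℝ)⁻¹ + 1) ^ (n - 1)) ^ (l : ℝ)⁻¹ ≤ y ^ (1 - 2 * η) := by
  obtain ⟨C, hC, H⟩ := log_pow_le 1 (half_pos hη)
  have hn1 : (1 : ℝ) ≤ n := Nat.one_le_cast.2 hn
  have hl1 : (1 : ℝ) ≤ l := Nat.one_le_cast.2 hl
  have h5 : η ≤ 1 / 4 := h4.trans (one_div_le_one_div_of_le (by norm_num) (by linarith))
  set B : ℝ := (4 / η' + 2 * 5 ^ n) * C with hB
  have hB0 : 0 ≤ B := by positivity
  have h3 : (0 : ℝ) < 4 * 3 ^ n := by positivity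
  refine ⟨max 3 ((B + 4 * 3 ^ n) ^ (η / 2)⁻¹), le_max_left _ _, fun y L q hy hL h1 h2 => ?_⟩
  have y3 : 3 ≤ y := le_of_max_le_left hy
  have y1 : 1 ≤ y := by linarith
  have y0 : 0 < y := by linarith
  have hW : B + 4 * 3 ^ n ≤ y ^ (η / 2) := by
    have := Real.rpow_le_rpow (by positivity) (le_of_max_le_right hy) (half_pos hη).le
    rwa [Real.rpow_inv_rpow (by positivity) (half_pos hη).ne'] at this
  have hlog := Real.log_nonneg y1
  constructor
  · have a1 := H y y1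
    rw [pow_one] at a1
    have a2 : 1 ≤ y ^ (1 - 2 * η) := Real.one_le_rpow y1 (by linarith)
    have a3 : L ≤ (1 + Real.log y) / η' := by
      rw [le_div_iff₀' hη']
      linarith
    have a4 : y ^ (1 - η) = y ^ (η / 2) * y ^ (η / 2) * y ^ (1 - 2 * η) := by
      rw [← Real.rpow_add y0, ← Real.rpow_add y0]
      congr 1
      ring
    have a5 : 4 * L + 2 * 5 ^ n * (1 + Real.log y) ≤ y ^ (η / 2) * y ^ (η / 2) := by
      calc _ ≤ (4 / η' + 2 * 5 ^ n) * (1 + Real.log y) := by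
            rw [add_mul (4 / η'), div_mul_eq_mul_div, mul_div_assoc]
            linarith
        _ ≤ (4 / η' + 2 * 5 ^ n) * (C * y ^ (η / 2)) := by gcongr
        _ = B * y ^ (η / 2) := by rw [hB, mul_assoc]
        _ ≤ _ := mul_le_mul_of_nonneg_right (by linarith) (by positivity)
    have a6 := mul_le_mul_of_nonneg_right a5 (zero_le_one.trans a2)
    have a7 := mul_le_mul_of_nonneg_left a2 hL
    rw [a4] at h2
    nlinarith
  · set lam : ℝ := (y ^ l) ^ (n : ℝ)⁻¹ with hlam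
    have b1 : 1 ≤ lam := Real.one_le_rpow (one_le_pow₀ y1) (by positivity)
    have b2 : 2 * (2 * lam + 1) ^ (n - 1) ≤ 2 * 3 ^ n * lam ^ (n - 1) := by
      calc _ ≤ 2 * (3 * lam) ^ (n - 1) := by gcongr; linarith
        _ = 2 * 3 ^ (n - 1) * lam ^ (n - 1) := by rw [mul_pow, mul_assoc]
        _ ≤ _ := by
          gcongr
          · norm_num
          · omega
    have b3 : (lam ^ (n - 1)) ^ (l : ℝ)⁻¹ = y ^ (1 - (n : ℝ)⁻¹) := by
      rw [hlam, ← Real.rpow_natCast y, ← Real.rpow_natCast, ← Real.rpow_mul y0.le,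
        ← Real.rpow_mul y0.le, ← Real.rpow_mul y0.le, Nat.cast_sub hn]
      congr 1
      field_simp
      simp
    have b4 := Real.rpow_le_rpow (by positivity) b2 (by positivity : (0 : ℝ) ≤ (l : ℝ)⁻¹)
    rw [Real.mul_rpow (x := 2 * 3 ^ n) (by positivity) (by positivity), b3] at b4
    have b5 : (2 * 3 ^ n : ℝ) ^ (l : ℝ)⁻¹ ≤ 2 * 3 ^ n :=
      Real.rpow_le_self_of_one_le
        (by linarith [one_le_pow₀ (by norm_num : (1 : ℝ) ≤ 3) (n := n)])
        (inv_le_one_of_one_le₀ hl1)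
    have b6 : y ^ (η / 2) * y ^ (1 - (n : ℝ)⁻¹) ≤ y ^ (1 - 2 * η) := by
      rw [← Real.rpow_add y0]
      refine Real.rpow_le_rpow_of_exponent_le y1 ?_
      have : 1 / (4 * n : ℝ) = (n : ℝ)⁻¹ / 4 := by field_simp
      linarith
    have b7 : 0 ≤ y ^ (1 - (n : ℝ)⁻¹) := by positivity
    have b8 := mul_le_mul_of_nonneg_right b5 b7
    have b9 := mul_le_mul_of_nonneg_right (by linarith : 4 * 3 ^ n ≤ y ^ (η / 2)) b7
    linarith

theorem l3_fin {n l : ℕ} (hl : 1 ≤ l) {η C₀ A : ℝ} (hη : 0 < η) (h4 : η ≤ 1 / 4) (hC : 0 ≤ C₀)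
    (hA : 1 ≤ A) : ∃ C : ℝ, 0 ≤ C ∧ ∀ (X y d h V : ℝ) (k : ℕ), 1 ≤ X → 1 ≤ y → y ≤ X ^ η →
      1 ≤ d → d ^ 2 ≤ X → 0 ≤ h → d < A * (y ^ l) ^ (k + 2) →
      (y ^ (1 - 2 * η)) ^ k ≤ (2 * y ^ l + 1) ^ n * V → h * V ≤ C₀ * d ^ (1 + η) →
      h ≤ C * X ^ (1 / 2 - 1 / (2 * l : ℝ) + (l * n + 4) * η) := by
  refine ⟨A * 3 ^ n * C₀, by positivity, fun X y d h V k hX hy hyX hd hdX hh h1 h2 h3 => ?_⟩
  have hl1 : (1 : ℝ) ≤ l := Nat.one_le_cast.2 hl
  have X0 : 0 < X := by linarith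
  have y0 : 0 < y := by linarith
  have d0 : 0 < d := by linarith
  set e : ℝ := (1 - 2 * η) / l with he
  have e0 : 0 ≤ e := div_nonneg (by linarith) (by linarith)
  have e1 : e ≤ 1 := (div_le_one (by linarith)).2 (by linarith)
  have a1 : d ^ e ≤ A * ((y ^ (1 - 2 * η)) ^ k * y ^ 2) := by
    refine (Real.rpow_le_rpow d0.le h1.le e0).trans ?_
    rw [Real.mul_rpow (by positivity) (by positivity)]
    refine mul_le_mul (Real.rpow_le_self_of_one_le hA e1) ?_ (by positivity) (by positivity)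
    rw [← pow_mul, ← Real.rpow_natCast y, ← Real.rpow_natCast y, ← Real.rpow_natCast (y ^ _) k,
      ← Real.rpow_mul y0.le, ← Real.rpow_mul y0.le, ← Real.rpow_add y0]
    refine Real.rpow_le_rpow_of_exponent_le hy ?_
    have : ((l * (k + 2) : ℕ) : ℝ) * e = (1 - 2 * η) * (k + 2) := by
      rw [he]
      push_cast
      field_simp
    rw [this]
    push_cast
    linarith
  have a2 : (2 * y ^ l + 1) ^ n ≤ 3 ^ n * y ^ (l * n) := by
    rw [pow_mul, ← mul_pow]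
    have := one_le_pow₀ hy (n := l)
    gcongr
    linarith
  have a3 : h * (y ^ (1 - 2 * η)) ^ k ≤ 3 ^ n * y ^ (l * n) * (C₀ * d ^ (1 + η)) := by
    calc _ ≤ h * ((2 * y ^ l + 1) ^ n * V) := mul_le_mul_of_nonneg_left h2 hh
      _ = (2 * y ^ l + 1) ^ n * (h * V) := by ring
      _ ≤ (2 * y ^ l + 1) ^ n * (C₀ * d ^ (1 + η)) := mul_le_mul_of_nonneg_left h3 (by positivity)
      _ ≤ _ := mul_le_mul_of_nonneg_right a2 (by positivity)
  have a4 : h * d ^ e ≤ A * 3 ^ n * C₀ * (y ^ (l * n + 2) * d ^ (1 + η - e)) * d ^ e := by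
    calc _ ≤ h * (A * ((y ^ (1 - 2 * η)) ^ k * y ^ 2)) := mul_le_mul_of_nonneg_left a1 hh
      _ = A * y ^ 2 * (h * (y ^ (1 - 2 * η)) ^ k) := by ring
      _ ≤ A * y ^ 2 * (3 ^ n * y ^ (l * n) * (C₀ * d ^ (1 + η))) :=
        mul_le_mul_of_nonneg_left a3 (by positivity)
      _ = _ := by
        rw [show d ^ (1 + η) = d ^ (1 + η - e) * d ^ e by
          rw [← Real.rpow_add d0, sub_add_cancel]]
        ring
  refine (le_of_mul_le_mul_right a4 (Real.rpow_pos_of_pos d0 e)).trans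
    (mul_le_mul_of_nonneg_left ?_ (by positivity))
  have a5 : y ^ (l * n + 2) ≤ X ^ (η * (l * n + 2)) := by
    refine (pow_le_pow_left₀ y0.le hyX _).trans_eq ?_
    rw [← Real.rpow_natCast, ← Real.rpow_mul X0.le]
    push_cast
    rfl
  have a6 : d ^ (1 + η - e) ≤ X ^ ((1 + η - e) / 2) := by
    have := Real.rpow_le_rpow (by positivity) hdX (by linarith : 0 ≤ (1 + η - e) / 2)
    rwa [← Real.rpow_natCast, ← Real.rpow_mul d0.le, Nat.cast_ofNat,
      mul_div_cancel₀ _ two_ne_zero] at this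
  refine (mul_le_mul a5 a6 (by positivity) (by positivity)).trans ?_
  rw [← Real.rpow_add X0]
  refine Real.rpow_le_rpow_of_exponent_le hX ?_
  have a7 : e = 2 * (1 / (2 * l : ℝ)) - 2 * (η / l) := by
    rw [he]
    field_simp
  have a8 : η / l ≤ η := div_le_self hη.le hl1
  rw [a7]
  linarith

end Pool.Agent.Lib.MP_830c64_nt.CL
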