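import Pool.Agent.Lib.MP_830c64_nt.CL.L5
import Pool.Agent.Lib.MP_830c64_nt.CL.LNum

/-! The bound for fields with many small primes of degree one. -/

namespace Pool.Agent.Lib.MP_830c64_nt.CL

open NumberField Module
open scoped nonZeroDivisors Classical

theorem l6_card (K : Type) [Field K] [NumberField K] (P : Finset ℕ) (hP : ∀ p ∈ P, p.Prime)
    {X : ℝ} (hD : |(discr K : ℝ)| ≤ X) :
    (P.card : ℝ) ≤ (P.filter fun p : ℕ => ¬ (p : ℤ) ∣ discr K).card + 2 * Real.log X := by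
  have h0 : (discr K).natAbs ≠ 0 := Int.natAbs_ne_zero.2 (discr_ne_zero K)
  rw [← Finset.card_filter_add_card_filter_not (s := P) fun p : ℕ => (p : ℤ) ∣ discr K,
    Nat.cast_add, add_comm]
  refine add_le_add_right (le_trans (Nat.cast_le.2 (Finset.card_le_card fun p hp => ?_))
    ((acnt_log h0).trans (mul_le_mul_of_nonneg_left (Real.log_le_log
      (Nat.cast_pos.2 (Nat.pos_of_ne_zero h0)) ?_) zero_le_two))) _
  · obtain ⟨h1, h2⟩ := Finset.mem_filter.1 hp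
    exact Nat.mem_primeFactors.2 ⟨hP p h1, Int.natCast_dvd.1 h2, h0⟩
  · rwa [Nat.cast_natAbs, Int.cast_abs]

theorem softL : SoftL := by
  intro n l hn hl ε hε
  have hn1 : (1 : ℝ) ≤ n := Nat.one_le_cast.2 hn
  have hl1 : (1 : ℝ) ≤ l := Nat.one_le_cast.2 hl
  obtain ⟨η, hη, e1, e2⟩ : ∃ η : ℝ, 0 < η ∧ η ≤ ε / (l * n + 4) ∧ η ≤ 1 / (4 * n) :=
    ⟨min _ _, lt_min (by positivity) (by positivity), min_le_left _ _, min_le_right _ _⟩
  have e3 : η ≤ 1 / 4 := e2.trans (one_div_le_one_div_of_le (by norm_num) (by linarith))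
  refine ⟨η, hη, by linarith, fun η' hη' => ?_⟩
  obtain ⟨C1, hC1, H1⟩ := h_le n hη
  obtain ⟨C2, hC2, H2⟩ := hr_le n hη
  obtain ⟨y₀, hy₀, H3⟩ := l3_num hn hl hη e2 hη'
  have hB : (1 : ℝ) ≤ (3 * n) ^ n := one_le_pow₀ (by linarith)
  obtain ⟨C3, hC3, H4⟩ := l3_fin (n := n) hl hη e3 (C₀ := C1 + C2) (A := 4 * (3 * n) ^ n)
    (by linarith) (by linarith)
  have hA : 0 ≤ C1 * (y₀ ^ η'⁻¹) ^ (1 + η) := by positivity
  refine ⟨C3 + C1 * (y₀ ^ η'⁻¹) ^ (1 + η), by positivity,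
    fun K _ _ X y P hK hX hD hy1 hy2 hP hq => ?_⟩
  have hd1 := one_le_rD K
  have hd2 : rD K ^ 2 ≤ X := by rwa [rD, Real.sq_sqrt (abs_nonneg _)]
  have hdX : rD K ≤ X := by nlinarith
  have h2l : 1 / (2 * l : ℝ) ≤ 1 / 2 := one_div_le_one_div_of_le two_pos (by linarith)
  have hXe : 1 ≤ X ^ (1 / 2 - 1 / (2 * l : ℝ) + ε) := Real.one_le_rpow hX (by linarith)
  have hh : (hT K l : ℝ) ≤ C1 * rD K ^ (1 + η) := le_trans
    (Nat.cast_le.2 (Nat.card_le_card_of_injective Subtype.val Subtype.val_injective)) (H1 K hK.le)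
  rcases le_total y y₀ with hs | hs
  · have a1 : X ≤ y₀ ^ η'⁻¹ := (Real.le_rpow_inv_iff_of_pos (by linarith) (by linarith) hη').2
      (hy1.trans hs)
    have a2 : rD K ^ (1 + η) ≤ (y₀ ^ η'⁻¹) ^ (1 + η) :=
      Real.rpow_le_rpow (by linarith) (hdX.trans a1) (by linarith)
    calc (hT K l : ℝ) ≤ C1 * (y₀ ^ η'⁻¹) ^ (1 + η) := hh.trans (by gcongr)
      _ ≤ (C3 + C1 * (y₀ ^ η'⁻¹) ^ (1 + η)) * 1 := by linarith
      _ ≤ _ := by gcongr
  have hy : 1 ≤ y := by linarith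
  have hM : 3 ≤ y ^ l := (hy₀.trans hs).trans (le_self_pow₀ hy (by omega))
  have hd3 : 0 ≤ rD K ^ (1 + η) := by positivity
  suffices h : ∃ (k : ℕ) (V : ℝ), rD K < 4 * (3 * n) ^ n * (y ^ l) ^ (k + 2) ∧
      (y ^ (1 - 2 * η)) ^ k ≤ (2 * y ^ l + 1) ^ n * V ∧
      hT K l * V ≤ (C1 + C2) * rD K ^ (1 + η) by
    obtain ⟨k, V, a1, a2, a3⟩ := h
    refine (H4 X y _ _ V k hX hy hy2 hd1 hd2 (Nat.cast_nonneg _) a1 a2 a3).trans
      (mul_le_mul (by linarith) (Real.rpow_le_rpow_of_exponent_le hX ?_) (by positivity)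
        (by positivity))
    rw [le_div_iff₀' (by positivity)] at e1
    linarith
  rcases lt_or_ge (rD K / (4 * (3 * n) ^ n * y ^ l)) 1 with ht | ht
  · rw [div_lt_one (by positivity)] at ht
    refine ⟨0, 1, ht.trans_le ?_, ?_, by nlinarith⟩
    · gcongr
      exact le_self_pow₀ (by linarith) (by omega)
    · rw [pow_zero, mul_one]
      exact one_le_pow₀ (by linarith)
  obtain ⟨k, k1, k2⟩ := exists_nat_pow_near ht (y := y ^ l) (by linarith)
  rw [le_div_iff₀ (by positivity)] at k1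
  rw [div_lt_iff₀ (by positivity)] at k2
  choose! J hJ using fun p hp => (hP p hp).2.2
  obtain ⟨b1, b2⟩ := H3 y (Real.log X) _ hs (Real.log_nonneg hX) (by
    rw [← Real.log_rpow (by linarith)]
    exact Real.log_le_log (by positivity) hy1) (hq.trans (l6_card K P (fun p hp => (hP p hp).1) hD))
  subst hK
  obtain ⟨Φ, V, c1, c2, c3⟩ := l5_main (k := k) hl (hy₀.trans hs) _ J (fun p hp => by
    obtain ⟨h1, h2⟩ := Finset.mem_filter.1 hp
    exact ⟨(hP p h1).1, (hP p h1).2.1, hJ p h1, h2⟩) (le_trans (by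
      gcongr) b1) b2 (by
      have : 0 < (3 * finrank ℚ K : ℝ) ^ finrank ℚ K * (y ^ l) ^ (k + 1) := by positivity
      rw [pow_succ] at this ⊢
      nlinarith)
  refine ⟨k, V, k2.trans_eq (by ring), c3, c2.trans_le ((H2 K le_rfl Φ c1).trans ?_)⟩
  nlinarith

end Pool.Agent.Lib.MP_830c64_nt.CL
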