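import Pool.Agent.Lib.MP_830c64_nt.Base

/-! Number fields whose Galois closure has the full symmetric group as Galois group. -/

namespace Pool.Agent.Lib.MP_830c64_nt

/-- The group of automorphisms of the normal closure of `K` in `ℂ` is the symmetric group on `n`
letters. -/
def IsSn (n : ℕ) (K : Type) [Field K] [NumberField K] : Prop :=
  Nonempty ((IntermediateField.normalClosure ℚ K ℂ ≃ₐ[ℚ] IntermediateField.normalClosure ℚ K ℂ) ≃*
    Equiv.Perm (Fin n))

end Pool.Agent.Lib.MP_830c64_nt
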