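import Pool.Agent.Lib.MP_830c64_nt.CL.IDefs

/-! Definitions for the geometry of numbers: boxes, weights, the transfer principle. -/

namespace Pool.Agent.Lib.MP_830c64_nt.CL

open NumberField Module
open scoped nonZeroDivisors Classical

/-- Fractional ideals. -/
abbrev FrI (K : Type) [Field K] : Type := FractionalIdeal (𝓞 K)⁰ K

variable {K : Type} [Field K] [NumberField K]

theorem bx_finite (I : FrI K) (f : InfinitePlace K → ℝ) :
    {x : K | x ∈ I ∧ ∀ w : InfinitePlace K, w x < f w}.Finite := by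
  obtain ⟨d, hd, h⟩ := I.isFractional
  have hd0 : (d : K) ≠ 0 := by
    have := nonZeroDivisors.ne_zero hd
    exact_mod_cast this
  refine Set.Finite.of_finite_image (f := fun x => (d : K) * x) ?_
    (fun x _ y _ e => mul_left_cancel₀ hd0 e)
  refine (Embeddings.finite_of_norm_le K ℂ (∑ w : InfinitePlace K, w (d : K) * |f w|)).subset ?_
  rintro _ ⟨x, ⟨hx, hx'⟩, rfl⟩
  obtain ⟨y, hy⟩ := h x hx
  refine ⟨?_, fun φ => ?_⟩
  · have h1 : (d : K) * x = (y : K) := by
      rw [Algebra.smul_def] at hy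
      exact hy.symm
    change IsIntegral ℤ ((d : K) * x)
    rw [h1]
    exact y.2
  · rw [← InfinitePlace.apply, map_mul]
    refine le_trans ?_ (Finset.single_le_sum
      (f := fun w : InfinitePlace K => w (d : K) * |f w|)
      (fun w _ => mul_nonneg (apply_nonneg _ _) (abs_nonneg _)) (Finset.mem_univ (.mk φ)))
    exact mul_le_mul_of_nonneg_left ((hx' _).le.trans (le_abs_self _)) (apply_nonneg _ _)

/-- The points of `I` in the open box of radii `f`. -/
noncomputable def bx (I : FrI K) (f : InfinitePlace K → ℝ) : Finset K := (bx_finite I f).toFinset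

theorem mem_bx {I : FrI K} {f : InfinitePlace K → ℝ} {x : K} :
    x ∈ bx I f ↔ x ∈ I ∧ ∀ w : InfinitePlace K, w x < f w := by
  rw [bx, Set.Finite.mem_toFinset]; rfl

/-- The open box of radii `f` in the mixed space. -/
def Bx (f : InfinitePlace K → ℝ) : Set (mixedEmbedding.mixedSpace K) :=
  {z | ∀ w, mixedEmbedding.normAtPlace w z < f w}

/-- The product of the radii, with multiplicity. -/
noncomputable def vl (f : InfinitePlace K → ℝ) : ℝ := ∏ w, f w ^ w.mult

/-- The norm of a fractional ideal as a real number. -/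
noncomputable def nI (I : FrI K) : ℝ := ((FractionalIdeal.absNorm I : ℚ) : ℝ)

/-- The square root of the absolute value of the discriminant. -/
noncomputable def rD (K : Type) [Field K] [NumberField K] : ℝ := √|(discr K : ℝ)|

/-- The number of integers per unit of `vl`. -/
noncomputable def mK (K : Type) [Field K] [NumberField K] : ℝ :=
  2 ^ InfinitePlace.nrRealPlaces K * (2 * Real.pi) ^ InfinitePlace.nrComplexPlaces K / rD K

/-- The logarithmic weight. -/
noncomputable def wt (r : ℕ) (x m : ℝ) : ℝ := if m < x then Real.log (x / m) ^ r else 0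

/-- `x` generates `I * a`. -/
def Gen (I : FrI K) (x : K) (a : Ideal (𝓞 K)) : Prop :=
  x ≠ 0 ∧ FractionalIdeal.spanSingleton (𝓞 K)⁰ x = I * (a : FrI K)

/-- Sum over the nonzero points of a box. -/
noncomputable def SB (I : FrI K) (f : InfinitePlace K → ℝ) (G : K → ℝ) : ℝ :=
  ∑ x ∈ (bx I f).erase 0, G x

/-- Weighted sum over the ideals in the class inverse to `I`. -/
noncomputable def SI (I : FrI K) (ρ : ℝ) (F : Ideal (𝓞 K) → ℝ) : ℝ :=
  ∑ a ∈ (idl K ρ).filter (fun a => ∃ x, Gen I x a),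
    F a * wt (Units.rank K) ρ (Ideal.absNorm a)

/-- The transfer principle: an inequality between box sums that holds for all shapes of the boxes
gives an inequality between weighted sums over ideals. -/
def Tr (K : Type) [Field K] [NumberField K] (Φ : ℝ) : Prop :=
  ∀ (J : Type) (s : Finset J) (I : J → FrI K) (R : J → ℝ) (σ : J → ℤ) (G : J → K → ℝ)
    (F : J → Ideal (𝓞 K) → ℝ) (e : ℝ),
    (∀ j ∈ s, I j ≠ 0 ∧ 0 < R j ∧ (σ j = 1 ∨ σ j = -1) ∧
      ∀ x a, Gen (I j) x a → G j x = F j a) →
    (∀ f : InfinitePlace K → ℝ, (∀ w, 0 < f w) → vl f = 1 →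
      ∑ j ∈ s, SB (I j) (fun w => R j * f w ^ σ j) (G j) ≤ e) →
    ∑ j ∈ s, SI (I j) (R j ^ finrank ℚ K / nI (I j)) (F j) ≤ Φ * e

/-- The ideal class. -/
noncomputable def cls (a : Ideal (𝓞 K)) : ClassGroup (𝓞 K) :=
  if h : a = ⊥ then 1 else ClassGroup.mk0 ⟨a, mem_nonZeroDivisors_of_ne_zero h⟩

/-- The number of ideals of norm at most `x` with class in `G`. -/
noncomputable def cntG (G : Subgroup (ClassGroup (𝓞 K))) (x : ℝ) : ℕ :=
  ((idl K x).filter fun a => cls a ∈ G).card

/-- The shape of the box attached to a point of the logarithmic space. -/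
noncomputable def ft (t : Units.dirichletUnitTheorem.logSpace K) (w : InfinitePlace K) : ℝ :=
  if h : w = Units.dirichletUnitTheorem.w₀ then Real.exp (-(∑ v, t v) / w.mult)
  else Real.exp (t ⟨w, h⟩ / w.mult)

/-- The shapes of the boxes of size `R` that contain `x`. -/
def rg (x : K) (R : ℝ) : Set (Units.dirichletUnitTheorem.logSpace K) :=
  {t | ∀ w : InfinitePlace K, w x < R * ft t w}

/-- The mean value of a function that is periodic modulo `q`. -/
noncomputable def mean (q : ℕ) (g : 𝓞 K → ℂ) : ℂ :=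
  (∑ᶠ a : 𝓞 K ⧸ Ideal.span {(q : 𝓞 K)}, g (Quotient.out a)) / (q : ℂ) ^ finrank ℚ K

/-- Every point of the mixed space is within `ρ * ψ` of a point of `b`. -/
def Cov (b : Ideal (𝓞 K)) (ψ : InfinitePlace K → ℝ) (ρ : ℝ) : Prop :=
  ∀ z : mixedEmbedding.mixedSpace K, ∃ y ∈ b, ∀ w,
    mixedEmbedding.normAtPlace w (z - mixedEmbedding K (y : K)) ≤ ρ * ψ w

theorem mem_idl' {x : ℝ} {I : Ideal (𝓞 K)} :
    I ∈ idl K x ↔ I ≠ ⊥ ∧ (Ideal.absNorm I : ℝ) ≤ x := by
  rcases le_or_gt 0 x with h | h
  · exact mem_idl h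
  · refine ⟨fun h1 => ?_, fun h1 => absurd ((Nat.cast_nonneg _).trans h1.2) h.not_ge⟩
    simp [idl, Nat.floor_of_nonpos h.le] at h1

end Pool.Agent.Lib.MP_830c64_nt.CL
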