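import Pool.Agent.Lib.MP_830c64_nt.CL.UDefs

/-! The shapes of boxes. -/

namespace Pool.Agent.Lib.MP_830c64_nt.CL

open NumberField Module MeasureTheory Units.dirichletUnitTheorem
open scoped nonZeroDivisors Classical

variable {K : Type} [Field K] [NumberField K]

theorem ft_pos (t : logSpace K) (w : InfinitePlace K) : 0 < ft t w := by
  unfold ft
  split_ifs <;> exact Real.exp_pos _

/-- Split off `w₀` (`Finset.mul_prod_erase`, `Finset.prod_subtype`), `Real.exp_sum`. -/
theorem vl_ft (t : logSpace K) : vl (ft t) = 1 := by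
  have h : ∀ w : InfinitePlace K, ft t w ^ w.mult =
      Real.exp (if h : w = w₀ then -(∑ v, t v) else t ⟨w, h⟩) := by
    intro w
    have h0 : (w.mult : ℝ) ≠ 0 := InfinitePlace.mult_coe_ne_zero
    unfold ft
    split_ifs <;> rw [← Real.exp_nat_mul, mul_div_cancel₀ _ h0]
  unfold vl
  simp only [h]
  rw [← Real.exp_sum, Fintype.sum_eq_add_sum_subtype_ne _ w₀, dif_pos rfl,
    Finset.sum_congr rfl fun (v : {w : InfinitePlace K // w ≠ w₀}) _ => dif_neg v.2,
    neg_add_cancel, Real.exp_zero]

theorem ft_neg (t : logSpace K) (w : InfinitePlace K) : ft (-t) w = (ft t w)⁻¹ := by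
  unfold ft
  split_ifs <;> rw [← Real.exp_neg] <;> simp [neg_div]

/-- `logEmbedding_component`, `sum_logEmbedding_component`. -/
theorem ft_add_log (t : logSpace K) (u : (𝓞 K)ˣ) (w : InfinitePlace K) :
    ft (Units.logEmbedding K (Additive.ofMul u) + t) w = w ((u : 𝓞 K) : K) * ft t w := by
  have h0 : (w.mult : ℝ) ≠ 0 := InfinitePlace.mult_coe_ne_zero
  have h1 : w ((u : 𝓞 K) : K) = Real.exp (Real.log (w ((u : 𝓞 K) : K))) :=
    (Real.exp_log (Units.pos_at_place u w)).symm
  unfold ft
  split_ifs with h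
  · subst h
    rw [h1, ← Real.exp_add]
    simp only [Pi.add_apply, Finset.sum_add_distrib, sum_logEmbedding_component]
    refine congrArg _ ?_
    field_simp
    ring
  · rw [h1, ← Real.exp_add, Pi.add_apply, logEmbedding_component, add_div,
      mul_div_cancel_left₀ _ h0]

theorem continuous_ft (w : InfinitePlace K) : Continuous fun t : logSpace K => ft t w := by
  unfold ft
  split_ifs <;> fun_prop

theorem isOpen_rg (x : K) (R : ℝ) : IsOpen (rg x R) := by
  unfold rg
  rw [Set.ofPred_forall]
  exact isOpen_iInter_of_finite fun w =>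
    isOpen_lt continuous_const (continuous_const.mul (continuous_ft w))

theorem mem_rg_unit (x : K) (R : ℝ) (u : (𝓞 K)ˣ) (t : logSpace K) :
    Units.logEmbedding K (Additive.ofMul u) + t ∈ rg (((u : 𝓞 K) : K) * x) R ↔ t ∈ rg x R := by
  refine forall_congr' fun w => ?_
  rw [ft_add_log, map_mul, mul_left_comm]
  exact mul_lt_mul_iff_right₀ (Units.pos_at_place u w)

/-- On a bounded set the shapes are bounded. -/
theorem ft_bdd {D : Set (logSpace K)} (hb : Bornology.IsBounded D) :
    ∃ B : ℝ, ∀ t ∈ D, ∀ w, ft t w ≤ B := by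
  have h := fun w : InfinitePlace K =>
    (hb.isCompact_closure.image (continuous_ft w)).bddAbove
  choose B hB using h
  refine ⟨∑ w, |B w|, fun t ht w => ((hB w ⟨t, subset_closure ht, rfl⟩).trans
    (le_abs_self _)).trans ?_⟩
  exact Finset.single_le_sum (f := fun w => |B w|) (fun _ _ => abs_nonneg _) (Finset.mem_univ w)

open scoped Pointwise in
/-- The units fibre over the unit lattice with fibres the cosets of the torsion
(`logEmbedding_eq_zero_iff`; or `logEmbeddingEquiv` and `Subgroup.groupEquivQuotientProdSubgroup`),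
so for `g : unitLattice K → ℝ≥0∞` the sum of `g (log u)` over units is `torsionOrder K` times the
sum of `g`. By `mem_rg_unit`, `rg (u * x) R = log u +ᵥ rg x R`. Conclude with
`IsAddFundamentalDomain.measure_eq_tsum`. -/
theorem orbit_sum {D : Set (logSpace K)}
    (hD : IsAddFundamentalDomain (Units.unitLattice K) D volume) (x : K) (R : ℝ) :
    ∑' u : (𝓞 K)ˣ, volume (D ∩ rg (((u : 𝓞 K) : K) * x) R) =
      Units.torsionOrder K * volume (rg x R) := by
  have : VAddInvariantMeasure (Units.unitLattice K) (logSpace K) volume :=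
    inferInstanceAs (VAddInvariantMeasure (Units.unitLattice K).toAddSubgroup _ _)
  have : MeasurableVAdd (Units.unitLattice K) (logSpace K) :=
    inferInstanceAs (MeasurableVAdd (Units.unitLattice K).toAddSubgroup _)
  let L : (𝓞 K)ˣ → Units.unitLattice K := fun u =>
    Units.logEmbeddingEquiv K (Additive.ofMul (QuotientGroup.mk u))
  have hL : ∀ u, (L u : logSpace K) = Units.logEmbedding K (Additive.ofMul u) := fun u =>
    Units.logEmbeddingEquiv_apply K u
  have h1 : ∀ u : (𝓞 K)ˣ, D ∩ rg (((u : 𝓞 K) : K) * x) R = (L u +ᵥ rg x R) ∩ D := by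
    intro u
    rw [Set.inter_comm]
    refine congrArg (· ∩ D) (Set.ext fun s => ?_)
    rw [Set.mem_vadd_set_iff_neg_vadd_mem, ← mem_rg_unit x R u, ← hL]
    change _ ↔ (L u : logSpace K) + (-(L u : logSpace K) + s) ∈ _
    rw [add_neg_cancel_left]
  simp only [h1]
  rw [hD.measure_eq_tsum (rg x R), ← (Subgroup.groupEquivQuotientProdSubgroup
    (s := Units.torsion K)).symm.tsum_eq, ENNReal.tsum_prod',
    ← ((Additive.ofMul.trans (Units.logEmbeddingEquiv K).toEquiv).tsum_eq), ← ENNReal.tsum_mul_left]
  refine tsum_congr fun q => ?_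
  have h2 : ∀ ζ : Units.torsion K, L ((Subgroup.groupEquivQuotientProdSubgroup
      (s := Units.torsion K)).symm (q, ζ)) = Units.logEmbeddingEquiv K (Additive.ofMul q) := by
    intro ζ
    refine congrArg (fun z => Units.logEmbeddingEquiv K (Additive.ofMul z)) ?_
    exact congrArg Prod.fst ((Subgroup.groupEquivQuotientProdSubgroup
      (s := Units.torsion K)).apply_symm_apply (q, ζ))
  simp only [h2]
  rw [ENNReal.tsum_const, Units.torsionOrder, ENat.card_eq_coe_natCard]
  rfl

end Pool.Agent.Lib.MP_830c64_nt.CL
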