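import Pool.Agent.Lib.MP_830c64_nt.CL.UDefs

/-! Counting the points of a lattice coset with the help of a covering property. -/

namespace Pool.Agent.Lib.MP_830c64_nt.CL

open MeasureTheory Module

theorem ulat_meas {E ι : Type} [NormedAddCommGroup E] [NormedSpace ℝ E] [FiniteDimensional ℝ E]
    [MeasurableSpace E] [BorelSpace E] [Fintype ι] (μ : Measure E) [μ.IsAddHaarMeasure]
    (b : Basis ι ℝ E) (S : Set E) (hS : MeasurableSet S) :
    μ S = ∫⁻ z in ZSpan.fundamentalDomain b, ∑' l : Submodule.span ℤ (Set.range b),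
      S.indicator (1 : E → ENNReal) ((l : E) + z) ∂μ := by
  have hF := ZSpan.isAddFundamentalDomain' b μ
  have : Countable (Submodule.span ℤ (Set.range b)) :=
    (countable_of_Lindelof_of_discrete : Countable (Submodule.span ℤ (Set.range b)))
  have : Countable (Submodule.span ℤ (Set.range b)).toAddSubgroup :=
    inferInstanceAs (Countable (Submodule.span ℤ (Set.range b)))
  rw [lintegral_tsum, ← lintegral_indicator_one hS, hF.lintegral_eq_tsum'']
  · rfl
  · intro l
    exact ((measurable_one.indicator hS).comp (measurable_const_add (l : E))).aemeasurable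

/-- With `L = span ℤ (range b)` and `F = ZSpan.fundamentalDomain b`
(`ZSpan.isAddFundamentalDomain`): for measurable `S`, `μ S = ∫⁻ z in F, n S z` where
`n S z = ∑' l : L, S.indicator 1 (l + z)` (`IsAddFundamentalDomain.lintegral_eq_tsum''` for the
indicator, `lintegral_tsum`). For each `z` write `z - a = l₀ + d`, `d ∈ D`. The map
`x ↦ x - a - l₀` sends `T` injectively to the `l` with `l + z ∈ Bp`, so `T.card ≤ n Bp z`;
the map `l ↦ l + l₀ + a` sends the `l` with `l + z ∈ Bm` injectively to `T`, so
`n Bm z ≤ T.card`. -/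
theorem lat_count {E ι : Type} [NormedAddCommGroup E] [NormedSpace ℝ E] [FiniteDimensional ℝ E]
    [MeasurableSpace E] [BorelSpace E] [Fintype ι] (μ : Measure E) [μ.IsAddHaarMeasure]
    (b : Basis ι ℝ E) (a : E) (Bm B Bp D : Set E) (hm : MeasurableSet Bm) (hp : MeasurableSet Bp)
    (hcov : ∀ z, ∃ l ∈ Submodule.span ℤ (Set.range b), z - l ∈ D)
    (h1 : ∀ x ∈ B, ∀ d ∈ D, x + d ∈ Bp) (h2 : ∀ y ∈ Bm, ∀ d ∈ D, y - d ∈ B) (T : Finset E)
    (hT : ∀ x, x ∈ T ↔ x - a ∈ Submodule.span ℤ (Set.range b) ∧ x ∈ B) :
    μ Bm ≤ T.card * μ (ZSpan.fundamentalDomain b) ∧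
      T.card * μ (ZSpan.fundamentalDomain b) ≤ μ Bp := by
  classical
  have key : ∀ z : E, (∑' l : Submodule.span ℤ (Set.range b),
      Bm.indicator (1 : E → ENNReal) ((l : E) + z)) ≤ T.card ∧ (T.card : ENNReal) ≤
      ∑' l : Submodule.span ℤ (Set.range b), Bp.indicator (1 : E → ENNReal) ((l : E) + z) := by
    intro z
    obtain ⟨l₀, hl₀, hd⟩ := hcov (z - a)
    have inj : Function.Injective
        fun l : Submodule.span ℤ (Set.range b) => (l : E) + l₀ + a := fun x y e =>
      Subtype.ext (add_right_cancel (add_right_cancel e))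
    have hc : (T.preimage _ inj.injOn).card = T.card := by
      rw [Finset.card_preimage]
      congr 1
      refine Finset.filter_true_of_mem fun x hx => ?_
      exact ⟨⟨x - a - l₀, Submodule.sub_mem _ ((hT x).1 hx).1 hl₀⟩, by simp⟩
    rw [← hc, Finset.card_eq_sum_ones]
    push_cast
    constructor
    · rw [tsum_eq_sum (s := T.preimage _ inj.injOn)]
      · exact Finset.sum_le_sum fun l _ => Set.indicator_apply_le' (fun _ => le_rfl) fun _ => by simp
      · intro l hl
        refine Set.indicator_of_notMem (fun h => hl ?_) _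
        rw [Finset.mem_preimage, hT]
        refine ⟨?_, ?_⟩
        · rw [add_sub_cancel_right]
          exact Submodule.add_mem _ l.2 hl₀
        · have := h2 _ h _ hd
          rwa [show (l : E) + z - (z - a - l₀) = l + l₀ + a by abel] at this
    · refine le_trans (Finset.sum_le_sum fun l hl => ?_) (ENNReal.sum_le_tsum _)
      rw [Finset.mem_preimage, hT] at hl
      have := h1 _ hl.2 _ hd
      rw [show (l : E) + l₀ + a + (z - a - l₀) = l + z by abel] at this
      rw [Set.indicator_of_mem this]
      exact le_rfl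
  rw [ulat_meas μ b Bm hm, ulat_meas μ b Bp hp, ← setLIntegral_const]
  exact ⟨lintegral_mono fun z => (key z).1, lintegral_mono fun z => (key z).2⟩

end Pool.Agent.Lib.MP_830c64_nt.CL
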