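import Pool.Agent.Lib.MP_830c64_nt.CL.UDefs

/-! Orthogonality of characters on a fundamental domain. -/

namespace Pool.Agent.Lib.MP_830c64_nt.CL

open MeasureTheory Module

open scoped Pointwise in
theorem uorth_zero {E ι : Type} [NormedAddCommGroup E] [NormedSpace ℝ E] [FiniteDimensional ℝ E]
    [MeasurableSpace E] [BorelSpace E] [Fintype ι] (μ : Measure E) [μ.IsAddHaarMeasure]
    (b : Basis ι ℝ E) (φ : E →ₗ[ℝ] ℝ) (h : ∀ i, ∃ m : ℤ, φ (b i) = m) (h0 : φ ≠ 0) :
    ∫ ξ in ZSpan.fundamentalDomain b,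
      Complex.exp (2 * Real.pi * Complex.I * (φ ξ : ℝ)) ∂μ = 0 := by
  have hF := ZSpan.isAddFundamentalDomain' b μ
  have : Countable (Submodule.span ℤ (Set.range b)).toAddSubgroup :=
    inferInstanceAs (Countable (Submodule.span ℤ (Set.range b)))
  have hm : ∀ g ∈ Submodule.span ℤ (Set.range b), ∃ m : ℤ, φ g = m := fun g hg => by
    induction hg using Submodule.span_induction with
    | mem x hx =>
      obtain ⟨i, rfl⟩ := hx
      exact h i
    | zero => exact ⟨0, by simp⟩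
    | add x y _ _ hx hy =>
      obtain ⟨m, hm⟩ := hx
      obtain ⟨n, hn⟩ := hy
      exact ⟨m + n, by simp [hm, hn]⟩
    | smul c x _ hx =>
      obtain ⟨m, hm⟩ := hx
      exact ⟨c * m, by simp [map_zsmul, hm]⟩
  obtain ⟨a, ha⟩ := LinearMap.surjective_iff_ne_zero.2 h0 (1 / 2)
  have h1 := hF.setIntegral_eq (hF.vadd_of_comm a)
    (f := fun ξ => Complex.exp (2 * Real.pi * Complex.I * (φ ξ : ℝ))) fun g x => by
      obtain ⟨m, hm⟩ := hm g g.2
      rw [AddSubgroup.vadd_def, vadd_eq_add, map_add, hm, Complex.ofReal_add, mul_add,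
        Complex.exp_add, mul_comm, Complex.ofReal_intCast, mul_comm _ (m : ℂ),
        Complex.exp_int_mul_two_pi_mul_I, mul_one]
  have h2 := (measurePreserving_vadd a μ).setIntegral_image_emb (measurableEmbedding_const_vadd a)
    (fun ξ => Complex.exp (2 * Real.pi * Complex.I * (φ ξ : ℝ))) (ZSpan.fundamentalDomain b)
  have h3 : ∀ ξ : E, Complex.exp ((2 : ℂ) * Real.pi * Complex.I * (φ (a +ᵥ ξ) : ℝ)) =
      -Complex.exp (2 * Real.pi * Complex.I * (φ ξ : ℝ)) := fun ξ => by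
    rw [vadd_eq_add, map_add, ha, Complex.ofReal_add, mul_add, Complex.exp_add,
      show 2 * (Real.pi : ℂ) * Complex.I * ((1 / 2 : ℝ) : ℂ) = Real.pi * Complex.I by
        push_cast; ring, Complex.exp_pi_mul_I, neg_one_mul]
  simp only [h3, integral_neg] at h2
  exact self_eq_neg.1 (h1.trans h2)

/-- Let `e φ ξ = cexp (2 π i φ ξ)`. If `φ` is integral on `b` then `e φ` is periodic modulo
`L = span ℤ (range b)`. For `φ ≠ 0` pick `a` with `φ a = 1 / 2`; `a +ᵥ F` is again a fundamental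
domain (`IsAddFundamentalDomain.vadd_of_comm`), so by `IsAddFundamentalDomain.setIntegral_eq` and
translation invariance `∫_F e φ = ∫_F e φ (a + ·) = - ∫_F e φ`, hence zero. Expand
`‖∑ e φ‖ ^ 2 = ∑ ∑ e (φ - φ')` (`Complex.mul_conj`); all functions are continuous and bounded, `F`
is bounded and measurable (`ZSpan.fundamentalDomain_isBounded`). Convert with
`ofReal_integral_eq_lintegral_ofReal`. -/
theorem rr_orth {E ι : Type} [NormedAddCommGroup E] [NormedSpace ℝ E] [FiniteDimensional ℝ E]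
    [MeasurableSpace E] [BorelSpace E] [Fintype ι] (μ : Measure E) [μ.IsAddHaarMeasure]
    (b : Basis ι ℝ E) (S : Finset (E →ₗ[ℝ] ℝ)) (hS : ∀ φ ∈ S, ∀ i, ∃ m : ℤ, φ (b i) = m) :
    ∫⁻ ξ in ZSpan.fundamentalDomain b,
      ENNReal.ofReal (‖∑ φ ∈ S, Complex.exp (2 * Real.pi * Complex.I * (φ ξ : ℝ))‖ ^ 2) ∂μ =
      S.card * μ (ZSpan.fundamentalDomain b) := by
  classical
  have hfin : μ (ZSpan.fundamentalDomain b) ≠ ⊤ :=
    (ZSpan.fundamentalDomain_isBounded b).measure_lt_top.ne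
  have hint : ∀ φ : E →ₗ[ℝ] ℝ, IntegrableOn
      (fun ξ => Complex.exp (2 * Real.pi * Complex.I * (φ ξ : ℝ)))
      (ZSpan.fundamentalDomain b) μ := fun φ => by
    have := φ.continuous_of_finiteDimensional
    refine Measure.integrableOn_of_bounded (M := 1) hfin
      (Continuous.aestronglyMeasurable (by fun_prop)) (ae_of_all _ fun ξ => le_of_eq ?_)
    rw [show 2 * (Real.pi : ℂ) * Complex.I * (φ ξ : ℝ) = (2 * Real.pi * φ ξ : ℝ) * Complex.I by
      push_cast; ring, Complex.norm_exp_ofReal_mul_I]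
  have hsq : ∀ ξ, ‖∑ φ ∈ S, Complex.exp (2 * Real.pi * Complex.I * (φ ξ : ℝ))‖ ^ 2 =
      (∑ φ ∈ S, ∑ φ' ∈ S, Complex.exp (2 * Real.pi * Complex.I * ((φ - φ') ξ : ℝ))).re :=
    fun ξ => by
    rw [← Complex.ofReal_re (_ ^ 2), Complex.ofReal_pow, ← Complex.mul_conj', map_sum,
      Finset.sum_mul_sum]
    refine congrArg _ (Finset.sum_congr rfl fun φ _ => Finset.sum_congr rfl fun φ' _ => ?_)
    rw [← Complex.exp_conj, ← Complex.exp_add]
    congr 1
    simp only [map_mul, Complex.conj_ofReal, Complex.conj_I, map_ofNat, LinearMap.sub_apply]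
    push_cast
    ring
  have hI : IntegrableOn (fun ξ => ∑ φ ∈ S, ∑ φ' ∈ S,
      Complex.exp (2 * Real.pi * Complex.I * ((φ - φ') ξ : ℝ))) (ZSpan.fundamentalDomain b) μ :=
    integrable_finsetSum _ fun φ _ => integrable_finsetSum _ fun φ' _ => hint _
  rw [← ofReal_integral_eq_lintegral_ofReal (by simp only [hsq]; exact hI.re)
    (ae_of_all _ fun ξ => sq_nonneg _)]
  simp only [hsq]
  have h1 := integral_re hI
  simp only [RCLike.re_to_complex] at h1
  rw [h1, integral_finsetSum _ fun φ _ => integrable_finsetSum _ fun φ' _ => hint _,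
    Finset.sum_congr rfl (g := fun _ => (μ.real (ZSpan.fundamentalDomain b) : ℂ)) fun φ hφ => ?_]
  · simp [ENNReal.ofReal_mul, ofReal_measureReal hfin]
  · rw [integral_finsetSum _ fun φ' _ => hint _, Finset.sum_eq_single φ
      (fun φ' h1 h2 => uorth_zero μ b _ (fun i => ?_) (sub_ne_zero.2 h2.symm))
      fun h => absurd hφ h]
    · simp
    · obtain ⟨m, hm⟩ := hS φ hφ i
      obtain ⟨n, hn⟩ := hS φ' h1 i
      exact ⟨m - n, by simp [hm, hn]⟩

end Pool.Agent.Lib.MP_830c64_nt.CL
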