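import Pool.Agent.Lib.MP_830c64_nt.CL.UOrth

/-! A Riemann-Roch type inequality for a lattice and its dual. -/

namespace Pool.Agent.Lib.MP_830c64_nt.CL

open MeasureTheory Module

theorem urr_low {E : Type} [AddCommGroup E] [Module ℝ E] (S : Finset (E →ₗ[ℝ] ℝ)) (ξ : E)
    (h : ∀ φ ∈ S, |φ ξ| ≤ 1 / 6) : (S.card : ℝ) ≤
      2 * ‖∑ φ ∈ S, Complex.exp (2 * Real.pi * Complex.I * (φ ξ : ℝ))‖ := by
  have e : ∀ φ ∈ S, (1 / 2 : ℝ) ≤ (Complex.exp (2 * Real.pi * Complex.I * (φ ξ : ℝ))).re := by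
    intro φ hφ
    have e1 : (2 * Real.pi * Complex.I * (φ ξ : ℝ) : ℂ) =
        ((2 * Real.pi * φ ξ : ℝ) : ℂ) * Complex.I := by
      push_cast
      ring
    rw [e1, Complex.exp_ofReal_mul_I_re, ← Real.cos_abs, ← Real.cos_pi_div_three]
    refine Real.cos_le_cos_of_nonneg_of_le_pi (abs_nonneg _) (by linarith [Real.pi_pos]) ?_
    rw [abs_mul, abs_of_pos (by positivity : 0 < 2 * Real.pi)]
    nlinarith [h φ hφ, Real.pi_pos]
  have e2 := Finset.sum_le_sum e
  rw [← Complex.re_sum, Finset.sum_const, nsmul_eq_mul] at e2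
  linarith [Complex.re_le_norm (∑ φ ∈ S, Complex.exp (2 * Real.pi * Complex.I * (φ ξ : ℝ)))]

theorem urr_int {E ι : Type} [AddCommGroup E] [Module ℝ E] (b : ι → E) (φ : E →ₗ[ℝ] ℝ)
    (h : ∀ i, ∃ m : ℤ, φ (b i) = m) {l : E} (hl : l ∈ Submodule.span ℤ (Set.range b)) :
    ∃ m : ℤ, φ l = m := by
  induction hl using Submodule.span_induction with
  | mem x hx =>
    obtain ⟨i, rfl⟩ := hx
    exact h i
  | zero => exact ⟨0, by simp⟩
  | add x y _ _ hx hy =>
    obtain ⟨m, hm⟩ := hx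
    obtain ⟨n, hn⟩ := hy
    exact ⟨m + n, by simp [hm, hn]⟩
  | smul a x _ hx =>
    obtain ⟨m, hm⟩ := hx
    exact ⟨a * m, by simp [hm]⟩

theorem urr_cnt {E : Type} [AddCommGroup E] (L : AddSubgroup E) (B : Set E) (U : Finset E)
    (hU : ∀ l ∈ L, (∃ x ∈ B, ∃ y ∈ B, l = x - y) → l ∈ U) (g : E → ENNReal) (ξ : E)
    (hg : ∀ l : L, g (l +ᵥ ξ) = g ξ) : ∑' l : L, B.indicator g (l +ᵥ ξ) ≤ U.card * g ξ := by
  classical
  rw [ENNReal.tsum_eq_iSup_sum]
  refine iSup_le fun s => ?_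
  have e : ∑ l ∈ s, B.indicator g (l +ᵥ ξ) = ∑ l ∈ s.filter (fun l => l +ᵥ ξ ∈ B), g ξ := by
    rw [Finset.sum_filter]
    refine Finset.sum_congr rfl fun l _ => ?_
    rw [Set.indicator_apply, hg]
  rw [e, Finset.sum_const, nsmul_eq_mul]
  refine mul_le_mul_left (Nat.cast_le.2 ?_) _
  rcases (s.filter fun l => l +ᵥ ξ ∈ B).eq_empty_or_nonempty with h | ⟨l₀, h₀⟩
  · simp [h]
  · refine Finset.card_le_card_of_injOn (fun l : L => ((l - l₀ : L) : E)) (fun l hl => ?_)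
      (fun l _ l' _ e => sub_left_injective (Subtype.ext e))
    refine hU _ (l - l₀).2 ⟨_, (Finset.mem_filter.1 hl).2, _, (Finset.mem_filter.1 h₀).2, ?_⟩
    simp [AddSubgroup.vadd_def]

/-- Let `g ξ = ofReal (‖∑ φ ∈ S, cexp (2 π i φ ξ)‖ ^ 2)`, measurable and periodic modulo `L`. On `B`
the real part of each term is `cos (2 π φ ξ) ≥ cos (π / 3) = 1 / 2`, so `g ≥ S.card ^ 2 / 4`.
`∫⁻_B g = ∫⁻_F (∑' l : L, B.indicator 1 (l + ξ)) * g ξ`
(`IsAddFundamentalDomain.lintegral_eq_tsum''`, `lintegral_tsum`), and for each `ξ` the number of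
`l` with `l + ξ ∈ B` is at most `U.card` (subtract one such `l₀`). Finish with `rr_orth` and
cancel `S.card` (the case `S = ∅` is trivial). -/
theorem rr_abs {E ι : Type} [NormedAddCommGroup E] [NormedSpace ℝ E] [FiniteDimensional ℝ E]
    [MeasurableSpace E] [BorelSpace E] [Fintype ι] (μ : Measure E) [μ.IsAddHaarMeasure]
    (b : Basis ι ℝ E) (S : Finset (E →ₗ[ℝ] ℝ)) (hS : ∀ φ ∈ S, ∀ i, ∃ m : ℤ, φ (b i) = m)
    (B : Set E) (hB : MeasurableSet B) (hsm : ∀ φ ∈ S, ∀ ξ ∈ B, |φ ξ| ≤ 1 / 6) (U : Finset E)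
    (hU : ∀ l ∈ Submodule.span ℤ (Set.range b), (∃ x ∈ B, ∃ y ∈ B, l = x - y) → l ∈ U) :
    (S.card : ENNReal) * μ B ≤ 4 * U.card * μ (ZSpan.fundamentalDomain b) := by
  rcases Nat.eq_zero_or_pos S.card with h0 | h0
  · simp [h0]
  set g : E → ENNReal := fun ξ =>
    ENNReal.ofReal (‖∑ φ ∈ S, Complex.exp (2 * Real.pi * Complex.I * (φ ξ : ℝ))‖ ^ 2) with hg
  have hm : Measurable g := by
    refine ENNReal.measurable_ofReal.comp (Continuous.measurable ?_)
    refine (continuous_finsetSum _ fun φ _ => ?_).norm.pow 2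
    have := φ.continuous_of_finiteDimensional
    fun_prop
  set L := (Submodule.span ℤ (Set.range b)).toAddSubgroup with hL
  have hF : IsAddFundamentalDomain L (ZSpan.fundamentalDomain b) μ :=
    ZSpan.isAddFundamentalDomain' b μ
  have : Countable L := inferInstanceAs (Countable (Submodule.span ℤ (Set.range b)))
  have hper : ∀ ξ (l : L), g (l +ᵥ ξ) = g ξ := by
    intro ξ l
    simp only [hg]
    refine congrArg (fun z : ℂ => ENNReal.ofReal (‖z‖ ^ 2)) (Finset.sum_congr rfl fun φ hφ => ?_)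
    obtain ⟨m, hm⟩ := urr_int b φ (hS φ hφ) l.2
    rw [AddSubgroup.vadd_def, vadd_eq_add, map_add, hm, Complex.ofReal_add, mul_add,
      Complex.exp_add, Complex.ofReal_intCast, mul_comm _ (m : ℂ),
      Complex.exp_int_mul_two_pi_mul_I, one_mul]
  have h1 : ∫⁻ ξ in B, g ξ ∂μ ≤ U.card * (S.card * μ (ZSpan.fundamentalDomain b)) := by
    rw [← lintegral_indicator hB, hF.lintegral_eq_tsum'', ← lintegral_tsum
      (f := fun (l : L) x => B.indicator g (l +ᵥ x)) fun l =>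
      ((hm.indicator hB).comp (measurable_const_vadd l)).aemeasurable, ← rr_orth μ b S hS,
      ← lintegral_const_mul _ hm]
    exact lintegral_mono fun ξ => urr_cnt L B U hU g ξ (hper ξ)
  have h2 : (S.card : ENNReal) * S.card * μ B ≤ 4 * ∫⁻ ξ in B, g ξ ∂μ := by
    rw [← lintegral_const_mul _ hm, ← setLIntegral_const]
    refine setLIntegral_mono' hB fun ξ hξ => ?_
    have e := urr_low S ξ fun φ hφ => hsm φ hφ ξ hξ
    simp only [hg]
    rw [← ENNReal.ofReal_natCast, ← ENNReal.ofReal_mul (Nat.cast_nonneg _),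
      ← ENNReal.ofReal_ofNat 4, ← ENNReal.ofReal_mul (by norm_num)]
    refine ENNReal.ofReal_le_ofReal ?_
    nlinarith [mul_self_le_mul_self (Nat.cast_nonneg _) e]
  refine (ENNReal.mul_le_mul_iff_right (a := S.card) (Nat.cast_ne_zero.2 h0.ne')
    (ENNReal.natCast_ne_top _)).1 ?_
  calc (S.card : ENNReal) * (S.card * μ B) = S.card * S.card * μ B := (mul_assoc _ _ _).symm
    _ ≤ 4 * (U.card * (S.card * μ (ZSpan.fundamentalDomain b))) :=
        h2.trans (mul_le_mul_right h1 4)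
    _ = _ := by ring

end Pool.Agent.Lib.MP_830c64_nt.CL
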