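import Pool.Agent.Lib.MP_830c64_nt.CL.URR
import Pool.Agent.Lib.MP_830c64_nt.CL.UVol
import Pool.Agent.Lib.MP_830c64_nt.CL.UTrf

/-! The Riemann-Roch inequality for boxes. -/

namespace Pool.Agent.Lib.MP_830c64_nt.CL

open NumberField Module MeasureTheory
open scoped nonZeroDivisors Classical

variable {K : Type} [Field K] [NumberField K]

theorem urrb_num {N U a b c v m r : ℝ} (hN : 0 ≤ N) (hU : 0 ≤ U) (ha : 1 ≤ a) (hb : b ≤ 1)
    (hc : 0 < c) (hv : 0 < v) (hm : 0 < m) (hr : 0 < r)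
    (h : N * (a * (c * v)⁻¹) ≤ 4 * U * ((m * r ^ 2)⁻¹ * (b * r))) :
    N ≤ 4 * c * (v / (m * r)) * U := by
  have h1 : N * (c * v)⁻¹ ≤ N * (a * (c * v)⁻¹) :=
    mul_le_mul_of_nonneg_left (le_mul_of_one_le_left (by positivity) ha) hN
  have h2 : 4 * U * ((m * r ^ 2)⁻¹ * (b * r)) ≤ 4 * U * ((m * r ^ 2)⁻¹ * (1 * r)) := by gcongr
  have h3 := (mul_inv_le_iff₀ (mul_pos hc hv)).1 (h1.trans (h.trans h2))
  refine h3.trans_eq ?_
  field_simp

/-- Apply `rr_abs` to the basis `fractionalIdealLatticeBasis K (Units.mk0 (dual ℤ ℚ I) _)`, the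
set `S` of functionals given by `exists_trfun` for `x ∈ bx I f` (distinct for distinct `x` by
`traceForm_nondegenerate`; integral on the basis by `FractionalIdeal.mem_dual`),
`B = Bx (fun w => (6 * n * f w)⁻¹)`, `U` the image of the dual box under `mixedEmbedding`
(`mem_span_fractionalIdealLatticeBasis`, `normAtPlace_add_le`). Then `vol_Bx`, `vol_fd`,
`nI_dual`, `vl_mul`, `vl_inv`; drop the factors `2 ^ r₁ π ^ r₂ ≥ 1` and `2⁻¹ ^ r₂ ≤ 1`. -/
theorem rr_box {I : FrI K} (hI : I ≠ 0) (f : InfinitePlace K → ℝ) (hf : ∀ w, 0 < f w) :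
    ((bx I f).card : ℝ) ≤ 4 * (6 * finrank ℚ K) ^ finrank ℚ K * (vl f / (nI I * rD K)) *
      (bx (FractionalIdeal.dual ℤ ℚ I) fun w => (3 * finrank ℚ K * f w)⁻¹).card := by
  choose φ hφ hφ' using exists_trfun (K := K)
  have hn : (0 : ℝ) < finrank ℚ K := Nat.cast_pos.2 finrank_pos
  have hD := FractionalIdeal.dual_ne_zero ℤ ℚ hI
  have hinj : Function.Injective φ := fun x x' e => by
    refine sub_eq_zero.1 ((traceForm_nondegenerate ℚ K).1 _ fun y => ?_)
    have h1 := (hφ x y).symm.trans (e ▸ hφ x' y)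
    rw [Algebra.traceForm_apply, sub_mul, map_sub, Rat.cast_injective h1, sub_self]
  have h := rr_abs volume (mixedEmbedding.fractionalIdealLatticeBasis K (Units.mk0 _ hD))
    ((bx I f).image φ) ?_ (Bx fun w => (6 * finrank ℚ K * f w)⁻¹) (isOpen_Bx _).measurableSet ?_
    ((bx (FractionalIdeal.dual ℤ ℚ I) fun w => (3 * finrank ℚ K * f w)⁻¹).image (mixedEmbedding K))
    ?_
  · rw [Finset.card_image_of_injective _ hinj,
      Finset.card_image_of_injective _ (mixedEmbedding_injective K),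
      vol_Bx _ fun w => by have := hf w; positivity, vol_fd, vl_inv, vl_mul, Units.val_mk0,
      nI_dual hI] at h
    have hr := zero_lt_one.trans_le (one_le_rD K)
    have hm := nI_pos hI
    have hv := vl_pos hf
    have h1 := ENNReal.toReal_mono (by finiteness) h
    rw [ENNReal.toReal_mul, ENNReal.toReal_mul, ENNReal.toReal_mul, ENNReal.toReal_natCast,
      ENNReal.toReal_natCast, ENNReal.toReal_ofNat, ENNReal.toReal_ofReal (by positivity),
      ENNReal.toReal_ofReal (by positivity)] at h1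
    exact urrb_num (Nat.cast_nonneg _) (Nat.cast_nonneg _)
      (one_le_mul_of_one_le_of_one_le (one_le_pow₀ one_le_two)
        (one_le_pow₀ (one_le_two.trans Real.two_le_pi)))
      (pow_le_one₀ (by norm_num) (by norm_num)) (by positivity) hv hm hr h1
  · intro ψ hψ i
    obtain ⟨x, hx, rfl⟩ := Finset.mem_image.1 hψ
    have h1 := (mem_span_basisOfFractionalIdeal K).1 (Submodule.subset_span (R := ℤ)
      (Set.mem_range_self (f := basisOfFractionalIdeal K (Units.mk0 _ hD)) i))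
    obtain ⟨m, hm⟩ := (FractionalIdeal.mem_dual hI).1 h1 x (mem_bx.1 hx).1
    rw [mixedEmbedding.fractionalIdealLatticeBasis_apply, hφ, mul_comm, ← Algebra.traceForm_apply,
      ← hm]
    exact ⟨m, by simp⟩
  · intro ψ hψ ξ hξ
    obtain ⟨x, hx, rfl⟩ := Finset.mem_image.1 hψ
    refine (hφ' x ξ).trans ((Finset.sum_le_sum (g := fun w : InfinitePlace K =>
      (w.mult : ℝ) * (6 * finrank ℚ K : ℝ)⁻¹) fun w _ => ?_).trans_eq ?_)
    · refine mul_le_mul_of_nonneg_left ((mul_le_mul ((mem_bx.1 hx).2 w).le (hξ w).le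
        (mixedEmbedding.normAtPlace_nonneg _ _) (hf w).le).trans_eq ?_) (Nat.cast_nonneg _)
      have := hf w
      field_simp
    · rw [← Finset.sum_mul, ← Nat.cast_sum, InfinitePlace.sum_mult_eq]
      field_simp
  · rintro l hl ⟨x, hx, y, hy, e⟩
    obtain ⟨z, hz, rfl⟩ := (mixedEmbedding.mem_span_fractionalIdealLatticeBasis K _).1 hl
    refine Finset.mem_image_of_mem _ (mem_bx.2 ⟨hz, fun w => ?_⟩)
    rw [← mixedEmbedding.normAtPlace_apply, e, sub_eq_add_neg]
    refine (mixedEmbedding.normAtPlace_add_le _ _ _).trans_lt ?_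
    rw [mixedEmbedding.normAtPlace_neg]
    refine (add_lt_add (hx w) (hy w)).trans_eq ?_
    have := hf w
    field_simp
    norm_num

end Pool.Agent.Lib.MP_830c64_nt.CL
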