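import Pool.Agent.Lib.MP_830c64_nt.CL.UFt

/-! The volume of the set of shapes of boxes that contain a given point. -/

namespace Pool.Agent.Lib.MP_830c64_nt.CL

open NumberField Module MeasureTheory Units.dirichletUnitTheorem
open scoped nonZeroDivisors Classical

open scoped Pointwise in
/-- Let `Δ = {s | (∀ i, 0 < s i) ∧ ∑ s < 1}`, open, nonempty (constant `1 / (card + 1)`), bounded;
`c = (volume Δ).toReal`. For `L = b - ∑ a > 0` the set is `a +ᵥ L • Δ`
(`measure_vadd` or `measure_preimage_add`, `Measure.addHaar_smul_of_nonneg`); for `L ≤ 0` it is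
empty (also when `ι` is empty). -/
theorem vol_simplex (ι : Type) [Fintype ι] : ∃ c : ℝ, 0 < c ∧ ∀ (a : ι → ℝ) (b : ℝ),
    volume {s : ι → ℝ | (∀ i, a i < s i) ∧ ∑ i, s i < b} =
      ENNReal.ofReal (if ∑ i, a i < b then c * (b - ∑ i, a i) ^ Fintype.card ι else 0) := by
  set D : Set (ι → ℝ) := {s | (∀ i, 0 < s i) ∧ ∑ i, s i < 1} with hD
  have hop : IsOpen D := by
    have h1 : D = (⋂ i, {s : ι → ℝ | 0 < s i}) ∩ {s | ∑ i, s i < 1} := by
      ext s; simp [hD]
    rw [h1]
    exact (isOpen_iInter_of_finite fun i => isOpen_lt continuous_const (continuous_apply i)).inter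
      (isOpen_lt (by fun_prop) continuous_const)
  have hne : D.Nonempty := by
    refine ⟨fun _ => 1 / ((Fintype.card ι : ℝ) + 1), fun _ => by positivity, ?_⟩
    rw [Finset.sum_const, Finset.card_univ, nsmul_eq_mul, mul_one_div, div_lt_one (by positivity)]
    linarith
  have hfin : volume D ≠ ⊤ := by
    refine ne_top_of_le_ne_top (isCompact_Icc (a := (0 : ι → ℝ)) (b := 1)).measure_lt_top.ne
      (measure_mono fun s hs => ⟨fun i => (hs.1 i).le, fun i => ?_⟩)
    exact (Finset.single_le_sum (f := s) (fun j _ => (hs.1 j).le) (Finset.mem_univ i)).trans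
      hs.2.le
  have hpos : volume D ≠ 0 := (hop.measure_pos volume hne).ne'
  refine ⟨(volume D).toReal, ENNReal.toReal_pos hpos hfin, fun a b => ?_⟩
  split_ifs with h
  · have hL : 0 < b - ∑ i, a i := sub_pos.2 h
    have h1 : {s : ι → ℝ | (∀ i, a i < s i) ∧ ∑ i, s i < b} =
        (fun s => -a + s) ⁻¹' ((b - ∑ i, a i) • D) := by
      ext s
      rw [Set.mem_preimage, Set.mem_smul_set_iff_inv_smul_mem₀ hL.ne']
      simp only [hD, Set.mem_ofPred_eq, Pi.smul_apply, Pi.add_apply, Pi.neg_apply, smul_eq_mul,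
        ← Finset.mul_sum, Finset.sum_add_distrib, Finset.sum_neg_distrib]
      rw [inv_mul_lt_iff₀ hL, mul_one]
      refine and_congr (forall_congr' fun i => ?_) ⟨fun _ => by linarith, fun _ => by linarith⟩
      rw [mul_pos_iff_of_pos_left (inv_pos.2 hL)]
      exact ⟨fun _ => by linarith, fun _ => by linarith⟩
    rw [h1, measure_preimage_add, Measure.addHaar_smul_of_nonneg _ hL.le,
      Module.finrank_fintype_fun_eq_card, mul_comm (volume D).toReal,
      ENNReal.ofReal_mul (pow_nonneg hL.le _), ENNReal.ofReal_toReal hfin]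
  · have h1 : {s : ι → ℝ | (∀ i, a i < s i) ∧ ∑ i, s i < b} = ∅ := by
      refine Set.eq_empty_of_forall_notMem fun s hs => h ?_
      exact (Finset.sum_le_sum fun i _ => (hs.1 i).le).trans_lt hs.2
    rw [h1, measure_empty, ENNReal.ofReal_zero]

theorem ureg_lt {m y R t : ℝ} (hm : 0 < m) (hy : 0 < y) (hR : 0 < R) :
    y < R * Real.exp (t / m) ↔ m * (Real.log y - Real.log R) < t := by
  rw [← Real.log_div hy.ne' hR.ne', ← div_lt_iff₀' hR,
    ← Real.log_lt_iff_lt_exp (div_pos hy hR), lt_div_iff₀' hm]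

/-- `w x < R * ft t w` means `mult w * log (w x / R) < t w` for `w ≠ w₀` and
`∑ t < - mult w₀ * log (w₀ x / R)`. The difference `b - ∑ a` is
`n log R - ∑ mult w * log (w x) = log (R ^ n / |N x|)` (`InfinitePlace.prod_eq_abs_norm`,
`InfinitePlace.sum_mult_eq`). The number of `w ≠ w₀` is `Units.rank K`. -/
theorem vol_rg (K : Type) [Field K] [NumberField K] : ∃ c : ℝ, 0 < c ∧ ∀ x : K, x ≠ 0 →
    ∀ R : ℝ, 0 < R → volume (rg x R) = ENNReal.ofReal
      (c * wt (Units.rank K) (R ^ finrank ℚ K) ((|Algebra.norm ℚ x| : ℚ) : ℝ)) := by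
  obtain ⟨c, hc, h⟩ := vol_simplex {w : InfinitePlace K // w ≠ w₀}
  refine ⟨c, hc, fun x hx R hR => ?_⟩
  have hw : ∀ w : InfinitePlace K, 0 < w x := fun w => InfinitePlace.pos_iff.2 hx
  have hm : ∀ w : InfinitePlace K, (0 : ℝ) < w.mult := fun w => by
    exact_mod_cast InfinitePlace.mult_pos
  set g : InfinitePlace K → ℝ := fun w => w.mult * (Real.log (w x) - Real.log R) with hg
  have h1 : rg x R = {s : {w : InfinitePlace K // w ≠ w₀} → ℝ |
      (∀ i, g i.1 < s i) ∧ ∑ i, s i < -g w₀} := by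
    ext t
    simp only [rg, Set.mem_ofPred_eq]
    constructor
    · intro ht
      refine ⟨fun i => ?_, ?_⟩
      · have h2 := ht i.1
        rw [ft, dif_neg i.2, ureg_lt (hm _) (hw _) hR] at h2
        exact h2
      · have h2 := ht w₀
        rw [ft, dif_pos rfl, ureg_lt (hm _) (hw _) hR] at h2
        exact lt_neg.1 h2
    · intro ht w
      by_cases hw0 : w = w₀
      · rw [ft, dif_pos hw0, ureg_lt (hm _) (hw _) hR, hw0]
        exact lt_neg.1 ht.2
      · rw [ft, dif_neg hw0, ureg_lt (hm _) (hw _) hR]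
        exact ht.1 ⟨w, hw0⟩
  have hN : (0 : ℝ) < ((|Algebra.norm ℚ x| : ℚ) : ℝ) := by
    exact_mod_cast abs_pos.2 (Algebra.norm_ne_zero_iff.2 hx)
  have hRn : 0 < R ^ finrank ℚ K := pow_pos hR _
  have h2 : -g w₀ - ∑ i : {w : InfinitePlace K // w ≠ w₀}, g i.1 =
      Real.log (R ^ finrank ℚ K / ((|Algebra.norm ℚ x| : ℚ) : ℝ)) := by
    have h3 := Fintype.sum_eq_add_sum_subtype_ne g w₀
    have h4 : ∑ w, g w =
        Real.log ((|Algebra.norm ℚ x| : ℚ) : ℝ) - finrank ℚ K * Real.log R := by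
      rw [← InfinitePlace.prod_eq_abs_norm, Real.log_prod fun w _ => (pow_pos (hw w) _).ne',
        ← InfinitePlace.sum_mult_eq, Nat.cast_sum, Finset.sum_mul, ← Finset.sum_sub_distrib]
      exact Finset.sum_congr rfl fun w _ => by rw [Real.log_pow, hg, ← mul_sub]
    rw [Real.log_div hRn.ne' hN.ne', Real.log_pow]
    linarith
  have h5 : Fintype.card {w : InfinitePlace K // w ≠ w₀} = Units.rank K := by
    simp [Units.rank]
  rw [h1, h, h2, h5, wt, mul_ite, mul_zero]
  congr 1
  refine if_congr ?_ rfl rfl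
  rw [← sub_pos, h2, Real.log_pos_iff (div_pos hRn hN).le, one_lt_div hN]

end Pool.Agent.Lib.MP_830c64_nt.CL
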