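import Pool.Agent.Lib.MP_830c64_nt.CL.UReg
import Pool.Agent.Lib.MP_830c64_nt.CL.UGen

/-! Unfolding: the mean of a box sum over all shapes is a weighted sum over ideals. -/

namespace Pool.Agent.Lib.MP_830c64_nt.CL

open NumberField Module MeasureTheory Units.dirichletUnitTheorem
open scoped nonZeroDivisors Classical

variable {K : Type} [Field K] [NumberField K]

theorem uunf_wt (r : ℕ) {x a : ℝ} (ha : 0 < a) (m : ℝ) : wt r x (a * m) = wt r (x / a) m := by
  simp only [wt, lt_div_iff₀' ha, div_div]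

theorem uunf_nonneg (r : ℕ) (x : ℝ) {m : ℝ} (hm : 0 < m) : 0 ≤ wt r x m := by
  unfold wt
  split_ifs with h
  · exact pow_nonneg (Real.log_nonneg ((one_le_div hm).2 h.le)) _
  · exact le_rfl

theorem uunf_fib {D : Set (logSpace K)}
    (hD : IsAddFundamentalDomain (Units.unitLattice K) D volume) {I : FrI K} {R : ℝ} {x₀ : K}
    {a : Ideal (𝓞 K)} (h : Gen I x₀ a) (X : Finset K) (hX : ∀ x ∈ X, Gen I x a)
    (hX' : ∀ x, Gen I x a → x ∉ X → D ∩ rg x R = ∅) :
    ∑ x ∈ X, volume (D ∩ rg x R) = Units.torsionOrder K * volume (rg x₀ R) := by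
  have hi : Function.Injective fun u : (𝓞 K)ˣ => ((u : 𝓞 K) : K) * x₀ := fun u v e =>
    Units.ext (RingOfIntegers.ext (mul_right_cancel₀ h.1 e))
  have h1 := hi.tsum_eq (f := fun x => if Gen I x a then volume (D ∩ rg x R) else 0) fun x hx => by
    obtain ⟨u, hu⟩ := (h.iff_unit x).1 (by_contra fun e => hx (if_neg e))
    exact ⟨u, hu.symm⟩
  rw [tsum_eq_sum (s := X) fun x hx => by
    split_ifs with e
    · rw [hX' x e hx, measure_empty]
    · rfl, Finset.sum_congr rfl fun x hx => if_pos (hX x hx)] at h1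
  rw [← h1, ← orbit_sum hD]
  exact tsum_congr fun u => if_pos ((h.iff_unit _).2 ⟨u, rfl⟩)

/-- The mean of a box sum. -/
theorem unfold_box {c : ℝ} (hc0 : 0 < c) (hc : ∀ x : K, x ≠ 0 → ∀ R : ℝ, 0 < R →
      volume (rg x R) = ENNReal.ofReal
        (c * wt (Units.rank K) (R ^ finrank ℚ K) ((|Algebra.norm ℚ x| : ℚ) : ℝ)))
    {D : Set (logSpace K)} (hD : IsAddFundamentalDomain (Units.unitLattice K) D volume)
    (hm : MeasurableSet D) (hb : Bornology.IsBounded D) {I : FrI K} (hI : I ≠ 0) {R : ℝ}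
    (hR : 0 < R) (G : K → ℝ) (F : Ideal (𝓞 K) → ℝ) (hGF : ∀ x a, Gen I x a → G x = F a) :
    IntegrableOn (fun t => SB I (fun w => R * ft t w) G) D ∧
      ∫ t in D, SB I (fun w => R * ft t w) G =
        Units.torsionOrder K * c * SI I (R ^ finrank ℚ K / nI I) F := by
  obtain ⟨B, hB⟩ := ft_bdd hb
  have hN := nI_pos hI
  set X := (bx I fun _ => R * B).erase 0
  have hX : ∀ {x t}, x ∈ I → x ≠ 0 → t ∈ D → t ∈ rg x R → x ∈ X := fun {x t} h1 h2 h3 h4 =>
    Finset.mem_erase.2 ⟨h2, mem_bx.2 ⟨h1, fun w =>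
      (h4 w).trans_le (mul_le_mul_of_nonneg_left (hB t h3 w) hR.le)⟩⟩
  have hX' : ∀ {x}, x ∈ X → x ∈ I ∧ x ≠ 0 := fun h =>
    ⟨(mem_bx.1 (Finset.mem_erase.1 h).2).1, (Finset.mem_erase.1 h).1⟩
  have e : Set.EqOn (fun t => ∑ x ∈ X, (rg x R).indicator (fun _ => G x) t)
      (fun t => SB I (fun w => R * ft t w) G) D := fun t ht => by
    simp only [SB, Set.indicator_apply, ← Finset.sum_filter]
    refine Finset.sum_congr (Finset.ext fun x => ?_) fun _ _ => rfl
    rw [Finset.mem_filter, Finset.mem_erase (s := bx I fun w => R * ft t w), mem_bx]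
    exact ⟨fun h => ⟨(hX' h.1).2, (hX' h.1).1, h.2⟩, fun h => ⟨hX h.2.1 h.1 ht h.2.2, h.2.2⟩⟩
  have hi : ∀ x ∈ X, IntegrableOn ((rg x R).indicator fun _ => G x) D := fun x _ =>
    (integrableOn_const hb.measure_lt_top.ne).indicator (isOpen_rg x R).measurableSet
  refine ⟨IntegrableOn.congr_fun (integrable_finsetSum _ hi) e hm, ?_⟩
  choose! φ hφ hu using fun x (hx : x ∈ I) h0 => gen_exists hI hx h0
  set T := (idl K (R ^ finrank ℚ K / nI I)).filter fun a => ∃ x, Gen I x a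
  rw [← setIntegral_congr_fun hm e, integral_finsetSum _ hi,
    ← Finset.sum_fiberwise_of_maps_to (t := T ∪ X.image φ) (g := φ)
      fun x hx => Finset.mem_union_right _ (Finset.mem_image_of_mem _ hx), SI, Finset.mul_sum]
  have hS : ∀ a ∈ T ∪ X.image φ, ∃ x, Gen I x a := fun a ha => by
    rcases Finset.mem_union.1 ha with h | h
    · exact (Finset.mem_filter.1 h).2
    · obtain ⟨x, hx, rfl⟩ := Finset.mem_image.1 h
      exact ⟨x, hφ x (hX' hx).1 (hX' hx).2⟩
  refine (Finset.sum_congr rfl fun a ha => ?_).trans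
    (Finset.sum_subset Finset.subset_union_left fun a ha h => ?_).symm
  · obtain ⟨x₀, h0⟩ := hS a ha
    have h1 : ∀ x ∈ X.filter (φ · = a), Gen I x a := fun x hx =>
      (Finset.mem_filter.1 hx).2 ▸ hφ x (hX' (Finset.mem_filter.1 hx).1).1
        (hX' (Finset.mem_filter.1 hx).1).2
    have h2 := congrArg ENNReal.toReal (uunf_fib hD (R := R) h0 _ h1 fun x hx h =>
      Set.eq_empty_of_forall_notMem fun t ht => h (Finset.mem_filter.2
        ⟨hX hx.mem.1 hx.1 ht.1 ht.2, (hu x hx.mem.1 hx.1 a hx).symm⟩))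
    have h3 : (0 : ℝ) < Ideal.absNorm a :=
      Nat.cast_pos.2 (Nat.pos_of_ne_zero (mt Ideal.absNorm_eq_zero_iff.1 h0.mem.2))
    rw [ENNReal.toReal_sum fun x _ =>
      ((measure_mono Set.inter_subset_left).trans_lt hb.measure_lt_top).ne, hc _ h0.1 R hR, h0.norm,
      uunf_wt _ hN, ENNReal.toReal_mul, ENNReal.toReal_natCast,
      ENNReal.toReal_ofReal (mul_nonneg hc0.le (uunf_nonneg _ _ h3))] at h2
    rw [mul_left_comm, mul_assoc, ← h2, Finset.mul_sum]
    refine Finset.sum_congr rfl fun x hx => ?_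
    rw [setIntegral_indicator (isOpen_rg x R).measurableSet, setIntegral_const, hGF x a (h1 x hx),
      smul_eq_mul, mul_comm]
    rfl
  · obtain ⟨x₀, h0⟩ := hS a ha
    rw [wt, if_neg fun h1 => h (Finset.mem_filter.2 ⟨mem_idl'.2 ⟨h0.mem.2, h1.le⟩, x₀, h0⟩),
      mul_zero, mul_zero]

end Pool.Agent.Lib.MP_830c64_nt.CL
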