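import Pool.Agent.Lib.MP_830c64_nt.CL.UDefs
import Pool.Agent.Lib.MP_33b3f9_ag.M4.NTEuler

/-! A lower bound for an L-series by its Euler product. -/

namespace Pool.Agent.Lib.MP_830c64_nt.CL

open NumberField Module IsDedekindDomain
open scoped Classical

variable {K : Type} [Field K] [NumberField K]

theorem zeul_norm (W : Ideal (𝓞 K) → ℂ) (hW : ∀ I, ‖W I‖ ≤ 1) (s : ℝ) (I : Ideal (𝓞 K)) :
    ‖W I * (((Ideal.absNorm I : ℝ) ^ (-s) : ℝ) : ℂ)‖ ≤ (Ideal.absNorm I : ℝ) ^ (-s) := by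
  rw [norm_mul, Complex.norm_real, Real.norm_of_nonneg (M4.NT.euler_nonneg K I _)]
  exact mul_le_of_le_one_left (M4.NT.euler_nonneg K I _) (hW I)

theorem zeul_step (a : Ideal (𝓞 K) → ℂ) (hm : ∀ I J, a (I * J) = a I * a J) (ha : Summable a)
    (V : Finset (HeightOneSpectrum (𝓞 K))) {P : HeightOneSpectrum (𝓞 K)} (hP : P ∉ V) :
    (1 - a P.asIdeal) * ∑' I : Ideal (𝓞 K), (if ∀ Q ∈ V, ¬ Q.asIdeal ∣ I then a I else 0) =
      ∑' I : Ideal (𝓞 K), if ∀ Q ∈ insert P V, ¬ Q.asIdeal ∣ I then a I else 0 := by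
  set g : Ideal (𝓞 K) → ℂ := fun I => if ∀ Q ∈ V, ¬ Q.asIdeal ∣ I then a I else 0 with hg
  have hs : ∀ (c : Ideal (𝓞 K) → Prop) [DecidablePred c],
      Summable fun I => if c I then a I else 0 := fun c _ =>
    Summable.of_norm_bounded ha.norm fun I => by split_ifs <;> simp
  have h1 : ∀ J, a P.asIdeal * g J = g (P.asIdeal * J) := fun J => by
    have h2 : (∀ Q ∈ V, ¬ Q.asIdeal ∣ P.asIdeal * J) ↔ ∀ Q ∈ V, ¬ Q.asIdeal ∣ J := by
      refine forall₂_congr fun Q hQ => not_congr ⟨fun h => ?_, fun h => h.mul_left _⟩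
      refine (Q.prime.dvd_or_dvd h).resolve_left fun h3 => hP ?_
      rwa [HeightOneSpectrum.ext (P.isMaximal.eq_of_le Q.isPrime.ne_top (Ideal.le_of_dvd h3))]
    simp only [hg, h2, hm]
    split_ifs <;> simp
  have h3 : ∑' J, g (P.asIdeal * J) =
      ∑' I, if P.asIdeal ∣ I ∧ ∀ Q ∈ V, ¬ Q.asIdeal ∣ I then a I else 0 := by
    rw [← (mul_right_injective₀ P.ne_bot).tsum_eq
      (f := fun I => if P.asIdeal ∣ I ∧ ∀ Q ∈ V, ¬ Q.asIdeal ∣ I then a I else 0)]
    · exact tsum_congr fun J => by simp only [hg, dvd_mul_right, true_and]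
    · intro I hI
      by_contra h
      refine hI (if_neg fun h4 => h ?_)
      obtain ⟨J, hJ⟩ := h4.1
      exact ⟨J, hJ.symm⟩
  rw [sub_mul, one_mul, ← tsum_mul_left, tsum_congr h1, h3]
  refine ((hs _).tsum_sub (hs _)).symm.trans (tsum_congr fun I => ?_)
  simp only [Finset.forall_mem_insert]
  by_cases h4 : P.asIdeal ∣ I <;> by_cases h5 : ∀ Q ∈ V, ¬ Q.asIdeal ∣ I
  · rw [if_pos h5, if_pos ⟨h4, h5⟩, if_neg fun h => h.1 h4, sub_self]
  · rw [if_neg h5, if_neg fun h => h5 h.2, if_neg fun h => h5 h.2, sub_self]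
  · rw [if_pos h5, if_neg fun h => h4 h.1, if_pos ⟨h4, h5⟩, sub_zero]
  · rw [if_neg h5, if_neg fun h => h5 h.2, if_neg fun h => h5 h.2, sub_self]

/-- Induction on `V`: the ideals prime to `V` and divisible by `P ∉ V` are the `P * J` with `J`
prime to `V` (`Function.Injective.tsum_eq` for `J ↦ P * J`, `Summable.tsum_add`); summability from
`M4.NT.zt_summable`. -/
theorem euler_sieve (W : Ideal (𝓞 K) → ℂ) (hm : ∀ I J, W (I * J) = W I * W J)
    (hW : ∀ I, ‖W I‖ ≤ 1) {s : ℝ} (hs : 1 < s) (V : Finset (HeightOneSpectrum (𝓞 K))) :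
    (∏ P ∈ V, (1 - W P.asIdeal * (((Ideal.absNorm P.asIdeal : ℝ) ^ (-s) : ℝ) : ℂ))) *
      ∑' I : Ideal (𝓞 K), W I * (((Ideal.absNorm I : ℝ) ^ (-s) : ℝ) : ℂ) =
      ∑' I : Ideal (𝓞 K), if ∀ P ∈ V, ¬ P.asIdeal ∣ I then
        W I * (((Ideal.absNorm I : ℝ) ^ (-s) : ℝ) : ℂ) else 0 := by
  induction V using Finset.induction_on with
  | empty => simp
  | insert P V hP ih =>
    rw [Finset.prod_insert hP, mul_assoc, ih]
    refine zeul_step (fun I => W I * (((Ideal.absNorm I : ℝ) ^ (-s) : ℝ) : ℂ)) (fun I J => ?_)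
      (Summable.of_norm_bounded (M4.NT.zt_summable K hs) (zeul_norm W hW s)) V hP
    rw [hm, map_mul, Nat.cast_mul, Real.mul_rpow (Nat.cast_nonneg _) (Nat.cast_nonneg _)]
    push_cast
    ring

theorem zeul_exp (z : ℂ) : ‖1 - z‖ ≤ Real.exp (-z.re + ‖z‖ ^ 2) := by
  have h1 : ‖1 - z‖ ^ 2 = 1 - 2 * z.re + ‖z‖ ^ 2 := by
    rw [Complex.sq_norm, Complex.sq_norm, Complex.normSq_apply, Complex.normSq_apply]
    simp
    ring
  refine le_of_sq_le_sq ?_ (Real.exp_pos _).le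
  rw [h1, ← Real.exp_nat_mul]
  refine le_trans ?_ (Real.add_one_le_exp _)
  push_cast
  nlinarith [sq_nonneg ‖z‖]

theorem zeul_lim (a : Ideal (𝓞 K) → ℂ) (ha : Summable a) :
    Filter.Tendsto (fun V : Finset (HeightOneSpectrum (𝓞 K)) =>
      ∑' I : Ideal (𝓞 K), if ∀ P ∈ V, ¬ P.asIdeal ∣ I then a I else 0) Filter.atTop
      (nhds (a ⊤)) := by
  rw [← tsum_ite_eq (⊤ : Ideal (𝓞 K)) a]
  refine tendsto_tsum_of_dominated_convergence ha.norm (fun I => ?_)
    (Filter.Eventually.of_forall fun V I => by split_ifs <;> simp)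
  split_ifs with h
  · subst h
    refine tendsto_const_nhds.congr fun V => (if_pos fun P _ hP => P.isPrime.ne_top ?_).symm
    exact top_le_iff.1 (Ideal.le_of_dvd hP)
  · obtain ⟨m, hm, hle⟩ := Ideal.exists_le_maximal I h
    let P : HeightOneSpectrum (𝓞 K) := ⟨m, hm.isPrime,
      Ring.ne_bot_of_isMaximal_of_not_isField hm (RingOfIntegers.not_isField K)⟩
    refine tendsto_const_nhds.congr' ?_
    filter_upwards [Filter.eventually_ge_atTop {P}] with V hV
    exact (if_neg fun h1 => h1 P (hV (Finset.mem_singleton_self P))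
      (Ideal.dvd_iff_le.2 hle)).symm

/-- As `V` grows the right side of `euler_sieve` tends to the term `I = ⊤`, which is one
(`tendsto_tsum_of_dominated_convergence` along `atTop`; `I = ⊥` contributes zero). Use
`‖1 - z‖ ^ 2 = 1 - 2 re z + ‖z‖ ^ 2 ≤ exp (-2 re z + ‖z‖ ^ 2)` and `M4.NT.euler_sq`, then
`le_of_tendsto_of_tendsto'`; `M4.NT.pz_summable`. -/
theorem euler_low (W : Ideal (𝓞 K) → ℂ) (hm : ∀ I J, W (I * J) = W I * W J) (h1 : W ⊤ = 1)
    (hW : ∀ I, ‖W I‖ ≤ 1) {s : ℝ} (hs : 1 < s) :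
    Real.exp ((∑' P : HeightOneSpectrum (𝓞 K),
        (W P.asIdeal).re * (Ideal.absNorm P.asIdeal : ℝ) ^ (-s)) - M4.NT.zt K 2) ≤
      ‖∑' I : Ideal (𝓞 K), W I * (((Ideal.absNorm I : ℝ) ^ (-s) : ℝ) : ℂ)‖ := by
  set L := ‖∑' I : Ideal (𝓞 K), W I * (((Ideal.absNorm I : ℝ) ^ (-s) : ℝ) : ℂ)‖ with hL
  have hsum : Summable fun P : HeightOneSpectrum (𝓞 K) =>
      (W P.asIdeal).re * (Ideal.absNorm P.asIdeal : ℝ) ^ (-s) := by
    refine Summable.of_norm_bounded (M4.NT.pz_summable K hs) fun P => ?_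
    rw [norm_mul, Real.norm_of_nonneg (M4.NT.euler_nonneg K _ _)]
    exact mul_le_of_le_one_left (M4.NT.euler_nonneg K _ _)
      ((Complex.abs_re_le_norm _).trans (hW _))
  have t1 := (zeul_lim _
    (Summable.of_norm_bounded (M4.NT.zt_summable K hs) (zeul_norm W hW s))).norm
  have t2 := ((Real.continuous_exp.tendsto _).comp
    ((hsum.hasSum.neg.add_const (M4.NT.zt K 2)))).mul_const L
  have key := le_of_tendsto_of_tendsto' t1 t2 fun V => by
    rw [← euler_sieve W hm hW hs V, norm_mul, norm_prod]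
    refine mul_le_mul_of_nonneg_right ?_ (norm_nonneg _)
    refine (Finset.prod_le_prod (fun P _ => norm_nonneg _) fun P _ => zeul_exp _).trans ?_
    rw [← Real.exp_sum, Function.comp_apply, Real.exp_le_exp, Finset.sum_add_distrib]
    refine add_le_add (le_of_eq (Finset.sum_congr rfl fun P _ => by simp)) ?_
    refine le_trans (Finset.sum_le_sum fun P _ => ?_) (M4.NT.euler_sq K V hs)
    exact pow_le_pow_left₀ (norm_nonneg _) (zeul_norm W hW s _) 2
  simp only [h1, Ideal.absNorm_top, Nat.cast_one, Real.one_rpow, Complex.ofReal_one, mul_one,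
    norm_one] at key
  rw [← neg_neg (_ - M4.NT.zt K 2), Real.exp_neg, inv_le_iff_one_le_mul₀' (Real.exp_pos _),
    neg_sub, sub_eq_neg_add]
  exact key

end Pool.Agent.Lib.MP_830c64_nt.CL
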