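import Pool.Agent.Lib.MP_830c64_nt.CL.ZMel
import Pool.Agent.Lib.MP_830c64_nt.CL.ZEul
import Pool.Agent.Lib.MP_830c64_nt.CL.Cancel
import Pool.Agent.Lib.MP_33b3f9_ag.M4.NTDens
import Pool.Agent.Lib.MP_33b3f9_ag.M4.NTDensA

/-! The density of the kernel of a character of prime order. -/

namespace Pool.Agent.Lib.MP_830c64_nt.CL

open NumberField Module IsDedekindDomain Filter Topology
open scoped Classical

/-- `exists_small`, `cancel (finrank ℚ k)`, `L_bdd`, `euler_low`. -/
theorem prime_sum_le {k : Type} [Field k] [NumberField k] {f : ℕ} {W : Ideal (𝓞 k) → ℂ}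
    (h : Ray k f W) (hf : 2 ≤ f) (hW : ∃ I, W I ≠ 0 ∧ W I ≠ 1) : ∃ C : ℝ, ∀ s : ℝ, 1 < s → s ≤ 2 →
      ∑' P : HeightOneSpectrum (𝓞 k),
        (W P.asIdeal).re * (Ideal.absNorm P.asIdeal : ℝ) ^ (-s) ≤ C := by
  obtain ⟨C, δ, -, hδ, -, hc⟩ := cancel (finrank ℚ k)
  obtain ⟨Y, hY, hS⟩ := exists_small k f
  obtain ⟨D, hD⟩ := L_bdd W h.norm_le (h.bot hf) (finrank ℚ k) (B := C * Y ^ C) hδ fun x hx => by
    refine le_trans (le_of_eq ?_)
      (hc k Y f W le_rfl (le_trans (by exact_mod_cast hf) hY) hS hf hY h hW x hx)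
    refine congrArg _ (Finset.sum_congr rfl fun I hI => ?_)
    rw [wt]
    split_ifs with h1
    · rfl
    · rw [le_antisymm ((mem_idl (by linarith)).1 hI).2 (not_lt.1 h1), div_self (by linarith),
        Real.log_one, zero_pow finrank_pos.ne']
  refine ⟨D + M4.NT.zt k 2, fun s h1 h2 => ?_⟩
  have := (Real.add_one_le_exp _).trans
    ((euler_low W h.mul h.one h.norm_le h1).trans (hD s h1 h2))
  linarith

/-- `M4.NT.euler_ge`, `M4.NT.zt_tendsto`. -/
theorem pz_le (k : Type) [Field k] [NumberField k] : ∃ C : ℝ, ∀ᶠ s : ℝ in 𝓝[>] 1,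
    M4.NT.pz k s ≤ Real.log (1 / (s - 1)) + C := by
  obtain ⟨ρ, hρ, h1⟩ := M4.NT.zt_tendsto k
  refine ⟨Real.log (ρ + 1) + M4.NT.zt k 2, ?_⟩
  filter_upwards [self_mem_nhdsWithin, h1.eventually (gt_mem_nhds (lt_add_one ρ))] with s hs h2
  have h3 : (0 : ℝ) < s - 1 := sub_pos.2 hs
  have h4 : M4.NT.zt k s ≤ 1 / (s - 1) * (ρ + 1) := by
    rw [one_div, ← div_eq_inv_mul, le_div_iff₀' h3]
    exact h2.le
  have h5 := (Real.le_log_iff_exp_le (by positivity)).2 ((M4.NT.euler_ge k hs).trans h4)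
  rw [Real.log_mul (by positivity) (by positivity)] at h5
  linarith

/-- For every prime `P`, `l * [w P = 1] ≤ ∑ a ∈ range l, (w P ^ a).re` (`geom_sum_eq`; if `P` is not
prime to `f` then `w P = 0`). For `0 < a < l` the function `w ^ a` is a nontrivial ray character
(`Ray.pow`; `w I ^ a = 1` and `w I ^ l = 1` force `w I = 1`). An ideal of prime norm is prime
(`Ideal.isPrime_of_irreducible_absNorm`). Hence
`l * ∑' m, z m * m ^ (-s) ≤ C + log (1 / (s - 1))` near one; divide by the logarithm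
(`M4.NT.densA_log`, `M4.NT.densA_summable`, compare `M4.NT.dens_one`). -/
theorem dens : DensStmt := by
  intro k _ _ f l w hf hl hw hpow hnt z c n0 hz hle
  have hz' : M4.NT.Dens (fun n => if n0 ≤ n then z n else 0) c :=
    hz.congr n0 fun n hn => by rw [if_pos hn]
  obtain ⟨⟨B, hB⟩, hlim⟩ := hz'
  have hC : ∀ a : ℕ, ∃ C : ℝ, ∀ s : ℝ, 1 < s → s ≤ 2 → a < l →
      ∑' P : HeightOneSpectrum (𝓞 k), (w P.asIdeal ^ a).re *
        (Ideal.absNorm P.asIdeal : ℝ) ^ (-s) ≤ C + if a = 0 then M4.NT.pz k s else 0 := fun a => by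
    by_cases ha : a = 0
    · exact ⟨0, fun s _ _ _ => by simp [ha, M4.NT.pz]⟩
    by_cases hal : a < l
    swap
    · exact ⟨0, fun s _ _ h => absurd h hal⟩
    obtain ⟨I, h0, h1⟩ := hnt
    obtain ⟨C, hC⟩ := prime_sum_le (hw.pow ha) hf ⟨I, pow_ne_zero _ h0, fun h => h1 (by
      have h2 := hpow I (by
        by_contra hn
        exact h0 (hw.zero I hn))
      have h3 := pow_gcd_eq_one.2 ⟨h2, h⟩
      rwa [Nat.coprime_of_lt_prime ha hal hl, pow_one] at h3)⟩
    exact ⟨C, fun s h1 h2 _ => by simpa [ha] using hC s h1 h2⟩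
  choose C hC using hC
  obtain ⟨D, hD⟩ := pz_le k
  have hl0 : (0 : ℝ) < l := by exact_mod_cast hl.pos
  have key : ∀ s : ℝ, 1 < s → s ≤ 2 →
      l * ∑' n : ℕ, (if n0 ≤ n then z n else 0) * (n : ℝ) ^ (-s) ≤
        ∑ a ∈ Finset.range l, C a + M4.NT.pz k s := fun s h1 h2 => by
    let H : Ideal (𝓞 k) → ℝ := fun I =>
      if I.IsPrime ∧ I ≠ ⊥ ∧ w I = 1 then (Ideal.absNorm I : ℝ) ^ (-s) else 0
    have H0 : ∀ I, 0 ≤ H I := fun I => by
      simp only [H]
      split_ifs <;> positivity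
    have Hs : Summable H := Summable.of_nonneg_of_le H0 (fun I => by
      simp only [H]
      split_ifs <;> first | exact le_rfl | positivity) (M4.NT.zt_summable k h1)
    have e1 : ∑' n : ℕ, (if n0 ≤ n then z n else 0) * (n : ℝ) ^ (-s) ≤ ∑' I, H I := by
      refine (M4.NT.densA_summable hB h1).tsum_le_of_sum_le fun T => ?_
      refine le_trans ?_ (Hs.sum_le_tsum (T.biUnion (np k)) fun I _ => H0 I)
      rw [Finset.sum_biUnion fun m _ n _ hmn => Finset.disjoint_left.2 fun I a b =>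
        hmn ((mem_np.1 a).symm.trans (mem_np.1 b))]
      refine Finset.sum_le_sum fun m _ => ?_
      have hn : 0 ≤ ∑ I ∈ np k m, H I := Finset.sum_nonneg fun I _ => H0 I
      split_ifs with hm
      swap
      · rwa [zero_mul]
      refine (mul_le_mul_of_nonneg_right (hle m hm) (by positivity)).trans ?_
      split_ifs with hp
      swap
      · rwa [zero_mul]
      rw [← nsmul_eq_mul, ← Finset.sum_const]
      refine le_trans (Finset.sum_le_sum fun I hI => ?_)
        (Finset.sum_le_sum_of_subset_of_nonneg (Finset.filter_subset (fun P => w P = 1) _)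
          fun I _ _ => H0 I)
      obtain ⟨h3, h4⟩ := Finset.mem_filter.1 hI
      have h5 := mem_np.1 h3
      simp only [H]
      rw [if_pos ⟨Ideal.isPrime_of_irreducible_absNorm (h5 ▸ hp),
        fun h => hp.ne_zero (by rw [← h5, h, Ideal.absNorm_bot]), h4⟩, h5]
    have e2 : ∑' P : HeightOneSpectrum (𝓞 k), H P.asIdeal = ∑' I, H I :=
      HeightOneSpectrum.asIdeal_injective.tsum_eq fun I hI => by
        have h3 : I.IsPrime ∧ I ≠ ⊥ ∧ w I = 1 := by
          by_contra hn
          exact hI (if_neg hn)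
        exact ⟨⟨I, h3.1, h3.2.1⟩, rfl⟩
    have e3 : ∀ a : ℕ, Summable fun P : HeightOneSpectrum (𝓞 k) =>
        (w P.asIdeal ^ a).re * (Ideal.absNorm P.asIdeal : ℝ) ^ (-s) := fun a =>
      Summable.of_norm_bounded (M4.NT.pz_summable k h1) fun P => by
        rw [norm_mul, Real.norm_of_nonneg (M4.NT.euler_nonneg k _ _)]
        refine mul_le_of_le_one_left (M4.NT.euler_nonneg k _ _)
          ((Complex.abs_re_le_norm _).trans ?_)
        rw [norm_pow]
        exact pow_le_one₀ (norm_nonneg _) (hw.norm_le _)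
    calc _ ≤ l * ∑' P : HeightOneSpectrum (𝓞 k), H P.asIdeal :=
          mul_le_mul_of_nonneg_left (e2 ▸ e1) hl0.le
      _ ≤ ∑' P : HeightOneSpectrum (𝓞 k), ∑ a ∈ Finset.range l,
          (w P.asIdeal ^ a).re * (Ideal.absNorm P.asIdeal : ℝ) ^ (-s) := by
          rw [← tsum_mul_left]
          refine Summable.tsum_le_tsum (fun P => ?_)
            ((Hs.comp_injective HeightOneSpectrum.asIdeal_injective).mul_left _)
            (summable_sum fun a _ => e3 a)
          rw [← Finset.sum_mul, ← Complex.re_sum]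
          by_cases h3 : w P.asIdeal = 1
          · simp [H, h3, P.isPrime, P.ne_bot]
          simp only [H, h3, and_false, if_false, mul_zero]
          refine mul_nonneg ?_ (M4.NT.euler_nonneg k _ _)
          rw [geom_sum_eq h3]
          by_cases h4 : IsCoprime P.asIdeal (Ideal.span {(f : 𝓞 k)})
          · simp [hpow _ h4]
          · simp [hw.zero _ h4, hl.ne_zero]
      _ ≤ ∑ a ∈ Finset.range l, (C a + if a = 0 then M4.NT.pz k s else 0) := by
          rw [Summable.tsum_finsetSum fun a _ => e3 a]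
          exact Finset.sum_le_sum fun a ha => hC a s h1 h2 (Finset.mem_range.1 ha)
      _ = _ := by simp [Finset.sum_add_distrib, hl.pos]
  have h5 := ((tendsto_const_nhds (x := ∑ a ∈ Finset.range l, C a + D)).div_atTop
    M4.NT.densA_log).const_add 1
  rw [le_div_iff₀' hl0, ← add_zero (1 : ℝ)]
  refine le_of_tendsto_of_tendsto (hlim.const_mul (l : ℝ)) h5 ?_
  filter_upwards [self_mem_nhdsWithin, hD, M4.NT.densA_log.eventually_gt_atTop 0,
    mem_nhdsWithin_of_mem_nhds (Iic_mem_nhds (one_lt_two (α := ℝ)))] with s h1 h2 h3 h4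
  rw [← mul_div_assoc, div_le_iff₀ h3, add_mul, div_mul_cancel₀ _ h3.ne']
  linarith [key s h1 h4]

end Pool.Agent.Lib.MP_830c64_nt.CL
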