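import Pool.Agent.Lib.MP_830c64_nt.CL.UDefs
import Pool.Agent.Lib.MP_33b3f9_ag.M4.NTEuler

/-! Boundedness of an L-series near one, from cancellation in Riesz means. -/

namespace Pool.Agent.Lib.MP_830c64_nt.CL

open NumberField Module MeasureTheory
open scoped Classical

theorem zmel_int (r : ℕ) {s : ℝ} (hs : 1 < s) :
    IntegrableOn (fun u : ℝ => Real.log u ^ r * u ^ (-s - 1)) (Set.Ioi 1) := by
  have ha : (0 : ℝ) < 1 / (r + 1) := by positivity
  refine Integrable.mono' ((integrableOn_Ioi_rpow_of_lt (a := -s) (by linarith) one_pos).const_mul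
    (((r : ℝ) + 1) ^ r)) (Measurable.aestronglyMeasurable (by fun_prop)) ?_
  refine (ae_restrict_iff' measurableSet_Ioi).2 (Filter.Eventually.of_forall fun u hu => ?_)
  have hu1 : (1 : ℝ) < u := hu
  have hu0 : (0 : ℝ) < u := by linarith
  have hl : 0 ≤ Real.log u := Real.log_nonneg hu1.le
  have h1 : Real.log u ^ r ≤ ((r : ℝ) + 1) ^ r * u := by
    have e1 : Real.log u ≤ ((r : ℝ) + 1) * u ^ (1 / ((r : ℝ) + 1)) := by
      have := Real.log_le_rpow_div hu0.le ha
      rwa [div_div_eq_mul_div, div_one, mul_comm] at this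
    refine (pow_le_pow_left₀ hl e1 r).trans ?_
    rw [mul_pow]
    refine mul_le_mul_of_nonneg_left ?_ (by positivity)
    rw [← Real.rpow_natCast, ← Real.rpow_mul hu0.le]
    refine (Real.rpow_le_rpow_of_exponent_le hu1.le (z := 1) ?_).trans (Real.rpow_one u).le
    rw [one_div_mul_eq_div, div_le_one (by positivity)]
    linarith
  rw [Real.norm_of_nonneg (by positivity), Real.rpow_sub_one hu0.ne', ← mul_div_assoc,
    div_le_iff₀ hu0]
  calc Real.log u ^ r * u ^ (-s) ≤ (((r : ℝ) + 1) ^ r * u) * u ^ (-s) :=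
        mul_le_mul_of_nonneg_right h1 (by positivity)
    _ = _ := by ring

/-- `γ s = ∫ u in Ioi 1, log u ^ r * u ^ (-s - 1)`, integrable for `s > 0` since
`log u ≤ u ^ a / a`; substitute `t = m u` (`integral_comp_mul_left_Ioi`); `γ s ≥ γ 2 > 0`
(`setIntegral_pos_iff_support_of_nonneg_ae`). -/
theorem mellin_wt (r : ℕ) : ∃ γ₀ : ℝ, 0 < γ₀ ∧ ∀ s : ℝ, 1 < s → s ≤ 2 → ∃ γ : ℝ, γ₀ ≤ γ ∧
    ∀ m : ℝ, 1 ≤ m → IntegrableOn (fun t => wt r t m * t ^ (-s - 1)) (Set.Ioi 1) ∧
      ∫ t in Set.Ioi (1 : ℝ), wt r t m * t ^ (-s - 1) = γ * m ^ (-s) := by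
  refine ⟨∫ u in Set.Ioi (1 : ℝ), Real.log u ^ r * u ^ (-(2 : ℝ) - 1), ?_, fun s hs hs2 =>
    ⟨∫ u in Set.Ioi (1 : ℝ), Real.log u ^ r * u ^ (-s - 1), ?_, fun m hm => ?_⟩⟩
  · have hp : ∀ u ∈ Set.Ioi (1 : ℝ), 0 < Real.log u ^ r * u ^ (-(2 : ℝ) - 1) := fun u hu =>
      mul_pos (pow_pos (Real.log_pos hu) r) (Real.rpow_pos_of_pos (one_pos.trans hu) _)
    rw [setIntegral_pos_iff_support_of_nonneg_ae ((ae_restrict_iff' measurableSet_Ioi).2
      (Filter.Eventually.of_forall fun u hu => (hp u hu).le)) (zmel_int r one_lt_two)]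
    refine lt_of_lt_of_le ?_ (measure_mono (s := Set.Ioi 1) fun u hu => ⟨(hp u hu).ne', hu⟩)
    simp
  · refine setIntegral_mono_on (zmel_int r one_lt_two) (zmel_int r hs) measurableSet_Ioi
      fun u hu => mul_le_mul_of_nonneg_left
        (Real.rpow_le_rpow_of_exponent_le (le_of_lt hu) (by linarith))
        (pow_nonneg (Real.log_nonneg (le_of_lt hu)) r)
  · have hm0 : (0 : ℝ) < m := by linarith
    set g : ℝ → ℝ := fun t => Real.log (t / m) ^ r * t ^ (-s - 1) with hg
    have e : (fun t => wt r t m * t ^ (-s - 1)) = (Set.Ioi m).indicator g := by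
      funext t
      simp only [wt, Set.indicator, Set.mem_Ioi, hg]
      split_ifs <;> simp
    have e2 : Set.EqOn (fun u => m ^ (-s - 1) * (Real.log u ^ r * u ^ (-s - 1)))
        (fun u => g (m * u)) (Set.Ioi 1) := by
      intro u hu
      have hu0 : (0 : ℝ) < u := one_pos.trans hu
      simp only [hg]
      rw [mul_div_cancel_left₀ _ hm0.ne', Real.mul_rpow hm0.le hu0.le]
      ring
    have hi : IntegrableOn g (Set.Ioi m) := by
      have := (integrableOn_Ioi_comp_mul_left_iff g 1 hm0).1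
        (IntegrableOn.congr_fun ((zmel_int r hs).const_mul (m ^ (-s - 1))) e2 measurableSet_Ioi)
      rwa [mul_one] at this
    rw [e]
    refine ⟨((integrable_indicator_iff measurableSet_Ioi).2 hi).integrableOn, ?_⟩
    have e3 := integral_comp_mul_left_Ioi' g 1 hm0
    rw [mul_one, ← setIntegral_congr_fun measurableSet_Ioi e2, integral_const_mul] at e3
    rw [setIntegral_indicator measurableSet_Ioi, Set.Ioi_inter_Ioi, sup_eq_right.2 hm, ← e3,
      smul_eq_mul, Real.rpow_sub_one hm0.ne']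
    field_simp

theorem zmel_countable (K : Type) [Field K] [NumberField K] : Countable (Ideal (𝓞 K)) := by
  refine Set.countable_univ_iff.1 ?_
  refine (Set.countable_iUnion fun m : ℕ =>
    (Ideal.finite_setOfPred_absNorm_eq (S := 𝓞 K) m).countable).mono fun I _ => ?_
  exact Set.mem_iUnion.2 ⟨_, rfl⟩

theorem zmel_wt_nonneg (r : ℕ) (t : ℝ) {m : ℝ} (hm : 0 < m) : 0 ≤ wt r t m := by
  unfold wt
  split_ifs with h
  · exact pow_nonneg (Real.log_nonneg ((one_le_div hm).2 h.le)) r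
  · exact le_rfl

/-- `hasSum_integral_of_summable_integral_norm` (or `integral_tsum`) over the countable type of
ideals, for the functions `W I * wt r t (N I) * t ^ (-s - 1)` (zero for `I = ⊥`), with
`M4.NT.zt_summable`. For fixed `t` the sum over `I` is the finite sum over `idl K t`, of norm at most
`B t ^ (1 - δ) t ^ (-s - 1) ≤ B t ^ (-1 - δ)`, whose integral is `B / δ`
(`integral_Ioi_rpow_of_lt`). -/
theorem L_bdd {K : Type} [Field K] [NumberField K] (W : Ideal (𝓞 K) → ℂ) (hW : ∀ I, ‖W I‖ ≤ 1)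
    (h0 : W ⊥ = 0) (r : ℕ) {B δ : ℝ} (hδ : 0 < δ) (h : ∀ x : ℝ, 1 ≤ x →
      ‖∑ I ∈ idl K x, W I * (wt r x (Ideal.absNorm I) : ℝ)‖ ≤ B * x ^ (1 - δ)) :
    ∃ C : ℝ, ∀ s : ℝ, 1 < s → s ≤ 2 →
      ‖∑' I : Ideal (𝓞 K), W I * (((Ideal.absNorm I : ℝ) ^ (-s) : ℝ) : ℂ)‖ ≤ C := by
  have := zmel_countable K
  obtain ⟨γ₀, hγ₀, hγ⟩ := mellin_wt r
  have hB : 0 ≤ B := by
    have := (norm_nonneg _).trans (h 1 le_rfl)
    rwa [Real.one_rpow, mul_one] at this
  refine ⟨B / δ / γ₀, fun s hs hs2 => ?_⟩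
  obtain ⟨γ, hle, hm⟩ := hγ s hs hs2
  have hγp : 0 < γ := hγ₀.trans_le hle
  have hN : ∀ I : Ideal (𝓞 K), I ≠ ⊥ → (1 : ℝ) ≤ Ideal.absNorm I := fun I hI => by
    exact_mod_cast Nat.one_le_iff_ne_zero.2 (mt Ideal.absNorm_eq_zero_iff.1 hI)
  set F : Ideal (𝓞 K) → ℝ → ℂ := fun I t =>
    W I * ((wt r t (Ideal.absNorm I) * t ^ (-s - 1) : ℝ) : ℂ) with hF
  have hint : ∀ I, Integrable (F I) (volume.restrict (Set.Ioi 1)) := by
    intro I
    by_cases hI : I = ⊥
    · simp [hF, hI, h0]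
    · exact ((hm _ (hN I hI)).1.ofReal).const_mul _
  have hval : ∀ I, ∫ t in Set.Ioi (1 : ℝ), F I t =
      (γ : ℂ) * (W I * (((Ideal.absNorm I : ℝ) ^ (-s) : ℝ) : ℂ)) := by
    intro I
    by_cases hI : I = ⊥
    · simp [hF, hI, h0]
    · simp only [hF]
      rw [integral_const_mul, integral_complex_ofReal, (hm _ (hN I hI)).2]
      push_cast
      ring
  have hsum : Summable fun I => ∫ t in Set.Ioi (1 : ℝ), ‖F I t‖ := by
    refine Summable.of_nonneg_of_le (fun I => integral_nonneg fun t => norm_nonneg _)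
      (fun I => ?_) ((M4.NT.zt_summable K hs).mul_left γ)
    by_cases hI : I = ⊥
    · simp only [hF, hI, h0, zero_mul, norm_zero, integral_zero]
      positivity
    · rw [← (hm _ (hN I hI)).2]
      refine setIntegral_mono_on (hint I).norm (hm _ (hN I hI)).1 measurableSet_Ioi fun t ht => ?_
      have hn : 0 ≤ wt r t (Ideal.absNorm I) * t ^ (-s - 1) :=
        mul_nonneg (zmel_wt_nonneg r t (one_pos.trans_le (hN I hI)))
          (Real.rpow_nonneg (one_pos.trans ht).le _)
      simp only [hF]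
      rw [norm_mul, Complex.norm_real, Real.norm_of_nonneg hn]
      exact mul_le_of_le_one_left hn (hW I)
  have key := integral_tsum_of_summable_integral_norm hint hsum
  simp only [hval] at key
  rw [tsum_mul_left] at key
  have hb : ‖∫ t in Set.Ioi (1 : ℝ), ∑' I, F I t‖ ≤ B / δ := by
    have e : ∫ t in Set.Ioi (1 : ℝ), B * t ^ (-1 - δ) = B / δ := by
      rw [integral_const_mul, integral_Ioi_rpow_of_lt (by linarith) one_pos, Real.one_rpow,
        show -1 - δ + 1 = -δ by ring, neg_div_neg_eq, mul_one_div]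
    rw [← e]
    refine norm_integral_le_of_norm_le
      ((integrableOn_Ioi_rpow_of_lt (by linarith) one_pos).const_mul B) ?_
    refine (ae_restrict_iff' measurableSet_Ioi).2 (Filter.Eventually.of_forall fun t ht => ?_)
    have ht1 : (1 : ℝ) < t := ht
    have ht0 : (0 : ℝ) < t := by linarith
    have e1 : ∑' I, F I t = (∑ I ∈ idl K t, W I * (wt r t (Ideal.absNorm I) : ℝ)) *
        ((t ^ (-s - 1) : ℝ) : ℂ) := by
      rw [tsum_eq_sum (s := idl K t), Finset.sum_mul]
      · refine Finset.sum_congr rfl fun I _ => ?_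
        simp only [hF]
        push_cast
        ring
      · intro I hI
        rw [mem_idl ht0.le, not_and_or, not_not, not_le] at hI
        rcases hI with hI | hI
        · simp [hF, hI, h0]
        · simp [hF, wt, hI.le.not_gt]
    rw [e1, norm_mul, Complex.norm_real, Real.norm_of_nonneg (Real.rpow_nonneg ht0.le _)]
    refine (mul_le_mul_of_nonneg_right (h t ht1.le) (Real.rpow_nonneg ht0.le _)).trans ?_
    rw [mul_assoc, ← Real.rpow_add ht0]
    exact mul_le_mul_of_nonneg_left (Real.rpow_le_rpow_of_exponent_le ht1.le (by linarith)) hB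
  rw [← key, norm_mul, Complex.norm_real, Real.norm_of_nonneg hγp.le] at hb
  rw [le_div_iff₀ hγ₀, mul_comm]
  exact (mul_le_mul_of_nonneg_right hle (norm_nonneg _)).trans hb

end Pool.Agent.Lib.MP_830c64_nt.CL
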